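import Pool.Agent.H27.LZ.Bdd

/-!
# Limits of powers of a hyperbolic element

`pow_lim`: `Hyp.pow_dec` multiplied by `(l⁻¹) ^ n`: the three terms tend to `(B z y / B x y) x`, `0`, `0`
(`(l⁻¹) ^ n * l ^ n = 1`, `(l⁻¹) ^ n → 0`, and `‖(w ^ n) (aU x y z)‖ ≤ C ‖aU x y z‖` by `Hyp.pow_bdd`).
`ipow_lim`: apply `pow_lim` to `h.inv`, with `(w ^ n)⁻¹ = (w⁻¹) ^ n` and `B y x = B x y`.
`pow_dir`: `c n = (l⁻¹) ^ n * (B x y / B z y)`.  `ipow_dir`: `c n = (l⁻¹) ^ n * (B x y / B z x)`.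
-/

set_option autoImplicit false

namespace Pool.Agent.H27.LZ

open Filter Topology

variable {E : Type*} [NormedAddCommGroup E] [NormedSpace ℝ E] [FiniteDimensional ℝ E]
  {S : Sys E} {w : E ≃ₗ[ℝ] E} {x y : E} {l : ℝ}

private lemma powL_aux {w : E ≃ₗ[ℝ] E} {x y : E} {l : ℝ} (h : Hyp S w x y l) (v : ℕ → E) (a b : ℝ) (u : E)
    (C : ℝ) (p : ℕ → E) (hp : ∀ n, ‖p n‖ ≤ C * ‖u‖)
    (hv : ∀ n, v n = (a * l ^ n) • x + (b * (l⁻¹) ^ n) • y + p n) :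
    Tendsto (fun n : ℕ => (l⁻¹) ^ n • v n) atTop (𝓝 (a • x)) := by
  have hl := h.one_lt
  have hl0 : 0 < l := by linarith
  have hlne : l ≠ 0 := hl0.ne'
  have hi0 : 0 ≤ l⁻¹ := (inv_pos.mpr hl0).le
  have hi1 : l⁻¹ < 1 := inv_lt_one_of_one_lt₀ hl
  have hz : Tendsto (fun n : ℕ => (l⁻¹) ^ n) atTop (𝓝 0) := tendsto_pow_atTop_nhds_zero_of_lt_one hi0 hi1
  have h1 : (fun n : ℕ => (l⁻¹) ^ n • v n)
      = fun n : ℕ => a • x + ((b * ((l⁻¹) ^ n * (l⁻¹) ^ n)) • y + (l⁻¹) ^ n • p n) := by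
    funext n
    have h2 : (l⁻¹) ^ n * l ^ n = 1 := by
      rw [← mul_pow, inv_mul_cancel₀ hlne, one_pow]
    rw [hv n, smul_add, smul_add, smul_smul, smul_smul, add_assoc]
    have h3 : (l⁻¹) ^ n * (a * l ^ n) = a := by
      calc (l⁻¹) ^ n * (a * l ^ n) = a * ((l⁻¹) ^ n * l ^ n) := by ring
        _ = a := by rw [h2, mul_one]
    have h4 : (l⁻¹) ^ n * (b * (l⁻¹) ^ n) = b * ((l⁻¹) ^ n * (l⁻¹) ^ n) := by ring
    rw [h3, h4]
  rw [h1]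
  have h5 : Tendsto (fun n : ℕ => (b * ((l⁻¹) ^ n * (l⁻¹) ^ n)) • y) atTop (𝓝 0) := by
    have h6 : Tendsto (fun n : ℕ => b * ((l⁻¹) ^ n * (l⁻¹) ^ n)) atTop (𝓝 (b * (0 * 0))) :=
      tendsto_const_nhds.mul (hz.mul hz)
    have h7 := h6.smul_const y
    rwa [mul_zero, mul_zero, zero_smul] at h7
  have h8 : Tendsto (fun n : ℕ => (l⁻¹) ^ n • p n) atTop (𝓝 0) := by
    apply squeeze_zero_norm (a := fun n : ℕ => (l⁻¹) ^ n * (C * ‖u‖))
    · intro n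
      rw [norm_smul, Real.norm_eq_abs, abs_of_nonneg (pow_nonneg hi0 n)]
      exact mul_le_mul_of_nonneg_left (hp n) (pow_nonneg hi0 n)
    · have h9 := hz.mul_const (C * ‖u‖)
      rwa [zero_mul] at h9
  have h10 := (tendsto_const_nhds (x := a • x)).add (h5.add h8)
  rwa [add_zero, add_zero] at h10

lemma Hyp.pow_lim (h : Hyp S w x y l) (z : E) :
    Tendsto (fun n : ℕ => (l⁻¹) ^ n • (w ^ n) z) atTop (𝓝 ((S.B z y / S.B x y) • x)) := by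
  obtain ⟨C, hC, hCu⟩ := h.pow_bdd
  exact powL_aux h (fun n => (w ^ n) z) _ _ (aU S x y z) C (fun n => (w ^ n) (aU S x y z))
    (fun n => (hCu _ (aU_x h.xx h.yy h.xy z) (aU_y h.xx h.yy h.xy z) n).1) (fun n => h.pow_dec n z)

lemma Hyp.ipow_lim (h : Hyp S w x y l) (z : E) :
    Tendsto (fun n : ℕ => (l⁻¹) ^ n • (w ^ n)⁻¹ z) atTop (𝓝 ((S.B z x / S.B x y) • y)) := by
  have h1 := h.inv.pow_lim z
  have h2 : ∀ n : ℕ, (w⁻¹) ^ n = (w ^ n)⁻¹ := fun n => inv_pow w n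
  simp only [h2] at h1
  rwa [S.symm y x] at h1

/-- suitable multiples of `w^n z` tend to `x` -/
lemma Hyp.pow_dir (h : Hyp S w x y l) {z : E} (hz : S.B z y ≠ 0) :
    ∃ c : ℕ → ℝ, (∀ n, c n ≠ 0) ∧ Tendsto (fun n => c n • (w ^ n) z) atTop (𝓝 x) := by
  have hl0 : l ≠ 0 := by
    have := h.one_lt
    linarith
  refine ⟨fun n => (S.B x y / S.B z y) * (l⁻¹) ^ n, ?_, ?_⟩
  · intro n
    exact mul_ne_zero (div_ne_zero h.xy hz) (pow_ne_zero _ (inv_ne_zero hl0))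
  · have h1 := (h.pow_lim z).const_smul (S.B x y / S.B z y)
    have h2 : (S.B x y / S.B z y) • ((S.B z y / S.B x y) • x) = x := by
      have h3 := h.xy
      rw [smul_smul, div_mul_div_comm, mul_comm (S.B x y), div_self (mul_ne_zero hz h3), one_smul]
    rw [h2] at h1
    simp only [smul_smul] at h1
    exact h1

lemma Hyp.ipow_dir (h : Hyp S w x y l) {z : E} (hz : S.B z x ≠ 0) :
    ∃ c : ℕ → ℝ, (∀ n, c n ≠ 0) ∧ Tendsto (fun n => c n • (w ^ n)⁻¹ z) atTop (𝓝 y) := by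
  have hl0 : l ≠ 0 := by
    have := h.one_lt
    linarith
  refine ⟨fun n => (S.B x y / S.B z x) * (l⁻¹) ^ n, ?_, ?_⟩
  · intro n
    exact mul_ne_zero (div_ne_zero h.xy hz) (pow_ne_zero _ (inv_ne_zero hl0))
  · have h1 := (h.ipow_lim z).const_smul (S.B x y / S.B z x)
    have h2 : (S.B x y / S.B z x) • ((S.B z x / S.B x y) • y) = y := by
      have h3 := h.xy
      rw [smul_smul, div_mul_div_comm, mul_comm (S.B x y), div_self (mul_ne_zero hz h3), one_smul]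
    rw [h2] at h1
    simp only [smul_smul] at h1
    exact h1

end Pool.Agent.H27.LZ
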