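import Pool.Agent.H27.LZ.Rec
import Pool.Agent.H27.LZ.PowL

/-!
# Unimodular vectors are limit vectors

`p = y + v`.  With `N` of `Hyp.recur`: `(w ^ N j) p = (l⁻¹) ^ N j • y + (w ^ N j) v → v`, and
`B ((w ^ N j) p) x = (l⁻¹) ^ N j * B y x + B v ((w ^ N j)⁻¹ x) ≠ 0` (the second term is
`(l⁻¹) ^ N j * B v x = 0`), whereas `B (c • v) x = 0`.
-/

set_option autoImplicit false

namespace Pool.Agent.H27.LZ

open Filter Topology

variable {E : Type*} [NormedAddCommGroup E] [NormedSpace ℝ E] [FiniteDimensional ℝ E]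
  {S : Sys E} {w : E ≃ₗ[ℝ] E} {x y : E} {l : ℝ}

lemma easy (h : Hyp S w x y l) {v : E} (hvx : S.B v x = 0) (hvy : S.B v y = 0) :
    ∃ p : E, ∀ ε > 0, ∃ g ∈ S.G, ‖g p - v‖ < ε ∧ ∀ c : ℝ, g p ≠ c • v := by
  obtain ⟨N, hN, hlim⟩ := h.recur
  have hl := h.one_lt
  have hl0 : 0 < l := by linarith
  have hi0 : 0 ≤ l⁻¹ := (inv_pos.mpr hl0).le
  have hi1 : l⁻¹ < 1 := inv_lt_one_of_one_lt₀ hl
  have hz : Tendsto (fun j : ℕ => (l⁻¹) ^ N j) atTop (𝓝 0) :=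
    (tendsto_pow_atTop_nhds_zero_of_lt_one hi0 hi1).comp hN.tendsto_atTop
  refine ⟨y + v, fun ε hε => ?_⟩
  have h1 : Tendsto (fun j => (w ^ N j) (y + v)) atTop (𝓝 v) := by
    have h2 := (hz.smul_const y).add (hlim v hvx hvy).1
    rw [zero_smul, zero_add] at h2
    refine h2.congr fun j => ?_
    rw [map_add, h.pow_y]
  rw [tendsto_iff_norm_sub_tendsto_zero] at h1
  obtain ⟨j, hj⟩ := (h1.eventually (gt_mem_nhds hε)).exists
  refine ⟨w ^ N j, S.G.pow_mem h.mem _, hj, fun c hc => ?_⟩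
  have h3 := congrArg (fun t => S.B t x) hc
  simp only [map_add, LinearMap.add_apply, map_smul, LinearMap.smul_apply, smul_eq_mul] at h3
  rw [h.pow_y, (h.pow_orth (N j) hvx hvy).1, hvx, mul_zero, add_zero, map_smul,
    LinearMap.smul_apply, smul_eq_mul, S.symm y x] at h3
  exact mul_ne_zero (pow_ne_zero _ (inv_ne_zero hl0.ne')) h.xy h3

end Pool.Agent.H27.LZ
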