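import Pool.Agent.H27.LZ.LSpan

/-!
# The system restricted to the span of an orbit

`resG S L`: the subgroup of the `g' : L ≃ L` which are restrictions of elements of `G`.
`res S L hnd`: the restricted system.
`res_of`: for `g ∈ G` and invariant `L` there is the restriction (`LinearEquiv.ofSubmodules`, or
`LinearEquiv.ofLinear` of `LinearMap.restrict` for `g` and `g⁻¹`).
`hyp_res`: from `res_of`.  `hyp_of_res`: by definition of `resG`.
`res_full`: for `x ∈ F (res …)`, `(x : E) ∈ F S` (`hyp_of_res`), so `orbSpan S x = orbSpan S x0 = L` (`orb_eq`);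
the span of `{z : L | ∃ g ∈ resG, z = g x}` maps onto `orbSpan S x` under `L.subtype`
(`Submodule.map_span`, `res_of`), hence it is `⊤` (`Submodule.map_injective_of_injective` …).
-/

set_option autoImplicit false

namespace Pool.Agent.H27.LZ

variable {E : Type*} [NormedAddCommGroup E] [NormedSpace ℝ E]

/-- the restrictions of the elements of the group to `L` -/
def resG (S : Sys E) (L : Submodule ℝ E) : Subgroup (L ≃ₗ[ℝ] L) where
  carrier := {g' | ∃ g ∈ S.G, ∀ z : L, (g' z : E) = g z}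
  mul_mem' := by
    rintro a b ⟨g, hg, h1⟩ ⟨k, hk, h2⟩
    refine ⟨g * k, mul_mem hg hk, fun z => ?_⟩
    rw [LinearEquiv.mul_apply, LinearEquiv.mul_apply, h1, h2]
  one_mem' := ⟨1, one_mem _, fun z => rfl⟩
  inv_mem' := by
    rintro a ⟨g, hg, h1⟩
    refine ⟨g⁻¹, inv_mem hg, fun z => ?_⟩
    have h2 := h1 (a⁻¹ z)
    have h3 : a (a⁻¹ z) = z := by
      rw [← LinearEquiv.mul_apply, mul_inv_cancel]; rfl
    rw [h3] at h2
    rw [h2, ← LinearEquiv.mul_apply, inv_mul_cancel]; rfl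

/-- the restricted system -/
noncomputable def res (S : Sys E) (L : Submodule ℝ E)
    (hnd : ∀ u ∈ L, (∀ z ∈ L, S.B u z = 0) → u = 0) : Sys L where
  B := S.B.restrict L
  symm := fun u v => S.symm u v
  nondeg := fun u hu => Subtype.ext (hnd u u.2 (fun z hz => hu ⟨z, hz⟩))
  lor := by
    intro a b hab
    have h1 : LinearIndependent ℝ ![(a : E), (b : E)] := by
      have h2 := hab.map' L.subtype (Submodule.ker_subtype L)
      have h3 : (L.subtype : L → E) ∘ ![a, b] = ![(a : E), (b : E)] := by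
        ext i; fin_cases i <;> rfl
      rwa [h3] at h2
    exact S.lor a b h1
  G := resG S L
  iso := by
    rintro g ⟨k, hk, h1⟩ u v
    change S.B (g u : E) (g v : E) = S.B u v
    rw [h1, h1]
    exact S.iso k hk u v

variable {S : Sys E} {L : Submodule ℝ E} {hnd : ∀ u ∈ L, (∀ z ∈ L, S.B u z = 0) → u = 0}

lemma res_B (u v : L) : (res S L hnd).B u v = S.B (u : E) (v : E) := rfl

lemma res_of (hinv : ∀ g ∈ S.G, ∀ z ∈ L, g z ∈ L) {g : E ≃ₗ[ℝ] E} (hg : g ∈ S.G) :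
    ∃ g' ∈ (res S L hnd).G, ∀ z : L, (g' z : E) = g z := by
  let g' : L ≃ₗ[ℝ] L :=
    { toFun := fun z => ⟨g z, hinv g hg z z.2⟩
      invFun := fun z => ⟨g⁻¹ z, hinv g⁻¹ (inv_mem hg) z z.2⟩
      map_add' := fun a b => Subtype.ext (map_add g _ _)
      map_smul' := fun c a => Subtype.ext (map_smul g _ _)
      left_inv := fun z => Subtype.ext (by
        change g⁻¹ (g (z : E)) = z
        rw [← LinearEquiv.mul_apply, inv_mul_cancel]; rfl)
      right_inv := fun z => Subtype.ext (by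
        change g (g⁻¹ (z : E)) = z
        rw [← LinearEquiv.mul_apply, mul_inv_cancel]; rfl) }
  exact ⟨g', ⟨g, hg, fun z => rfl⟩, fun z => rfl⟩

lemma hyp_res (hinv : ∀ g ∈ S.G, ∀ z ∈ L, g z ∈ L) {w : E ≃ₗ[ℝ] E} {x y : E} {l : ℝ}
    (h : Hyp S w x y l) (hx : x ∈ L) (hy : y ∈ L) :
    ∃ w', Hyp (res S L hnd) w' (⟨x, hx⟩ : L) ⟨y, hy⟩ l := by
  obtain ⟨w', hw', h1⟩ := res_of (hnd := hnd) hinv h.mem
  refine ⟨w', hw', h.one_lt, fun h2 => h.x_ne (congrArg Subtype.val h2),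
    fun h2 => h.y_ne (congrArg Subtype.val h2), Subtype.ext ?_, Subtype.ext ?_⟩
  · rw [h1]; exact h.wx
  · rw [h1]; exact h.wy

lemma hyp_of_res {w' : L ≃ₗ[ℝ] L} {x y : L} {l : ℝ} (h : Hyp (res S L hnd) w' x y l) :
    ∃ w, Hyp S w (x : E) (y : E) l := by
  obtain ⟨w, hw, h1⟩ := h.mem
  refine ⟨w, hw, h.one_lt, fun h2 => h.x_ne (Subtype.ext h2), fun h2 => h.y_ne (Subtype.ext h2),
    ?_, ?_⟩
  · rw [← h1, h.wx]; rfl
  · rw [← h1, h.wy]; rfl

lemma res_full [FiniteDimensional ℝ E] (hL : NoLine S) {x0 : E} (hx0 : x0 ∈ F S)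
    {hnd : ∀ u ∈ orbSpan S x0, (∀ z ∈ orbSpan S x0, S.B u z = 0) → u = 0} :
    Full (res S (orbSpan S x0) hnd) := by
  intro x hx
  have hinv : ∀ g ∈ S.G, ∀ z ∈ orbSpan S x0, g z ∈ orbSpan S x0 := fun g hg z hz => orb_inv hg hz
  have hxF : (x : E) ∈ F S := by
    obtain ⟨w', y, l, h⟩ := hx
    obtain ⟨w, hw⟩ := hyp_of_res h
    exact ⟨w, y, l, hw⟩
  apply Submodule.map_injective_of_injective (Submodule.injective_subtype (orbSpan S x0))
  have himg : (orbSpan S x0).subtype '' {z | ∃ g ∈ (res S (orbSpan S x0) hnd).G, z = g x} =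
      {z | ∃ g ∈ S.G, z = g (x : E)} := by
    ext z
    constructor
    · rintro ⟨u, ⟨g', ⟨g, hg, h1⟩, rfl⟩, rfl⟩
      exact ⟨g, hg, h1 x⟩
    · rintro ⟨g, hg, rfl⟩
      obtain ⟨g', hg', h1⟩ := res_of (hnd := hnd) hinv hg
      exact ⟨g' x, ⟨g', hg', rfl⟩, h1 x⟩
  rw [Submodule.map_span, himg, Submodule.map_top, Submodule.range_subtype]
  exact orb_eq hL hx0 hxF

end Pool.Agent.H27.LZ
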