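import Pool.Agent.H27.LZ.Bdd

/-!
# A light-like limit of unimodular vectors is a limit of fixed vectors

For `ε = 1 / (n + 1)` get `Hyp S (w n) (x n) (y n) (l n)`, `u n → v`, `B (u n) (x n) = 0`.  The vectors
`x n / ‖x n‖` are in the unit sphere (compact); for a subsequence they tend to some `x` with `‖x‖ = 1`.
`B v x = 0` and `B x x = 0` by continuity, so `x = c v` (`light_prop`), `c ≠ 0`; then
`c⁻¹ • (x n / ‖x n‖) → v` and these vectors are in `F S` (`F_smul`).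
-/

set_option autoImplicit false

namespace Pool.Agent.H27.LZ

open Filter Topology

variable {E : Type*} [NormedAddCommGroup E] [NormedSpace ℝ E] [FiniteDimensional ℝ E]
  {S : Sys E}

lemma light_lim {v : E} (hv : S.B v v = 0) (hv0 : v ≠ 0)
    (hlim : ∀ ε > 0, ∃ (w : E ≃ₗ[ℝ] E) (x y : E) (l : ℝ) (u : E), Hyp S w x y l ∧
      S.B u x = 0 ∧ S.B u y = 0 ∧ ‖u - v‖ < ε) : ∀ ε > 0, ∃ z ∈ F S, ‖z - v‖ < ε := by
  have h1 : ∀ n : ℕ, ∃ (z u : E), z ∈ F S ∧ z ∈ Metric.sphere (0 : E) 1 ∧ S.B u z = 0 ∧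
      ‖u - v‖ < 1 / ((n : ℝ) + 1) := by
    intro n
    obtain ⟨w, x, y, l, u, hh, hux, -, huv⟩ := hlim (1 / ((n : ℝ) + 1)) (by positivity)
    have hx0 : ‖x‖ ≠ 0 := norm_ne_zero_iff.2 hh.x_ne
    refine ⟨‖x‖⁻¹ • x, u, F_smul hh.x_mem (inv_ne_zero hx0), ?_, ?_, huv⟩
    · rw [mem_sphere_zero_iff_norm, norm_smul, norm_inv, norm_norm, inv_mul_cancel₀ hx0]
    · rw [map_smul, hux, smul_zero]
  choose z u hzF hzs huz huv using h1
  obtain ⟨x0, hx0, φ, hφ, hlimz⟩ := (isCompact_sphere (0 : E) 1).tendsto_subseq hzs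
  have hu : Tendsto u atTop (𝓝 v) := by
    rw [tendsto_iff_norm_sub_tendsto_zero]
    exact squeeze_zero (fun n => norm_nonneg _) (fun n => (huv n).le)
      tendsto_one_div_add_atTop_nhds_zero_nat
  have huφ : Tendsto (u ∘ φ) atTop (𝓝 v) := hu.comp hφ.tendsto_atTop
  have hB1 : S.B v x0 = 0 := by
    have h := B_tendsto (S := S) huφ hlimz
    have h' : (fun i => S.B ((u ∘ φ) i) ((z ∘ φ) i)) = fun _ => (0 : ℝ) := by
      funext i
      exact huz (φ i)
    rw [h'] at h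
    exact tendsto_nhds_unique h tendsto_const_nhds
  have hB2 : S.B x0 x0 = 0 := by
    have h := B_tendsto (S := S) hlimz hlimz
    have h' : (fun i => S.B ((z ∘ φ) i) ((z ∘ φ) i)) = fun _ => (0 : ℝ) := by
      funext i
      exact F_light (hzF (φ i))
    rw [h'] at h
    exact tendsto_nhds_unique h tendsto_const_nhds
  obtain ⟨c, hc⟩ := light_prop hv hB2 hB1 hv0
  have hx0' : x0 ≠ 0 := by
    rintro rfl
    simp at hx0
  have hc0 : c ≠ 0 := by
    rintro rfl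
    exact hx0' (by rw [hc, zero_smul])
  have hl : Tendsto (fun n => c⁻¹ • (z ∘ φ) n) atTop (𝓝 v) := by
    have h := hlimz.const_smul c⁻¹
    rwa [hc, smul_smul, inv_mul_cancel₀ hc0, one_smul] at h
  intro ε hε
  rw [tendsto_iff_norm_sub_tendsto_zero] at hl
  obtain ⟨n, hn⟩ := (hl.eventually (gt_mem_nhds hε)).exists
  exact ⟨c⁻¹ • (z ∘ φ) n, F_smul (hzF (φ n)) (inv_ne_zero hc0), hn⟩

end Pool.Agent.H27.LZ
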