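import Pool.Agent.H27.LZ.PowL

/-!
# Moving small multiples

`Hyp S w0 x0 y0 l`.  `q = c • h x0`, `T = τ • h' x0` with `B (h' x0) (h y0) ≠ 0`.
Let `w = h w0 h⁻¹` (`Hyp.conj`: axis `(h x0, h y0)`), `α = B T (h y0) / B (h x0) (h y0) ≠ 0`.  By `Hyp.pow_lim`,
`m n = (c / α) • (l⁻¹) ^ n • (w ^ n) T → c • h x0 = q`.  `m n = (c τ / (α l ^ n)) • (w ^ n * h') x0` is a nonzero
multiple of a vector of the orbit of `x0`.  Let `g₁ = (w ^ n)⁻¹`: `g₁ (m n) = (c / (α l ^ n)) • T`.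
Let `w' = h' w0 h'⁻¹`, `w' T = l T`, so `(w' ^ (n + i)) (g₁ (m n)) = (c l ^ i / α) • T` for every integer `i`
(`zpow`, or treat `i ≥ 0`, `i < 0` separately); choose the integer `i` with `1 ≤ |c / α| l ^ i < l`
(`exists_mem_Ico_zpow` for `|c / α|⁻¹`, or `Int.floor` of a logarithm).
-/

set_option autoImplicit false

namespace Pool.Agent.H27.LZ

open Filter Topology

variable {E : Type*} [NormedAddCommGroup E] [NormedSpace ℝ E] [FiniteDimensional ℝ E]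
  {S : Sys E} {w0 : E ≃ₗ[ℝ] E} {x0 y0 : E} {l : ℝ}

omit [FiniteDimensional ℝ E] in
private lemma zpow_x {w : E ≃ₗ[ℝ] E} {x y : E} (h : Hyp S w x y l) (i : ℤ) :
    (w ^ i) x = l ^ i • x := by
  obtain ⟨n, rfl | rfl⟩ := i.eq_nat_or_neg
  · rw [zpow_natCast, zpow_natCast]; exact h.pow_x n
  · rw [zpow_neg, zpow_natCast, zpow_neg, zpow_natCast, h.ipow_x n, inv_pow]

lemma chainB (h0 : Hyp S w0 x0 y0 l) {h h' : E ≃ₗ[ℝ] E} (hh : h ∈ S.G) (hh' : h' ∈ S.G)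
    (hne : S.B (h' x0) (h y0) ≠ 0) {c τ : ℝ} (hc : c ≠ 0) (hτ : τ ≠ 0) {ε : ℝ} (hε : 0 < ε) :
    ∃ (c1 : ℝ) (h1 g : E ≃ₗ[ℝ] E) (b : ℝ), c1 ≠ 0 ∧ h1 ∈ S.G ∧ g ∈ S.G ∧
      ‖c1 • h1 x0 - c • h x0‖ < ε ∧ 1 ≤ |b| ∧ |b| ≤ l ∧
      g (c1 • h1 x0) = b • (τ • h' x0) := by
  have hw := h0.conj hh
  have hw' := h0.conj hh'
  set w := h * w0 * h⁻¹ with hwdef
  set w' := h' * w0 * h'⁻¹ with hwdef'
  have hl0 : 0 < l := lt_trans one_pos h0.one_lt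
  have hxy := hw.xy
  set α := S.B (τ • h' x0) (h y0) / S.B (h x0) (h y0) with hα
  have hα0 : α ≠ 0 := by
    rw [hα]
    refine div_ne_zero ?_ hxy
    rw [map_smul, LinearMap.smul_apply, smul_eq_mul]
    exact mul_ne_zero hτ hne
  have h1 : Tendsto (fun n : ℕ => (c / α) • ((l⁻¹) ^ n • (w ^ n) (τ • h' x0))) atTop
      (𝓝 ((c / α) • (α • h x0))) := (hw.pow_lim (τ • h' x0)).const_smul (c / α)
  rw [smul_smul, div_mul_cancel₀ _ hα0] at h1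
  obtain ⟨n, hn⟩ := ((Metric.tendsto_nhds.1 h1) ε hε).exists
  rw [dist_eq_norm] at hn
  have hβ0 : c / α * (l⁻¹) ^ n ≠ 0 :=
    mul_ne_zero (div_ne_zero hc hα0) (pow_ne_zero _ (inv_ne_zero hl0.ne'))
  obtain ⟨k, hk1, hk2⟩ := exists_mem_Ico_zpow (abs_pos.2 hβ0) h0.one_lt
  have hm : (c / α * (l⁻¹) ^ n * τ) • (w ^ n * h') x0 =
      (c / α) • ((l⁻¹) ^ n • (w ^ n) (τ • h' x0)) := by
    rw [LinearEquiv.mul_apply, map_smul, smul_smul, smul_smul]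
  refine ⟨c / α * (l⁻¹) ^ n * τ, w ^ n * h', w' ^ (-k) * (w ^ n)⁻¹, c / α * (l⁻¹) ^ n * l ^ (-k),
    mul_ne_zero hβ0 hτ, mul_mem (pow_mem hw.mem n) hh',
    mul_mem (zpow_mem hw'.mem _) (inv_mem (pow_mem hw.mem n)), ?_, ?_, ?_, ?_⟩
  · rw [hm]; exact hn
  · rw [abs_mul, abs_of_pos (zpow_pos hl0 _), zpow_neg, ← div_eq_mul_inv,
      le_div_iff₀ (zpow_pos hl0 _), one_mul]
    exact hk1
  · rw [abs_mul, abs_of_pos (zpow_pos hl0 _), zpow_neg, ← div_eq_mul_inv,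
      div_le_iff₀ (zpow_pos hl0 _)]
    refine hk2.le.trans (le_of_eq ?_)
    rw [zpow_add₀ hl0.ne', zpow_one, mul_comm]
  · have h2 : (w ^ n)⁻¹ ((w ^ n) (τ • h' x0)) = τ • h' x0 := by
      rw [← LinearEquiv.mul_apply, inv_mul_cancel]; rfl
    rw [hm, LinearEquiv.mul_apply, map_smul (w ^ n)⁻¹, map_smul (w ^ n)⁻¹, h2, map_smul, map_smul,
      map_smul, zpow_x hw' (-k)]
    simp only [smul_smul]
    congr 1
    ring

end Pool.Agent.H27.LZ
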