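import Pool.Agent.H27.LZ.Bdd

/-!
# Baire

`nest`: `X' = closure C` is a complete space (`isClosed_closure.completeSpace_coe`) so a Baire space,
nonempty; `U k = {p : X' | (p : X) ∈ A k}` is open, and dense (a point of `X'` is near to some `q ∈ C`, which
is near to some `m ∈ C ∩ A k`).  `dense_iInter_of_isOpen_nat`, `Dense.nonempty`.
`nest_grp`: `A k = {p | ∃ g ∈ G, g p ∈ O k} = ⋃ g ∈ G, g ⁻¹' O k` is open (`g` is continuous in finite
dimension: `LinearMap.continuous_of_finiteDimensional`).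
-/

set_option autoImplicit false

namespace Pool.Agent.H27.LZ

open Filter Topology

lemma nest {X : Type*} [MetricSpace X] [CompleteSpace X] {C : Set X} (hC : C.Nonempty)
    {A : ℕ → Set X} (hA : ∀ k, IsOpen (A k))
    (hd : ∀ k, ∀ q ∈ C, ∀ ε > 0, ∃ m ∈ C, m ∈ A k ∧ dist m q < ε) : ∃ p, ∀ k, p ∈ A k := by
  haveI : CompleteSpace (closure C) := isClosed_closure.completeSpace_coe
  haveI : Nonempty (closure C) := hC.closure.to_subtype
  have h1 : ∀ k, IsOpen ((↑) ⁻¹' A k : Set (closure C)) := fun k =>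
    (hA k).preimage continuous_subtype_val
  have h2 : ∀ k, Dense ((↑) ⁻¹' A k : Set (closure C)) := by
    intro k
    rw [Metric.dense_iff]
    intro x r hr
    obtain ⟨q, hq, hqx⟩ := Metric.mem_closure_iff.1 x.2 (r / 2) (half_pos hr)
    obtain ⟨m, hm, hmA, hmq⟩ := hd k q hq (r / 2) (half_pos hr)
    refine ⟨⟨m, subset_closure hm⟩, ?_, hmA⟩
    rw [Metric.mem_ball, Subtype.dist_eq]
    calc dist m x ≤ dist m q + dist q x := dist_triangle _ _ _
      _ < r / 2 + r / 2 := add_lt_add hmq (by rwa [dist_comm])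
      _ = r := by ring
  obtain ⟨p, hp⟩ := (dense_iInter_of_isOpen_nat h1 h2).nonempty
  exact ⟨p, fun k => Set.mem_iInter.1 hp k⟩

variable {E : Type*} [NormedAddCommGroup E] [NormedSpace ℝ E] [FiniteDimensional ℝ E]

lemma nest_grp (S : Sys E) {C : Set E} (hC : C.Nonempty) {O : ℕ → Set E}
    (hO : ∀ k, IsOpen (O k)) (hd : ∀ k, ∀ q ∈ C, ∀ ε > 0, ∃ m ∈ C, ‖m - q‖ < ε ∧
      ∃ g ∈ S.G, g m ∈ O k) : ∃ p, ∀ k, ∃ g ∈ S.G, g p ∈ O k := by
  haveI : CompleteSpace E := FiniteDimensional.complete ℝ E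
  have hA : ∀ k, IsOpen {p : E | ∃ g ∈ S.G, g p ∈ O k} := by
    intro k
    have h1 : {p : E | ∃ g ∈ S.G, g p ∈ O k}
        = ⋃ g ∈ S.G, (fun p => g p) ⁻¹' O k := by
      ext p
      simp
    rw [h1]
    exact isOpen_biUnion fun g _ => (hO k).preimage
      (LinearMap.continuous_of_finiteDimensional (g : E →ₗ[ℝ] E))
  obtain ⟨p, hp⟩ := nest (A := fun k => {p : E | ∃ g ∈ S.G, g p ∈ O k}) hC hA (by
    intro k q hq ε hε
    obtain ⟨m, hm, h1, h2⟩ := hd k q hq ε hε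
    exact ⟨m, hm, h2, by rwa [dist_eq_norm]⟩)
  exact ⟨p, hp⟩

end Pool.Agent.H27.LZ
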