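import Pool.Agent.H27.LZ.DirB
import Pool.Agent.H27.LZ.ChainB
import Pool.Agent.H27.LZ.Nest

/-!
# Light-like vectors

`F` is nonempty (`hlim`), so take `Hyp S w0 x0 y0 l` (for `z ∈ F`, `x0 = z`).
`C = {q | ∃ c ≠ 0, ∃ h ∈ G, q = c • h x0}` (nonempty), and
`O k = {m | (∃ b, 1 ≤ |b| ∧ |b| ≤ l ∧ ‖m - b • v‖ < 1 / (k + 1)) ∧ ∀ d, m ≠ d • v}`, open (a union of balls,
minus a closed line).
`nest_grp`: let `q = c • h x0`, `e = h y0` (light-like, `≠ 0`).  `dirB` gives `T = τ • h' x0` with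
`‖T - v‖ < η`, `B T v ≠ 0`, where `η ≤ 1 / (l (k + 1))`-ish; moreover `B T e ≠ 0`: if `B v e ≠ 0` this holds for
small `η` (continuity); if `B v e = 0` then `e = c' v`, `c' ≠ 0` (`light_prop`) and `B T v ≠ 0` suffices.
`chainB`: `m = c1 • h1 x0 ∈ C` near to `q`, `g m = b • T`, `‖b • T - b • v‖ ≤ l η < 1 / (k + 1)`, and
`b • T` is not a multiple of `v` as `B T v ≠ 0`, `B v v = 0`.
So there is `p` with `g k p ∈ O k`, with `b k ∈ [-l, -1] ∪ [1, l]`; a subsequence of `b k` tends to some `c` with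
`|c| ≥ 1` (`tendsto_subseq_of_bounded` or compactness); then `‖g p - c • v‖ ≤ ‖g p - b • v‖ + |b - c| ‖v‖`.
-/

set_option autoImplicit false

namespace Pool.Agent.H27.LZ

open Filter Topology

variable {E : Type*} [NormedAddCommGroup E] [NormedSpace ℝ E] [FiniteDimensional ℝ E]
  {S : Sys E}

private lemma thmB_open (v : E) (l r : ℝ) :
    IsOpen {m : E | (∃ b : ℝ, 1 ≤ |b| ∧ |b| ≤ l ∧ ‖m - b • v‖ < r) ∧ ∀ d : ℝ, m ≠ d • v} := by
  have h1 : IsOpen {m : E | ∃ b : ℝ, 1 ≤ |b| ∧ |b| ≤ l ∧ ‖m - b • v‖ < r} := by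
    have : {m : E | ∃ b : ℝ, 1 ≤ |b| ∧ |b| ≤ l ∧ ‖m - b • v‖ < r} =
        ⋃ b ∈ {b : ℝ | 1 ≤ |b| ∧ |b| ≤ l}, Metric.ball (b • v) r := by
      ext m
      simp only [Set.mem_setOf_eq, Set.mem_iUnion, Metric.mem_ball, dist_eq_norm, exists_prop,
        and_assoc]
    rw [this]
    exact isOpen_biUnion fun b _ => Metric.isOpen_ball
  have h2 : IsOpen {m : E | ∀ d : ℝ, m ≠ d • v} := by
    have : {m : E | ∀ d : ℝ, m ≠ d • v} = ((Submodule.span ℝ {v} : Submodule ℝ E) : Set E)ᶜ := by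
      ext m
      simp only [Set.mem_setOf_eq, Set.mem_compl_iff, SetLike.mem_coe,
        Submodule.mem_span_singleton, not_exists]
      constructor
      · intro h d hd
        exact h d hd.symm
      · intro h d hd
        exact h d hd.symm
    rw [this]
    exact (Submodule.closed_of_finiteDimensional _).isOpen_compl
  exact h1.inter h2

private lemma thmB_dir (hF : Full S) (hdim : 3 ≤ Module.finrank ℝ E) {x0 : E} (hx0 : x0 ∈ F S)
    {v : E} (hv : S.B v v = 0) (hv0 : v ≠ 0) (hlim : ∀ ε > 0, ∃ z ∈ F S, ‖z - v‖ < ε) {e : E}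
    (he : S.B e e = 0) (he0 : e ≠ 0) {η : ℝ} (hη : 0 < η) :
    ∃ (τ : ℝ) (h : E ≃ₗ[ℝ] E), τ ≠ 0 ∧ h ∈ S.G ∧ ‖τ • h x0 - v‖ < η ∧
      S.B (h x0) v ≠ 0 ∧ S.B (h x0) e ≠ 0 := by
  by_cases hve : S.B v e = 0
  · obtain ⟨c', hc'⟩ := light_prop (S := S) hv he hve hv0
    have hc0 : c' ≠ 0 := by
      rintro rfl
      exact he0 (by rw [hc', zero_smul])
    obtain ⟨τ, h, hτ, hh, h1, h2⟩ := dirB hF hdim hx0 hv hv0 hlim hη
    refine ⟨τ, h, hτ, hh, h1, h2, ?_⟩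
    rw [hc', map_smul, smul_eq_mul]
    exact mul_ne_zero hc0 h2
  · have hcont : Continuous fun T : E => S.B T e :=
      (B_cont S).comp (continuous_id.prodMk continuous_const)
    have hopen : IsOpen {T : E | S.B T e ≠ 0} := isOpen_ne_fun hcont continuous_const
    obtain ⟨δ, hδ, hball⟩ := Metric.isOpen_iff.1 hopen v hve
    obtain ⟨τ, h, hτ, hh, h1, h2⟩ := dirB hF hdim hx0 hv hv0 hlim (lt_min hη hδ)
    refine ⟨τ, h, hτ, hh, lt_of_lt_of_le h1 (min_le_left _ _), h2, ?_⟩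
    have h3 : τ • h x0 ∈ Metric.ball v δ := by
      rw [Metric.mem_ball, dist_eq_norm]
      exact lt_of_lt_of_le h1 (min_le_right _ _)
    have h4 : S.B (τ • h x0) e ≠ 0 := hball h3
    intro h5
    apply h4
    rw [map_smul, LinearMap.smul_apply, h5, smul_zero]

theorem thmB (hF : Full S) (hdim : 3 ≤ Module.finrank ℝ E) {v : E} (hv : S.B v v = 0)
    (hv0 : v ≠ 0) (hlim : ∀ ε > 0, ∃ z ∈ F S, ‖z - v‖ < ε) :
    ∃ (p : E) (c : ℝ), c ≠ 0 ∧ ∀ ε > 0, ∃ g ∈ S.G, ‖g p - c • v‖ < ε ∧ ∀ d : ℝ, g p ≠ d • v := by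
  obtain ⟨x0, hx0, -⟩ := hlim 1 one_pos
  obtain ⟨w0, y0, l, h0⟩ := id hx0
  have hl : 0 < l := lt_trans one_pos h0.one_lt
  have hCne : {q : E | ∃ c : ℝ, c ≠ 0 ∧ ∃ h ∈ S.G, q = c • h x0}.Nonempty :=
    ⟨x0, 1, one_ne_zero, 1, S.G.one_mem, by rw [one_smul]; rfl⟩
  obtain ⟨p, hp⟩ := nest_grp S hCne
    (O := fun k : ℕ => {m : E | (∃ b : ℝ, 1 ≤ |b| ∧ |b| ≤ l ∧ ‖m - b • v‖ < 1 / ((k : ℝ) + 1)) ∧
      ∀ d : ℝ, m ≠ d • v}) (fun k => thmB_open v l _) (by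
    rintro k q ⟨c, hc, h, hh, rfl⟩ ε hε
    have hconj := h0.conj hh
    have hk : (0 : ℝ) < (k : ℝ) + 1 := by positivity
    have hη : 0 < 1 / (l * ((k : ℝ) + 1)) := by positivity
    obtain ⟨τ, h', hτ, hh', h1, h2, h3⟩ :=
      thmB_dir hF hdim hx0 hv hv0 hlim hconj.yy hconj.y_ne hη
    obtain ⟨c1, h1', g, b, hc1, hh1, hg, hd, hb1, hbl, hgm⟩ := chainB h0 hh hh' h3 hc hτ hε
    refine ⟨c1 • h1' x0, ⟨c1, hc1, h1', hh1, rfl⟩, hd, g, hg, ⟨b, hb1, hbl, ?_⟩, ?_⟩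
    · rw [hgm, ← smul_sub, norm_smul, Real.norm_eq_abs]
      calc |b| * ‖τ • h' x0 - v‖ ≤ l * ‖τ • h' x0 - v‖ :=
            mul_le_mul_of_nonneg_right hbl (norm_nonneg _)
        _ < l * (1 / (l * ((k : ℝ) + 1))) := mul_lt_mul_of_pos_left h1 hl
        _ = 1 / ((k : ℝ) + 1) := by field_simp
    · intro d hd'
      rw [hgm] at hd'
      have h5 : S.B (b • (τ • h' x0)) v = 0 := by
        rw [hd', map_smul, LinearMap.smul_apply, hv, smul_zero]
      rw [map_smul, map_smul, LinearMap.smul_apply, LinearMap.smul_apply, smul_eq_mul,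
        smul_eq_mul] at h5
      have hb0 : b ≠ 0 := by
        rintro rfl
        rw [abs_zero] at hb1
        linarith
      exact mul_ne_zero hb0 (mul_ne_zero hτ h2) h5)
  choose g hg hgO using hp
  choose hb hd using hgO
  choose b hb1 hbl hbn using hb
  have hbd : ∀ n, b n ∈ Metric.closedBall (0 : ℝ) l := by
    intro n
    rw [mem_closedBall_zero_iff, Real.norm_eq_abs]
    exact hbl n
  obtain ⟨c, -, φ, hφ, hlimb⟩ := (isCompact_closedBall (0 : ℝ) l).tendsto_subseq hbd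
  have hc1 : 1 ≤ |c| := by
    have : Tendsto (fun n => |(b ∘ φ) n|) atTop (𝓝 |c|) := hlimb.abs
    exact ge_of_tendsto' this fun n => hb1 (φ n)
  refine ⟨p, c, ?_, ?_⟩
  · rintro rfl
    rw [abs_zero] at hc1
    linarith
  · intro ε hε
    have hv1 : 0 < ‖v‖ + 1 := by positivity
    have e1 : ∀ᶠ n in atTop, |(b ∘ φ) n - c| < ε / 2 / (‖v‖ + 1) := by
      have := Metric.tendsto_atTop.1 hlimb (ε / 2 / (‖v‖ + 1)) (by positivity)
      obtain ⟨N, hN⟩ := this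
      exact eventually_atTop.2 ⟨N, fun n hn => by simpa [Real.dist_eq] using hN n hn⟩
    have e2 : ∀ᶠ n : ℕ in atTop, 1 / ((φ n : ℝ) + 1) < ε / 2 := by
      have : Tendsto (fun n : ℕ => 1 / ((n : ℝ) + 1)) atTop (𝓝 0) :=
        tendsto_one_div_add_atTop_nhds_zero_nat
      exact (this.comp hφ.tendsto_atTop).eventually (gt_mem_nhds (by positivity))
    obtain ⟨n, hn1, hn2⟩ := (e1.and e2).exists
    refine ⟨g (φ n), hg (φ n), ?_, hd (φ n)⟩
    have h6 : ‖g (φ n) p - c • v‖ ≤ ‖g (φ n) p - b (φ n) • v‖ + |b (φ n) - c| * ‖v‖ := by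
      have h7 : g (φ n) p - c • v = (g (φ n) p - b (φ n) • v) + (b (φ n) - c) • v := by
        rw [sub_smul]; abel
      rw [h7]
      refine (norm_add_le _ _).trans ?_
      rw [norm_smul, Real.norm_eq_abs]
    have h8 : |b (φ n) - c| * ‖v‖ ≤ ε / 2 := by
      have h9 : |b (φ n) - c| ≤ ε / 2 / (‖v‖ + 1) := hn1.le
      calc |b (φ n) - c| * ‖v‖ ≤ ε / 2 / (‖v‖ + 1) * (‖v‖ + 1) := by
            apply mul_le_mul h9 (by linarith) (norm_nonneg _) (by positivity)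
        _ = ε / 2 := by field_simp
    have h10 := hbn (φ n)
    linarith

end Pool.Agent.H27.LZ
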