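import Pool.Agent.H27.LZ.ThmA
import Pool.Agent.H27.LZ.ThmB
import Pool.Agent.H27.LZ.LSys
import Pool.Agent.H27.LZ.LightLim
import Pool.Agent.H27.LZ.Easy

/-!
# The abstract main theorem

`Lift S`: an element of the group can be replaced by one with the same action on the span of an orbit of a
fixed vector, and trivial on the orthogonal complement.
`main_abs`.  If `v` is orthogonal to `x` and `y` for some `Hyp S w x y l`: `easy`.  Otherwise: `hlim` gives
some `Hyp S w0 x0 y0 l0`; `L = orbSpan S x0`, `v = a + b` (`orb_dec`).  All `x, y` of hyperbolic elements are in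
`L` (`orb_x`, `orb_y`).
`abs_L`: there is a sequence in `L`: for every `ε` there are `Hyp S w x y l` and `a' ∈ L` with
`B a' x = 0 = B a' y`, `‖a' - a‖ < ε`, `a'` not a multiple of `a`.  Proof: let `pr : E → L` be the linear
projection (the component in `L` of `orb_dec`; unique; continuous in finite dimension); `a' = pr u` for `u` near to `v`;
`B a' x = B u x = 0`.  `a ≠ 0` (otherwise `v = b` is orthogonal to `x0, y0 ∈ L`); so `a' ≠ 0` for small `ε`; if
`a' = c a` then `c ≠ 0` and `B a x = B a y = 0`, so `B v x = B a x + B b x = 0`, `B v y = 0`, excluded.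
`3 ≤ finrank L`: `a', x, y` are linearly independent in `L` (apply `B · x`, `B · y` to a linear relation).
`B a a ≥ 0` (`U_nonneg` for `a'`, limit).
Case `B a a > 0`: `thmA` for `res S L _` (`res_full`, `hyp_res`).  Case `B a a = 0`: `thmB` for `res S L _`, with
`light_lim` (in `res S L _`).  Both give `p ∈ L`, `c ≠ 0` such that for all `ε` there is `g` in `G` with
`‖g p - c • a‖ < ε`, `g p` not a multiple of `a`.  Take `p0 = b + c⁻¹ • p` and `g'` of `Lift` for `g`:
`g' p0 - v = c⁻¹ • (g p - c • a)`, and if `g' p0 = d • v` then `b + c⁻¹ • g p = d • a + d • b`, so (components in `L`)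
`c⁻¹ • g p = d • a`, excluded.
-/

set_option autoImplicit false

namespace Pool.Agent.H27.LZ

open Filter Topology

variable {E : Type*} [NormedAddCommGroup E] [NormedSpace ℝ E]

/-- see the header -/
def Lift (S : Sys E) : Prop :=
  ∀ x0 ∈ F S, ∀ g ∈ S.G, ∃ g' ∈ S.G, (∀ z ∈ orbSpan S x0, g' z = g z) ∧
    ∀ b, (∀ z ∈ orbSpan S x0, S.B b z = 0) → g' b = b

variable [FiniteDimensional ℝ E] {S : Sys E}

private lemma pr_exists (hL : NoLine S) (x0 : E) :
    ∃ pr : E →ₗ[ℝ] E, (∀ v, pr v ∈ orbSpan S x0) ∧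
      ∀ v, ∀ z ∈ orbSpan S x0, S.B (v - pr v) z = 0 := by
  classical
  have key : ∀ v : E, ∃ a : E, a ∈ orbSpan S x0 ∧ ∀ z ∈ orbSpan S x0, S.B (v - a) z = 0 := by
    intro v
    obtain ⟨a, b, h1, h2, h3⟩ := orb_dec hL x0 v
    refine ⟨a, h2, fun z hz => ?_⟩
    have : v - a = b := by rw [h1]; abel
    rw [this]; exact h3 z hz
  choose f hf1 hf2 using key
  have huniq : ∀ a ∈ orbSpan S x0, (∀ z ∈ orbSpan S x0, S.B a z = 0) → a = 0 :=
    fun a ha h => orb_nd hL ha h
  refine ⟨{ toFun := f, map_add' := ?_, map_smul' := ?_ }, hf1, hf2⟩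
  · intro u v
    have h := huniq (f (u + v) - (f u + f v))
      (sub_mem (hf1 _) (add_mem (hf1 _) (hf1 _))) (fun z hz => by
        have e1 := hf2 (u + v) z hz
        have e2 := hf2 u z hz
        have e3 := hf2 v z hz
        simp only [map_sub, map_add, LinearMap.sub_apply, LinearMap.add_apply] at e1 e2 e3 ⊢
        linarith)
    exact sub_eq_zero.mp h
  · intro c v
    have h := huniq (f (c • v) - c • f v)
      (sub_mem (hf1 _) (Submodule.smul_mem _ _ (hf1 _))) (fun z hz => by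
        have e1 := hf2 (c • v) z hz
        have e2 := hf2 v z hz
        simp only [map_sub, map_smul, LinearMap.sub_apply, LinearMap.smul_apply,
          smul_eq_mul] at e1 e2 ⊢
        have e3 : S.B v z = S.B (f v) z := by linarith
        rw [e3] at e1
        linarith)
    simpa using sub_eq_zero.mp h

lemma abs_L (hL : NoLine S) {w0 : E ≃ₗ[ℝ] E} {x0 y0 : E} {l0 : ℝ} (h0 : Hyp S w0 x0 y0 l0)
    {v a b : E} (hv : v = a + b) (ha : a ∈ orbSpan S x0)
    (hb : ∀ z ∈ orbSpan S x0, S.B b z = 0)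
    (hno : ∀ (w : E ≃ₗ[ℝ] E) (x y : E) (l : ℝ), Hyp S w x y l → ¬ (S.B v x = 0 ∧ S.B v y = 0))
    (hlim : ∀ ε > 0, ∃ (w : E ≃ₗ[ℝ] E) (x y : E) (l : ℝ) (u : E), Hyp S w x y l ∧
      S.B u x = 0 ∧ S.B u y = 0 ∧ ‖u - v‖ < ε) :
    ∀ ε > 0, ∃ (w : E ≃ₗ[ℝ] E) (x y : E) (l : ℝ) (u : E), Hyp S w x y l ∧
      u ∈ orbSpan S x0 ∧ S.B u x = 0 ∧ S.B u y = 0 ∧ ‖u - a‖ < ε ∧ ∀ c : ℝ, u ≠ c • a := by
  classical
  have hx0 : x0 ∈ F S := h0.x_mem
  obtain ⟨pr, hp1, hp2⟩ := pr_exists hL x0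
  have hpv : pr v = a := by
    have h := orb_nd hL (x0 := x0) (u := pr v - a) (sub_mem (hp1 v) ha) (fun z hz => by
      have e1 := hp2 v z hz
      have e2 := hb z hz
      have e3 : S.B v z = S.B a z + S.B b z := by rw [hv, map_add, LinearMap.add_apply]
      simp only [map_sub, LinearMap.sub_apply] at e1 ⊢
      linarith)
    exact sub_eq_zero.mp h
  have ha0 : a ≠ 0 := by
    intro h
    apply hno w0 x0 y0 l0 h0
    have hvb : v = b := by rw [hv, h, zero_add]
    rw [hvb]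
    exact ⟨hb x0 (orb_mem S x0), hb y0 (orb_y hL hx0 h0)⟩
  have hcont : Continuous pr := pr.continuous_of_finiteDimensional
  intro ε hε
  have hε' : 0 < min ε ‖a‖ := lt_min hε (norm_pos_iff.mpr ha0)
  obtain ⟨δ, hδ, hδ2⟩ := Metric.continuous_iff.mp hcont v _ hε'
  obtain ⟨w, x, y, l, u, hw, hux, huy, huv⟩ := hlim δ hδ
  have hxL := orb_x hL hx0 hw
  have hyL := orb_y hL hx0 hw
  have hd := hδ2 u (by rw [dist_eq_norm]; exact huv)
  rw [dist_eq_norm, hpv] at hd
  have e1 : S.B (pr u) x = 0 := by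
    have := hp2 u x hxL
    simp only [map_sub, LinearMap.sub_apply] at this
    linarith
  have e2 : S.B (pr u) y = 0 := by
    have := hp2 u y hyL
    simp only [map_sub, LinearMap.sub_apply] at this
    linarith
  refine ⟨w, x, y, l, pr u, hw, hp1 u, e1, e2, lt_of_lt_of_le hd (min_le_left _ _), ?_⟩
  intro c hc
  have hc0 : c ≠ 0 := by
    rintro rfl
    rw [hc, zero_smul, zero_sub, norm_neg] at hd
    exact absurd (lt_of_lt_of_le hd (min_le_right _ _)) (lt_irrefl _)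
  rw [hc, map_smul, LinearMap.smul_apply, smul_eq_mul] at e1 e2
  have f1 : S.B a x = 0 := (mul_eq_zero.mp e1).resolve_left hc0
  have f2 : S.B a y = 0 := (mul_eq_zero.mp e2).resolve_left hc0
  apply hno w x y l hw
  rw [hv, map_add, LinearMap.add_apply, LinearMap.add_apply, f1, f2, hb x hxL, hb y hyL]
  simp

theorem main_abs (hL : NoLine S) (hlift : Lift S) {v : E}
    (hlim : ∀ ε > 0, ∃ (w : E ≃ₗ[ℝ] E) (x y : E) (l : ℝ) (u : E), Hyp S w x y l ∧
      S.B u x = 0 ∧ S.B u y = 0 ∧ ‖u - v‖ < ε) :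
    ∃ p : E, ∀ ε > 0, ∃ g ∈ S.G, ‖g p - v‖ < ε ∧ ∀ c : ℝ, g p ≠ c • v := by
  classical
  by_cases hex : ∃ (w : E ≃ₗ[ℝ] E) (x y : E) (l : ℝ), Hyp S w x y l ∧ S.B v x = 0 ∧ S.B v y = 0
  · obtain ⟨w, x, y, l, hw, h1, h2⟩ := hex
    exact easy hw h1 h2
  have hno : ∀ (w : E ≃ₗ[ℝ] E) (x y : E) (l : ℝ), Hyp S w x y l →
      ¬ (S.B v x = 0 ∧ S.B v y = 0) := by
    intro w x y l hw h
    exact hex ⟨w, x, y, l, hw, h.1, h.2⟩
  obtain ⟨w0, x0, y0, l0, u0, h0, -, -, -⟩ := hlim 1 one_pos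
  have hx0 : x0 ∈ F S := h0.x_mem
  obtain ⟨a, b, hv, ha, hb⟩ := orb_dec hL x0 v
  have habs := abs_L hL h0 hv ha hb hno hlim
  have ha0 : a ≠ 0 := by
    intro h
    apply hno w0 x0 y0 l0 h0
    have hvb : v = b := by rw [hv, h, zero_add]
    rw [hvb]
    exact ⟨hb x0 (orb_mem S x0), hb y0 (orb_y hL hx0 h0)⟩
  have hnd : ∀ u ∈ orbSpan S x0, (∀ z ∈ orbSpan S x0, S.B u z = 0) → u = 0 :=
    fun u hu h => orb_nd hL hu h
  have hinv : ∀ g ∈ S.G, ∀ z ∈ orbSpan S x0, g z ∈ orbSpan S x0 := fun g hg z hz => orb_inv hg hz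
  have hfull : Full (res S (orbSpan S x0) hnd) := res_full hL hx0
  have hlimL : ∀ ε > 0, ∃ (w : orbSpan S x0 ≃ₗ[ℝ] orbSpan S x0) (x y : orbSpan S x0) (l : ℝ)
      (u : orbSpan S x0), Hyp (res S (orbSpan S x0) hnd) w x y l ∧
      (res S (orbSpan S x0) hnd).B u x = 0 ∧ (res S (orbSpan S x0) hnd).B u y = 0 ∧
      ‖u - (⟨a, ha⟩ : orbSpan S x0)‖ < ε ∧ ∀ c : ℝ, u ≠ c • (⟨a, ha⟩ : orbSpan S x0) := by
    intro ε hε
    obtain ⟨w, x, y, l, u, hw, huL, hux, huy, hua, hc⟩ := habs ε hε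
    obtain ⟨w', hw'⟩ := hyp_res (hnd := hnd) hinv hw (orb_x hL hx0 hw) (orb_y hL hx0 hw)
    refine ⟨w', ⟨x, orb_x hL hx0 hw⟩, ⟨y, orb_y hL hx0 hw⟩, l, ⟨u, huL⟩, hw', ?_, ?_, ?_, ?_⟩
    · rw [res_B]; exact hux
    · rw [res_B]; exact huy
    · exact hua
    · intro c h
      exact hc c (congrArg Subtype.val h)
  have hdim : 3 ≤ Module.finrank ℝ (orbSpan S x0) := by
    obtain ⟨w, x, y, l, u, hw, hux, huy, -, hc⟩ := hlimL 1 one_pos
    have hli : LinearIndependent ℝ ![u, x, y] := by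
      rw [Fintype.linearIndependent_iff]
      intro g hg
      rw [Fin.sum_univ_three] at hg
      simp only [Matrix.cons_val_zero, Matrix.cons_val_one, Matrix.cons_val_two,
        Matrix.head_cons, Matrix.tail_cons, Matrix.cons_val] at hg
      have hxy := hw.xy
      have hyx : (res S (orbSpan S x0) hnd).B y x ≠ 0 := by
        rw [(res S (orbSpan S x0) hnd).symm]; exact hxy
      have e1 : (res S (orbSpan S x0) hnd).B (g 0 • u + g 1 • x + g 2 • y) y = 0 := by
        rw [hg]; simp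
      have e2 : (res S (orbSpan S x0) hnd).B (g 0 • u + g 1 • x + g 2 • y) x = 0 := by
        rw [hg]; simp
      simp only [map_add, map_smul, LinearMap.add_apply, LinearMap.smul_apply, smul_eq_mul,
        hux, huy, hw.xx, hw.yy, mul_zero, zero_add, add_zero] at e1 e2
      have g1 : g 1 = 0 := (mul_eq_zero.mp e1).resolve_right hxy
      have g2 : g 2 = 0 := (mul_eq_zero.mp e2).resolve_right hyx
      have g0 : g 0 = 0 := by
        rw [g1, g2, zero_smul, zero_smul, add_zero, add_zero] at hg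
        refine (smul_eq_zero.mp hg).resolve_right ?_
        intro h
        apply hc 0
        rw [h, zero_smul]
      intro i
      fin_cases i
      · exact g0
      · exact g1
      · exact g2
    have := hli.fintype_card_le_finrank
    simpa using this
  have haa : 0 ≤ S.B a a := by
    by_contra hneg
    push Not at hneg
    have hc : Continuous fun z : E => S.B z z := (B_cont S).comp (continuous_id.prodMk continuous_id)
    have hopen : IsOpen {z : E | S.B z z < 0} := isOpen_lt hc continuous_const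
    obtain ⟨ε, hε, hball⟩ := Metric.isOpen_iff.mp hopen a hneg
    obtain ⟨w, x, y, l, u, hw, huL, hux, huy, hua, -⟩ := habs ε hε
    have h1 : S.B u u < 0 := hball (by rw [Metric.mem_ball, dist_eq_norm]; exact hua)
    exact absurd (U_nonneg hw.xx hw.xy hux huy) (not_le.mpr h1)
  have ha0' : (⟨a, ha⟩ : orbSpan S x0) ≠ 0 := fun h => ha0 (congrArg Subtype.val h)
  have hfin : ∃ (p : orbSpan S x0) (c : ℝ), c ≠ 0 ∧ ∀ ε > 0,
      ∃ g ∈ (res S (orbSpan S x0) hnd).G, ‖g p - c • (⟨a, ha⟩ : orbSpan S x0)‖ < ε ∧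
        ∀ d : ℝ, g p ≠ d • (⟨a, ha⟩ : orbSpan S x0) := by
    rcases haa.lt_or_eq with hpos | hzero
    · exact thmA hfull hdim (v := (⟨a, ha⟩ : orbSpan S x0)) (by rw [res_B]; exact hpos) hlimL
    · have hz : (res S (orbSpan S x0) hnd).B (⟨a, ha⟩ : orbSpan S x0) ⟨a, ha⟩ = 0 := by
        rw [res_B]; exact hzero.symm
      refine thmB hfull hdim hz ha0' (light_lim hz ha0' ?_)
      intro ε hε
      obtain ⟨w, x, y, l, u, hw, h1, h2, h3, -⟩ := hlimL ε hε
      exact ⟨w, x, y, l, u, hw, h1, h2, h3⟩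
  obtain ⟨p, c, hc, hp⟩ := hfin
  refine ⟨b + c⁻¹ • (p : E), ?_⟩
  intro ε hε
  obtain ⟨g', hg', hn, hd⟩ := hp (ε * |c|) (mul_pos hε (abs_pos.mpr hc))
  obtain ⟨g, hg, hgg⟩ := hg'
  obtain ⟨g2, hg2, hgz, hgb⟩ := hlift x0 hx0 g hg
  have hval : g2 (b + c⁻¹ • (p : E)) = b + c⁻¹ • (g' p : E) := by
    rw [map_add, map_smul, hgb b hb, hgz p p.2, hgg p]
  refine ⟨g2, hg2, ?_, ?_⟩
  · have e1 : g2 (b + c⁻¹ • (p : E)) - v
        = c⁻¹ • ((g' p - c • (⟨a, ha⟩ : orbSpan S x0) : orbSpan S x0) : E) := by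
      rw [hval, hv]
      have : ((g' p - c • (⟨a, ha⟩ : orbSpan S x0) : orbSpan S x0) : E)
          = (g' p : E) - c • a := rfl
      rw [this, smul_sub, smul_smul, inv_mul_cancel₀ hc, one_smul]
      abel
    rw [e1, norm_smul, norm_inv, Real.norm_eq_abs]
    have hn' : ‖((g' p - c • (⟨a, ha⟩ : orbSpan S x0) : orbSpan S x0) : E)‖ < ε * |c| := hn
    have hcp : 0 < |c| := abs_pos.mpr hc
    calc |c|⁻¹ * ‖((g' p - c • (⟨a, ha⟩ : orbSpan S x0) : orbSpan S x0) : E)‖
        < |c|⁻¹ * (ε * |c|) := by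
          apply mul_lt_mul_of_pos_left hn' (inv_pos.mpr hcp)
      _ = ε := by field_simp
  · intro d hcontra
    rw [hval, hv] at hcontra
    have h1 : c⁻¹ • (g' p : E) - d • a = (d - 1) • b := by
      have : c⁻¹ • (g' p : E) = d • (a + b) - b := by rw [← hcontra]; abel
      rw [this, sub_smul, smul_add, one_smul]; abel
    have h2 : c⁻¹ • (g' p : E) - d • a = 0 := by
      refine hnd _ (sub_mem (Submodule.smul_mem _ _ (g' p).2) (Submodule.smul_mem _ _ ha)) ?_
      intro z hz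
      rw [h1, map_smul, LinearMap.smul_apply, hb z hz, smul_zero]
    apply hd (c * d)
    apply Subtype.ext
    change (g' p : E) = (c * d) • a
    have h3 := sub_eq_zero.mp h2
    have h4 : (g' p : E) = c • (c⁻¹ • (g' p : E)) := by
      rw [smul_smul, mul_inv_cancel₀ hc, one_smul]
    rw [h4, h3, smul_smul]

end Pool.Agent.H27.LZ
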