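import Pool.Agent.H27.LZ.Ptr

/-!
# Basic properties of accessibility

`acc_refl`: `g = 1`, `m = q`, `y' = y`.
`acc_isClosed`: if `r` is in the closure, take `r'` accessible with `‖r' - r‖ < ε / 2` and the data of
`Acc S q z y r'` for `ε / 2`; triangle inequality.
`acc_norm`, `acc_z`, `acc_y`: for `ε = 1 / (n + 1)` get `g n, m n, y' n`; then `r n = g n (m n) → r`,
`B (r n) (r n) = B (m n) (m n) = B q q` (isometry), `B (r n) z = 0`, `B (r n) (y' n) = 0`; pass to the limit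
with `B_tendsto`.
`acc_cls`: `m` of `Acc` for `min ε δ`, `δ` such that `‖y' - y‖ < δ` implies `B z y' ≠ 0` (continuity of `B`);
`Cls S m` with the vectors `g⁻¹ z`, `g⁻¹ y'` (`F_map`, `iso_inv`).
-/

set_option autoImplicit false

namespace Pool.Agent.H27.LZ

open Filter Topology

variable {E : Type*} [NormedAddCommGroup E] [NormedSpace ℝ E] [FiniteDimensional ℝ E]
  {S : Sys E} {q z y r : E}

lemma acc_refl (hy : y ∈ F S) (hz : S.B q z = 0) (hqy : S.B q y = 0) : Acc S q z y q := by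
  intro ε hε
  refine ⟨1, S.G.one_mem, q, y, hy, ?_, rfl, ?_, ?_, ?_, ?_⟩
  · simpa using hε
  · simpa using hz
  · simpa using hqy
  · simpa using hε
  · simpa using hε

lemma acc_isClosed (S : Sys E) (q z y : E) : IsClosed {r | Acc S q z y r} := by
  rw [← closure_subset_iff_isClosed]
  intro r hr ε hε
  obtain ⟨r', hr', hd⟩ := Metric.mem_closure_iff.1 hr (ε / 2) (by positivity)
  obtain ⟨g, hg, m, y', h1, h2, h3, h4, h5, h6, h7⟩ := hr' (ε / 2) (by positivity)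
  refine ⟨g, hg, m, y', h1, by linarith, h3, h4, h5, by linarith, ?_⟩
  have h8 : ‖g m - r‖ ≤ ‖g m - r'‖ + ‖r' - r‖ := by
    have := norm_add_le (g m - r') (r' - r)
    simpa using this
  rw [dist_eq_norm, norm_sub_rev] at hd
  linarith

/-- sequences witnessing accessibility -/
lemma acc_seq (h : Acc S q z y r) : ∃ R Y : ℕ → E, Tendsto R atTop (𝓝 r) ∧
    Tendsto Y atTop (𝓝 y) ∧ ∀ n, S.B (R n) (R n) = S.B q q ∧ S.B (R n) z = 0 ∧
      S.B (R n) (Y n) = 0 := by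
  have hpos : ∀ n : ℕ, (0 : ℝ) < 1 / ((n : ℝ) + 1) := fun n => by positivity
  choose g hg m y' h1 h2 h3 h4 h5 h6 h7 using fun n : ℕ => h (1 / ((n : ℝ) + 1)) (hpos n)
  have hz0 : Tendsto (fun n : ℕ => 1 / ((n : ℝ) + 1)) atTop (𝓝 0) :=
    tendsto_one_div_add_atTop_nhds_zero_nat
  refine ⟨fun n => g n (m n), y', ?_, ?_, ?_⟩
  · rw [tendsto_iff_norm_sub_tendsto_zero]
    exact squeeze_zero (fun _ => norm_nonneg _) (fun n => (h7 n).le) hz0
  · rw [tendsto_iff_norm_sub_tendsto_zero]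
    exact squeeze_zero (fun _ => norm_nonneg _) (fun n => (h6 n).le) hz0
  · intro n
    refine ⟨?_, h4 n, h5 n⟩
    rw [S.iso _ (hg n), h3 n]

lemma acc_norm (h : Acc S q z y r) : S.B r r = S.B q q := by
  obtain ⟨R, Y, hR, hY, hn⟩ := acc_seq h
  have h1 := B_tendsto (S := S) hR hR
  have h2 : Tendsto (fun i => S.B (R i) (R i)) atTop (𝓝 (S.B q q)) := by
    simp only [fun i => (hn i).1]
    exact tendsto_const_nhds
  exact tendsto_nhds_unique h1 h2

lemma acc_z (h : Acc S q z y r) : S.B r z = 0 := by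
  obtain ⟨R, Y, hR, hY, hn⟩ := acc_seq h
  have h1 := B_tendsto (S := S) hR (tendsto_const_nhds (x := z))
  have h2 : Tendsto (fun i => S.B (R i) z) atTop (𝓝 0) := by
    simp only [fun i => (hn i).2.1]
    exact tendsto_const_nhds
  exact tendsto_nhds_unique h1 h2

lemma acc_y (h : Acc S q z y r) : S.B r y = 0 := by
  obtain ⟨R, Y, hR, hY, hn⟩ := acc_seq h
  have h1 := B_tendsto (S := S) hR hY
  have h2 : Tendsto (fun i => S.B (R i) (Y i)) atTop (𝓝 0) := by
    simp only [fun i => (hn i).2.2]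
    exact tendsto_const_nhds
  exact tendsto_nhds_unique h1 h2

lemma acc_cls (hz : z ∈ F S) (hzy : S.B z y ≠ 0) (h : Acc S q z y r) {ε : ℝ} (hε : 0 < ε) :
    ∃ g ∈ S.G, ∃ m : E, Cls S m ∧ S.B m m = S.B q q ∧ ‖m - q‖ < ε ∧ ‖g m - r‖ < ε := by
  have hc : Continuous fun u : E => S.B z u :=
    (B_cont S).comp (continuous_const.prodMk continuous_id)
  have hev : ∀ᶠ u in 𝓝 y, S.B z u ≠ 0 := hc.continuousAt.eventually_ne hzy
  obtain ⟨δ, hδ, hδ'⟩ := Metric.eventually_nhds_iff.1 hev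
  obtain ⟨g, hg, m, y', h1, h2, h3, h4, h5, h6, h7⟩ := h (min ε δ) (lt_min hε hδ)
  refine ⟨g, hg, m, ?_, h3, lt_of_lt_of_le h2 (min_le_left _ _),
    lt_of_lt_of_le h7 (min_le_left _ _)⟩
  have hgi : g⁻¹ ∈ S.G := S.G.inv_mem hg
  refine ⟨g⁻¹ z, F_map hz hgi, g⁻¹ y', F_map h1 hgi, ?_, ?_, ?_⟩
  · rw [S.iso _ hgi]
    apply hδ'
    rw [dist_eq_norm]
    exact lt_of_lt_of_le h6 (min_le_right _ _)
  · rw [S.symm, iso_inv hg, S.symm]
    exact h4
  · rw [S.symm, iso_inv hg, S.symm]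
    exact h5

end Pool.Agent.H27.LZ
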