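import Pool.Agent.H27.LZ.HypB

/-!
# Avoiding directions

`avoid2`: otherwise every `g x` is a multiple of `a` or of `b` (`light_prop`: `B (g x) a = 0` and `a ≠ 0`
light-like), so `⊤ = span {g x} ≤ span {a, b}`, of dimension at most `2` (`finrank_span_le_card` or
`finrank_span_finset_le_card`), a contradiction.
`avoid`: suppose for every `g ∈ G`: `g x ∥ a` or `g y ∥ a` (`∥`: proportional, i.e. `B = 0`).
By `avoid2` (with `a, a`) take `g₁` with `g₁ x ∦ a`; by `avoid2` with `a, g₁ x` take `g₂` with `g₂ x ∦ a`,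
`g₂ x ∦ g₁ x`.  Then `g₁ y ∥ a`, `g₂ y ∥ a`.  By `avoid2` for `y` take `g₃` with `g₃ y ∦ a`; so `g₃ x ∥ a`.
`s = g₁⁻¹ g₂` satisfies `s y ∥ y` (`g₁ y ∥ a ∥ g₂ y`).  `g₃ s y ∥ g₃ y ∦ a`, so `g₃ s x ∥ a ∥ g₃ x`, so `s x ∥ x`,
so `g₂ x ∥ g₁ x`, a contradiction.
-/

set_option autoImplicit false

namespace Pool.Agent.H27.LZ

variable {E : Type*} [NormedAddCommGroup E] [NormedSpace ℝ E] [FiniteDimensional ℝ E]
  {S : Sys E} {w : E ≃ₗ[ℝ] E} {x y : E} {l : ℝ}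

omit [FiniteDimensional ℝ E] in
private lemma par_trans {u v a : E} (ha : S.B a a = 0) (ha0 : a ≠ 0) (hu : S.B u u = 0)
    (hv : S.B v v = 0) (h1 : S.B u a = 0) (h2 : S.B v a = 0) : S.B u v = 0 := by
  obtain ⟨c, rfl⟩ := light_prop ha hu (by rw [S.symm]; exact h1) ha0
  obtain ⟨d, rfl⟩ := light_prop ha hv (by rw [S.symm]; exact h2) ha0
  rw [map_smul, h1, smul_zero]

lemma avoid2 (hF : Full S) (hdim : 3 ≤ Module.finrank ℝ E) (hx : x ∈ F S) {a b : E}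
    (ha : S.B a a = 0) (ha0 : a ≠ 0) (hb : S.B b b = 0) (hb0 : b ≠ 0) :
    ∃ g ∈ S.G, S.B (g x) a ≠ 0 ∧ S.B (g x) b ≠ 0 := by
  classical
  by_contra hcon
  push Not at hcon
  have hsub : {z | ∃ g ∈ S.G, z = g x} ⊆ (Submodule.span ℝ ((({a, b} : Finset E)) : Set E) : Set E) := by
    rintro z ⟨g, hg, rfl⟩
    have hgx : S.B (g x) (g x) = 0 := F_light (F_map hx hg)
    by_cases h1 : S.B (g x) a = 0
    · obtain ⟨c, hc⟩ := light_prop ha hgx (by rw [S.symm]; exact h1) ha0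
      rw [hc]
      exact Submodule.smul_mem _ _ (Submodule.subset_span (by simp))
    · obtain ⟨c, hc⟩ := light_prop hb hgx (by rw [S.symm]; exact hcon g hg h1) hb0
      rw [hc]
      exact Submodule.smul_mem _ _ (Submodule.subset_span (by simp))
  have htop : (⊤ : Submodule ℝ E) ≤ Submodule.span ℝ ((({a, b} : Finset E)) : Set E) := by
    rw [← hF x hx]
    exact Submodule.span_le.2 hsub
  have h1 : Module.finrank ℝ (Submodule.span ℝ ((({a, b} : Finset E)) : Set E)) ≤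
      ({a, b} : Finset E).card := finrank_span_finset_le_card _
  rw [top_le_iff.1 htop, finrank_top] at h1
  have h2 : ({a, b} : Finset E).card ≤ 2 := Finset.card_le_two
  omega

lemma avoid (hF : Full S) (hdim : 3 ≤ Module.finrank ℝ E) (hx : x ∈ F S) (hy : y ∈ F S) {a : E}
    (ha : S.B a a = 0) (ha0 : a ≠ 0) : ∃ g ∈ S.G, S.B (g x) a ≠ 0 ∧ S.B (g y) a ≠ 0 := by
  by_contra hcon
  push Not at hcon
  obtain ⟨g₁, hg₁, h1, -⟩ := avoid2 hF hdim hx ha ha0 ha ha0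
  have hg1x : g₁ x ∈ F S := F_map hx hg₁
  obtain ⟨g₂, hg₂, h2, h2'⟩ := avoid2 hF hdim hx ha ha0 (F_light hg1x) (F_ne hg1x)
  obtain ⟨g₃, hg₃, h3, -⟩ := avoid2 hF hdim hy ha ha0 ha ha0
  have hy1 : S.B (g₁ y) a = 0 := hcon g₁ hg₁ h1
  have hy2 : S.B (g₂ y) a = 0 := hcon g₂ hg₂ h2
  have hx3 : S.B (g₃ x) a = 0 := by
    by_contra h
    exact h3 (hcon g₃ hg₃ h)
  have hs : g₁⁻¹ * g₂ ∈ S.G := S.G.mul_mem (S.G.inv_mem hg₁) hg₂
  have hsy : S.B ((g₁⁻¹ * g₂) y) y = 0 := by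
    change S.B (g₁⁻¹ (g₂ y)) y = 0
    rw [iso_inv hg₁]
    exact par_trans ha ha0 (F_light (F_map hy hg₂)) (F_light (F_map hy hg₁)) hy2 hy1
  have hgs : g₃ * (g₁⁻¹ * g₂) ∈ S.G := S.G.mul_mem hg₃ hs
  have hne : S.B ((g₃ * (g₁⁻¹ * g₂)) y) a ≠ 0 := by
    intro h
    have h4 : S.B ((g₃ * (g₁⁻¹ * g₂)) y) (g₃ y) = 0 := by
      change S.B (g₃ ((g₁⁻¹ * g₂) y)) (g₃ y) = 0
      rw [S.iso g₃ hg₃]
      exact hsy
    have h5 : (g₃ * (g₁⁻¹ * g₂)) y ∈ F S := F_map hy hgs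
    exact h3 (par_trans (F_light h5) (F_ne h5) (F_light (F_map hy hg₃)) ha
      (by rw [S.symm]; exact h4) (by rw [S.symm]; exact h))
  have hx4 : S.B ((g₃ * (g₁⁻¹ * g₂)) x) a = 0 := by
    by_contra h
    exact hne (hcon _ hgs h)
  have h6 : S.B ((g₃ * (g₁⁻¹ * g₂)) x) (g₃ x) = 0 :=
    par_trans ha ha0 (F_light (F_map hx hgs)) (F_light (F_map hx hg₃)) hx4 hx3
  have h7 : S.B ((g₁⁻¹ * g₂) x) x = 0 := by
    have : S.B (g₃ ((g₁⁻¹ * g₂) x)) (g₃ x) = 0 := h6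
    rwa [S.iso g₃ hg₃] at this
  have h8 : S.B (g₁⁻¹ (g₂ x)) x = 0 := h7
  rw [iso_inv hg₁] at h8
  exact h2' h8

end Pool.Agent.H27.LZ
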