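import Pool.Agent.H27.LZ.HypB

/-!
# The second eigenvector

`g - p` is not injective (`x`), so it is not surjective (`LinearMap.injective_iff_surjective`); so there
is a nonzero linear functional vanishing on its range, which is `B · y` for some `y ≠ 0` because `B` is
nondegenerate (`LinearMap.BilinForm.toDual`, or `LinearMap.injective_iff_surjective_of_finrank_eq_finrank`
for `y ↦ B y`; alternatively: the orthogonal complement of a proper subspace is nonzero).
`0 = B (g v - p v) y = B v (g⁻¹ y - p y)` for all `v`, so `g⁻¹ y = p y`, `g y = p⁻¹ y`.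
`Hyp S (g * g) x y (p ^ 2)`: `(g * g) x = p² x`, `(g * g) y = (p²)⁻¹ y`, `1 < p²`.
-/

set_option autoImplicit false

namespace Pool.Agent.H27.LZ

variable {E : Type*} [NormedAddCommGroup E] [NormedSpace ℝ E] [FiniteDimensional ℝ E]
  {S : Sys E}

lemma eig_pair {g : E ≃ₗ[ℝ] E} (hg : g ∈ S.G) {x : E} {p : ℝ} (hx : x ≠ 0)
    (hgx : g x = p • x) (hp : 1 < |p|) :
    ∃ y : E, y ≠ 0 ∧ g y = p⁻¹ • y ∧ Hyp S (g * g) x y (p ^ 2) := by
  have hp0 : p ≠ 0 := by
    rintro rfl
    rw [abs_zero] at hp
    linarith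
  obtain ⟨f, hf⟩ : ∃ f : E →ₗ[ℝ] E, f = (g : E →ₗ[ℝ] E) - p • LinearMap.id := ⟨_, rfl⟩
  have hfv : ∀ v, f v = g v - p • v := by
    intro v
    rw [hf]
    rfl
  have hfx : f x = 0 := by
    rw [hfv, hgx, sub_self]
  have hlt : LinearMap.range f < ⊤ := by
    rw [lt_top_iff_ne_top]
    intro htop
    have hs : Function.Surjective f := LinearMap.range_eq_top.1 htop
    have hi : Function.Injective f := LinearMap.injective_iff_surjective.2 hs
    exact hx (hi (by rw [hfx, map_zero]))
  obtain ⟨φ, hφ0, hφ⟩ := Submodule.exists_le_ker_of_lt_top _ hlt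
  have hinj : Function.Injective S.B := by
    intro u v huv
    have h1 : u - v = 0 := by
      apply S.nondeg
      intro w
      rw [map_sub, LinearMap.sub_apply, huv, sub_self]
    exact sub_eq_zero.1 h1
  have hsur : Function.Surjective S.B :=
    (LinearMap.injective_iff_surjective_of_finrank_eq_finrank
      (Subspace.dual_finrank_eq (K := ℝ) (V := E)).symm).1 hinj
  obtain ⟨y, hy⟩ := hsur φ
  have hy0 : y ≠ 0 := by
    rintro rfl
    rw [map_zero] at hy
    exact hφ0 hy.symm
  have h2 : ∀ v, S.B y (g v) = p * S.B y v := by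
    intro v
    have h3 : φ (f v) = 0 := hφ ⟨v, rfl⟩
    rw [hfv, map_sub, map_smul, ← hy, smul_eq_mul] at h3
    linarith
  have h4 : g⁻¹ y = p • y := by
    have h5 : g⁻¹ y - p • y = 0 := by
      apply S.nondeg
      intro v
      rw [map_sub, LinearMap.sub_apply, iso_inv hg, h2, map_smul, LinearMap.smul_apply, smul_eq_mul,
        sub_self]
    exact sub_eq_zero.1 h5
  have h6 : g y = p⁻¹ • y := by
    have h7 : y = g (p • y) := by
      rw [← h4]
      exact (LinearEquiv.apply_symm_apply g y).symm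
    rw [map_smul] at h7
    conv_rhs => rw [h7]
    rw [smul_smul, inv_mul_cancel₀ hp0, one_smul]
  refine ⟨y, hy0, h6, S.G.mul_mem hg hg, ?_, hx, hy0, ?_, ?_⟩
  · have h8 : 1 < |p| ^ 2 := by nlinarith
    rwa [sq_abs] at h8
  · rw [LinearEquiv.mul_apply, hgx, map_smul, hgx, smul_smul, sq]
  · rw [LinearEquiv.mul_apply, h6, map_smul, h6, smul_smul, sq, mul_inv]

end Pool.Agent.H27.LZ
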