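import Pool.Agent.H27.LZ.EigR

/-!
# A large trace gives a large real eigenvalue

Choose a basis of `E` (`Module.finBasis`), let `A` be the matrix of `g` (`LinearMap.toMatrix`) and `Ac` its
complexification (`Matrix.map A (algebraMap ℝ ℂ)`).  The trace of `Ac` is the sum of the roots of its
characteristic polynomial (`Matrix.trace_eq_sum_roots_charpoly`), which has at most `finrank E` roots
(with multiplicity), so if all roots had modulus `≤ K` we would get `|trace| ≤ K * finrank E`.  So there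
is a root `λ` with `K < ‖λ‖`; `det (λ - Ac) = 0` gives `v ≠ 0` in `ℂ ^ n` with `Ac v = λ v`
(`Matrix.exists_mulVec_eq_zero_iff`).  With `λ = p + i q`, `v = a + i b` (real and imaginary parts, turned
into vectors of `E` with the basis), `g a = p a - q b`, `g b = q a + p b`, `1 < p² + q²`; `eig_real` gives
`q = 0` (so `|p| = ‖λ‖ > K`) and the real eigenvector.
-/

set_option autoImplicit false

namespace Pool.Agent.H27.LZ

variable {E : Type*} [NormedAddCommGroup E] [NormedSpace ℝ E] [FiniteDimensional ℝ E]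
  {S : Sys E}

private lemma trE_sum (s : Multiset ℂ) {K : ℝ} (h : ∀ z ∈ s, ‖z‖ ≤ K) :
    ‖s.sum‖ ≤ K * (Multiset.card s : ℝ) := by
  induction s using Multiset.induction_on with
  | empty => simp
  | cons z s ih =>
    have h1 := ih fun w hw => h w (Multiset.mem_cons_of_mem hw)
    have h2 := h z (Multiset.mem_cons_self z s)
    rw [Multiset.sum_cons, Multiset.card_cons]
    push_cast
    have h3 := norm_add_le z s.sum
    nlinarith

private lemma trE_root {n : ℕ} (A : Matrix (Fin n) (Fin n) ℝ) {K : ℝ}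
    (ht : K * (n : ℝ) < |A.trace|) :
    ∃ (z : ℂ) (v : Fin n → ℂ), K < ‖z‖ ∧ v ≠ 0 ∧
      (A.map (algebraMap ℝ ℂ)).mulVec v = z • v := by
  obtain ⟨Ac, hAc⟩ : ∃ Ac : Matrix (Fin n) (Fin n) ℂ, Ac = A.map (algebraMap ℝ ℂ) := ⟨_, rfl⟩
  have htr : Ac.trace = (A.trace : ℂ) := by
    rw [hAc, Matrix.trace, Matrix.trace]
    push_cast
    rfl
  have h1 := Matrix.trace_eq_sum_roots_charpoly Ac
  have hcard : Multiset.card Ac.charpoly.roots ≤ n := by
    have h2 := Polynomial.card_roots' Ac.charpoly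
    rwa [Matrix.charpoly_natDegree_eq_dim, Fintype.card_fin] at h2
  obtain ⟨z, hz, hKz⟩ : ∃ z ∈ Ac.charpoly.roots, K < ‖z‖ := by
    by_contra hcon
    push Not at hcon
    have h3 := trE_sum _ hcon
    rw [← h1, htr, Complex.norm_real, Real.norm_eq_abs] at h3
    rcases Nat.eq_zero_or_pos (Multiset.card Ac.charpoly.roots) with h0 | h0
    · rw [h0] at h3
      have hn : n = 0 := by
        have h4 := IsAlgClosed.card_roots_eq_natDegree (p := Ac.charpoly)
        rw [Matrix.charpoly_natDegree_eq_dim, Fintype.card_fin] at h4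
        omega
      subst hn
      simp at ht h3
    · have hK : 0 ≤ K := by
        obtain ⟨w, hw⟩ := Multiset.card_pos_iff_exists_mem.1 h0
        exact (norm_nonneg w).trans (hcon w hw)
      have h4 : K * (Multiset.card Ac.charpoly.roots : ℝ) ≤ K * n := by
        have : (Multiset.card Ac.charpoly.roots : ℝ) ≤ n := by exact_mod_cast hcard
        exact mul_le_mul_of_nonneg_left this hK
      linarith
  have h5 : (Matrix.scalar (Fin n) z - Ac).det = 0 := by
    rw [← Matrix.eval_charpoly]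
    exact (Polynomial.mem_roots'.1 hz).2
  obtain ⟨v, hv0, hv⟩ := Matrix.exists_mulVec_eq_zero_iff.2 h5
  refine ⟨z, v, hKz, hv0, ?_⟩
  rw [Matrix.sub_mulVec, sub_eq_zero] at hv
  rw [← hAc, ← hv, Matrix.scalar_apply]
  funext i
  rw [Matrix.mulVec_diagonal]
  rfl

/-- a linear map with large trace has a complex eigenvalue of large modulus -/
lemma trace_cplx (f : E →ₗ[ℝ] E) {K : ℝ} (hK : 0 ≤ K)
    (ht : K * (Module.finrank ℝ E : ℝ) < |LinearMap.trace ℝ E f|) :
    ∃ (a b : E) (p q : ℝ), (a ≠ 0 ∨ b ≠ 0) ∧ f a = p • a - q • b ∧ f b = q • a + p • b ∧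
      K ^ 2 < p ^ 2 + q ^ 2 := by
  obtain ⟨β, -⟩ : ∃ β : Module.Basis (Fin (Module.finrank ℝ E)) ℝ E, True :=
    ⟨Module.finBasis ℝ E, trivial⟩
  obtain ⟨A, hA⟩ : ∃ A, A = LinearMap.toMatrix β β f := ⟨_, rfl⟩
  rw [LinearMap.trace_eq_matrix_trace ℝ β, ← hA] at ht
  obtain ⟨z, v, hz, hv0, hv⟩ := trE_root A ht
  have hrepr : ∀ w : Fin (Module.finrank ℝ E) → ℝ,
      f (β.equivFun.symm w) = β.equivFun.symm (A.mulVec w) := by
    intro w
    apply β.equivFun.injective
    rw [LinearEquiv.apply_symm_apply]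
    have h1 := LinearMap.toMatrix_mulVec_repr β β f (β.equivFun.symm w)
    rw [← hA] at h1
    have h2 : (β.repr (β.equivFun.symm w) : Fin (Module.finrank ℝ E) → ℝ) = w := by
      have := β.equivFun.apply_symm_apply w
      exact this
    rw [h2] at h1
    rw [h1]
    rfl
  have hre : A.mulVec (fun i => (v i).re) = fun i => z.re * (v i).re - z.im * (v i).im := by
    funext i
    have h1 := congrArg Complex.re (congrFun hv i)
    simp only [Matrix.mulVec, dotProduct, Matrix.map_apply, Complex.coe_algebraMap,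
      Pi.smul_apply, smul_eq_mul, Complex.re_sum, Complex.mul_re, Complex.ofReal_re,
      Complex.ofReal_im, zero_mul, sub_zero] at h1 ⊢
    exact h1
  have him : A.mulVec (fun i => (v i).im) = fun i => z.im * (v i).re + z.re * (v i).im := by
    funext i
    have h1 := congrArg Complex.im (congrFun hv i)
    simp only [Matrix.mulVec, dotProduct, Matrix.map_apply, Complex.coe_algebraMap,
      Pi.smul_apply, smul_eq_mul, Complex.im_sum, Complex.mul_im, Complex.ofReal_re,
      Complex.ofReal_im, zero_mul, add_zero] at h1 ⊢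
    rw [h1]
    ring
  refine ⟨β.equivFun.symm fun i => (v i).re, β.equivFun.symm fun i => (v i).im, z.re, z.im,
    ?_, ?_, ?_, ?_⟩
  · by_contra hcon
    push Not at hcon
    obtain ⟨h1, h2⟩ := hcon
    apply hv0
    have h3 := (LinearEquiv.map_eq_zero_iff _).1 h1
    have h4 := (LinearEquiv.map_eq_zero_iff _).1 h2
    funext i
    exact Complex.ext (congrFun h3 i) (congrFun h4 i)
  · rw [hrepr, hre, ← map_smul, ← map_smul, ← map_sub]
    rfl
  · rw [hrepr, him, ← map_smul, ← map_smul, ← map_add]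
    rfl
  · have h1 : ‖z‖ ^ 2 = z.re ^ 2 + z.im ^ 2 := by
      rw [← Complex.normSq_eq_norm_sq, Complex.normSq_apply]
      ring
    rw [← h1]
    exact pow_lt_pow_left₀ hz hK two_ne_zero

private lemma trE_lt_abs {K p : ℝ} (h : K ^ 2 < p ^ 2) : K < |p| := by
  by_contra hcon
  push Not at hcon
  have h2 : |p| ^ 2 ≤ K ^ 2 := pow_le_pow_left₀ (abs_nonneg p) hcon 2
  rw [sq_abs] at h2
  linarith

lemma trace_eig {g : E ≃ₗ[ℝ] E} (hg : g ∈ S.G) {K : ℝ} (hK : 1 ≤ K)
    (ht : K * (Module.finrank ℝ E : ℝ) < |LinearMap.trace ℝ E (g : E →ₗ[ℝ] E)|) :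
    ∃ (x : E) (p : ℝ), x ≠ 0 ∧ g x = p • x ∧ K < |p| := by
  obtain ⟨a, b, p, q, hab, ha, hb, hpq⟩ := trace_cplx _ (zero_le_one.trans hK) ht
  have h1 : 1 < p ^ 2 + q ^ 2 := by nlinarith
  obtain ⟨hq, x, hx, hgx⟩ := eig_real hg hab ha hb h1
  refine ⟨x, p, hx, hgx, ?_⟩
  rw [hq, zero_pow two_ne_zero, add_zero] at hpq
  exact trE_lt_abs hpq

end Pool.Agent.H27.LZ
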