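import Pool.Agent.H27.LZ.PowL

/-!
# The trace of `g w^n k⁻¹`

Choose a basis `b` of `E`; `trace f = ∑ i, b.repr (f (b i)) i` (`LinearMap.trace_eq_matrix_trace`,
`LinearMap.toMatrix_apply`).  By `Hyp.pow_lim` for `k⁻¹ (b i)` and continuity of `g`,
`(l⁻¹) ^ n • (g * w ^ n * k⁻¹) (b i) → (B (k⁻¹ (b i)) y / B x y) • g x`, and
`B (k⁻¹ (b i)) y = B (b i) (k y)` (`iso_inv`).  So the limit is
`∑ i, (B (b i) (k y) / B x y) * b.repr (g x) i = B (∑ i, b.repr (g x) i • b i) (k y) / B x y`.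
(The continuity of `v ↦ b.repr v i`: `LinearMap.continuous_of_finiteDimensional`.)
-/

set_option autoImplicit false

namespace Pool.Agent.H27.LZ

open Filter Topology

variable {E : Type*} [NormedAddCommGroup E] [NormedSpace ℝ E] [FiniteDimensional ℝ E]
  {S : Sys E} {w : E ≃ₗ[ℝ] E} {x y : E} {l : ℝ}

lemma trace_lim (h : Hyp S w x y l) {g k : E ≃ₗ[ℝ] E} (hg : g ∈ S.G) (hk : k ∈ S.G) :
    Tendsto (fun n : ℕ => (l⁻¹) ^ n *
      LinearMap.trace ℝ E ((g * w ^ n * k⁻¹ : E ≃ₗ[ℝ] E) : E →ₗ[ℝ] E)) atTop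
      (𝓝 (S.B (g x) (k y) / S.B x y)) := by
  classical
  set b := Module.finBasis ℝ E with hb
  have hcoord : ∀ i, Continuous (fun v : E => b.repr v i) := fun i =>
    (b.coord i).continuous_of_finiteDimensional
  have hgc : Continuous (fun v : E => g v) :=
    (g : E →ₗ[ℝ] E).continuous_of_finiteDimensional
  have key : ∀ i, Tendsto (fun n : ℕ => (l⁻¹) ^ n * b.repr (g ((w ^ n) (k⁻¹ (b i)))) i) atTop
      (𝓝 ((S.B (b i) (k y) / S.B x y) * b.repr (g x) i)) := by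
    intro i
    have h1 := h.pow_lim (k⁻¹ (b i))
    have h2 : Tendsto (fun n : ℕ => b.repr (g ((l⁻¹) ^ n • (w ^ n) (k⁻¹ (b i)))) i) atTop
        (𝓝 (b.repr (g ((S.B (k⁻¹ (b i)) y / S.B x y) • x)) i)) :=
      (((hcoord i).comp hgc).tendsto _).comp h1
    rw [iso_inv hk] at h2
    simpa only [map_smul, Finsupp.smul_apply, smul_eq_mul] using h2
  have hsum := tendsto_finsetSum Finset.univ (fun i _ => key i)
  have e1 : ∀ n : ℕ, (l⁻¹) ^ n *
      LinearMap.trace ℝ E ((g * w ^ n * k⁻¹ : E ≃ₗ[ℝ] E) : E →ₗ[ℝ] E) =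
      ∑ i, (l⁻¹) ^ n * b.repr (g ((w ^ n) (k⁻¹ (b i)))) i := by
    intro n
    rw [LinearMap.trace_eq_matrix_trace ℝ b, Matrix.trace, Finset.mul_sum]
    refine Finset.sum_congr rfl fun i _ => ?_
    rw [Matrix.diag_apply, LinearMap.toMatrix_apply]
    rfl
  have e2 : S.B (g x) (k y) / S.B x y =
      ∑ i, (S.B (b i) (k y) / S.B x y) * b.repr (g x) i := by
    have h3 : S.B (g x) (k y) = S.B (∑ i, b.repr (g x) i • b i) (k y) := by
      rw [b.sum_repr]
    rw [h3, map_sum, LinearMap.sum_apply, Finset.sum_div]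
    refine Finset.sum_congr rfl fun i _ => ?_
    rw [map_smul, LinearMap.smul_apply, smul_eq_mul]
    ring
  rw [e2]
  exact hsum.congr fun n => (e1 n).symm

end Pool.Agent.H27.LZ
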