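import Pool.Agent.H27.LZ.CloseX
import Pool.Agent.H27.LZ.TrE
import Pool.Agent.H27.LZ.TrW
import Pool.Agent.H27.LZ.EigPair

/-!
# Every pair `(g x, k y)` with `B (g x) (k y) ≠ 0` is a limit of axes

Let `τ = B (g x) (k y) / B x y ≠ 0`, `d = finrank E > 0` (`x ≠ 0`), `κ = |τ| / (4 d)`,
`A n = g * w ^ n * k⁻¹`.  By `trace_lim`, for large `n`, `|trace (A n)| > (|τ| / 2) l ^ n ≥ κ l ^ n * d`, and
`κ l ^ n ≥ 1`.  `trace_eig` with `K = κ l ^ n`: `v, p` with `A n v = p v`, `κ l ^ n < |p|`.  `eig_pair`: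
`v'` with `A n v' = p⁻¹ v'` and `Hyp S (A n * A n) v v' (p ^ 2)`.  `close_x` for `v`.  `close_x` for `v'`:
apply it to `h.inv : Hyp S w⁻¹ y x l` with `g, k` exchanged: `(k * (w⁻¹) ^ n * g⁻¹) v' = (A n)⁻¹ v' = p v'`.
Rescale the eigenvectors (`Hyp.smul_x`, `Hyp.smul_y`).
-/

set_option autoImplicit false

namespace Pool.Agent.H27.LZ

open Filter Topology

variable {E : Type*} [NormedAddCommGroup E] [NormedSpace ℝ E] [FiniteDimensional ℝ E]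
  {S : Sys E} {w : E ≃ₗ[ℝ] E} {x y : E} {l : ℝ}

lemma close (h : Hyp S w x y l) {g k : E ≃ₗ[ℝ] E} (hg : g ∈ S.G) (hk : k ∈ S.G)
    (hne : S.B (g x) (k y) ≠ 0) {ε : ℝ} (hε : 0 < ε) :
    ∃ (w' : E ≃ₗ[ℝ] E) (x' y' : E) (l' : ℝ), Hyp S w' x' y' l' ∧ ‖x' - g x‖ < ε ∧
      ‖y' - k y‖ < ε := by
  have hl0 : 0 < l := lt_trans one_pos h.one_lt
  have hτ : S.B (g x) (k y) / S.B x y ≠ 0 := div_ne_zero hne h.xy
  set τ : ℝ := S.B (g x) (k y) / S.B x y with hτd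
  have hτp : 0 < |τ| := abs_pos.2 hτ
  have hnt : Nontrivial E := ⟨⟨x, 0, h.x_ne⟩⟩
  have hd : 0 < (Module.finrank ℝ E : ℝ) := by
    exact_mod_cast Module.finrank_pos (R := ℝ) (M := E)
  set d : ℝ := (Module.finrank ℝ E : ℝ) with hdd
  set κ : ℝ := |τ| / (4 * d) with hκd
  have hκ : 0 < κ := by positivity
  have h1 : ∀ᶠ n : ℕ in atTop, |τ| / 2 < |(l⁻¹) ^ n *
      LinearMap.trace ℝ E ((g * w ^ n * k⁻¹ : E ≃ₗ[ℝ] E) : E →ₗ[ℝ] E)| := by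
    have := (trace_lim h hg hk).abs
    exact this.eventually (lt_mem_nhds (by linarith))
  have h2 : ∀ᶠ n : ℕ in atTop, 1 / κ ≤ l ^ n :=
    (tendsto_pow_atTop_atTop_of_one_lt h.one_lt).eventually_ge_atTop _
  have h3 := close_x h hg hk hκ hε
  have h4 := close_x h.inv hk hg hκ hε
  obtain ⟨n, h1, h2, h3, h4⟩ := (h1.and (h2.and (h3.and h4))).exists
  have hln : 0 < l ^ n := pow_pos hl0 n
  have hK1 : 1 ≤ κ * l ^ n := by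
    rw [div_le_iff₀ hκ] at h2
    linarith
  have hG : g * w ^ n * k⁻¹ ∈ S.G :=
    S.G.mul_mem (S.G.mul_mem hg (S.G.pow_mem h.mem n)) (S.G.inv_mem hk)
  have hll : (l⁻¹) ^ n * l ^ n = 1 := by
    rw [← mul_pow, inv_mul_cancel₀ hl0.ne', one_pow]
  have hlin : 0 < (l⁻¹) ^ n := pow_pos (inv_pos.2 hl0) n
  have htr : κ * l ^ n * d <
      |LinearMap.trace ℝ E ((g * w ^ n * k⁻¹ : E ≃ₗ[ℝ] E) : E →ₗ[ℝ] E)| := by
    rw [abs_mul, abs_of_pos hlin] at h1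
    have h5 : |τ| / 2 * l ^ n < (l⁻¹) ^ n *
        |LinearMap.trace ℝ E ((g * w ^ n * k⁻¹ : E ≃ₗ[ℝ] E) : E →ₗ[ℝ] E)| * l ^ n :=
      mul_lt_mul_of_pos_right h1 hln
    have h6 : (l⁻¹) ^ n *
        |LinearMap.trace ℝ E ((g * w ^ n * k⁻¹ : E ≃ₗ[ℝ] E) : E →ₗ[ℝ] E)| * l ^ n =
        |LinearMap.trace ℝ E ((g * w ^ n * k⁻¹ : E ≃ₗ[ℝ] E) : E →ₗ[ℝ] E)| := by
      rw [mul_right_comm, hll, one_mul]
    rw [h6] at h5
    have h7 : κ * d = |τ| / 4 := by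
      rw [hκd]
      field_simp
    have h8 : κ * l ^ n * d = |τ| / 4 * l ^ n := by rw [← h7]; ring
    rw [h8]
    have h9 : 0 < |τ| * l ^ n := mul_pos hτp hln
    linarith
  obtain ⟨v, p, hv0, hv, hp⟩ := trace_eig hG hK1 htr
  have hp1 : 1 < |p| := lt_of_le_of_lt hK1 hp
  have hp0 : p ≠ 0 := by
    rintro rfl
    simp at hp1
    linarith
  obtain ⟨v', hv0', hv', hH⟩ := eig_pair hG hv0 hv hp1
  obtain ⟨c, hc0, hc⟩ := h3 v p hv0 hp.le hv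
  have hinv : (k * (w⁻¹) ^ n * g⁻¹ : E ≃ₗ[ℝ] E) = (g * w ^ n * k⁻¹)⁻¹ := by
    simp only [mul_inv_rev, inv_inv, inv_pow, mul_assoc]
  have hv'' : (k * (w⁻¹) ^ n * g⁻¹ : E ≃ₗ[ℝ] E) v' = p • v' := by
    rw [hinv]
    have h10 : (g * w ^ n * k⁻¹ : E ≃ₗ[ℝ] E) (p • v') = v' := by
      rw [map_smul, hv', smul_smul, mul_inv_cancel₀ hp0, one_smul]
    calc (g * w ^ n * k⁻¹ : E ≃ₗ[ℝ] E)⁻¹ v'
        = (g * w ^ n * k⁻¹ : E ≃ₗ[ℝ] E)⁻¹ ((g * w ^ n * k⁻¹ : E ≃ₗ[ℝ] E) (p • v')) := by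
          rw [h10]
      _ = ((g * w ^ n * k⁻¹ : E ≃ₗ[ℝ] E)⁻¹ * (g * w ^ n * k⁻¹ : E ≃ₗ[ℝ] E)) (p • v') := rfl
      _ = p • v' := by
          rw [inv_mul_cancel]
          rfl
  obtain ⟨c', hc0', hc'⟩ := h4 v' p hv0' hp.le hv''
  exact ⟨_, c • v, c' • v', p ^ 2, (hH.smul_x hc0).smul_y hc0', hc, hc'⟩

end Pool.Agent.H27.LZ
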