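import Pool.Agent.H27.LZ.PowL
import Pool.Agent.H27.LZ.Avoid

/-!
# Directions of the orbit of `x0` near to a given light-like vector

`dir_F`: `z ∈ F` with `Hyp S w z zb l`.  `avoid2` for `x0` with `a = z`, `b = zb`: `h ∈ G` with
`B (h x0) z ≠ 0`, `B (h x0) zb ≠ 0`.  `Hyp.pow_dir`: `c n • (w ^ n) (h x0) → z`, `c n ≠ 0`; and
`B ((w ^ n) (h x0)) z = B (h x0) ((w ^ n)⁻¹ z) = (l⁻¹) ^ n * B (h x0) z ≠ 0`.
`dirB`: take `z ∈ F` near to `v`.  If `B z v ≠ 0`: `T` near enough to `z` (`dir_F`) also has `B T v ≠ 0`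
(continuity).  If `B z v = 0`: `v = c z`... `z = c v`, `c ≠ 0` (`light_prop`), so `B T z ≠ 0` gives `B T v ≠ 0`.
-/

set_option autoImplicit false

namespace Pool.Agent.H27.LZ

open Filter Topology

variable {E : Type*} [NormedAddCommGroup E] [NormedSpace ℝ E] [FiniteDimensional ℝ E]
  {S : Sys E} {x0 : E}

lemma dir_F (hF : Full S) (hdim : 3 ≤ Module.finrank ℝ E) (hx0 : x0 ∈ F S) {z : E}
    (hz : z ∈ F S) {ε : ℝ} (hε : 0 < ε) : ∃ (τ : ℝ) (h : E ≃ₗ[ℝ] E), τ ≠ 0 ∧ h ∈ S.G ∧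
      ‖τ • h x0 - z‖ < ε ∧ S.B (h x0) z ≠ 0 := by
  obtain ⟨w, zb, l, H⟩ := hz
  obtain ⟨h, hh, h1, h2⟩ := avoid2 hF hdim hx0 H.xx H.x_ne H.yy H.y_ne
  obtain ⟨c, hc, hlim⟩ := H.pow_dir h2
  have hev := (Metric.tendsto_nhds.1 hlim ε hε).exists
  obtain ⟨n, hn⟩ := hev
  have hw : w ^ n ∈ S.G := S.G.pow_mem H.mem n
  refine ⟨c n, w ^ n * h, hc n, S.G.mul_mem hw hh, ?_, ?_⟩
  · rw [dist_eq_norm] at hn
    rw [LinearEquiv.mul_apply]
    exact hn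
  · have e1 : S.B ((w ^ n * h) x0) z = (l⁻¹) ^ n * S.B (h x0) z := by
      rw [LinearEquiv.mul_apply, S.symm]
      have e2 := iso_inv (S := S) hw z (h x0)
      rw [H.ipow_x] at e2
      rw [← e2, map_smul, LinearMap.smul_apply, smul_eq_mul, S.symm]
    rw [e1]
    have hl : l⁻¹ ≠ 0 := inv_ne_zero (by have := H.one_lt; positivity)
    exact mul_ne_zero (pow_ne_zero _ hl) h1

lemma dirB (hF : Full S) (hdim : 3 ≤ Module.finrank ℝ E) (hx0 : x0 ∈ F S) {v : E}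
    (hv : S.B v v = 0) (hv0 : v ≠ 0) (hlim : ∀ ε > 0, ∃ z ∈ F S, ‖z - v‖ < ε) {ε : ℝ}
    (hε : 0 < ε) : ∃ (τ : ℝ) (h : E ≃ₗ[ℝ] E), τ ≠ 0 ∧ h ∈ S.G ∧ ‖τ • h x0 - v‖ < ε ∧
      S.B (h x0) v ≠ 0 := by
  obtain ⟨z, hz, hzv⟩ := hlim (ε / 2) (by positivity)
  have htri : ∀ u : E, ‖u - z‖ < ε / 2 → ‖u - v‖ < ε := by
    intro u hu
    have h8 : ‖u - v‖ ≤ ‖u - z‖ + ‖z - v‖ := by
      have := norm_add_le (u - z) (z - v)
      simpa using this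
    linarith
  by_cases h0 : S.B z v = 0
  · obtain ⟨c, hc⟩ := light_prop (F_light hz) hv h0 (F_ne hz)
    obtain ⟨τ, h, hτ, hh, h1, h2⟩ := dir_F hF hdim hx0 hz (ε := ε / 2) (by positivity)
    refine ⟨τ, h, hτ, hh, htri _ h1, ?_⟩
    have hc0 : c ≠ 0 := by
      rintro rfl
      exact hv0 (by rw [hc, zero_smul])
    rw [hc, map_smul, smul_eq_mul]
    exact mul_ne_zero hc0 h2
  · have hc : Continuous fun u : E => S.B u v :=
      (B_cont S).comp (continuous_id.prodMk continuous_const)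
    have hev : ∀ᶠ u in 𝓝 z, S.B u v ≠ 0 := hc.continuousAt.eventually_ne h0
    obtain ⟨δ, hδ, hδ'⟩ := Metric.eventually_nhds_iff.1 hev
    obtain ⟨τ, h, hτ, hh, h1, h2⟩ := dir_F hF hdim hx0 hz (ε := min (ε / 2) δ)
      (lt_min (by positivity) hδ)
    refine ⟨τ, h, hτ, hh, htri _ (lt_of_lt_of_le h1 (min_le_left _ _)), ?_⟩
    have h3 := hδ' (y := τ • h x0) (by
      rw [dist_eq_norm]
      exact lt_of_lt_of_le h1 (min_le_right _ _))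
    intro h4
    apply h3
    rw [map_smul, LinearMap.smul_apply, h4, smul_zero]

end Pool.Agent.H27.LZ
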