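import Pool.Agent.H27.LZ.ClF
import Pool.Agent.H27.LZ.Close
import Pool.Agent.H27.LZ.DirB

/-!
# All pairs of limits of fixed vectors are limits of axes

`F` is nonempty (`h1`), so take `h0 : Hyp S w0 x0 y0 l0`.  Let `δ > 0` be such that `‖a - z1‖ < δ`, `‖b - z2‖ < δ`
imply `B a b ≠ 0` (`B_cont`), `δ ≤ ε / 2`.  Take `z1' ∈ F`, `z2' ∈ F` within `δ / 2`, then by `dir_F` (for `x0`,
and for `y0 ∈ F`) `a = τ • h x0`, `b = τ' • h' y0` within `δ / 2` of `z1'`, `z2'`.  So `B (h x0) (h' y0) ≠ 0`, and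
`close h0` gives an axis `(x, y)` with `‖x - h x0‖`, `‖y - h' y0‖` small; rescale by `τ`, `τ'`
(`Hyp.smul_x`, `Hyp.smul_y`).
-/

set_option autoImplicit false

namespace Pool.Agent.H27.LZ

open Filter Topology

variable {E : Type*} [NormedAddCommGroup E] [NormedSpace ℝ E] [FiniteDimensional ℝ E]
  {S : Sys E}

lemma ax_F (hF : Full S) (hdim : 3 ≤ Module.finrank ℝ E) {z1 z2 : E} (h1 : ClF S z1)
    (h2 : ClF S z2) (hne : S.B z1 z2 ≠ 0) {ε : ℝ} (hε : 0 < ε) :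
    ∃ (w : E ≃ₗ[ℝ] E) (x y : E) (l : ℝ), Hyp S w x y l ∧ ‖x - z1‖ < ε ∧ ‖y - z2‖ < ε := by
  obtain ⟨x0, hx0, -⟩ := h1 1 one_pos
  obtain ⟨w0, y0, l0, h0⟩ := hx0
  have hx0F : x0 ∈ F S := h0.x_mem
  have hy0F : y0 ∈ F S := h0.y_mem
  have hev : ∀ᶠ p : E × E in 𝓝 (z1, z2), S.B p.1 p.2 ≠ 0 :=
    (B_cont S).continuousAt.eventually_ne hne
  obtain ⟨δ0, hδ0, hball⟩ := Metric.eventually_nhds_iff.1 hev
  have hδ : 0 < min δ0 (ε / 2) := lt_min hδ0 (by positivity)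
  obtain ⟨z1', hz1', hd1⟩ := h1 (min δ0 (ε / 2) / 2) (by positivity)
  obtain ⟨z2', hz2', hd2⟩ := h2 (min δ0 (ε / 2) / 2) (by positivity)
  obtain ⟨τ, h, hτ, hh, hd3, -⟩ := dir_F hF hdim hx0F hz1' (ε := min δ0 (ε / 2) / 2)
    (by positivity)
  obtain ⟨τ', h', hτ', hh', hd4, -⟩ := dir_F hF hdim hy0F hz2' (ε := min δ0 (ε / 2) / 2)
    (by positivity)
  have ha : ‖τ • h x0 - z1‖ < min δ0 (ε / 2) := by
    have h3 := norm_add_le (τ • h x0 - z1') (z1' - z1)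
    rw [sub_add_sub_cancel] at h3
    linarith
  have hb : ‖τ' • h' y0 - z2‖ < min δ0 (ε / 2) := by
    have h3 := norm_add_le (τ' • h' y0 - z2') (z2' - z2)
    rw [sub_add_sub_cancel] at h3
    linarith
  have hB : S.B (τ • h x0) (τ' • h' y0) ≠ 0 := by
    refine hball (y := (τ • h x0, τ' • h' y0)) ?_
    rw [Prod.dist_eq, dist_eq_norm, dist_eq_norm]
    exact max_lt (ha.trans_le (min_le_left _ _)) (hb.trans_le (min_le_left _ _))
  have hB' : S.B (h x0) (h' y0) ≠ 0 := by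
    intro h3
    apply hB
    simp only [map_smul, LinearMap.smul_apply, smul_eq_mul, h3, mul_zero]
  have hT : 0 < |τ| + |τ'| := add_pos (abs_pos.2 hτ) (abs_pos.2 hτ')
  obtain ⟨w', x', y', l', hw', hx', hy'⟩ := close h0 hh hh' hB'
    (ε := ε / 2 / (|τ| + |τ'|)) (by positivity)
  have key : ∀ t : ℝ, |t| ≤ |τ| + |τ'| → ∀ p q z : E, ‖p - q‖ < ε / 2 / (|τ| + |τ'|) →
      ‖t • q - z‖ < min δ0 (ε / 2) → ‖t • p - z‖ < ε := by
    intro t ht p q z hpq hqz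
    have h3 := norm_add_le (t • p - t • q) (t • q - z)
    rw [sub_add_sub_cancel, ← smul_sub, norm_smul, Real.norm_eq_abs] at h3
    have h4 : |t| * ‖p - q‖ ≤ (|τ| + |τ'|) * (ε / 2 / (|τ| + |τ'|)) :=
      mul_le_mul ht hpq.le (norm_nonneg _) hT.le
    rw [mul_div_cancel₀ _ hT.ne'] at h4
    have h5 : ‖t • q - z‖ < ε / 2 := hqz.trans_le (min_le_right _ _)
    linarith
  refine ⟨w', τ • x', τ' • y', l', (hw'.smul_x hτ).smul_y hτ', ?_, ?_⟩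
  · exact key τ (by linarith [abs_nonneg τ']) _ _ _ hx' ha
  · exact key τ' (by linarith [abs_nonneg τ]) _ _ _ hy' hb

end Pool.Agent.H27.LZ
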