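import Pool.Agent.H27.LZ.HypB

/-!
# Continuity of the form, and boundedness on the complement of an axis

`B_cont`: a bilinear map on a finite dimensional space is continuous (`LinearMap.mkContinuous₂OfFinite...`
or: `LinearMap.toContinuousLinearMap` twice; or write `B u v = ∑ i, ∑ j, ...` in a basis, with continuous
coordinates `LinearMap.continuous_of_finiteDimensional`).
`B_tendsto`: from `B_cont`.
`U_norm`: on the subspace `U = {u | B u x = 0, B u y = 0}` the form is positive definite (`U_pos`), so on the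
compact set of the unit vectors of `U` the continuous function `B u u` has a positive minimum `c`
(`IsCompact.exists_isMinOn`; if there is no unit vector in `U` then `U = 0`, take `c = 1`); scaling.
`pow_bdd`: `c ‖(w^n) u‖² ≤ B ((w^n) u) ((w^n) u) = B u u`, by `U_norm` and `Hyp.pow_orth`.
-/

set_option autoImplicit false

namespace Pool.Agent.H27.LZ

open Filter Topology

variable {E : Type*} [NormedAddCommGroup E] [NormedSpace ℝ E] [FiniteDimensional ℝ E]
  {S : Sys E} {w : E ≃ₗ[ℝ] E} {x y : E} {l : ℝ}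

lemma B_cont (S : Sys E) : Continuous fun p : E × E => S.B p.1 p.2 := by
  have h1 : Continuous fun p : E × E => (LinearMap.toContinuousLinearMap (S.B p.1)) p.2 := by
    have h2 : Continuous fun u : E => LinearMap.toContinuousLinearMap (S.B u) := by
      have h3 : Continuous ((LinearMap.toContinuousLinearMap : (E →ₗ[ℝ] ℝ) ≃ₗ[ℝ] (E →L[ℝ] ℝ)).toLinearMap ∘ₗ S.B) :=
        LinearMap.continuous_of_finiteDimensional _
      exact h3
    exact (h2.comp continuous_fst).clm_apply continuous_snd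
  exact h1

lemma B_tendsto {ι : Type*} {f : Filter ι} {u v : ι → E} {a b : E} (hu : Tendsto u f (𝓝 a))
    (hv : Tendsto v f (𝓝 b)) : Tendsto (fun i => S.B (u i) (v i)) f (𝓝 (S.B a b)) := by
  have h1 := (B_cont S).tendsto (a, b)
  exact h1.comp (hu.prodMk_nhds hv)

lemma equiv_tendsto {ι : Type*} {f : Filter ι} {u : ι → E} {a : E} (g : E ≃ₗ[ℝ] E)
    (hu : Tendsto u f (𝓝 a)) : Tendsto (fun i => g (u i)) f (𝓝 (g a)) := by
  have h1 : Continuous g := LinearMap.continuous_of_finiteDimensional g.toLinearMap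
  exact (h1.tendsto a).comp hu

lemma U_norm (hx : S.B x x = 0) (hxy : S.B x y ≠ 0) : ∃ c : ℝ, 0 < c ∧ ∀ u, S.B u x = 0 →
    S.B u y = 0 → c * ‖u‖ ^ 2 ≤ S.B u u := by
  classical
  by_cases hne : ∃ u : E, u ≠ 0 ∧ S.B u x = 0 ∧ S.B u y = 0
  · have hBx : Continuous fun u : E => S.B u x := (B_cont S).comp (continuous_id.prodMk continuous_const)
    have hBy : Continuous fun u : E => S.B u y := (B_cont S).comp (continuous_id.prodMk continuous_const)
    have hBu : Continuous fun u : E => S.B u u := (B_cont S).comp (continuous_id.prodMk continuous_id)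
    have hK : IsCompact (Metric.sphere (0 : E) 1 ∩ ({u | S.B u x = 0} ∩ {u | S.B u y = 0})) := by
      apply (isCompact_sphere (0 : E) 1).inter_right
      exact (isClosed_eq hBx continuous_const).inter (isClosed_eq hBy continuous_const)
    obtain ⟨u0, hu0, hux0, huy0⟩ := hne
    have hn0 : ‖u0‖ ≠ 0 := norm_ne_zero_iff.mpr hu0
    have hsx : ∀ (c : ℝ) (u : E), S.B (c • u) x = c * S.B u x := by
      intro c u
      rw [map_smul S.B, LinearMap.smul_apply, smul_eq_mul]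
    have hsy : ∀ (c : ℝ) (u : E), S.B (c • u) y = c * S.B u y := by
      intro c u
      rw [map_smul S.B, LinearMap.smul_apply, smul_eq_mul]
    have hsu : ∀ (c : ℝ) (u : E), S.B (c • u) (c • u) = c * (c * S.B u u) := by
      intro c u
      rw [map_smul (S.B (c • u)), map_smul S.B, LinearMap.smul_apply, smul_eq_mul, smul_eq_mul]
    have hKne : (Metric.sphere (0 : E) 1 ∩ ({u | S.B u x = 0} ∩ {u | S.B u y = 0})).Nonempty := by
      refine ⟨‖u0‖⁻¹ • u0, ?_, ?_, ?_⟩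
      · rw [mem_sphere_zero_iff_norm, norm_smul, norm_inv, norm_norm, inv_mul_cancel₀ hn0]
      · change S.B (‖u0‖⁻¹ • u0) x = 0
        rw [hsx, hux0, mul_zero]
      · change S.B (‖u0‖⁻¹ • u0) y = 0
        rw [hsy, huy0, mul_zero]
    obtain ⟨v, hv, hmin⟩ := hK.exists_isMinOn hKne hBu.continuousOn
    have hv1 : ‖v‖ = 1 := mem_sphere_zero_iff_norm.mp hv.1
    have hvx : S.B v x = 0 := hv.2.1
    have hvy : S.B v y = 0 := hv.2.2
    have hv0 : v ≠ 0 := by
      intro h0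
      rw [h0, norm_zero] at hv1
      exact zero_ne_one hv1
    refine ⟨S.B v v, U_pos hx hxy hvx hvy hv0, ?_⟩
    intro u hux huy
    by_cases hu : u = 0
    · rw [hu, norm_zero]
      simp
    · have hn : ‖u‖ ≠ 0 := norm_ne_zero_iff.mpr hu
      have hmem : ‖u‖⁻¹ • u ∈ Metric.sphere (0 : E) 1 ∩ ({u | S.B u x = 0} ∩ {u | S.B u y = 0}) := by
        refine ⟨?_, ?_, ?_⟩
        · rw [mem_sphere_zero_iff_norm, norm_smul, norm_inv, norm_norm, inv_mul_cancel₀ hn]
        · change S.B (‖u‖⁻¹ • u) x = 0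
          rw [hsx, hux, mul_zero]
        · change S.B (‖u‖⁻¹ • u) y = 0
          rw [hsy, huy, mul_zero]
      have h1 : S.B v v ≤ S.B (‖u‖⁻¹ • u) (‖u‖⁻¹ • u) := hmin hmem
      rw [hsu] at h1
      have h2 : 0 < ‖u‖ := norm_pos_iff.mpr hu
      calc S.B v v * ‖u‖ ^ 2 ≤ (‖u‖⁻¹ * (‖u‖⁻¹ * S.B u u)) * ‖u‖ ^ 2 :=
            mul_le_mul_of_nonneg_right h1 (by positivity)
        _ = S.B u u := by
            field_simp
  · refine ⟨1, one_pos, ?_⟩
    intro u hux huy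
    by_cases hu : u = 0
    · rw [hu, norm_zero]
      simp
    · exact absurd ⟨u, hu, hux, huy⟩ hne

lemma Hyp.pow_bdd (h : Hyp S w x y l) : ∃ C : ℝ, 0 ≤ C ∧ ∀ u, S.B u x = 0 → S.B u y = 0 →
    ∀ n : ℕ, ‖(w ^ n) u‖ ≤ C * ‖u‖ ∧ ‖(w ^ n)⁻¹ u‖ ≤ C * ‖u‖ := by
  obtain ⟨c, hc, hcu⟩ := U_norm h.xx h.xy
  have hBuu : ∃ D : ℝ, 0 ≤ D ∧ ∀ u : E, S.B u u ≤ D * ‖u‖ ^ 2 := by
    have hcont : Continuous fun u : E => LinearMap.toContinuousLinearMap (S.B u) := by
      have h3 : Continuous ((LinearMap.toContinuousLinearMap : (E →ₗ[ℝ] ℝ) ≃ₗ[ℝ] (E →L[ℝ] ℝ)).toLinearMap ∘ₗ S.B) :=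
        LinearMap.continuous_of_finiteDimensional _
      exact h3
    let L : E →L[ℝ] (E →L[ℝ] ℝ) := LinearMap.toContinuousLinearMap
      ((LinearMap.toContinuousLinearMap : (E →ₗ[ℝ] ℝ) ≃ₗ[ℝ] (E →L[ℝ] ℝ)).toLinearMap ∘ₗ S.B)
    refine ⟨‖L‖, ContinuousLinearMap.opNorm_nonneg L, ?_⟩
    intro u
    have h1 : S.B u u = L u u := rfl
    rw [h1]
    calc L u u ≤ ‖L u u‖ := le_trans (le_abs_self _) (le_of_eq (Real.norm_eq_abs _).symm)
      _ ≤ ‖L‖ * ‖u‖ * ‖u‖ := L.le_opNorm₂ u u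
      _ = ‖L‖ * ‖u‖ ^ 2 := by ring
  obtain ⟨D, hD, hDu⟩ := hBuu
  refine ⟨Real.sqrt (D / c), Real.sqrt_nonneg _, ?_⟩
  have key : ∀ u v : E, S.B v x = 0 → S.B v y = 0 → S.B v v = S.B u u → ‖v‖ ≤ Real.sqrt (D / c) * ‖u‖ := by
    intro u v hvx hvy hvu
    have h1 := hcu v hvx hvy
    have h2 := hDu u
    rw [hvu] at h1
    have h3 : ‖v‖ ^ 2 ≤ D / c * ‖u‖ ^ 2 := by
      rw [div_mul_eq_mul_div, le_div_iff₀ hc]
      linarith
    have h4 : Real.sqrt (D / c) * ‖u‖ = Real.sqrt (D / c * ‖u‖ ^ 2) := by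
      rw [Real.sqrt_mul (by positivity), Real.sqrt_sq (norm_nonneg _)]
    rw [h4]
    exact Real.le_sqrt_of_sq_le h3
  intro u hux huy n
  have hg : w ^ n ∈ S.G := S.G.pow_mem h.mem n
  obtain ⟨h1, h2, h3, h4⟩ := h.pow_orth n hux huy
  refine ⟨key u _ h1 h2 (S.iso _ hg u u), key u _ h3 h4 (S.iso _ (S.G.inv_mem hg) u u)⟩

end Pool.Agent.H27.LZ
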