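import Mathlib

set_option autoImplicit false

/-!
# Limit directions versus unimodular eigendirections (MP_de6c1e_al, Q2): definitions

Geometric Coxeter systems, Lorentzian systems, the group `W` acting on `V = ℝⁿ`, limit directions, hyperbolic
elements and their unimodular subspaces, exactly as in the problem file.
-/

open scoped LinearAlgebra.Projectivization
open Filter Topology

namespace Pool.Agent.H27.LZ.Cox

/-- The space `V = ℝⁿ`; the standard basis plays the role of the simple roots. -/
abbrev V (n : ℕ) : Type := Fin n → ℝ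

/-- The usual (quotient) topology on the real projective space `ℙ V`. -/
@[instance_reducible]
def projTopology (n : ℕ) : TopologicalSpace (ℙ ℝ (V n)) :=
  inferInstanceAs (TopologicalSpace (Quotient (projectivizationSetoid ℝ (V n))))

/-- The data of a geometric Coxeter system of finite rank `n`: a Coxeter matrix `m`
(Mathlib's convention: the entry `0` stands for `∞`) and real numbers `c s t = c t s ≥ 1`
(only used when `m s t = ∞`). -/
structure GeomCoxeter (n : ℕ) where
  m : CoxeterMatrix (Fin n)
  c : Fin n → Fin n → ℝ
  c_symm : ∀ s t, c s t = c t s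
  one_le_c : ∀ s t, 1 ≤ c s t

namespace GeomCoxeter

variable {n : ℕ} (X : GeomCoxeter n)

/-- The matrix `B`: `-cos (π / m s t)` if `m s t < ∞` and `-c s t` if `m s t = ∞`. -/
noncomputable def gram (s t : Fin n) : ℝ :=
  if X.m s t = 0 then -X.c s t else -Real.cos (Real.pi / X.m s t)

/-- The bilinear form `𝓑` on `V`. -/
noncomputable def form (x y : V n) : ℝ := ∑ s, ∑ t, x s * X.gram s t * y t

/-- The simple root `α_s`. -/
def root (s : Fin n) : V n := Pi.single s 1

/-- The form has signature `(n-1, 1)`. -/
def IsLorentzian : Prop :=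
  ∃ (b : Module.Basis (Fin n) ℝ (V n)) (i₀ : Fin n),
    X.form (b i₀) (b i₀) < 0 ∧ (∀ i, i ≠ i₀ → 0 < X.form (b i) (b i)) ∧
      ∀ i j, i ≠ j → X.form (b i) (b j) = 0

theorem form_root_root (s t : Fin n) : X.form (root s) (root t) = X.gram s t := by
  simp only [form, root]
  rw [Finset.sum_eq_single s]
  · rw [Finset.sum_eq_single t]
    · simp
    · intro b _ hb; simp [hb]
    · simp
  · intro b _ hb; simp [hb]
  · simp

theorem gram_self (s : Fin n) : X.gram s s = 1 := by
  simp [gram]

theorem form_root_self (s : Fin n) : X.form (root s) (root s) = 1 := by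
  rw [form_root_root, gram_self]

theorem form_add_left (x y z : V n) : X.form (x + y) z = X.form x z + X.form y z := by
  simp only [form, Pi.add_apply, add_mul, Finset.sum_add_distrib]

theorem form_smul_left (a : ℝ) (x z : V n) : X.form (a • x) z = a * X.form x z := by
  simp only [form, Pi.smul_apply, smul_eq_mul, Finset.mul_sum, mul_assoc]

/-- The reflection `σ_{α_s} : x ↦ x - 2 𝓑(x, α_s) / 𝓑(α_s, α_s) α_s`, as a linear map. -/
noncomputable def reflLin (s : Fin n) : V n →ₗ[ℝ] V n where
  toFun x := x - (2 * X.form x (root s) / X.form (root s) (root s)) • root s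
  map_add' x y := by
    rw [form_add_left, form_root_self]; module
  map_smul' a x := by
    rw [form_smul_left, form_root_self]; simp only [RingHom.id_apply]; module

/-- The reflection `σ_{α_s}` as an element of the general linear group. -/
noncomputable def simpleReflection (s : Fin n) : V n ≃ₗ[ℝ] V n :=
  LinearEquiv.ofInvolutive (X.reflLin s) (by
    intro x
    have h1 : X.reflLin s x = x + (-(2 * X.form x (root s))) • root s := by
      change x - (2 * X.form x (root s) / X.form (root s) (root s)) • root s = _
      rw [form_root_self]; module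
    have h2 : X.form (X.reflLin s x) (root s) = - X.form x (root s) := by
      rw [h1, form_add_left, form_smul_left, form_root_self]; ring
    change X.reflLin s x - (2 * X.form (X.reflLin s x) (root s) /
      X.form (root s) (root s)) • root s = x
    rw [h2, h1, form_root_self]; module)

/-- The group `W`, realised (faithfully) on `V`: the group generated by the simple
reflections. -/
noncomputable def W : Subgroup (V n ≃ₗ[ℝ] V n) :=
  Subgroup.closure (Set.range X.simpleReflection)

/-- `p` is the limit of an injective sequence of points of the orbit `W · p₀`. -/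
def IsLimitOf (p₀ p : ℙ ℝ (V n)) : Prop :=
  ∃ u : ℕ → ℙ ℝ (V n), Function.Injective u ∧ (∀ k, ∃ w ∈ X.W, u k = w • p₀) ∧
    Tendsto u atTop (@nhds _ (projTopology n) p)

/-- The set `E_V` of limit directions. -/
def limitDirections : Set (ℙ ℝ (V n)) := {p | ∃ p₀, X.IsLimitOf p₀ p}

theorem root_ne_zero (s : Fin n) : (root s : V n) ≠ 0 := by
  simp [root]

/-- `w` has a (complex) eigenvalue of modulus `> 1`. -/
def IsHyperbolic (w : V n ≃ₗ[ℝ] V n) : Prop :=
  ∃ (z : ℂ) (u : Fin n → ℂ), 1 < ‖z‖ ∧ u ≠ 0 ∧
    ((LinearMap.toMatrix' (w : V n →ₗ[ℝ] V n)).map (algebraMap ℝ ℂ)).mulVec u = z • u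

/-- The unimodular subspace `U_w`: the vectors orthogonal to all eigenvectors of `w` whose
eigenvalue has modulus different from `1` (for `w` hyperbolic these are `x_w` and `y_w`, up to
scalars). -/
def unimodularSubspace (w : V n ≃ₗ[ℝ] V n) : Submodule ℝ (V n) where
  carrier := {v | ∀ (t : ℝ) (x : V n), |t| ≠ 1 → w x = t • x → X.form v x = 0}
  add_mem' := by
    intro a b ha hb t x ht hx
    rw [form_add_left, ha t x ht hx, hb t x ht hx, add_zero]
  zero_mem' := by
    intro t x _ _
    simp [form]
  smul_mem' := by
    intro c a ha t x ht hx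
    rw [form_smul_left, ha t x ht hx, mul_zero]

/-- The set `𝒰_hyp`, the union of the `ℙ U_w` over all hyperbolic `w ∈ W`. -/
def unimodularDirections : Set (ℙ ℝ (V n)) :=
  {p | ∃ w ∈ X.W, IsHyperbolic w ∧ p.submodule ≤ X.unimodularSubspace w}

end GeomCoxeter

/-- The Lorentzian component of the system is an infinite dihedral group: there are two simple
roots `α_s, α_t` with `m s t = ∞` and `c s t > 1`, orthogonal to all other simple roots. -/
def Degenerate {n : ℕ} (X : GeomCoxeter n) : Prop :=
  ∃ s t : Fin n, s ≠ t ∧ X.m s t = 0 ∧ 1 < X.c s t ∧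
    ∀ r, r ≠ s → r ≠ t → X.m r s = 2 ∧ X.m r t = 2

end Pool.Agent.H27.LZ.Cox
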