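import Pool.Agent.H27.LZ.HypB

/-!
# Eigenvalues of modulus greater than one are real

`g (a + i b) = (p + i q) (a + i b)`.  From the isometry property
`B a a = p² B a a - 2 p q B a b + q² B b b`, `B b b = q² B a a + 2 p q B a b + p² B b b`,
`B a b = p q (B a a - B b b) + (p² - q²) B a b`.
With `D = B a a - B b b`, `M = B a b`: `D = (p² - q²) D - 4 p q M`, `M = p q D + (p² - q²) M`; the
determinant `(p² - q² - 1)² + 4 p² q²` is positive (it is `|λ² - 1|²`, zero only for `λ² = 1`, i.e.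
`q = 0, p² = 1`), so `D = M = 0`.  Sum: `B a a + B b b = (p² + q²) (B a a + B b b)`, so
`B a a + B b b = 0`.  Hence `B a a = B b b = B a b = 0`.
If `a ≠ 0`: `b = c a` (`light_prop`); `g a = (p - q c) a`, `g b = c g a = (q + p c) a`, so
`c p - q c² = q + p c`, `q (1 + c²) = 0`, `q = 0`, and `x = a`.  If `a = 0`: `b ≠ 0`, `0 = g a = - q b`, so
`q = 0`, `x = b`.
-/

set_option autoImplicit false

namespace Pool.Agent.H27.LZ

variable {E : Type*} [NormedAddCommGroup E] [NormedSpace ℝ E] {S : Sys E}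

lemma eig_light {g : E ≃ₗ[ℝ] E} (hg : g ∈ S.G) {a b : E} {p q : ℝ}
    (ha : g a = p • a - q • b) (hb : g b = q • a + p • b) (h1 : 1 < p ^ 2 + q ^ 2) :
    S.B a a = 0 ∧ S.B b b = 0 ∧ S.B a b = 0 := by
  have haa := S.iso g hg a a
  have hbb := S.iso g hg b b
  have hab := S.iso g hg a b
  have hs := S.symm b a
  rw [ha] at haa
  rw [hb] at hbb
  rw [ha, hb] at hab
  simp only [map_add, map_sub, map_smul, LinearMap.add_apply, LinearMap.sub_apply,
    LinearMap.smul_apply, smul_eq_mul] at haa hbb hab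
  rw [hs] at haa hbb hab
  generalize S.B a a = X at *
  generalize S.B b b = Y at *
  generalize S.B a b = M at *
  have hD : (p ^ 2 - q ^ 2 - 1) * (X - Y) - 4 * (p * q) * M = 0 := by linarith
  have hM : (p * q) * (X - Y) + (p ^ 2 - q ^ 2 - 1) * M = 0 := by linarith
  have hdet : 0 < (p ^ 2 - q ^ 2 - 1) ^ 2 + 4 * (p * q) ^ 2 := by
    have h2 : (p ^ 2 - q ^ 2 - 1) ^ 2 + 4 * (p * q) ^ 2
        = (p ^ 2 + q ^ 2 - 1) ^ 2 + 4 * q ^ 2 := by ring
    rw [h2]
    have h3 : 0 < (p ^ 2 + q ^ 2 - 1) ^ 2 := by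
      have : 0 < p ^ 2 + q ^ 2 - 1 := by linarith
      positivity
    positivity
  have hD0 : ((p ^ 2 - q ^ 2 - 1) ^ 2 + 4 * (p * q) ^ 2) * (X - Y) = 0 := by
    linear_combination (p ^ 2 - q ^ 2 - 1) * hD + 4 * (p * q) * hM
  have hM0 : ((p ^ 2 - q ^ 2 - 1) ^ 2 + 4 * (p * q) ^ 2) * M = 0 := by
    linear_combination (p ^ 2 - q ^ 2 - 1) * hM - (p * q) * hD
  have hD1 : X - Y = 0 := (mul_eq_zero.1 hD0).resolve_left hdet.ne'
  have hM1 : M = 0 := (mul_eq_zero.1 hM0).resolve_left hdet.ne'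
  have hS : (p ^ 2 + q ^ 2 - 1) * (X + Y) = 0 := by linarith
  have hS1 : X + Y = 0 := by
    refine (mul_eq_zero.1 hS).resolve_left ?_
    have : 0 < p ^ 2 + q ^ 2 - 1 := by linarith
    exact this.ne'
  exact ⟨by linarith, by linarith, hM1⟩

lemma eig_real {g : E ≃ₗ[ℝ] E} (hg : g ∈ S.G) {a b : E} {p q : ℝ} (hab : a ≠ 0 ∨ b ≠ 0)
    (ha : g a = p • a - q • b) (hb : g b = q • a + p • b) (h1 : 1 < p ^ 2 + q ^ 2) :
    q = 0 ∧ ∃ x : E, x ≠ 0 ∧ g x = p • x := by
  obtain ⟨haa, hbb, hM⟩ := eig_light hg ha hb h1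
  by_cases h0 : a = 0
  · have hb0 : b ≠ 0 := by
      rcases hab with h | h
      · exact absurd h0 h
      · exact h
    have h2 : q • b = 0 := by
      rw [h0, map_zero, smul_zero, zero_sub] at ha
      exact neg_eq_zero.1 ha.symm
    have hq : q = 0 := (smul_eq_zero.1 h2).resolve_right hb0
    refine ⟨hq, b, hb0, ?_⟩
    rw [hb, hq, zero_smul, zero_add]
  · obtain ⟨c, hc⟩ := light_prop haa hbb hM h0
    have hga : g a = (p - q * c) • a := by
      rw [ha, hc, smul_smul, sub_smul]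
    have hgb : g b = (c * (p - q * c)) • a := by
      rw [hc, map_smul, hga, smul_smul]
    have hgb2 : g b = (q + p * c) • a := by
      rw [hb, hc, smul_smul, add_smul]
    have h3 : (c * (p - q * c)) = q + p * c := by
      have h4 : (c * (p - q * c)) • a = (q + p * c) • a := hgb.symm.trans hgb2
      have h5 : ((c * (p - q * c)) - (q + p * c)) • a = 0 := by
        rw [sub_smul, h4, sub_self]
      have := (smul_eq_zero.1 h5).resolve_right h0
      linarith
    have h6 : q * (1 + c ^ 2) = 0 := by linear_combination (-1 : ℝ) * h3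
    have hq : q = 0 := by
      refine (mul_eq_zero.1 h6).resolve_right ?_
      positivity
    refine ⟨hq, a, h0, ?_⟩
    rw [ha, hq, zero_smul, sub_zero]

end Pool.Agent.H27.LZ
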