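import Pool.Agent.H27.LZ.CForm
import Pool.Agent.H27.LZ.EigR
import Pool.Agent.H27.LZ.EigPair

/-!
# Hyperbolic elements of `W`

`u = a + i b` (`a i = (u i).re`, `b i = (u i).im`), `z = p + i q`.  Comparing real and imaginary parts of
`(A.map (algebraMap ℝ ℂ)).mulVec u = z • u` with `A = toMatrix' w`: `w a = p a - q b`, `w b = q a + p b`
(`LinearMap.toMatrix'_mulVec`; `Matrix.mulVec`, `Complex.ext_iff`, `Complex.re_sum`).  `a ≠ 0` or `b ≠ 0`.
`1 < ‖z‖` gives `1 < p² + q²`.  `eig_real`: `q = 0` and `x ≠ 0` with `w x = p x`; `1 < |p|`.  `eig_pair`: `y`.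
For `v` in the unimodular subspace: apply the definition with `(p, x)` and `(p⁻¹, y)` (`|p⁻¹| ≠ 1`).
The same computation was done in `hyperbolic_real` of
`Pool/Agent/Results/MP_de6c1e_al/IdealTriangle.lean` (lines 334-380).
-/

set_option autoImplicit false

/-!
# Hyperbolic elements of `W`

`u = a + i b` (`a i = (u i).re`, `b i = (u i).im`), `z = p + i q`.  Comparing real and imaginary parts of
`(A.map (algebraMap ℝ ℂ)).mulVec u = z • u` with `A = toMatrix' w`: `w a = p a - q b`, `w b = q a + p b`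
(`LinearMap.toMatrix'_mulVec`; `Matrix.mulVec`, `Complex.ext_iff`, `Complex.re_sum`).  `a ≠ 0` or `b ≠ 0`.
`1 < ‖z‖` gives `1 < p² + q²`.  `eig_real`: `q = 0` and `x ≠ 0` with `w x = p x`; `1 < |p|`.  `eig_pair`: `y`.
For `v` in the unimodular subspace: apply the definition with `(p, x)` and `(p⁻¹, y)` (`|p⁻¹| ≠ 1`).
The same computation was done in `hyperbolic_real` of
`Pool/Agent/Results/MP_de6c1e_al/IdealTriangle.lean` (lines 334-380).
-/

namespace Pool.Agent.H27.LZ.Cox

open GeomCoxeter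

variable {n : ℕ} (X : GeomCoxeter n)

lemma hyp_of_hyperbolic (hX : X.IsLorentzian) {w : V n ≃ₗ[ℝ] V n} (hw : w ∈ X.W)
    (h : IsHyperbolic w) : ∃ (x y : V n) (l : ℝ), Hyp (sysV X hX) (w * w) x y l ∧
      ∀ v ∈ X.unimodularSubspace w, bil X v x = 0 ∧ bil X v y = 0 := by
  obtain ⟨z, u, hz, hu, hwu⟩ := h
  have hwG : w ∈ (sysV X hX).G := hw
  set a : V n := fun i => (u i).re with ha
  set b : V n := fun i => (u i).im with hb
  have hmul : ∀ x : V n, w x = (LinearMap.toMatrix' (w : V n →ₗ[ℝ] V n)).mulVec x := by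
    intro x
    rw [LinearMap.toMatrix'_mulVec]; rfl
  have key : ∀ i, (w a) i = z.re * a i - z.im * b i ∧ (w b) i = z.im * a i + z.re * b i := by
    intro i
    have h1 := congrFun hwu i
    rw [hmul, hmul]
    simp only [Matrix.mulVec, dotProduct, Matrix.map_apply, Pi.smul_apply, smul_eq_mul] at h1 ⊢
    constructor
    · have h2 := congrArg Complex.re h1
      rw [Complex.re_sum, Complex.mul_re] at h2
      rw [← h2]
      apply Finset.sum_congr rfl
      intro j _
      simp [ha]
    · have h2 := congrArg Complex.im h1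
      rw [Complex.im_sum, Complex.mul_im] at h2
      rw [add_comm, ← h2]
      apply Finset.sum_congr rfl
      intro j _
      simp [hb]
  have hwa : w a = z.re • a - z.im • b := by
    ext i; rw [(key i).1]; simp
  have hwb : w b = z.im • a + z.re • b := by
    ext i; rw [(key i).2]; simp
  have hr : 1 < z.re ^ 2 + z.im ^ 2 := by
    have : ‖z‖ ^ 2 = z.re ^ 2 + z.im ^ 2 := by
      rw [← Complex.normSq_eq_norm_sq, Complex.normSq_apply]; ring
    rw [← this]
    nlinarith
  have hab : a ≠ 0 ∨ b ≠ 0 := by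
    by_contra hcon
    push Not at hcon
    apply hu
    ext i
    apply Complex.ext
    · exact congrFun hcon.1 i
    · exact congrFun hcon.2 i
  obtain ⟨hq, x, hx, hwx⟩ := eig_real hwG hab hwa hwb hr
  have hp : 1 < |z.re| := by
    rw [hq] at hr
    have h1 : 1 < |z.re| ^ 2 := by rw [sq_abs]; linarith
    by_contra hcon
    push Not at hcon
    nlinarith [abs_nonneg z.re]
  obtain ⟨y, hy, hwy, hyp⟩ := eig_pair hwG hx hwx hp
  have hp' : |z.re⁻¹| ≠ 1 := by
    rw [abs_inv]
    intro h1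
    rw [inv_eq_one] at h1
    linarith
  refine ⟨x, y, z.re ^ 2, hyp, fun v hv => ⟨?_, ?_⟩⟩
  · exact hv z.re x (ne_of_gt hp) hwx
  · exact hv z.re⁻¹ y hp' hwy

end Pool.Agent.H27.LZ.Cox
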