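import Pool.Agent.H27.LZ.HypB

/-!
# The span of an orbit

`orbSpan S x0` is the span of the orbit of `x0 ∈ F S`; `NoLine S`: no light-like line is invariant.
`orb_inv`: the generators are permuted (`Submodule.span_induction`).
`orb_nd`: let `u ∈ L = orbSpan S x0` be orthogonal to `L`, `u ≠ 0`.  Then `B u u = 0`; for `g ∈ G`,
`g u ∈ L` so `B u (g u) = 0`, `B (g u) (g u) = 0`, hence `g u = c u` (`light_prop`), contradicting `NoLine`.
`orb_dec`: `B` restricted to `L` is nondegenerate (`orb_nd`), so `E = L ⊕ L^⊥`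
(`LinearMap.BilinForm.isCompl_orthogonal_of_restrict_nondegenerate`; or by hand: the map
`L → Dual L`, `a ↦ B a` is injective so surjective; take `a` with `B a z = B v z` for all `z ∈ L`).
`orb_pos`: `b` orthogonal to `L`, `b ≠ 0`.  If `b, x0` are independent, `S.lor` gives
`0 < B (s b + t x0) (s b + t x0) = s² B b b`.  If not, `b = c x0 ∈ L` (`x0 ≠ 0`) and `orb_nd` gives `b = 0`.
`orb_x`: `h : Hyp S w x y l`; write `x = a + b` (`orb_dec`).  `w a ∈ L` and `w b` is orthogonal to `L` (`L` is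
invariant under `w⁻¹`), so `w a - l a = - (w b - l b)` is in `L` and orthogonal to `L`, so `w b = l b`,
`B b b = l² B b b`, `B b b = 0`, `b = 0` (`orb_pos`).
`orb_y`: the same (`Hyp.inv`).
`orb_eq`: `x1 ∈ F S` is in `L` by `orb_x`, so `orbSpan S x1 ≤ orbSpan S x0`; symmetric.
-/

set_option autoImplicit false

namespace Pool.Agent.H27.LZ

variable {E : Type*} [NormedAddCommGroup E] [NormedSpace ℝ E]

/-- no invariant light-like line -/
def NoLine (S : Sys E) : Prop :=
  ∀ e : E, e ≠ 0 → S.B e e = 0 → ∃ g ∈ S.G, ∀ c : ℝ, g e ≠ c • e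

/-- the span of the orbit of `x` -/
def orbSpan (S : Sys E) (x : E) : Submodule ℝ E := Submodule.span ℝ {z | ∃ g ∈ S.G, z = g x}

variable {S : Sys E} {x0 : E}

lemma orb_mem (S : Sys E) (x0 : E) : x0 ∈ orbSpan S x0 := by
  refine Submodule.subset_span ⟨1, one_mem _, ?_⟩
  rfl

lemma orb_inv {g : E ≃ₗ[ℝ] E} (hg : g ∈ S.G) {z : E} (hz : z ∈ orbSpan S x0) :
    g z ∈ orbSpan S x0 := by
  unfold orbSpan at hz ⊢
  induction hz using Submodule.span_induction with
  | mem a ha =>
    obtain ⟨k, hk, rfl⟩ := ha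
    refine Submodule.subset_span ⟨g * k, mul_mem hg hk, ?_⟩
    rw [LinearEquiv.mul_apply]
  | zero => rw [map_zero]; exact Submodule.zero_mem _
  | add a b _ _ ha hb => rw [map_add]; exact Submodule.add_mem _ ha hb
  | smul c a _ ha => rw [map_smul]; exact Submodule.smul_mem _ _ ha

lemma orb_nd (hL : NoLine S) {u : E} (hu : u ∈ orbSpan S x0)
    (h : ∀ z ∈ orbSpan S x0, S.B u z = 0) : u = 0 := by
  by_contra h0
  have huu : S.B u u = 0 := h u hu
  obtain ⟨g, hg, hne⟩ := hL u h0 huu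
  have h1 : S.B u (g u) = 0 := h _ (orb_inv hg hu)
  have h2 : S.B (g u) (g u) = 0 := by rw [S.iso g hg]; exact huu
  obtain ⟨c, hc⟩ := light_prop huu h2 h1 h0
  exact hne c hc

variable [FiniteDimensional ℝ E]

lemma orb_dec (hL : NoLine S) (x0 v : E) :
    ∃ a b : E, v = a + b ∧ a ∈ orbSpan S x0 ∧ ∀ z ∈ orbSpan S x0, S.B b z = 0 := by
  let φ : orbSpan S x0 →ₗ[ℝ] Module.Dual ℝ (orbSpan S x0) :=
    { toFun := fun a => (S.B (a : E)).comp (orbSpan S x0).subtype
      map_add' := fun a b => by ext z; simp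
      map_smul' := fun c a => by ext z; simp }
  have hinj : Function.Injective φ := by
    rw [injective_iff_map_eq_zero]
    intro a ha
    refine Subtype.ext (orb_nd hL a.2 fun z hz => ?_)
    have h1 := LinearMap.congr_fun ha ⟨z, hz⟩
    exact h1
  have hsurj : Function.Surjective φ :=
    (LinearMap.injective_iff_surjective_of_finrank_eq_finrank
      (Subspace.dual_finrank_eq (K := ℝ) (V := orbSpan S x0)).symm).1 hinj
  obtain ⟨a, ha⟩ := hsurj ((S.B v).comp (orbSpan S x0).subtype)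
  refine ⟨a, v - a, by abel, a.2, fun z hz => ?_⟩
  have h1 : S.B (a : E) z = S.B v z := LinearMap.congr_fun ha ⟨z, hz⟩
  rw [map_sub, LinearMap.sub_apply, h1, sub_self]

lemma orb_pos (hL : NoLine S) (hx0 : x0 ∈ F S) {b : E}
    (hb : ∀ z ∈ orbSpan S x0, S.B b z = 0) (hb0 : b ≠ 0) : 0 < S.B b b := by
  by_cases hli : LinearIndependent ℝ ![x0, b]
  · obtain ⟨s, t, hst⟩ := S.lor x0 b hli
    have h1 : S.B b x0 = 0 := hb _ (orb_mem S x0)
    have h2 : S.B x0 b = 0 := by rw [S.symm]; exact h1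
    have h3 : S.B x0 x0 = 0 := F_light hx0
    have h4 : S.B (s • x0 + t • b) (s • x0 + t • b) = t * t * S.B b b := by
      simp only [map_add, map_smul, LinearMap.add_apply, LinearMap.smul_apply, smul_eq_mul,
        h1, h2, h3]
      ring
    rw [h4] at hst
    by_contra h5
    push Not at h5
    have h6 : t * t * S.B b b ≤ 0 := mul_nonpos_of_nonneg_of_nonpos (mul_self_nonneg t) h5
    exact absurd hst (not_lt.2 h6)
  · exfalso
    rw [LinearIndependent.pair_iff' (F_ne hx0)] at hli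
    push Not at hli
    obtain ⟨c, hc⟩ := hli
    have hbL : b ∈ orbSpan S x0 := by
      rw [← hc]; exact Submodule.smul_mem _ _ (orb_mem S x0)
    exact hb0 (orb_nd hL hbL hb)

private lemma lspan_eig (hL : NoLine S) (hx0 : x0 ∈ F S) {w : E ≃ₗ[ℝ] E} {x : E} {l : ℝ}
    (hw : w ∈ S.G) (hl : 1 < l) (hx : w x = l • x) : x ∈ orbSpan S x0 := by
  obtain ⟨a, b, hab, ha, hb⟩ := orb_dec hL x0 x
  have h1 : w a - l • a = -(w b - l • b) := by
    have h2 : w a + w b = l • a + l • b := by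
      rw [← map_add, ← hab, hx, hab, smul_add]
    have h3 : w a - l • a + (w b - l • b) = 0 := by
      rw [← sub_eq_zero] at h2
      rw [← h2]; abel
    exact eq_neg_of_add_eq_zero_left h3
  have hwa : w a - l • a ∈ orbSpan S x0 :=
    Submodule.sub_mem _ (orb_inv hw ha) (Submodule.smul_mem _ _ ha)
  have hwb : ∀ z ∈ orbSpan S x0, S.B (w b - l • b) z = 0 := by
    intro z hz
    have h4 : S.B (w b) z = 0 := by
      have h5 : z = w (w⁻¹ z) := by
        rw [← LinearEquiv.mul_apply, mul_inv_cancel]; rfl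
      rw [h5, S.iso w hw]
      exact hb _ (orb_inv (inv_mem hw) hz)
    rw [map_sub, LinearMap.sub_apply, map_smul, LinearMap.smul_apply, h4, hb z hz]
    simp
  have h6 : w b - l • b = 0 := by
    refine orb_nd (x0 := x0) hL ?_ hwb
    have h7 : w b - l • b = -(w a - l • a) := by rw [h1, neg_neg]
    rw [h7]
    exact Submodule.neg_mem _ hwa
  have h8 : w b = l • b := sub_eq_zero.1 h6
  have h9 : S.B b b = l * l * S.B b b := by
    have h10 := S.iso w hw b b
    rw [h8] at h10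
    simp only [map_smul, LinearMap.smul_apply, smul_eq_mul] at h10
    rw [mul_assoc]
    exact h10.symm
  have h11 : b = 0 := by
    by_contra hb0
    have h12 := orb_pos hL hx0 hb hb0
    have h13 : 1 < l * l := by nlinarith
    nlinarith
  rw [hab, h11, add_zero]
  exact ha

lemma orb_x (hL : NoLine S) (hx0 : x0 ∈ F S) {w : E ≃ₗ[ℝ] E} {x y : E} {l : ℝ}
    (h : Hyp S w x y l) : x ∈ orbSpan S x0 :=
  lspan_eig hL hx0 h.mem h.one_lt h.wx

lemma orb_y (hL : NoLine S) (hx0 : x0 ∈ F S) {w : E ≃ₗ[ℝ] E} {x y : E} {l : ℝ}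
    (h : Hyp S w x y l) : y ∈ orbSpan S x0 :=
  orb_x hL hx0 h.inv

lemma orb_eq (hL : NoLine S) (hx0 : x0 ∈ F S) {x1 : E} (hx1 : x1 ∈ F S) :
    orbSpan S x1 = orbSpan S x0 := by
  have key : ∀ {a b : E}, a ∈ F S → b ∈ F S → orbSpan S b ≤ orbSpan S a := by
    intro a b ha hb
    obtain ⟨w, y, l, hw⟩ := hb
    have h1 : b ∈ orbSpan S a := orb_x hL ha hw
    refine Submodule.span_le.2 ?_
    rintro z ⟨g, hg, rfl⟩
    exact orb_inv hg h1
  exact le_antisymm (key hx0 hx1) (key hx1 hx0)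

end Pool.Agent.H27.LZ
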