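import Pool.Agent.H27.LZ.CDefs
import Pool.Agent.H27.LZ.LSpan

/-!
# The system of a Lorentzian geometric Coxeter system

`bil X` is the form as a bilinear form (`Matrix.toBilin'`-free: the sums are bilinear).
`bil_symm`: the matrix `gram` is symmetric (`CoxeterMatrix.symmetric`, `c_symm`), `Finset.sum_comm`.
`bil_nondeg`: `u` orthogonal to every `b i` of the orthogonal basis `b`; `u = ∑ c i • b i`, so
`0 = B u (b i) = c i * B (b i) (b i)`, `c i = 0`.
`bil_lor`: `p, q` independent with `i₀`-coordinates `p₀, q₀` in the basis `b`.  If `q₀ = 0` take `s = 0, t = 1`,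
otherwise `s = q₀`, `t = - p₀`: the vector `v = s p + t q` is nonzero and its `i₀`-coordinate vanishes, so
`B v v = ∑ i ≠ i₀, (c i)² B (b i) (b i) > 0`.
`W_iso`: `Subgroup.closure_induction`; for a simple reflection compute (`form_root_self`).
-/

set_option autoImplicit false

namespace Pool.Agent.H27.LZ.Cox

open GeomCoxeter

variable {n : ℕ} (X : GeomCoxeter n)

/-- the form as a bilinear form -/
noncomputable def bil : LinearMap.BilinForm ℝ (V n) :=
  LinearMap.mk₂ ℝ X.form (fun a b c => X.form_add_left a b c)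
    (fun c a b => X.form_smul_left c a b)
    (fun a b c => by
      simp only [form, Pi.add_apply, mul_add, Finset.sum_add_distrib])
    (fun c a b => by
      simp only [form, Pi.smul_apply, smul_eq_mul, Finset.mul_sum]
      exact Finset.sum_congr rfl fun i _ => Finset.sum_congr rfl fun j _ => by ring)

lemma bil_apply (u v : V n) : bil X u v = X.form u v := rfl

private lemma cf_gram_symm (s t : Fin n) : X.gram s t = X.gram t s := by
  have h1 : X.m s t = X.m t s := X.m.symmetric s t
  have h2 := X.c_symm s t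
  simp only [gram, h1, h2]

lemma bil_symm (u v : V n) : bil X u v = bil X v u := by
  simp only [bil_apply, form]
  rw [Finset.sum_comm]
  refine Finset.sum_congr rfl fun s _ => Finset.sum_congr rfl fun t _ => ?_
  rw [cf_gram_symm X t s]
  ring

private lemma cf_left (b : Module.Basis (Fin n) ℝ (V n))
    (ho : ∀ i j, i ≠ j → X.form (b i) (b j) = 0) (u : V n) (i : Fin n) :
    bil X u (b i) = b.repr u i * X.form (b i) (b i) := by
  conv_lhs => rw [← b.sum_repr u]
  rw [map_sum, LinearMap.sum_apply, Finset.sum_eq_single i]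
  · rw [map_smul, LinearMap.smul_apply, smul_eq_mul, bil_apply]
  · intro j _ hj
    rw [map_smul, LinearMap.smul_apply, smul_eq_mul, bil_apply, ho j i hj, mul_zero]
  · intro h
    exact absurd (Finset.mem_univ i) h

private lemma cf_sq (b : Module.Basis (Fin n) ℝ (V n))
    (ho : ∀ i j, i ≠ j → X.form (b i) (b j) = 0) (u : V n) :
    bil X u u = ∑ i, b.repr u i ^ 2 * X.form (b i) (b i) := by
  have h : bil X u u = bil X u (∑ i, b.repr u i • b i) := by rw [b.sum_repr u]
  rw [h, map_sum]
  refine Finset.sum_congr rfl fun i _ => ?_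
  rw [map_smul, smul_eq_mul, cf_left X b ho]
  ring

private lemma cf_pos (b : Module.Basis (Fin n) ℝ (V n)) (i₀ : Fin n)
    (hp : ∀ i, i ≠ i₀ → 0 < X.form (b i) (b i))
    (ho : ∀ i j, i ≠ j → X.form (b i) (b j) = 0) (u : V n) (hu : u ≠ 0)
    (h0 : b.repr u i₀ = 0) : 0 < bil X u u := by
  rw [cf_sq X b ho]
  have hne : ∃ i, b.repr u i ≠ 0 := by
    by_contra hcon
    push Not at hcon
    apply hu
    apply b.repr.injective
    rw [map_zero]
    exact Finsupp.ext hcon
  obtain ⟨i, hi⟩ := hne
  have hi0 : i ≠ i₀ := fun h => hi (h ▸ h0)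
  refine Finset.sum_pos' (fun j _ => ?_) ⟨i, Finset.mem_univ i, ?_⟩
  · by_cases hj : j = i₀
    · rw [hj, h0]
      simp
    · exact mul_nonneg (sq_nonneg _) (hp j hj).le
  · exact mul_pos (by positivity) (hp i hi0)

lemma bil_nondeg (hX : X.IsLorentzian) (u : V n) (h : ∀ v, bil X u v = 0) : u = 0 := by
  obtain ⟨b, i₀, hn, hp, ho⟩ := hX
  apply b.repr.injective
  rw [map_zero]
  refine Finsupp.ext fun i => ?_
  have h1 := h (b i)
  rw [cf_left X b ho] at h1
  have h2 : X.form (b i) (b i) ≠ 0 := by
    by_cases hi : i = i₀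
    · rw [hi]
      exact hn.ne
    · exact (hp i hi).ne'
  exact (mul_eq_zero.1 h1).resolve_right h2

lemma bil_lor (hX : X.IsLorentzian) (a b : V n) (hab : LinearIndependent ℝ ![a, b]) :
    ∃ s t : ℝ, 0 < bil X (s • a + t • b) (s • a + t • b) := by
  obtain ⟨e, i₀, hn, hp, ho⟩ := hX
  rw [LinearIndependent.pair_iff] at hab
  by_cases hq : e.repr b i₀ = 0
  · refine ⟨0, 1, cf_pos X e i₀ hp ho _ ?_ ?_⟩
    · intro h
      exact one_ne_zero (hab 0 1 h).2
    · rw [zero_smul, zero_add, one_smul]
      exact hq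
  · refine ⟨e.repr b i₀, - e.repr a i₀, cf_pos X e i₀ hp ho _ ?_ ?_⟩
    · intro h
      exact hq (hab _ _ h).1
    · rw [map_add, map_smul, map_smul, Finsupp.add_apply, Finsupp.smul_apply, Finsupp.smul_apply,
        smul_eq_mul, smul_eq_mul]
      ring

lemma W_iso (g : V n ≃ₗ[ℝ] V n) (hg : g ∈ X.W) (u v : V n) :
    bil X (g u) (g v) = bil X u v := by
  unfold W at hg
  induction hg using Subgroup.closure_induction generalizing u v with
  | mem g hg =>
    obtain ⟨s, rfl⟩ := hg
    have h1 : ∀ x : V n, X.simpleReflection s x = x - (2 * bil X x (root s)) • root s := by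
      intro x
      change x - (2 * X.form x (root s) / X.form (root s) (root s)) • root s = _
      rw [form_root_self, div_one]
      rfl
    have h2 : bil X (root s) (root s) = 1 := form_root_self X s
    rw [h1 u, h1 v]
    simp only [map_sub, map_smul, LinearMap.sub_apply, LinearMap.smul_apply, smul_eq_mul, h2,
      bil_symm X (root s) v]
    ring
  | one => rfl
  | mul g h _ _ hg hh =>
    change bil X (g (h u)) (g (h v)) = _
    rw [hg, hh]
  | inv g _ hg =>
    have h1 := hg (g⁻¹ u) (g⁻¹ v)
    have h2 : ∀ x : V n, g (g⁻¹ x) = x := fun x => g.apply_symm_apply x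
    rw [h2, h2] at h1
    exact h1.symm

/-- the system of a Lorentzian geometric Coxeter system -/
noncomputable def sysV (hX : X.IsLorentzian) : Sys (V n) where
  B := bil X
  symm := bil_symm X
  nondeg := bil_nondeg X hX
  lor := bil_lor X hX
  G := X.W
  iso := W_iso X

end Pool.Agent.H27.LZ.Cox
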