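import Pool.Agent.H27.LZ.CForm
import Pool.Agent.H27.LZ.Abs

/-!
# No invariant light-like line; lifts

`σ_s x = x - 2 B(x, α_s) α_s` (`refl_app`, from `form_root_self`).
`noLine`: suppose `g e ∈ ℝ e` for all `g ∈ W`.  For every `s`: `2 B(e, α_s) α_s = (1 - c) e`; if `B(e, α_s) ≠ 0`
then `α_s = k e` and `1 = B(α_s, α_s) = k² B(e, e) = 0`.  So `B(e, α_s) = 0` for all `s`, hence `B(e, ·) = 0`
(`e`-linear combination of the roots: `v = ∑ v s • root s`), `e = 0`.
`lift`: `L = orbSpan S x0`.  For every `s` either `α_s ∈ L` or `α_s` is orthogonal to `L`: if `B(v, α_s) ≠ 0` for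
some `v ∈ L`, then `v - σ_s v = 2 B(v, α_s) α_s ∈ L` (`orb_inv`).  Induction (`Subgroup.closure_induction`) on
`g ∈ W` for the statement of `Lift`: `1`; for `σ_s`: `σ_s` itself if `α_s ∈ L` (it fixes `L^⊥`), `1` if `α_s` is
orthogonal to `L` (then `σ_s` fixes `L`); products and inverses (for the inverse: `g⁻¹ z ∈ L`).
-/

set_option autoImplicit false

namespace Pool.Agent.H27.LZ.Cox

open GeomCoxeter

variable {n : ℕ} (X : GeomCoxeter n)

lemma refl_app (s : Fin n) (x : V n) :
    X.simpleReflection s x = x - (2 * X.form x (root s)) • root s := by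
  change x - (2 * X.form x (root s) / X.form (root s) (root s)) • root s = _
  rw [form_root_self, div_one]

private lemma refl_mem (s : Fin n) : X.simpleReflection s ∈ X.W :=
  Subgroup.subset_closure ⟨s, rfl⟩

private lemma vec_dec (v : V n) : v = ∑ s, v s • (root s : V n) := by
  ext j
  rw [Finset.sum_apply, Finset.sum_eq_single j]
  · simp [root]
  · intro b _ hb
    simp [root, Ne.symm hb]
  · intro h
    exact absurd (Finset.mem_univ j) h

lemma noLine (hX : X.IsLorentzian) : NoLine (sysV X hX) := by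
  intro e he hee
  by_contra hcon
  push Not at hcon
  have hB : ∀ s : Fin n, bil X e (root s) = 0 := by
    intro s
    by_contra hne
    obtain ⟨c, hc⟩ := hcon _ (refl_mem X s)
    rw [refl_app] at hc
    have h1 : (2 * X.form e (root s)) • (root s : V n) = (1 - c) • e := by
      rw [sub_smul, one_smul, ← hc]
      abel
    have h2 : (root s : V n) = ((2 * X.form e (root s))⁻¹ * (1 - c)) • e := by
      rw [mul_smul, ← h1, smul_smul, inv_mul_cancel₀, one_smul]
      exact mul_ne_zero two_ne_zero hne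
    have h3 : bil X (root s) (root s) = 1 := X.form_root_self s
    have h4 : bil X e e = 0 := hee
    rw [h2] at h3
    simp only [map_smul, LinearMap.smul_apply, smul_eq_mul, h4] at h3
    simp at h3
  apply he
  apply bil_nondeg X hX
  intro v
  rw [vec_dec v, map_sum]
  refine Finset.sum_eq_zero fun s _ => ?_
  rw [map_smul, hB, smul_zero]

lemma lift (hX : X.IsLorentzian) : Lift (sysV X hX) := by
  intro x0 hx0 g hg
  have hbil : ∀ u v : V n, (sysV X hX).B u v = X.form u v := fun _ _ => rfl
  have hinv : ∀ k ∈ X.W, ∀ z ∈ orbSpan (sysV X hX) x0, k z ∈ orbSpan (sysV X hX) x0 :=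
    fun k hk z hz => orb_inv (S := sysV X hX) hk hz
  change ∃ g' ∈ X.W, _
  change g ∈ X.W at hg
  unfold GeomCoxeter.W at hg
  induction hg using Subgroup.closure_induction with
  | mem x hx =>
    obtain ⟨s, rfl⟩ := hx
    by_cases hs : (root s : V n) ∈ orbSpan (sysV X hX) x0
    · refine ⟨X.simpleReflection s, refl_mem X s, fun z _ => rfl, fun b hb => ?_⟩
      rw [refl_app]
      have := hb _ hs
      rw [hbil] at this
      rw [this, mul_zero, zero_smul, sub_zero]
    · refine ⟨1, one_mem _, fun z hz => ?_, fun b _ => rfl⟩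
      have h0 : X.form z (root s) = 0 := by
        by_contra hne
        apply hs
        have h1 := hinv _ (refl_mem X s) z hz
        rw [refl_app] at h1
        have h2 := Submodule.sub_mem _ hz h1
        rw [sub_sub_cancel] at h2
        exact (Submodule.smul_mem_iff _ (mul_ne_zero two_ne_zero hne)).1 h2
      rw [refl_app, h0, mul_zero, zero_smul, sub_zero]
      rfl
  | one => exact ⟨1, one_mem _, fun z _ => rfl, fun b _ => rfl⟩
  | mul x y hx hy ihx ihy =>
    obtain ⟨x', hx', hx1, hx2⟩ := ihx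
    obtain ⟨y', hy', hy1, hy2⟩ := ihy
    refine ⟨x' * y', mul_mem hx' hy', fun z hz => ?_, fun b hb => ?_⟩
    · rw [LinearEquiv.mul_apply, LinearEquiv.mul_apply, hy1 z hz]
      exact hx1 _ (hinv y hy z hz)
    · rw [LinearEquiv.mul_apply, hy2 b hb, hx2 b hb]
  | inv x hx ihx =>
    obtain ⟨x', hx', hx1, hx2⟩ := ihx
    refine ⟨x'⁻¹, inv_mem hx', fun z hz => ?_, fun b hb => ?_⟩
    · have h1 := hx1 _ (hinv _ (inv_mem hx) z hz)
      have h2 : x' (x⁻¹ z) = z := by
        rw [h1, ← LinearEquiv.mul_apply, mul_inv_cancel]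
        rfl
      calc x'⁻¹ z = x'⁻¹ (x' (x⁻¹ z)) := by rw [h2]
        _ = x⁻¹ z := by rw [← LinearEquiv.mul_apply, inv_mul_cancel]; rfl
    · have h1 := hx2 b hb
      calc x'⁻¹ b = x'⁻¹ (x' b) := by rw [h1]
        _ = b := by rw [← LinearEquiv.mul_apply, inv_mul_cancel]; rfl

end Pool.Agent.H27.LZ.Cox
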