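import Pool.Agent.H27.LZ.CDefs

/-!
# The topology of the projective space

`projTopology n` is the quotient topology of `{v // v ≠ 0}` for the map `v ↦ [v]`.
`cont_mk`: the quotient map is continuous (`continuous_quotient_mk'`; see the end of `isLimit` in
`Pool/Agent/Results/MP_de6c1e_al/IdealTriangle.lean`).
`isOpen_image`: for `O` open in `V n` the set `{p | ∃ u, u ≠ 0, u ∈ O, p = [u]}` is open: its preimage is
`{v ≠ 0 | ∃ c ≠ 0, c • v ∈ O}`, a union of open sets (`isOpen_coinduced`, `Projectivization.mk_eq_mk_iff'`).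
`closure_rep`: the set of `isOpen_image` for the ball `‖u - v‖ < ε` is an open neighbourhood of `[v]`, so it
meets `U` (`mem_closure_iff`).
`isClosed_pt`: the preimage of `[v]` in `{u // u ≠ 0}` is `{u | u ∈ span {v}}`, closed.
`inj_sub`: if `z k → z`, `z k ≠ z` in a space with closed points, there is a strictly increasing `φ` with
`z ∘ φ` injective: for every `m`, eventually `z k ∉ {z 0, …, z m}` (the complement of a finite set not
containing `z` is a neighbourhood of `z`); choose `φ (j + 1) > φ j` beyond the bound for `m = φ j`.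
`limit_of`: for `ε = 1 / (k + 1)` get `g k`; `z k = g k • [p] = [g k p]` (`Projectivization.smul_mk` or
see `W_smul_mk` in the file above) tends to `[v]` (`cont_mk`; `tendsto_subtype_rng`), `z k ≠ [v]`; `inj_sub`.
-/

set_option autoImplicit false

open scoped LinearAlgebra.Projectivization
open Filter Topology

namespace Pool.Agent.H27.LZ.Cox

open GeomCoxeter

variable {n : ℕ}

lemma cont_mk : @Continuous {v : V n // v ≠ 0} (ℙ ℝ (V n)) _ (projTopology n)
    (fun v => Projectivization.mk ℝ v.1 v.2) := continuous_quotient_mk'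

lemma isOpen_iff (s : Set (ℙ ℝ (V n))) : @IsOpen _ (projTopology n) s ↔
    IsOpen ((fun v : {v : V n // v ≠ 0} => Projectivization.mk ℝ v.1 v.2) ⁻¹' s) := Iff.rfl

lemma isOpen_image {O : Set (V n)} (hO : IsOpen O) : @IsOpen _ (projTopology n)
    {p : ℙ ℝ (V n) | ∃ (u : V n) (hu : u ≠ 0), u ∈ O ∧ p = Projectivization.mk ℝ u hu} := by
  rw [isOpen_iff]
  have h1 : ((fun v : {v : V n // v ≠ 0} => Projectivization.mk ℝ v.1 v.2) ⁻¹'
      {p : ℙ ℝ (V n) | ∃ (u : V n) (hu : u ≠ 0), u ∈ O ∧ p = Projectivization.mk ℝ u hu})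
      = ⋃ a : ℝ, (fun v : {v : V n // v ≠ 0} => a • v.1) ⁻¹' (O ∩ {0}ᶜ) := by
    ext v
    simp only [Set.mem_preimage, Set.mem_ofPred_eq, Set.mem_iUnion, Set.mem_inter_iff,
      Set.mem_compl_iff, Set.mem_singleton_iff]
    constructor
    · rintro ⟨u, hu, hO, h⟩
      obtain ⟨a, ha⟩ := (Projectivization.mk_eq_mk_iff' ℝ u v.1 hu v.2).1 h.symm
      exact ⟨a, by rw [ha]; exact hO, by rw [ha]; exact hu⟩
    · rintro ⟨a, h2, h3⟩
      refine ⟨a • v.1, h3, h2, ?_⟩
      exact ((Projectivization.mk_eq_mk_iff' ℝ (a • v.1) v.1 h3 v.2).2 ⟨a, rfl⟩).symm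
  rw [h1]
  refine isOpen_iUnion fun a => IsOpen.preimage (by fun_prop) ?_
  exact hO.inter isOpen_compl_singleton

lemma closure_rep {U : Set (ℙ ℝ (V n))} {v : V n} (hv : v ≠ 0)
    (h : Projectivization.mk ℝ v hv ∈ @closure _ (projTopology n) U) :
    ∀ ε > 0, ∃ (u : V n) (hu : u ≠ 0), ‖u - v‖ < ε ∧ Projectivization.mk ℝ u hu ∈ U := by
  intro ε hε
  have h1 := isOpen_image (n := n) (Metric.isOpen_ball (x := v) (ε := ε))
  have h2 := (@mem_closure_iff _ (projTopology n) _ _).1 h _ h1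
    ⟨v, hv, Metric.mem_ball_self hε, rfl⟩
  obtain ⟨p, ⟨u, hu, hb, rfl⟩, hU⟩ := h2
  refine ⟨u, hu, ?_, hU⟩
  rwa [Metric.mem_ball, dist_eq_norm] at hb

lemma isClosed_pt (p : ℙ ℝ (V n)) : @IsClosed _ (projTopology n) {p} := by
  obtain ⟨v, hv, rfl⟩ : ∃ (v : V n) (hv : v ≠ 0), Projectivization.mk ℝ v hv = p :=
    ⟨p.rep, p.rep_nonzero, p.mk_rep⟩
  rw [← @isOpen_compl_iff _ _ (projTopology n), isOpen_iff]
  have h1 : ((fun v : {v : V n // v ≠ 0} => Projectivization.mk ℝ v.1 v.2) ⁻¹'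
      {Projectivization.mk ℝ v hv}ᶜ) = (fun u : {v : V n // v ≠ 0} => u.1) ⁻¹'
        ((Submodule.span ℝ {v} : Submodule ℝ (V n)) : Set (V n))ᶜ := by
    ext u
    simp only [Set.mem_preimage, Set.mem_compl_iff, Set.mem_singleton_iff, SetLike.mem_coe,
      Submodule.mem_span_singleton]
    rw [Projectivization.mk_eq_mk_iff']
  rw [h1]
  refine IsOpen.preimage continuous_subtype_val ?_
  rw [isOpen_compl_iff]
  exact Submodule.closed_of_finiteDimensional _

lemma inj_sub {T : Type*} (z : ℕ → T) (h : ∀ m, ∀ᶠ k in atTop, z k ≠ z m) :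
    ∃ φ : ℕ → ℕ, StrictMono φ ∧ Function.Injective (z ∘ φ) := by
  have h1 : ∀ m : ℕ, ∃ N : ℕ, m < N ∧ ∀ k, N ≤ k → z k ≠ z m := by
    intro m
    obtain ⟨N, hN⟩ := eventually_atTop.1 (h m)
    exact ⟨max N (m + 1), by omega, fun k hk => hN k (by omega)⟩
  choose N hN1 hN2 using h1
  let φ : ℕ → ℕ := fun j => Nat.rec 0 (fun _ a => N a) j
  have hφ : ∀ j, φ (j + 1) = N (φ j) := fun _ => rfl
  have hmono : StrictMono φ := strictMono_nat_of_lt_succ fun j => by
    rw [hφ]; exact hN1 _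
  refine ⟨φ, hmono, ?_⟩
  have key : ∀ i j, i < j → z (φ j) ≠ z (φ i) := by
    intro i j hij
    refine hN2 (φ i) (φ j) ?_
    rw [← hφ]
    exact hmono.monotone (Nat.succ_le_of_lt hij)
  intro i j hij
  by_contra hne
  rcases Nat.lt_or_gt_of_ne hne with h2 | h2
  · exact key i j h2 hij.symm
  · exact key j i h2 hij

lemma W_smul_mk (w : V n ≃ₗ[ℝ] V n) (v : V n) (hv : v ≠ 0) :
    w • Projectivization.mk ℝ v hv = Projectivization.mk ℝ (w v) (by
      simpa using hv) := rfl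

lemma limit_of (X : GeomCoxeter n) {p v : V n} (hp : p ≠ 0) (hv : v ≠ 0)
    (h : ∀ ε > 0, ∃ g ∈ X.W, ‖g p - v‖ < ε ∧ ∀ c : ℝ, g p ≠ c • v) :
    X.IsLimitOf (Projectivization.mk ℝ p hp) (Projectivization.mk ℝ v hv) := by
  have h1 : ∀ k : ℕ, ∃ g ∈ X.W, ‖g p - v‖ < 1 / ((k : ℝ) + 1) ∧ ∀ c : ℝ, g p ≠ c • v :=
    fun k => h _ (by positivity)
  choose g hgW hg hgc using h1
  have hg0 : ∀ k, g k p ≠ 0 := fun k => by simpa using hp
  let z : ℕ → ℙ ℝ (V n) := fun k => Projectivization.mk ℝ (g k p) (hg0 k)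
  have hvec : Tendsto (fun k => g k p) atTop (𝓝 v) := by
    rw [tendsto_iff_norm_sub_tendsto_zero]
    exact squeeze_zero (fun k => norm_nonneg _) (fun k => (hg k).le)
      tendsto_one_div_add_atTop_nhds_zero_nat
  have hsub : Tendsto (fun k : ℕ => (⟨g k p, hg0 k⟩ : {v : V n // v ≠ 0})) atTop
      (𝓝 ⟨v, hv⟩) := by
    rw [tendsto_subtype_rng]
    exact hvec
  have hz : Tendsto z atTop (@nhds _ (projTopology n) (Projectivization.mk ℝ v hv)) := by
    let _ := projTopology n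
    exact (cont_mk.tendsto _).comp hsub
  have hne : ∀ k, z k ≠ Projectivization.mk ℝ v hv := by
    intro k hk
    obtain ⟨a, ha⟩ := (Projectivization.mk_eq_mk_iff' ℝ (g k p) v (hg0 k) hv).1 hk
    exact hgc k a ha.symm
  have hev : ∀ m, ∀ᶠ k in atTop, z k ≠ z m := by
    intro m
    have h2 : ({z m}ᶜ : Set (ℙ ℝ (V n))) ∈ @nhds _ (projTopology n) (Projectivization.mk ℝ v hv) := by
      let _ := projTopology n
      exact (isClosed_pt (z m)).isOpen_compl.mem_nhds (fun h3 => hne m h3.symm)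
    exact hz.eventually h2
  obtain ⟨φ, hφ, hinj⟩ := inj_sub z hev
  exact ⟨z ∘ φ, hinj, fun k => ⟨g (φ k), hgW _, rfl⟩, hz.comp hφ.tendsto_atTop⟩

end Pool.Agent.H27.LZ.Cox
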