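import Pool.Agent.H27.LZ.CLift
import Pool.Agent.H27.LZ.CEig
import Pool.Agent.H27.LZ.CTop

/-!
# The main theorem

Let `p = [v]` be in the closure (`Projectivization.ind`).  `closure_rep` and `hyp_of_hyperbolic` give the
hypothesis of `main_abs` for `sysV X hX` (`[u]` in `unimodularDirections`: `w ∈ W` hyperbolic with
`span {u} ≤ unimodularSubspace w`, so `u` is in it, `Projectivization.submodule_mk`).  `main_abs` gives `p0`;
`p0 ≠ 0` since `g p0 ≠ 0 • v`.  `limit_of`.
-/

set_option autoImplicit false

open scoped LinearAlgebra.Projectivization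
open Filter Topology

namespace Pool.Agent.H27.LZ.Cox

open GeomCoxeter

variable {n : ℕ}

theorem closure_subset (X : GeomCoxeter n) (hX : X.IsLorentzian) :
    @closure _ (projTopology n) X.unimodularDirections ⊆ X.limitDirections := by
  intro P hP
  induction P using Projectivization.ind with
  | h v hv =>
    have hlim : ∀ ε > 0, ∃ (w : V n ≃ₗ[ℝ] V n) (x y : V n) (l : ℝ) (u : V n),
        Hyp (sysV X hX) w x y l ∧ (sysV X hX).B u x = 0 ∧ (sysV X hX).B u y = 0 ∧
          ‖u - v‖ < ε := by
      intro ε hε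
      obtain ⟨u, hu, huv, w, hwW, hhyp, hsub⟩ := closure_rep hv hP ε hε
      obtain ⟨x, y, l, hH, hU⟩ := hyp_of_hyperbolic X hX hwW hhyp
      have hmem : u ∈ X.unimodularSubspace w := by
        apply hsub
        rw [Projectivization.submodule_mk]
        exact Submodule.mem_span_singleton_self u
      exact ⟨w * w, x, y, l, u, hH, (hU u hmem).1, (hU u hmem).2, huv⟩
    obtain ⟨p, hp⟩ := main_abs (noLine X hX) (lift X hX) hlim
    have hp0 : p ≠ 0 := by
      rintro rfl
      obtain ⟨g, _, _, hg⟩ := hp 1 one_pos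
      exact hg 0 (by rw [map_zero, zero_smul])
    exact ⟨_, limit_of X hp0 hv hp⟩

end Pool.Agent.H27.LZ.Cox
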