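import Pool.Agent.H27.LZ.Bdd

/-!
# Limits of fixed vectors and of unimodular vectors

`clF_of_mem`: `z' = z`.  `clF_map`: `g` is continuous (bounded: `‖g z' - g z‖ ≤ C ‖z' - z‖`), `F_map`.
`clF_smul`: `F_smul`.  `clF_light`: a sequence of `F` tends to `z` (`ε = 1 / (n + 1)`), `F_light`, `B_tendsto`.
`clF_lim`, `clo_lim`: triangle inequality.  `clo_of`: `u = v`.  `clo_smul`: rescale `u` (for `c = 0` take
`u = 0` and any `Hyp` occurring in `Clo S v`).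
-/

set_option autoImplicit false

namespace Pool.Agent.H27.LZ

open Filter Topology

variable {E : Type*} [NormedAddCommGroup E] [NormedSpace ℝ E]

/-- limits of fixed vectors -/
def ClF (S : Sys E) (z : E) : Prop := ∀ ε > 0, ∃ z' ∈ F S, ‖z' - z‖ < ε

/-- limits of unimodular vectors -/
def Clo (S : Sys E) (v : E) : Prop :=
  ∀ ε > 0, ∃ (w : E ≃ₗ[ℝ] E) (x y : E) (l : ℝ) (u : E), Hyp S w x y l ∧
    S.B u x = 0 ∧ S.B u y = 0 ∧ ‖u - v‖ < ε

variable {S : Sys E}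

lemma clF_of_mem {z : E} (hz : z ∈ F S) : ClF S z := by
  intro ε hε
  exact ⟨z, hz, by rwa [sub_self, norm_zero]⟩

lemma clF_smul {z : E} (hz : ClF S z) {c : ℝ} (hc : c ≠ 0) : ClF S (c • z) := by
  intro ε hε
  have hc' : 0 < ‖c‖ := norm_pos_iff.mpr hc
  obtain ⟨z', hz', h⟩ := hz (ε / ‖c‖) (div_pos hε hc')
  refine ⟨c • z', F_smul hz' hc, ?_⟩
  rw [← smul_sub, norm_smul]
  calc ‖c‖ * ‖z' - z‖ < ‖c‖ * (ε / ‖c‖) := mul_lt_mul_of_pos_left h hc'
    _ = ε := by field_simp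

lemma clF_lim {z : ℕ → E} {z0 : E} (hz : ∃ᶠ k in atTop, ClF S (z k))
    (h : Tendsto z atTop (𝓝 z0)) : ClF S z0 := by
  intro ε hε
  have h1 : ∀ᶠ k in atTop, ‖z k - z0‖ < ε / 2 := by
    have h2 := Metric.tendsto_nhds.mp h (ε / 2) (half_pos hε)
    filter_upwards [h2] with k hk
    rwa [dist_eq_norm] at hk
  obtain ⟨k, hk1, hk2⟩ := (hz.and_eventually h1).exists
  obtain ⟨z', hz', h3⟩ := hk1 (ε / 2) (half_pos hε)
  refine ⟨z', hz', ?_⟩
  calc ‖z' - z0‖ = ‖(z' - z k) + (z k - z0)‖ := by rw [sub_add_sub_cancel]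
    _ ≤ ‖z' - z k‖ + ‖z k - z0‖ := norm_add_le _ _
    _ < ε / 2 + ε / 2 := add_lt_add h3 hk2
    _ = ε := add_halves ε

lemma clo_of {w : E ≃ₗ[ℝ] E} {x y v : E} {l : ℝ} (h : Hyp S w x y l) (hx : S.B v x = 0)
    (hy : S.B v y = 0) : Clo S v := by
  intro ε hε
  exact ⟨w, x, y, l, v, h, hx, hy, by rwa [sub_self, norm_zero]⟩

lemma clo_smul {v : E} (hv : Clo S v) (c : ℝ) : Clo S (c • v) := by
  intro ε hε
  obtain ⟨w, x, y, l, u, h, hx, hy, hu⟩ := hv (ε / (‖c‖ + 1))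
    (div_pos hε (by positivity))
  refine ⟨w, x, y, l, c • u, h, ?_, ?_, ?_⟩
  · rw [map_smul, LinearMap.smul_apply, hx, smul_zero]
  · rw [map_smul, LinearMap.smul_apply, hy, smul_zero]
  · rw [← smul_sub, norm_smul]
    have hpos : 0 < ‖c‖ + 1 := by positivity
    have h1 : ‖u - v‖ * (‖c‖ + 1) < ε := (lt_div_iff₀ hpos).mp hu
    have h2 : 0 ≤ ‖u - v‖ := norm_nonneg _
    nlinarith [norm_nonneg c]

lemma clo_lim {v : ℕ → E} {v0 : E} (hv : ∃ᶠ k in atTop, Clo S (v k))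
    (h : Tendsto v atTop (𝓝 v0)) : Clo S v0 := by
  intro ε hε
  have h1 : ∀ᶠ k in atTop, ‖v k - v0‖ < ε / 2 := by
    have h2 := Metric.tendsto_nhds.mp h (ε / 2) (half_pos hε)
    filter_upwards [h2] with k hk
    rwa [dist_eq_norm] at hk
  obtain ⟨k, hk1, hk2⟩ := (hv.and_eventually h1).exists
  obtain ⟨w, x, y, l, u, hw, hx, hy, h3⟩ := hk1 (ε / 2) (half_pos hε)
  refine ⟨w, x, y, l, u, hw, hx, hy, ?_⟩
  calc ‖u - v0‖ = ‖(u - v k) + (v k - v0)‖ := by rw [sub_add_sub_cancel]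
    _ ≤ ‖u - v k‖ + ‖v k - v0‖ := norm_add_le _ _
    _ < ε / 2 + ε / 2 := add_lt_add h3 hk2
    _ = ε := add_halves ε

variable [FiniteDimensional ℝ E]

lemma clF_map {z : E} (hz : ClF S z) {g : E ≃ₗ[ℝ] E} (hg : g ∈ S.G) : ClF S (g z) := by
  intro ε hε
  have hcont : Continuous fun u : E => g u :=
    LinearMap.continuous_of_finiteDimensional (g : E →ₗ[ℝ] E)
  have hcz : ContinuousAt (fun u : E => g u) z := hcont.continuousAt
  obtain ⟨δ, hδ, h1⟩ := Metric.continuousAt_iff.mp hcz ε hε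
  obtain ⟨z', hz', h2⟩ := hz δ hδ
  refine ⟨g z', F_map hz' hg, ?_⟩
  have h3 := h1 (by rwa [dist_eq_norm] : dist z' z < δ)
  rwa [dist_eq_norm] at h3

lemma clF_light {z : E} (hz : ClF S z) : S.B z z = 0 := by
  have hpos : ∀ n : ℕ, (0 : ℝ) < 1 / ((n : ℝ) + 1) := fun n => Nat.one_div_pos_of_nat
  choose z' hz' hn using fun n : ℕ => hz (1 / ((n : ℝ) + 1)) (hpos n)
  have ht : Tendsto z' atTop (𝓝 z) := by
    rw [tendsto_iff_norm_sub_tendsto_zero]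
    exact squeeze_zero (fun n => norm_nonneg _) (fun n => (hn n).le)
      tendsto_one_div_add_atTop_nhds_zero_nat
  have h1 : Tendsto (fun n => S.B (z' n) (z' n)) atTop (𝓝 (S.B z z)) := B_tendsto ht ht
  have h2 : (fun n => S.B (z' n) (z' n)) = fun _ => 0 := funext fun n => F_light (hz' n)
  rw [h2] at h1
  exact tendsto_nhds_unique h1 tendsto_const_nhds

end Pool.Agent.H27.LZ
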