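import Pool.Agent.H27.LZ.PowL

/-!
# Eigenvectors of `g w^n k⁻¹` for large eigenvalues

Let `A n = (l⁻¹) ^ n • (g * w ^ n * k⁻¹)` (a linear map) and `T v = (B v (k y) / B x y) • g x`.
By `Hyp.pow_lim` (with `z = k⁻¹ v`) and continuity of `g`, `A n v → T v` for every `v`.  Uniformity on
the unit ball: with a basis `b i` of `E` and a constant `M` with `|b.repr v i| ≤ M ‖v‖`,
`‖A n v - T v‖ ≤ M ‖v‖ ∑ i, ‖A n (b i) - T (b i)‖`, and the sum tends to `0`.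
Let `δ > 0` be small (`δ ≤ κ / 2`, `2 ‖g x‖ δ / κ < ε`); for large `n`, `‖A n v - T v‖ ≤ δ ‖v‖` for all `v`.
Let `v ≠ 0`, `κ l ^ n ≤ |p|`, `(g * w ^ n * k⁻¹) v = p v`; rescale to `‖v‖ = 1`.  Then
`v = (l ^ n / p) • A n v`, `|l ^ n / p| ≤ 1 / κ`, so with `s = (l ^ n / p) (B v (k y) / B x y)`,
`‖v - s • g x‖ ≤ δ / κ ≤ 1 / 2`; so `|s| ‖g x‖ ≥ 1 / 2`, and `c = 1 / s` satisfies
`‖c • v - g x‖ ≤ |c| δ / κ ≤ 2 ‖g x‖ δ / κ < ε`.
-/

set_option autoImplicit false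

namespace Pool.Agent.H27.LZ

open Filter Topology

variable {E : Type*} [NormedAddCommGroup E] [NormedSpace ℝ E] [FiniteDimensional ℝ E]
  {S : Sys E} {w : E ≃ₗ[ℝ] E} {x y : E} {l : ℝ}

/-- pointwise convergence of the rescaled powers -/
lemma pow_ptw (h : Hyp S w x y l) {g k : E ≃ₗ[ℝ] E} (hk : k ∈ S.G) (v : E) :
    Tendsto (fun n : ℕ => (l⁻¹) ^ n • (g * w ^ n * k⁻¹) v - (S.B v (k y) / S.B x y) • g x)
      atTop (𝓝 0) := by
  have h1 := equiv_tendsto g (h.pow_lim (k⁻¹ v))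
  rw [iso_inv hk, map_smul] at h1
  have h2 := h1.sub (tendsto_const_nhds (x := (S.B v (k y) / S.B x y) • g x))
  rw [sub_self] at h2
  refine h2.congr fun n => ?_
  rw [LinearEquiv.mul_apply, LinearEquiv.mul_apply, map_smul]

/-- uniform convergence of the rescaled powers -/
lemma pow_unif (h : Hyp S w x y l) {g k : E ≃ₗ[ℝ] E} (hg : g ∈ S.G) (hk : k ∈ S.G) {δ : ℝ}
    (hδ : 0 < δ) : ∀ᶠ n : ℕ in atTop, ∀ v : E,
      ‖(l⁻¹) ^ n • (g * w ^ n * k⁻¹) v - (S.B v (k y) / S.B x y) • g x‖ ≤ δ * ‖v‖ := by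
  classical
  let b := Module.finBasis ℝ E
  let T : E →ₗ[ℝ] E := ((S.B x y)⁻¹ • (LinearMap.flip S.B (k y))).smulRight (g x)
  have hT : ∀ v, T v = (S.B v (k y) / S.B x y) • g x := by
    intro v
    simp only [T, LinearMap.smulRight_apply, LinearMap.smul_apply, LinearMap.flip_apply,
      smul_eq_mul]
    rw [div_eq_inv_mul]
  let D : ℕ → E →ₗ[ℝ] E := fun n => (l⁻¹) ^ n • (g * w ^ n * k⁻¹).toLinearMap - T
  have hD : ∀ n v, D n v =
      (l⁻¹) ^ n • (g * w ^ n * k⁻¹) v - (S.B v (k y) / S.B x y) • g x := by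
    intro n v
    simp only [D, LinearMap.sub_apply, LinearMap.smul_apply, LinearEquiv.coe_coe, hT]
  let M : Fin (Module.finrank ℝ E) → ℝ := fun i => ‖LinearMap.toContinuousLinearMap (b.coord i)‖
  have hM : ∀ i v, |b.repr v i| ≤ M i * ‖v‖ := by
    intro i v
    have := (LinearMap.toContinuousLinearMap (b.coord i)).le_opNorm v
    simpa [M] using this
  have hlim : Tendsto (fun n => ∑ i, M i * ‖D n (b i)‖) atTop (𝓝 0) := by
    have : Tendsto (fun n => ∑ i, M i * ‖D n (b i)‖) atTop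
        (𝓝 (∑ i : Fin (Module.finrank ℝ E), M i * ‖(0 : E)‖)) := by
      refine tendsto_finsetSum _ fun i _ => ?_
      refine Tendsto.const_mul _ (Tendsto.norm ?_)
      simp only [hD]
      exact pow_ptw h hk (b i)
    simpa using this
  have hev : ∀ᶠ n in atTop, ∑ i, M i * ‖D n (b i)‖ < δ := (tendsto_order.1 hlim).2 δ hδ
  filter_upwards [hev] with n hn v
  rw [← hD]
  have h1 : D n v = ∑ i, b.repr v i • D n (b i) := by
    conv_lhs => rw [← b.sum_repr v]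
    rw [map_sum]
    simp only [map_smul]
  rw [h1]
  calc ‖∑ i, b.repr v i • D n (b i)‖ ≤ ∑ i, ‖b.repr v i • D n (b i)‖ := norm_sum_le _ _
    _ ≤ ∑ i, (M i * ‖D n (b i)‖) * ‖v‖ := by
        refine Finset.sum_le_sum fun i _ => ?_
        rw [norm_smul, Real.norm_eq_abs]
        calc |b.repr v i| * ‖D n (b i)‖ ≤ (M i * ‖v‖) * ‖D n (b i)‖ :=
              mul_le_mul_of_nonneg_right (hM i v) (norm_nonneg _)
          _ = (M i * ‖D n (b i)‖) * ‖v‖ := by ring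
    _ = (∑ i, M i * ‖D n (b i)‖) * ‖v‖ := by rw [Finset.sum_mul]
    _ ≤ δ * ‖v‖ := mul_le_mul_of_nonneg_right hn.le (norm_nonneg _)

lemma close_x (h : Hyp S w x y l) {g k : E ≃ₗ[ℝ] E} (hg : g ∈ S.G) (hk : k ∈ S.G) {κ ε : ℝ}
    (hκ : 0 < κ) (hε : 0 < ε) : ∀ᶠ n : ℕ in atTop, ∀ (v : E) (p : ℝ), v ≠ 0 →
      κ * l ^ n ≤ |p| → (g * w ^ n * k⁻¹) v = p • v → ∃ c : ℝ, c ≠ 0 ∧ ‖c • v - g x‖ < ε := by
  have hl : 0 < l := by have := h.one_lt; linarith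
  set a : ℝ := ‖g x‖ with ha
  have ha0 : 0 ≤ a := norm_nonneg _
  set δ : ℝ := min (κ / 2) (ε * κ / (4 * (a + 1))) with hδdef
  have hδ : 0 < δ := lt_min (by positivity) (by positivity)
  have hδ1 : δ ≤ κ / 2 := min_le_left _ _
  have hδ2 : δ ≤ ε * κ / (4 * (a + 1)) := min_le_right _ _
  filter_upwards [pow_unif h hg hk hδ] with n hn v p hv hp hvp
  have h1 := hn v
  rw [hvp, smul_smul] at h1
  set P : ℝ := (l⁻¹) ^ n * p with hP
  set t : ℝ := S.B v (k y) / S.B x y with ht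
  have hv' : 0 < ‖v‖ := norm_pos_iff.2 hv
  have hP1 : κ ≤ |P| := by
    rw [hP, abs_mul, abs_of_pos (by positivity : 0 < (l⁻¹) ^ n)]
    calc κ = (l⁻¹) ^ n * (κ * l ^ n) := by
          rw [inv_pow]
          field_simp
      _ ≤ (l⁻¹) ^ n * |p| := mul_le_mul_of_nonneg_left hp (by positivity)
  have hP0 : 0 < |P| := lt_of_lt_of_le hκ hP1
  have h2 : |P| * ‖v‖ - |t| * a ≤ δ * ‖v‖ := by
    have := norm_sub_norm_le (P • v) (t • g x)
    rw [norm_smul, norm_smul, Real.norm_eq_abs, Real.norm_eq_abs] at this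
    linarith
  have h3 : |P| / 2 * ‖v‖ ≤ |t| * a := by nlinarith
  have hta : 0 < |t| * a := lt_of_lt_of_le (by positivity) h3
  have ht0 : 0 < |t| := by
    rcases (abs_nonneg t).eq_or_lt with h4 | h4
    · rw [← h4, zero_mul] at hta
      exact absurd hta (lt_irrefl _)
    · exact h4
  refine ⟨P / t, div_ne_zero (abs_pos.1 hP0) (abs_pos.1 ht0), ?_⟩
  have h5 : (P / t) • v - g x = t⁻¹ • (P • v - t • g x) := by
    rw [smul_sub, smul_smul, smul_smul, inv_mul_cancel₀ (abs_pos.1 ht0), one_smul,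
      div_eq_inv_mul]
  rw [h5, norm_smul, norm_inv, Real.norm_eq_abs]
  have h6 : |t|⁻¹ * ‖P • v - t • g x‖ ≤ |t|⁻¹ * (δ * ‖v‖) :=
    mul_le_mul_of_nonneg_left h1 (by positivity)
  refine lt_of_le_of_lt h6 ?_
  rw [inv_mul_lt_iff₀ ht0]
  -- δ ‖v‖ < |t| ε
  have ha1 : 0 < a := by
    rcases ha0.eq_or_lt with h4 | h4
    · rw [← h4, mul_zero] at hta
      exact absurd hta (lt_irrefl _)
    · exact h4
  have h7 : δ * (4 * (a + 1)) ≤ ε * κ := by
    rw [le_div_iff₀ (by positivity)] at hδ2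
    exact hδ2
  have h8 : κ / 2 * ‖v‖ ≤ |t| * a := by nlinarith
  -- multiply by a : δ ‖v‖ a ≤ (ε κ / 4) ‖v‖ ≤ ε |t| a / 2
  have h9 : δ * a ≤ ε * κ / 4 := by nlinarith
  have h10 : δ * ‖v‖ * a ≤ ε * (κ / 2 * ‖v‖) / 2 := by nlinarith
  have h11 : ε * (κ / 2 * ‖v‖) ≤ ε * (|t| * a) := mul_le_mul_of_nonneg_left h8 hε.le
  have h12 : δ * ‖v‖ * a < |t| * ε * a := by
    have : 0 < ε * (|t| * a) := by positivity
    nlinarith
  exact lt_of_mul_lt_mul_right h12 ha0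

end Pool.Agent.H27.LZ
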