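import Pool.Agent.H27.LZ.Bdd

/-!
# Correcting a vector to be orthogonal to two given ones

`a, d` independent and `B` nondegenerate: there are `s, t` with `B s a = 1`, `B s d = 0`, `B t a = 0`, `B t d = 1`
(the map `E → ℝ × ℝ`, `u ↦ (B u a, B u d)` is onto: otherwise its range is in a line, i.e. there is
`(p, q) ≠ 0` with `B u (p a + q d) = 0` for all `u`, so `p a + q d = 0`).
Put `v'' n = v' n - α n • s - β n • t`, where `(α n, β n)` solves
`α B s (a' n) + β B t (a' n) = B (v' n) (a' n)`, `α B s (d' n) + β B t (d' n) = B (v' n) (d' n)` by Cramer's rule;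
the determinant `B s (a' n) * B t (d' n) - B t (a' n) * B s (d' n)` tends to `1` and the right hand sides to `0`.
-/

set_option autoImplicit false

namespace Pool.Agent.H27.LZ

open Filter Topology

variable {E : Type*} [NormedAddCommGroup E] [NormedSpace ℝ E] [FiniteDimensional ℝ E]
  {S : Sys E}

private lemma B_surj (S : Sys E) (f : E →ₗ[ℝ] ℝ) : ∃ s : E, ∀ u, S.B s u = f u := by
  have hinj : Function.Injective (S.B : E →ₗ[ℝ] (E →ₗ[ℝ] ℝ)) := by
    rw [injective_iff_map_eq_zero]
    intro u hu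
    refine S.nondeg u (fun v => ?_)
    rw [hu, LinearMap.zero_apply]
  have hfr : Module.finrank ℝ E = Module.finrank ℝ (E →ₗ[ℝ] ℝ) :=
    (Subspace.dual_finrank_eq (K := ℝ) (V := E)).symm
  have hsur : Function.Surjective (S.B : E →ₗ[ℝ] (E →ₗ[ℝ] ℝ)) :=
    (LinearMap.injective_iff_surjective_of_finrank_eq_finrank hfr).mp hinj
  obtain ⟨s, hs⟩ := hsur f
  exact ⟨s, fun u => by rw [hs]⟩

private lemma sep (S : Sys E) {a d : E} (had : a ∉ Submodule.span ℝ {d}) :
    ∃ s : E, S.B s a = 1 ∧ S.B s d = 0 := by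
  obtain ⟨f, hfa, hfd⟩ := Submodule.exists_dual_map_eq_bot_of_notMem had inferInstance
  have hd0 : f d = 0 := by
    have h1 : f d ∈ (Submodule.span ℝ {d}).map f :=
      Submodule.mem_map_of_mem (Submodule.mem_span_singleton_self d)
    rw [hfd] at h1
    exact (Submodule.mem_bot ℝ).mp h1
  obtain ⟨s, hs⟩ := B_surj S f
  refine ⟨(f a)⁻¹ • s, ?_, ?_⟩
  · rw [map_smul, LinearMap.smul_apply, hs, smul_eq_mul, inv_mul_cancel₀ hfa]
  · rw [map_smul, LinearMap.smul_apply, hs, hd0, smul_zero]

lemma dual_pair (S : Sys E) {a d : E} (hli : LinearIndependent ℝ ![a, d]) :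
    ∃ s t : E, S.B s a = 1 ∧ S.B s d = 0 ∧ S.B t a = 0 ∧ S.B t d = 1 := by
  have hli' := LinearIndependent.pair_iff.mp hli
  have h1 : a ∉ Submodule.span ℝ {d} := by
    intro h
    obtain ⟨c, hc⟩ := Submodule.mem_span_singleton.mp h
    have := (hli' 1 (-c) (by rw [one_smul, neg_smul, hc, add_neg_cancel])).1
    exact one_ne_zero this
  have h2 : d ∉ Submodule.span ℝ {a} := by
    intro h
    obtain ⟨c, hc⟩ := Submodule.mem_span_singleton.mp h
    have := (hli' (-c) 1 (by rw [one_smul, neg_smul, hc, neg_add_cancel])).2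
    exact one_ne_zero this
  obtain ⟨s, hs1, hs2⟩ := sep S h1
  obtain ⟨t, ht1, ht2⟩ := sep S h2
  exact ⟨s, t, hs1, hs2, ht2, ht1⟩

lemma corr (S : Sys E) {a d v : E} (hli : LinearIndependent ℝ ![a, d]) {a' d' v' : ℕ → E}
    (ha : Tendsto a' atTop (𝓝 a)) (hd : Tendsto d' atTop (𝓝 d)) (hv : Tendsto v' atTop (𝓝 v))
    (hva : S.B v a = 0) (hvd : S.B v d = 0) : ∃ v'' : ℕ → E, Tendsto v'' atTop (𝓝 v) ∧
      ∀ᶠ n in atTop, S.B (v'' n) (a' n) = 0 ∧ S.B (v'' n) (d' n) = 0 := by
  obtain ⟨s, t, hsa, hsd, hta, htd⟩ := dual_pair S hli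
  have lsa : Tendsto (fun n => S.B s (a' n)) atTop (𝓝 1) := by
    have := B_tendsto (S := S) (tendsto_const_nhds (x := s)) ha
    rwa [hsa] at this
  have lsd : Tendsto (fun n => S.B s (d' n)) atTop (𝓝 0) := by
    have := B_tendsto (S := S) (tendsto_const_nhds (x := s)) hd
    rwa [hsd] at this
  have lta : Tendsto (fun n => S.B t (a' n)) atTop (𝓝 0) := by
    have := B_tendsto (S := S) (tendsto_const_nhds (x := t)) ha
    rwa [hta] at this
  have ltd : Tendsto (fun n => S.B t (d' n)) atTop (𝓝 1) := by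
    have := B_tendsto (S := S) (tendsto_const_nhds (x := t)) hd
    rwa [htd] at this
  have lva : Tendsto (fun n => S.B (v' n) (a' n)) atTop (𝓝 0) := by
    have := B_tendsto (S := S) hv ha
    rwa [hva] at this
  have lvd : Tendsto (fun n => S.B (v' n) (d' n)) atTop (𝓝 0) := by
    have := B_tendsto (S := S) hv hd
    rwa [hvd] at this
  set D : ℕ → ℝ := fun n => S.B s (a' n) * S.B t (d' n) - S.B t (a' n) * S.B s (d' n) with hD
  have lD : Tendsto D atTop (𝓝 1) := by
    have := (lsa.mul ltd).sub (lta.mul lsd)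
    simpa using this
  set al : ℕ → ℝ := fun n =>
    (S.B (v' n) (a' n) * S.B t (d' n) - S.B t (a' n) * S.B (v' n) (d' n)) / D n with hal
  set be : ℕ → ℝ := fun n =>
    (S.B s (a' n) * S.B (v' n) (d' n) - S.B (v' n) (a' n) * S.B s (d' n)) / D n with hbe
  have lal : Tendsto al atTop (𝓝 0) := by
    have := ((lva.mul ltd).sub (lta.mul lvd)).div lD one_ne_zero
    rw [zero_mul, zero_mul, sub_zero, zero_div] at this
    exact this
  have lbe : Tendsto be atTop (𝓝 0) := by
    have := ((lsa.mul lvd).sub (lva.mul lsd)).div lD one_ne_zero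
    rw [mul_zero, zero_mul, sub_zero, zero_div] at this
    exact this
  refine ⟨fun n => v' n - al n • s - be n • t, ?_, ?_⟩
  · have := (hv.sub (lal.smul_const s)).sub (lbe.smul_const t)
    simpa using this
  · have hne : ∀ᶠ n in atTop, D n ≠ 0 := lD.eventually_ne one_ne_zero
    filter_upwards [hne] with n hn
    have key : ∀ u : E, S.B (v' n - al n • s - be n • t) u
        = S.B (v' n) u - al n * S.B s u - be n * S.B t u := by
      intro u
      rw [map_sub, map_sub, map_smul, map_smul, LinearMap.sub_apply, LinearMap.sub_apply,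
        LinearMap.smul_apply, LinearMap.smul_apply, smul_eq_mul, smul_eq_mul]
    have hal' : al n * D n = S.B (v' n) (a' n) * S.B t (d' n) - S.B t (a' n) * S.B (v' n) (d' n) :=
      div_mul_cancel₀ _ hn
    have hbe' : be n * D n = S.B s (a' n) * S.B (v' n) (d' n) - S.B (v' n) (a' n) * S.B s (d' n) :=
      div_mul_cancel₀ _ hn
    have hDn : D n = S.B s (a' n) * S.B t (d' n) - S.B t (a' n) * S.B s (d' n) := rfl
    constructor
    · change S.B (v' n - al n • s - be n • t) (a' n) = 0
      rw [key]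
      apply mul_right_cancel₀ hn
      have : (S.B (v' n) (a' n) - al n * S.B s (a' n) - be n * S.B t (a' n)) * D n
          = S.B (v' n) (a' n) * D n - (al n * D n) * S.B s (a' n) - (be n * D n) * S.B t (a' n) := by
        ring
      rw [this, hal', hbe', hDn]
      ring
    · change S.B (v' n - al n • s - be n • t) (d' n) = 0
      rw [key]
      apply mul_right_cancel₀ hn
      have : (S.B (v' n) (d' n) - al n * S.B s (d' n) - be n * S.B t (d' n)) * D n
          = S.B (v' n) (d' n) * D n - (al n * D n) * S.B s (d' n) - (be n * D n) * S.B t (d' n) := by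
        ring
      rw [this, hal', hbe', hDn]
      ring

end Pool.Agent.H27.LZ
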