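import Mathlib

/-!
# Distance preserving self-maps of compact sets are onto

Here the distance is replaced by a function `d` comparable with `‖a - b‖ ^ 2`.
Suppose `s ∈ K` is not in `f '' K`.  `f` is continuous on `K` (`c ‖f a - f b‖² ≤ d (f a) (f b) = d a b ≤ C ‖a - b‖²`),
so `f '' K` is compact and there is `δ > 0` with `δ ≤ ‖s - f a‖` for all `a ∈ K`.  For `m > n`,
`d (f^[n] s) (f^[m] s) = d s (f^[m - n] s) ≥ c δ²` so `‖f^[n] s - f^[m] s‖² ≥ c δ² / C`: the sequence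
`f^[n] s` in `K` has no Cauchy subsequence, a contradiction (`IsCompact.tendsto_subseq`).
-/

set_option autoImplicit false

namespace Pool.Agent.H27.LZ

lemma surj_compact {E : Type*} [NormedAddCommGroup E] {K : Set E} (hK : IsCompact K)
    {f : E → E} {d : E → E → ℝ} {c C : ℝ} (hc : 0 < c) (hC : 0 < C)
    (h1 : ∀ a ∈ K, ∀ b ∈ K, c * ‖a - b‖ ^ 2 ≤ d a b)
    (h2 : ∀ a ∈ K, ∀ b ∈ K, d a b ≤ C * ‖a - b‖ ^ 2)
    (hf : ∀ a ∈ K, ∀ b ∈ K, d (f a) (f b) = d a b) (hm : Set.MapsTo f K K) :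
    Set.SurjOn f K K := by
  intro s hs
  by_contra hns
  have hlip : ∀ a ∈ K, ∀ b ∈ K, c * ‖f a - f b‖ ^ 2 ≤ C * ‖a - b‖ ^ 2 := fun a ha b hb =>
    (h1 _ (hm ha) _ (hm hb)).trans ((hf a ha b hb).le.trans (h2 a ha b hb))
  have hcont : ContinuousOn f K := by
    have hL : LipschitzOnWith (Real.toNNReal (Real.sqrt (C / c))) f K := by
      apply LipschitzOnWith.of_dist_le_mul
      intro a ha b hb
      rw [Real.coe_toNNReal _ (Real.sqrt_nonneg _), dist_eq_norm, dist_eq_norm]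
      refine abs_le_of_sq_le_sq ?_ (by positivity) |>.trans' (le_abs_self _)
      rw [mul_pow, Real.sq_sqrt (by positivity), div_mul_eq_mul_div, le_div_iff₀ hc]
      have := hlip a ha b hb
      linarith
    exact hL.continuousOn
  have hcpt : IsCompact (f '' K) := hK.image_of_continuousOn hcont
  have hδ : ∃ δ > 0, ∀ a ∈ K, δ ≤ ‖s - f a‖ := by
    have hmem : s ∈ (f '' K)ᶜ := hns
    obtain ⟨δ, hδ, hball⟩ := Metric.isOpen_iff.1 hcpt.isClosed.isOpen_compl s hmem
    refine ⟨δ, hδ, fun a ha => ?_⟩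
    by_contra hlt
    push Not at hlt
    have h3 : f a ∈ Metric.ball s δ := by
      rw [Metric.mem_ball, dist_comm, dist_eq_norm]
      exact hlt
    exact hball h3 ⟨a, ha, rfl⟩
  obtain ⟨δ, hδ, hsep⟩ := hδ
  have hit : ∀ n, f^[n] s ∈ K := fun n => hm.iterate n hs
  have hd : ∀ n k, c * δ ^ 2 ≤ d (f^[n] s) (f^[n + k + 1] s) := by
    intro n
    induction n with
    | zero =>
      intro k
      have h3 := h1 s hs (f^[k + 1] s) (hit _)
      have h4 : δ ≤ ‖s - f^[k + 1] s‖ := by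
        rw [Function.iterate_succ_apply']
        exact hsep _ (hit k)
      have h5 : δ ^ 2 ≤ ‖s - f^[k + 1] s‖ ^ 2 := pow_le_pow_left₀ hδ.le h4 2
      rw [Nat.zero_add, Function.iterate_zero_apply]
      exact (mul_le_mul_of_nonneg_left h5 hc.le).trans h3
    | succ n ih =>
      intro k
      have h3 : n + 1 + k + 1 = (n + k + 1) + 1 := by ring
      rw [h3, Function.iterate_succ_apply', Function.iterate_succ_apply' f (n + k + 1),
        hf _ (hit _) _ (hit _)]
      exact ih k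
  obtain ⟨a, -, φ, hφ, hlim⟩ := hK.tendsto_subseq hit
  have hcs := hlim.cauchySeq
  obtain ⟨N, hN⟩ := Metric.cauchySeq_iff'.1 hcs (Real.sqrt (c / C) * δ) (by positivity)
  have h3 := hN (N + 1) (Nat.le_succ N)
  have h4 : φ N < φ (N + 1) := hφ (Nat.lt_succ_self N)
  obtain ⟨k, hk⟩ := Nat.exists_eq_add_of_lt h4
  have h5 := (hd (φ N) k).trans (h2 _ (hit _) _ (hit _))
  rw [← hk] at h5
  rw [dist_comm, dist_eq_norm] at h3
  simp only [Function.comp_apply] at h3
  have h6 : ‖f^[φ N] s - f^[φ (N + 1)] s‖ ^ 2 < (Real.sqrt (c / C) * δ) ^ 2 :=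
    pow_lt_pow_left₀ h3 (norm_nonneg _) two_ne_zero
  rw [mul_pow, Real.sq_sqrt (by positivity), div_mul_eq_mul_div, lt_div_iff₀ hC] at h6
  linarith

end Pool.Agent.H27.LZ
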