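import Pool.Agent.H27.LZ.HolLim
import Pool.Agent.H27.LZ.Surj

/-!
# The set of the vectors accessible on an axis

`K = {u | Acc S q x y u}`.  `K_compact`: closed (`acc_isClosed`), bounded since `c ‖u‖² ≤ B u u = B q q`
(`U_norm`, `acc_norm`, `acc_z`, `acc_y`); `E` is a proper space (`FiniteDimensional.proper ℝ E`,
`Metric.isCompact_of_isClosed_isBounded`).
`hol_surj`: `surj_compact` for `f = Hol S x y (g x) (k y)` and `d a b = B (a - b) (a - b)`:
`f` maps `K` to `K` (`acc_holLim`), `d (f a) (f b) = d a b` by `hol_sub`, `hol_norm` (`a - b` is orthogonal to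
`x, y`); lower bound by `U_norm`; upper bound: `|B v v| ≤ C ‖v‖²` (`B_upper`; from the continuity of `B`:
`B v v` is bounded on the unit sphere, homogeneity; or with a basis).
-/

set_option autoImplicit false

namespace Pool.Agent.H27.LZ

open Filter Topology

variable {E : Type*} [NormedAddCommGroup E] [NormedSpace ℝ E] [FiniteDimensional ℝ E]
  {S : Sys E} {w : E ≃ₗ[ℝ] E} {x y : E} {l : ℝ}

lemma B_upper (S : Sys E) : ∃ C : ℝ, 0 < C ∧ ∀ v, S.B v v ≤ C * ‖v‖ ^ 2 := by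
  let L : E →ₗ[ℝ] (E →L[ℝ] ℝ) :=
    (LinearMap.toContinuousLinearMap : (E →ₗ[ℝ] ℝ) ≃ₗ[ℝ] (E →L[ℝ] ℝ)).toLinearMap ∘ₗ S.B
  let L' : E →L[ℝ] (E →L[ℝ] ℝ) := LinearMap.toContinuousLinearMap L
  refine ⟨‖L'‖ + 1, by positivity, fun v => ?_⟩
  have h1 : ‖L' v v‖ ≤ ‖L'‖ * ‖v‖ * ‖v‖ := L'.le_opNorm₂ v v
  have h2 : L' v v = S.B v v := rfl
  have h3 : S.B v v ≤ ‖L' v v‖ := by
    rw [h2]
    exact le_trans (le_abs_self _) (le_of_eq (Real.norm_eq_abs _).symm)
  have h4 : 0 ≤ ‖v‖ * ‖v‖ := mul_self_nonneg _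
  nlinarith

lemma K_compact (h : Hyp S w x y l) (q : E) : IsCompact {u | Acc S q x y u} := by
  haveI : ProperSpace E := FiniteDimensional.proper ℝ E
  refine Metric.isCompact_of_isClosed_isBounded (acc_isClosed S q x y) ?_
  obtain ⟨c, hc, hU⟩ := U_norm h.xx h.xy
  refine (Metric.isBounded_iff_subset_closedBall 0).2 ⟨S.B q q / c + 1, fun u hu => ?_⟩
  have hu' : Acc S q x y u := hu
  have h1 := hU u (acc_z hu') (acc_y hu')
  rw [acc_norm hu'] at h1
  have h2 : ‖u‖ ^ 2 ≤ S.B q q / c := by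
    rw [le_div_iff₀ hc]
    linarith
  rw [mem_closedBall_zero_iff]
  nlinarith [sq_nonneg (‖u‖ - 1), sq_nonneg ‖u‖]

lemma hol_surj (h : Hyp S w x y l) {g k : E ≃ₗ[ℝ] E} (hg : g ∈ S.G) (hk : k ∈ S.G) {q s : E}
    (h1 : S.B (g x) (k y) ≠ 0) (h2 : S.B (g x) y ≠ 0) (h3 : S.B x (k y) ≠ 0)
    (hs : Acc S q x y s) : ∃ u, Acc S q x y u ∧ Hol S x y (g x) (k y) u = s := by
  obtain ⟨c, hc, hU⟩ := U_norm h.xx h.xy
  obtain ⟨C, hC, hB⟩ := B_upper S
  have hor : ∀ a b : E, Acc S q x y a → Acc S q x y b → S.B (a - b) x = 0 ∧ S.B (a - b) y = 0 := by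
    intro a b ha hb
    refine ⟨?_, ?_⟩
    · rw [map_sub, LinearMap.sub_apply, acc_z ha, acc_z hb, sub_zero]
    · rw [map_sub, LinearMap.sub_apply, acc_y ha, acc_y hb, sub_zero]
  have hgx : S.B (g x) (g x) = 0 := by rw [S.iso g hg, h.xx]
  have hky : S.B (k y) (k y) = 0 := by rw [S.iso k hk, h.yy]
  have hsur := surj_compact (K_compact h q) (f := Hol S x y (g x) (k y))
    (d := fun a b => S.B (a - b) (a - b)) hc hC
    (fun a ha b hb => hU (a - b) (hor a b ha hb).1 (hor a b ha hb).2)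
    (fun a _ b _ => hB (a - b))
    (fun a ha b hb => by
      show S.B (Hol S x y (g x) (k y) a - Hol S x y (g x) (k y) b)
        (Hol S x y (g x) (k y) a - Hol S x y (g x) (k y) b) = _
      rw [← hol_sub]
      exact hol_norm h.xx h.yy hgx hky h2 h1 h3 (hor a b ha hb).1 (hor a b ha hb).2)
    (fun a ha => acc_holLim h hg hk h1 h2 h3 ha)
  obtain ⟨u, hu, hus⟩ := hsur hs
  exact ⟨u, hu, hus⟩

end Pool.Agent.H27.LZ
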