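import Pool.Agent.H27.LZ.Bdd

/-!
# Recurrence

`rec`: on `U = {u | B u x = 0, B u y = 0}` (a finite dimensional subspace) the powers of `w` are uniformly
bounded (`Hyp.pow_bdd`, constant `C`) and preserve `U` (`Hyp.pow_orth`).  Let `e i` be a basis of `U`
(`Module.finBasis`).  The sequence `n ↦ (fun i => (w ^ n) (e i))` is bounded in `Fin d → E`, so it has a
convergent (Cauchy) subsequence `φ` (`tendsto_subseq_of_bounded`).  For `j < k`,
`‖(w ^ (φ k - φ j)) (e i) - e i‖ = ‖(w ^ φ j)⁻¹ ((w ^ φ k) (e i) - (w ^ φ j) (e i))‖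
  ≤ C ‖(w ^ φ k) (e i) - (w ^ φ j) (e i)‖`.
So for all `ε > 0` and `M` there is `N ≥ M` with `‖(w ^ N) (e i) - e i‖ < ε` for all `i`; choose
`N 0 < N 1 < …` with `ε = 1 / (j + 1)` (e.g. `Filter.extraction_forall_of_frequently`).  Then
`(w ^ N j) (e i) → e i`, hence `(w ^ N j) u → u` for all `u` in `U` (linearity), and
`‖(w ^ N)⁻¹ u - u‖ = ‖(w ^ N)⁻¹ (u - (w ^ N) u)‖ ≤ C ‖u - (w ^ N) u‖`.
-/

set_option autoImplicit false

namespace Pool.Agent.H27.LZ

open Filter Topology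

variable {E : Type*} [NormedAddCommGroup E] [NormedSpace ℝ E] [FiniteDimensional ℝ E]
  {S : Sys E} {w : E ≃ₗ[ℝ] E} {x y : E} {l : ℝ}

lemma Hyp.recur (h : Hyp S w x y l) : ∃ N : ℕ → ℕ, StrictMono N ∧ ∀ u, S.B u x = 0 →
    S.B u y = 0 → Tendsto (fun j => (w ^ N j) u) atTop (𝓝 u) ∧
      Tendsto (fun j => (w ^ N j)⁻¹ u) atTop (𝓝 u) := by
  classical
  obtain ⟨C, hC, hbd⟩ := h.pow_bdd
  have : ProperSpace E := FiniteDimensional.proper ℝ E
  let U : Submodule ℝ E :=
    { carrier := {u | S.B u x = 0 ∧ S.B u y = 0}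
      add_mem' := by
        rintro a b ⟨ha1, ha2⟩ ⟨hb1, hb2⟩
        refine ⟨?_, ?_⟩
        · rw [map_add, LinearMap.add_apply, ha1, hb1, add_zero]
        · rw [map_add, LinearMap.add_apply, ha2, hb2, add_zero]
      zero_mem' := by
        refine ⟨?_, ?_⟩
        · rw [map_zero, LinearMap.zero_apply]
        · rw [map_zero, LinearMap.zero_apply]
      smul_mem' := by
        rintro c a ⟨ha1, ha2⟩
        refine ⟨?_, ?_⟩
        · rw [map_smul, LinearMap.smul_apply, ha1, smul_zero]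
        · rw [map_smul, LinearMap.smul_apply, ha2, smul_zero] }
  have hU : ∀ u, u ∈ U ↔ (S.B u x = 0 ∧ S.B u y = 0) := fun u => Iff.rfl
  let e := Module.finBasis ℝ U
  have hcan : ∀ (n : ℕ) (v : E), (w ^ n)⁻¹ ((w ^ n) v) = v := by
    intro n v
    show ((w ^ n)⁻¹ * (w ^ n)) v = v
    rw [inv_mul_cancel]
    rfl
  have key : ∀ ε > (0 : ℝ), ∀ M : ℕ, ∃ N ≥ M, ∀ i, ‖(w ^ N) (e i : E) - e i‖ < ε := by
    intro ε hε M
    let s : ℕ → (Fin (Module.finrank ℝ U) → E) := fun n i => (w ^ n) (e i : E)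
    have hs : ∀ n, s n ∈ Metric.closedBall (0 : Fin (Module.finrank ℝ U) → E)
        (C * ∑ i, ‖(e i : E)‖) := by
      intro n
      rw [mem_closedBall_zero_iff]
      refine (pi_norm_le_iff_of_nonneg (mul_nonneg hC (Finset.sum_nonneg fun i _ => norm_nonneg _))).2
        fun i => ?_
      have h1 := (hbd (e i : E) ((hU _).1 (e i).2).1 ((hU _).1 (e i).2).2 n).1
      refine h1.trans (mul_le_mul_of_nonneg_left ?_ hC)
      exact Finset.single_le_sum (f := fun i => ‖(e i : E)‖) (fun i _ => norm_nonneg _)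
        (Finset.mem_univ i)
    obtain ⟨a, -, φ, hφ, hlim⟩ := tendsto_subseq_of_bounded Metric.isBounded_closedBall hs
    have hcau := hlim.cauchySeq
    rw [Metric.cauchySeq_iff] at hcau
    obtain ⟨K, hK⟩ := hcau (ε / (C + 1)) (by positivity)
    have hlt := hK (K + M) (by omega) K le_rfl
    have hle : φ K + M ≤ φ (K + M) := by
      have := hφ.add_le_nat M K
      rw [add_comm K M]
      omega
    refine ⟨φ (K + M) - φ K, by omega, fun i => ?_⟩
    have hei := (hU _).1 (e i).2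
    have e1 : (w ^ (φ (K + M) - φ K)) (e i : E) - e i =
        (w ^ φ K)⁻¹ ((w ^ φ (K + M)) (e i : E) - (w ^ φ K) (e i : E)) := by
      rw [map_sub, hcan]
      congr 1
      have e2 : w ^ φ (K + M) = w ^ φ K * w ^ (φ (K + M) - φ K) := by
        rw [← pow_add]
        congr 1
        omega
      rw [e2]
      exact (hcan (φ K) _).symm
    have hmem : (w ^ φ (K + M)) (e i : E) - (w ^ φ K) (e i : E) ∈ U := by
      have a1 := h.pow_orth (φ (K + M)) hei.1 hei.2
      have a2 := h.pow_orth (φ K) hei.1 hei.2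
      exact U.sub_mem ((hU _).2 ⟨a1.1, a1.2.1⟩) ((hU _).2 ⟨a2.1, a2.2.1⟩)
    rw [e1]
    have h3 := (hbd _ ((hU _).1 hmem).1 ((hU _).1 hmem).2 (φ K)).2
    have h4 : ‖(w ^ φ (K + M)) (e i : E) - (w ^ φ K) (e i : E)‖ < ε / (C + 1) := by
      have h5 : dist (s (φ (K + M)) i) (s (φ K) i) ≤ dist (s (φ (K + M))) (s (φ K)) :=
        dist_le_pi_dist _ _ i
      rw [dist_eq_norm] at h5
      exact lt_of_le_of_lt h5 hlt
    have h6 : (0 : ℝ) < C + 1 := by linarith
    rw [lt_div_iff₀ h6] at h4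
    nlinarith [norm_nonneg ((w ^ φ (K + M)) (e i : E) - (w ^ φ K) (e i : E))]
  obtain ⟨N, hN, hP⟩ := Filter.extraction_forall_of_frequently
    (P := fun n k => ∀ i, ‖(w ^ k) (e i : E) - e i‖ < 1 / ((n : ℝ) + 1)) (by
      intro n
      rw [frequently_atTop]
      intro M
      exact key _ (by positivity) M)
  have hlimU : ∀ u, S.B u x = 0 → S.B u y = 0 → Tendsto (fun j => (w ^ N j) u) atTop (𝓝 u) := by
    intro u hux huy
    have hei : ∀ i, Tendsto (fun j => (w ^ N j) (e i : E)) atTop (𝓝 (e i : E)) := by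
      intro i
      rw [tendsto_iff_norm_sub_tendsto_zero]
      exact squeeze_zero (fun j => norm_nonneg _) (fun j => (hP j i).le)
        tendsto_one_div_add_atTop_nhds_zero_nat
    have hrep : ∑ i, (e.repr ⟨u, (hU u).2 ⟨hux, huy⟩⟩ i) • (e i : E) = u := by
      have h1 : U.subtype (∑ i, (e.repr ⟨u, (hU u).2 ⟨hux, huy⟩⟩ i) • e i) = u := by
        rw [e.sum_repr]
        rfl
      rw [map_sum] at h1
      refine Eq.trans ?_ h1
      exact Finset.sum_congr rfl fun i _ => (map_smul U.subtype _ _).symm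
    have h2 : Tendsto (fun j => ∑ i, (e.repr ⟨u, (hU u).2 ⟨hux, huy⟩⟩ i) • (w ^ N j) (e i : E)) atTop
        (𝓝 (∑ i, (e.repr ⟨u, (hU u).2 ⟨hux, huy⟩⟩ i) • (e i : E))) :=
      tendsto_finsetSum _ fun i _ => (hei i).const_smul _
    rw [hrep] at h2
    refine h2.congr fun j => ?_
    conv_rhs => rw [← hrep]
    rw [map_sum]
    exact Finset.sum_congr rfl fun i _ => (map_smul _ _ _).symm
  refine ⟨N, hN, fun u hux huy => ⟨hlimU u hux huy, ?_⟩⟩
  rw [tendsto_iff_norm_sub_tendsto_zero]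
  have h1 := (tendsto_iff_norm_sub_tendsto_zero.1 (hlimU u hux huy)).const_mul C
  rw [mul_zero] at h1
  refine squeeze_zero (fun j => norm_nonneg _) (fun j => ?_) h1
  have hmem : u - (w ^ N j) u ∈ U := by
    have a1 := h.pow_orth (N j) hux huy
    exact U.sub_mem ((hU _).2 ⟨hux, huy⟩) ((hU _).2 ⟨a1.1, a1.2.1⟩)
  have h2 := (hbd _ ((hU _).1 hmem).1 ((hU _).1 hmem).2 (N j)).2
  rw [map_sub, hcan, ← norm_neg (u - (w ^ N j) u), neg_sub] at h2
  exact h2

end Pool.Agent.H27.LZ
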