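import Pool.Agent.H27.LZ.HolF
import Pool.Agent.H27.LZ.HolS
import Pool.Agent.H27.LZ.PowL
import Pool.Agent.H27.LZ.Rec

/-!
# The critical point equation

`crit`: `s0` maximises `B · t` on `K = {u | Acc S q x y u}` (`t` orthogonal to `x, y`).
`z = k y`.  If `B x z = 0` then `z = c y'`... precisely: `z` is a multiple of `x` (`light_prop`), so
`B s0 z = 0 = B z t` and both sides vanish.  If `B (g x) y = 0` then `g x` is a multiple of `y` and again both
sides vanish.  Otherwise let `α = B (g x) y / B x y ≠ 0`, `a0 = aU S x y (g x)`, `N` of `Hyp.recur`,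
`ε j = (α * l ^ N j)⁻¹ → 0`, `a j = (w ^ N j) a0 → a0`.
`near`: `ε j • (w ^ N j) (g x) = nx S x y (a j) (ε j)` (by `Hyp.pow_dec`; the coefficient of `y` follows from
the light-likeness: `B (g x) (g x) = 0` gives `2 (B (g x) y / B x y) (B (g x) x / B x y) B x y + B a0 a0 = 0`, and
`B (a j) (a j) = B a0 a0`).  So with `g' = w ^ N j * g`, `Hol S x y (g' x) z = Hol S x y (nx …) z` (`hol_smul`,
`c' = 1`).  For large `j`, `B (nx …) z ≠ 0` (it tends to `B x z`), and `B (nx …) y = B x y`.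
Upper inequality: `B (Hol … s0) t ≤ B s0 t` (`acc_holLim`, `hmax`) so `ε j * DD … s0 ≤ 0` (`holF`).
Lower: `hol_surj` gives `u j` in `K` with `Hol … (u j) = s0`, `B (u j) t ≤ B s0 t = B (u j) t + ε j * DD … (u j)`, so
`0 ≤ ε j * DD … (u j)`.  By compactness (`K_compact`) a subsequence of `u j` tends to some `u'` in `K`; by
`hol_tendsto` (`nx → x`) `s0 = Hol S x y x z u' = u'` (`hol_self`).  `ε j` has the sign of `α`.
Pass to the limit (`DD_tendsto`): `(B s0 a0 * B z t - B s0 z * B a0 t) / B x z` is `≤ 0` and `≥ 0`, so it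
vanishes.  Finally `B s0 a0 = B s0 (g x)`, `B a0 t = B (g x) t` (`B_aU`, symmetry).
-/

set_option autoImplicit false

namespace Pool.Agent.H27.LZ

open Filter Topology

variable {E : Type*} [NormedAddCommGroup E] [NormedSpace ℝ E] [FiniteDimensional ℝ E]
  {S : Sys E} {w : E ≃ₗ[ℝ] E} {x y : E} {l : ℝ}

lemma near (h : Hyp S w x y l) {b : E} (hb : S.B b b = 0) (hby : S.B b y ≠ 0) (n : ℕ) :
    (S.B b y / S.B x y * l ^ n)⁻¹ • (w ^ n) b =
      nx S x y ((w ^ n) (aU S x y b)) ((S.B b y / S.B x y * l ^ n)⁻¹) := by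
  have hxy := h.xy
  have hl : l ≠ 0 := by
    have := h.one_lt
    intro h0
    rw [h0] at this
    linarith
  have hln : l ^ n ≠ 0 := pow_ne_zero n hl
  have hAx := aU_x (S := S) h.xx h.yy hxy b
  have hAy := aU_y (S := S) h.xx h.yy hxy b
  have hAA : S.B (aU S x y b) (aU S x y b) = -(2 * S.B b y * S.B b x / S.B x y) := by
    have h1 := congrArg (fun v => S.B b v) (aU_dec (S := S) x y b)
    simp only [map_add, map_smul, smul_eq_mul] at h1
    rw [hb, S.symm b (aU S x y b), ← B_aU hAx hAy b] at h1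
    have h2 : S.B b y / S.B x y * S.B b x + S.B b x / S.B x y * S.B b y =
        2 * S.B b y * S.B b x / S.B x y := by
      field_simp
      ring
    linarith
  have hiso := S.iso (w ^ n) (S.G.pow_mem h.mem n) (aU S x y b) (aU S x y b)
  have e1 : (S.B b y / S.B x y * l ^ n)⁻¹ * (S.B b y / S.B x y * l ^ n) = 1 :=
    inv_mul_cancel₀ (mul_ne_zero (div_ne_zero hby hxy) hln)
  have e2 : (S.B b y / S.B x y * l ^ n)⁻¹ * (S.B b x / S.B x y * (l⁻¹) ^ n) =
      -(((S.B b y / S.B x y * l ^ n)⁻¹) ^ 2 * -(2 * S.B b y * S.B b x / S.B x y)) /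
        (2 * S.B x y) := by
    rw [inv_pow l n]
    field_simp
  rw [h.pow_dec n b, nx, hiso, hAA, smul_add, smul_add, smul_smul, smul_smul, e1, e2, one_smul]
  abel

lemma crit (h : Hyp S w x y l) {q t s0 : E} (htx : S.B t x = 0) (hty : S.B t y = 0)
    (hs0 : Acc S q x y s0) (hmax : ∀ u, Acc S q x y u → S.B u t ≤ S.B s0 t)
    {g k : E ≃ₗ[ℝ] E} (hg : g ∈ S.G) (hk : k ∈ S.G) :
    S.B s0 (g x) * S.B (k y) t = S.B s0 (k y) * S.B (g x) t := by
  have hxx := h.xx
  have hyy := h.yy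
  have hxy := h.xy
  have hl1 := h.one_lt
  have hs0x : S.B s0 x = 0 := acc_z hs0
  have hs0y : S.B s0 y = 0 := acc_y hs0
  have hzz : S.B (k y) (k y) = 0 := by rw [S.iso k hk, hyy]
  have hgg : S.B (g x) (g x) = 0 := by rw [S.iso g hg, hxx]
  by_cases hxz : S.B x (k y) = 0
  · obtain ⟨c, hc⟩ := light_prop hxx hzz hxz h.x_ne
    rw [hc, map_smul, map_smul, LinearMap.smul_apply, smul_eq_mul, smul_eq_mul, hs0x,
      S.symm x t, htx]
    ring
  by_cases hgy : S.B (g x) y = 0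
  · obtain ⟨c, hc⟩ := light_prop hyy hgg (by rw [S.symm]; exact hgy) h.y_ne
    rw [hc, map_smul, map_smul, LinearMap.smul_apply, smul_eq_mul, smul_eq_mul, hs0y,
      S.symm y t, hty]
    ring
  obtain ⟨N, hN, hrec⟩ := h.recur
  set α : ℝ := S.B (g x) y / S.B x y with hα
  have hα0 : α ≠ 0 := div_ne_zero hgy hxy
  set a0 : E := aU S x y (g x) with ha0
  have ha0x : S.B a0 x = 0 := aU_x hxx hyy hxy _
  have ha0y : S.B a0 y = 0 := aU_y hxx hyy hxy _
  set z : E := k y with hz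
  obtain ⟨a, haa⟩ : ∃ a : ℕ → E, a = fun j => (w ^ N j) a0 := ⟨_, rfl⟩
  obtain ⟨ε, hεe⟩ : ∃ ε : ℕ → ℝ, ε = fun j => (α * l ^ N j)⁻¹ := ⟨_, rfl⟩
  have hl0 : 0 < l := by linarith
  have ha : Tendsto a atTop (𝓝 a0) := by
    rw [haa]
    exact (hrec a0 ha0x ha0y).1
  have hax : ∀ j, S.B (a j) x = 0 := fun j => by
    rw [haa]
    exact (h.pow_orth (N j) ha0x ha0y).1
  have hay : ∀ j, S.B (a j) y = 0 := fun j => by
    rw [haa]
    exact (h.pow_orth (N j) ha0x ha0y).2.1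
  have hε0 : ∀ j, ε j ≠ 0 := fun j => by
    rw [hεe]
    exact inv_ne_zero (mul_ne_zero hα0 (pow_ne_zero _ hl0.ne'))
  have hε : Tendsto ε atTop (𝓝 0) := by
    have h1 : Tendsto (fun j : ℕ => (l⁻¹) ^ N j) atTop (𝓝 0) :=
      (tendsto_pow_atTop_nhds_zero_of_lt_one (inv_nonneg.2 hl0.le)
        (inv_lt_one_of_one_lt₀ hl1)).comp hN.tendsto_atTop
    have h2 := h1.const_mul α⁻¹
    rw [mul_zero] at h2
    rw [hεe]
    refine h2.congr fun j => ?_
    rw [mul_inv, inv_pow]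
  have hnear : ∀ j, ε j • (w ^ N j) (g x) = nx S x y (a j) (ε j) := fun j => by
    have h1 := near h hgg hgy (N j)
    rw [haa, hεe]
    exact h1
  obtain ⟨nn, hnn⟩ : ∃ nn : ℕ → E, nn = fun j => nx S x y (a j) (ε j) := ⟨_, rfl⟩
  have hnlim : Tendsto nn atTop (𝓝 x) := by
    have h1 : Tendsto (fun j => S.B (a j) (a j)) atTop (𝓝 (S.B a0 a0)) := B_tendsto ha ha
    have h2 : Tendsto (fun j => -(ε j ^ 2 * S.B (a j) (a j)) / (2 * S.B x y)) atTop
        (𝓝 (-((0 : ℝ) ^ 2 * S.B a0 a0) / (2 * S.B x y))) :=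
      (((hε.pow 2).mul h1).neg).div_const _
    have h3 : Tendsto (fun j => x + ε j • a j +
        (-(ε j ^ 2 * S.B (a j) (a j)) / (2 * S.B x y)) • y) atTop
        (𝓝 (x + (0 : ℝ) • a0 + (-((0 : ℝ) ^ 2 * S.B a0 a0) / (2 * S.B x y)) • y)) :=
      ((tendsto_const_nhds.add (hε.smul ha)).add (h2.smul tendsto_const_nhds))
    have h4 : x + (0 : ℝ) • a0 + (-((0 : ℝ) ^ 2 * S.B a0 a0) / (2 * S.B x y)) • y = x := by
      simp
    rw [h4] at h3
    rw [hnn]
    exact h3
  have hnz : Tendsto (fun j => S.B (nn j) z) atTop (𝓝 (S.B x z)) :=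
    B_tendsto hnlim tendsto_const_nhds
  have hev : ∀ᶠ j in atTop, S.B (nn j) z ≠ 0 := hnz.eventually_ne hxz
  have hny : ∀ j, S.B (nn j) y = S.B x y := fun j => by
    rw [hnn]
    exact nx_y hyy (hay j)
  -- the group elements
  have hG : ∀ j, w ^ N j * g ∈ S.G := fun j => S.G.mul_mem (S.G.pow_mem h.mem _) hg
  have hgj : ∀ j, (w ^ N j * g) x = (ε j)⁻¹ • nn j := fun j => by
    rw [hnn]
    show _ = (ε j)⁻¹ • nx S x y (a j) (ε j)
    rw [← hnear j, smul_smul, inv_mul_cancel₀ (hε0 j), one_smul]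
    rfl
  have hhol : ∀ j u, Hol S x y ((w ^ N j * g) x) z u = Hol S x y (nn j) z u := fun j u => by
    have h1 := hol_smul (S := S) (inv_ne_zero (hε0 j)) one_ne_zero x y (nn j) z u
    rw [one_smul] at h1
    rw [hgj j, h1]
  have hB1 : ∀ j, S.B (nn j) z ≠ 0 → S.B ((w ^ N j * g) x) z ≠ 0 := fun j hj => by
    rw [hgj j, map_smul, LinearMap.smul_apply, smul_eq_mul]
    exact mul_ne_zero (inv_ne_zero (hε0 j)) hj
  have hB2 : ∀ j, S.B ((w ^ N j * g) x) y ≠ 0 := fun j => by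
    rw [hgj j, map_smul, LinearMap.smul_apply, smul_eq_mul, hny j]
    exact mul_ne_zero (inv_ne_zero (hε0 j)) hxy
  have hsign : ∀ (j : ℕ) (d : ℝ), ε j * d * (α * α * l ^ N j) = α * d := fun j d => by
    have h1 : ε j * (α * l ^ N j) = 1 := by
      rw [hεe]
      exact inv_mul_cancel₀ (mul_ne_zero hα0 (pow_ne_zero _ hl0.ne'))
    calc ε j * d * (α * α * l ^ N j) = (ε j * (α * l ^ N j)) * (α * d) := by ring
      _ = α * d := by rw [h1, one_mul]
  have hpos : ∀ j : ℕ, 0 ≤ α * α * l ^ N j := fun j =>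
    mul_nonneg (mul_self_nonneg α) (pow_nonneg hl0.le _)
  -- upper inequality
  have hup : ∀ᶠ j in atTop, α * DD S x y z (a j) s0 t (ε j) ≤ 0 := by
    filter_upwards [hev] with j hj
    have hden : S.B (nx S x y (a j) (ε j)) z ≠ 0 := by
      rw [hnn] at hj
      exact hj
    have h1 := acc_holLim h (hG j) hk (hB1 j hj) (hB2 j) hxz hs0
    have h2 := hmax _ h1
    rw [hhol j s0] at h2
    have h3 := holF hxx hyy hxy (hax j) (hay j) hs0x hs0y htx hty hxz hden
    have h4 : nn j = nx S x y (a j) (ε j) := by rw [hnn]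
    rw [h4, h3] at h2
    have h5 : ε j * DD S x y z (a j) s0 t (ε j) ≤ 0 := by linarith
    rw [← hsign j]
    exact mul_nonpos_of_nonpos_of_nonneg h5 (hpos j)
  -- lower inequality
  have hex : ∀ j, ∃ u, Acc S q x y u ∧ (S.B (nn j) z ≠ 0 → Hol S x y (nn j) z u = s0 ∧
      0 ≤ α * DD S x y z (a j) u t (ε j)) := by
    intro j
    by_cases hj : S.B (nn j) z = 0
    · exact ⟨s0, hs0, fun h1 => absurd hj h1⟩
    · obtain ⟨u, hu, hus⟩ := hol_surj h (hG j) hk (hB1 j hj) (hB2 j) hxz hs0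
      refine ⟨u, hu, fun _ => ?_⟩
      rw [hhol j u] at hus
      refine ⟨hus, ?_⟩
      have hden : S.B (nx S x y (a j) (ε j)) z ≠ 0 := by
        rw [hnn] at hj
        exact hj
      have h3 := holF hxx hyy hxy (hax j) (hay j) (acc_z hu) (acc_y hu) htx hty hxz hden
      have h4 : nn j = nx S x y (a j) (ε j) := by rw [hnn]
      rw [← h4, hus] at h3
      have h2 := hmax u hu
      have h5 : 0 ≤ ε j * DD S x y z (a j) u t (ε j) := by linarith
      rw [← hsign j]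
      exact mul_nonneg h5 (hpos j)
  choose u hu hu2 using hex
  obtain ⟨u', hu', φ, hφ, hlim⟩ := (K_compact h q).tendsto_subseq (x := u) hu
  have hφt : Tendsto φ atTop atTop := hφ.tendsto_atTop
  have hevφ : ∀ᶠ i in atTop, S.B (nn (φ i)) z ≠ 0 := hφt.eventually hev
  have heq : u' = s0 := by
    have h1 : Tendsto (fun i => Hol S x y (nn (φ i)) z (u (φ i))) atTop
        (𝓝 (Hol S x y x z u')) :=
      hol_tendsto (hnlim.comp hφt) tendsto_const_nhds hlim hxy hxy hxz hxz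
    rw [hol_self hxx hxy (acc_z hu') (acc_y hu')] at h1
    have h2 : Tendsto (fun i => Hol S x y (nn (φ i)) z (u (φ i))) atTop (𝓝 s0) := by
      refine (tendsto_congr' ?_).2 tendsto_const_nhds
      filter_upwards [hevφ] with i hi
      exact (hu2 (φ i) hi).1
    exact tendsto_nhds_unique h1 h2
  have hL1 : Tendsto (fun j => DD S x y z (a j) s0 t (ε j)) atTop
      (𝓝 ((S.B s0 a0 * S.B z t - S.B s0 z * S.B a0 t) / S.B x z)) :=
    DD_tendsto hε ha tendsto_const_nhds hxz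
  have hL2 : Tendsto (fun i => DD S x y z (a (φ i)) (u (φ i)) t (ε (φ i))) atTop
      (𝓝 ((S.B s0 a0 * S.B z t - S.B s0 z * S.B a0 t) / S.B x z)) := by
    rw [heq] at hlim
    exact DD_tendsto (hε.comp hφt) (ha.comp hφt) hlim hxz
  have hle : α * ((S.B s0 a0 * S.B z t - S.B s0 z * S.B a0 t) / S.B x z) ≤ 0 :=
    le_of_tendsto (hL1.const_mul α) hup
  have hge : 0 ≤ α * ((S.B s0 a0 * S.B z t - S.B s0 z * S.B a0 t) / S.B x z) := by
    refine ge_of_tendsto (hL2.const_mul α) ?_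
    filter_upwards [hevφ] with i hi
    exact (hu2 (φ i) hi).2
  have h0 : α * ((S.B s0 a0 * S.B z t - S.B s0 z * S.B a0 t) / S.B x z) = 0 := le_antisymm hle hge
  have h1 : S.B s0 a0 * S.B z t - S.B s0 z * S.B a0 t = 0 := by
    rcases mul_eq_zero.1 h0 with h2 | h2
    · exact absurd h2 hα0
    · rcases div_eq_zero_iff.1 h2 with h3 | h3
      · exact h3
      · exact absurd h3 hxz
  have h2 : S.B s0 a0 = S.B s0 (g x) := B_aU hs0x hs0y (g x)
  have h3 : S.B a0 t = S.B (g x) t := by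
    rw [S.symm a0 t, S.symm (g x) t]
    exact B_aU htx hty (g x)
  rw [h2, h3] at h1
  linarith

end Pool.Agent.H27.LZ
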