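import Mathlib

/-!
# Limit directions of Lorentzian Coxeter groups (MP_de6c1e_al, Q2): abstract definitions

helper27.  Namespace `Pool.Agent.H27.LZ`.  `E` is a finite dimensional real normed space with a
Lorentzian form `B` and a group `G` of isometries (`Sys`).  `Hyp S w x y l`: the element `w` of the
group has the eigenvectors `x` (attracting, eigenvalue `l > 1`) and `y` (repelling, `1 / l`).
`P a c u` moves `u` along the light-like vector `a` until it is orthogonal to `c`.
`Acc S q z y r`: arbitrarily near to `q` there are vectors `m` (same norm) with a translate `g m`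
arbitrarily near to `r`, exactly orthogonal to `z` and to a fixed vector `y'` near to `y`.
-/

set_option autoImplicit false

namespace Pool.Agent.H27.LZ

open Filter Topology

/-- A finite dimensional space with a nondegenerate symmetric form without negative semidefinite
planes, and a group of isometries. -/
structure Sys (E : Type*) [NormedAddCommGroup E] [NormedSpace ℝ E] where
  B : LinearMap.BilinForm ℝ E
  symm : ∀ u v, B u v = B v u
  nondeg : ∀ u, (∀ v, B u v = 0) → u = 0
  lor : ∀ a b : E, LinearIndependent ℝ ![a, b] →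
    ∃ s t : ℝ, 0 < B (s • a + t • b) (s • a + t • b)
  G : Subgroup (E ≃ₗ[ℝ] E)
  iso : ∀ g ∈ G, ∀ u v, B (g u) (g v) = B u v

variable {E : Type*} [NormedAddCommGroup E] [NormedSpace ℝ E]

/-- `w` is a hyperbolic element of the group with attracting vector `x` and repelling
vector `y` -/
structure Hyp (S : Sys E) (w : E ≃ₗ[ℝ] E) (x y : E) (l : ℝ) : Prop where
  mem : w ∈ S.G
  one_lt : 1 < l
  x_ne : x ≠ 0
  y_ne : y ≠ 0
  wx : w x = l • x
  wy : w y = l⁻¹ • y

/-- the fixed light-like vectors of hyperbolic elements -/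
def F (S : Sys E) : Set E := {x | ∃ w y l, Hyp S w x y l}

/-- the component of `z` orthogonal to `x` and `y` (light-like, `B x y ≠ 0`) -/
noncomputable def aU (S : Sys E) (x y z : E) : E :=
  z - (S.B z y / S.B x y) • x - (S.B z x / S.B x y) • y

/-- the translate of `u` along `a` which is orthogonal to `c` -/
noncomputable def P (S : Sys E) (a c u : E) : E := u - (S.B u c / S.B a c) • a

/-- transport around the cycle `(x, y), (x', y), (x', y'), (x, y'), (x, y)` -/
noncomputable def Hol (S : Sys E) (x y x' y' u : E) : E :=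
  P S x y (P S y' x (P S x' y' (P S y x' u)))

/-- every orbit of a vector of `F` spans the space -/
def Full (S : Sys E) : Prop := ∀ x ∈ F S, Submodule.span ℝ {z | ∃ g ∈ S.G, z = g x} = ⊤

/-- `q` is orthogonal to two different fixed vectors -/
def Cls (S : Sys E) (q : E) : Prop :=
  ∃ z ∈ F S, ∃ y ∈ F S, S.B z y ≠ 0 ∧ S.B q z = 0 ∧ S.B q y = 0

/-- accessibility -/
def Acc (S : Sys E) (q z y r : E) : Prop :=
  ∀ ε > (0 : ℝ), ∃ g ∈ S.G, ∃ m y' : E, y' ∈ F S ∧ ‖m - q‖ < ε ∧ S.B m m = S.B q q ∧
    S.B (g m) z = 0 ∧ S.B (g m) y' = 0 ∧ ‖y' - y‖ < ε ∧ ‖g m - r‖ < ε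

end Pool.Agent.H27.LZ
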