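import Pool.Agent.H27.LZ.DegD

/-!
# The hyperbolic element of a degenerate system

`c = c s t > 1`, `λ = c + √(c² - 1) > 1`, `λ² = 2 c λ - 1`.  `B(α_s, α_t) = - c`.
`σ_t (a α_s + b α_t) = a α_s + (2 c a - b) α_t`, `σ_s (a α_s + b α_t) = (2 c b - a) α_s + b α_t` (`refl_app`).
`w = σ_s σ_t`, `x = λ α_s + α_t`, `y = λ⁻¹ α_s + α_t`: `w x = λ² x`, `w y = (λ²)⁻¹ y`
(`w (a, b) = ((4 c² - 1) a - 2 c b, 2 c a - b)`).
`deg_inv`: the plane `L = span {α_s, α_t} = span {x, y}` is invariant under every simple reflection (the others fix `α_s, α_t`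
since `gram r s = - cos (π / 2) = 0`), hence under `W` (closure induction); so `orbSpan (sysV X hX) x ≤ L`.
`deg_light`: a light-like `z ∈ L`, `z = p x + q y`: `0 = 2 p q B x y`, so `z` is a multiple of `x` or of `y`.
`deg_perp`: for `Hyp (sysV X hX) w' x' y' l'`: `x', y' ∈ orbSpan (sysV X hX) x ≤ L` (`orb_x`, `orb_y`, `noLine`), both
light-like, not proportional; so `{x', y'}` are nonzero multiples of `{x, y}`, and `B v x' = B v y' = 0` gives
`B v x = B v y = 0`.
-/

set_option autoImplicit false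

namespace Pool.Agent.H27.LZ.Cox

open GeomCoxeter

variable {n : ℕ} (X : GeomCoxeter n)

private lemma da_gram_symm (s t : Fin n) : X.gram s t = X.gram t s := by
  have h1 : X.m s t = X.m t s := X.m.symmetric s t
  have h2 := X.c_symm s t
  simp only [gram, h1, h2]

private lemma da_bil_root (s t : Fin n) : bil X (root s) (root t) = X.gram s t :=
  form_root_root X s t

private lemma da_refl (s : Fin n) (x : V n) :
    X.simpleReflection s x = x - (2 * bil X x (root s)) • root s := refl_app X s x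

private lemma da_w {s t : Fin n} {c : ℝ} (hg : X.gram s t = -c) (a : ℝ)
    (h : a ^ 2 = 2 * c * a - 1) :
    (X.simpleReflection s * X.simpleReflection t) (a • root s + root t)
      = (a ^ 2) • (a • root s + root t) := by
  have hg' : X.gram t s = -c := by rw [← da_gram_symm]; exact hg
  change X.simpleReflection s (X.simpleReflection t (a • root s + root t)) = _
  have h1 : X.simpleReflection t (a • root s + root t)
      = a • root s + (2 * c * a - 1) • root t := by
    rw [da_refl]
    simp only [map_add, map_smul, LinearMap.add_apply, LinearMap.smul_apply, smul_eq_mul,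
      da_bil_root, hg, gram_self]
    module
  rw [h1, da_refl]
  simp only [map_add, map_smul, LinearMap.add_apply, LinearMap.smul_apply, smul_eq_mul,
    da_bil_root, hg', gram_self]
  have h2 : (a • root s + (2 * c * a - 1) • root t : V n) -
      (2 * (a * 1 + (2 * c * a - 1) * -c)) • root s
      = (2 * c * (2 * c * a - 1) - a) • root s + (2 * c * a - 1) • root t := by
    module
  rw [h2, smul_add, smul_smul, ← h]
  congr 2
  have h3 : a ^ 2 * a = (2 * c * a - 1) * a := by rw [← h]
  rw [h3]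
  nlinarith

lemma deg_hyp (hX : X.IsLorentzian) {s t : Fin n} (hst : s ≠ t) (hm : X.m s t = 0)
    (hc : 1 < X.c s t) : ∃ (w : V n ≃ₗ[ℝ] V n) (lam : ℝ), 1 < lam ∧
      Hyp (sysV X hX) w (lam • root s + root t) (lam⁻¹ • root s + root t) (lam ^ 2) := by
  have hg : X.gram s t = - X.c s t := by
    unfold gram
    rw [if_pos hm]
  set c := X.c s t with hcdef
  have h0 : 0 ≤ c ^ 2 - 1 := by nlinarith
  have hs := Real.sq_sqrt h0
  have hs0 := Real.sqrt_nonneg (c ^ 2 - 1)
  set q := Real.sqrt (c ^ 2 - 1) with hq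
  have hlam1 : 1 < c + q := by linarith
  have hrel : (c + q) ^ 2 = 2 * c * (c + q) - 1 := by nlinarith
  have hlam0 : (c + q) ≠ 0 := by linarith
  have hrel' : ((c + q)⁻¹) ^ 2 = 2 * c * (c + q)⁻¹ - 1 := by
    have h1 : ((c + q)⁻¹) ^ 2 = ((c + q)⁻¹) ^ 2 * ((c + q) ^ 2 - (2 * c * (c + q) - 1)) +
      ((c + q)⁻¹) ^ 2 := by rw [hrel]; ring
    field_simp
    linarith
  have hne : ∀ a : ℝ, (a • root s + root t : V n) ≠ 0 := by
    intro a h
    have h1 := congrFun h t
    simp only [root, Pi.add_apply, Pi.smul_apply, smul_eq_mul, Pi.single_eq_same,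
      Pi.zero_apply, Pi.single_eq_of_ne hst.symm, mul_zero, zero_add] at h1
    exact one_ne_zero h1
  refine ⟨X.simpleReflection s * X.simpleReflection t, c + q, hlam1, ?_, ?_, hne _, hne _, ?_, ?_⟩
  · exact X.W.mul_mem (Subgroup.subset_closure ⟨s, rfl⟩) (Subgroup.subset_closure ⟨t, rfl⟩)
  · nlinarith
  · exact da_w X hg _ hrel
  · rw [← inv_pow]
    exact da_w X hg _ hrel'

private lemma da_plane {s t : Fin n} (ho : ∀ r, r ≠ s → r ≠ t → X.m r s = 2 ∧ X.m r t = 2)
    {g : V n ≃ₗ[ℝ] V n} (hg : g ∈ X.W) : ∀ z ∈ Submodule.span ℝ {root s, (root t : V n)},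
      g z ∈ Submodule.span ℝ {root s, (root t : V n)} ∧
      g⁻¹ z ∈ Submodule.span ℝ {root s, (root t : V n)} := by
  have hs : (root s : V n) ∈ Submodule.span ℝ {root s, (root t : V n)} :=
    Submodule.subset_span (Set.mem_insert _ _)
  have ht : (root t : V n) ∈ Submodule.span ℝ {root s, (root t : V n)} :=
    Submodule.subset_span (Set.mem_insert_of_mem _ rfl)
  have key : ∀ r, ∀ z ∈ Submodule.span ℝ {root s, (root t : V n)},
      X.simpleReflection r z ∈ Submodule.span ℝ {root s, (root t : V n)} := by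
    intro r z hz
    rw [da_refl]
    by_cases hrs : r = s
    · rw [hrs]
      exact Submodule.sub_mem _ hz (Submodule.smul_mem _ _ hs)
    by_cases hrt : r = t
    · rw [hrt]
      exact Submodule.sub_mem _ hz (Submodule.smul_mem _ _ ht)
    obtain ⟨h1, h2⟩ := ho r hrs hrt
    have hg0 : ∀ u, X.m r u = 2 → X.gram u r = 0 := by
      intro u hu
      rw [da_gram_symm]
      unfold gram
      rw [if_neg (by rw [hu]; norm_num), hu]
      simp
    obtain ⟨a, b, hab⟩ := Submodule.mem_span_pair.1 hz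
    have h3 : bil X z (root r) = 0 := by
      rw [← hab]
      simp only [map_add, map_smul, LinearMap.add_apply, LinearMap.smul_apply, smul_eq_mul,
        da_bil_root, hg0 s h1, hg0 t h2]
      ring
    rw [h3, mul_zero, zero_smul, sub_zero]
    exact hz
  unfold W at hg
  induction hg using Subgroup.closure_induction with
  | mem g hg =>
    obtain ⟨r, rfl⟩ := hg
    intro z hz
    refine ⟨key r z hz, ?_⟩
    have h1 : (X.simpleReflection r)⁻¹ z = X.simpleReflection r z := by
      have h2 : X.simpleReflection r (X.simpleReflection r z) = z :=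
        LinearEquiv.apply_symm_apply (X.simpleReflection r) z
      have h3 : (X.simpleReflection r)⁻¹ (X.simpleReflection r (X.simpleReflection r z))
          = X.simpleReflection r z :=
        LinearEquiv.symm_apply_apply (X.simpleReflection r) (X.simpleReflection r z)
      rwa [h2] at h3
    rw [h1]
    exact key r z hz
  | one => exact fun z hz => ⟨hz, hz⟩
  | mul g h _ _ ihg ihh =>
    intro z hz
    refine ⟨(ihg _ (ihh z hz).1).1, ?_⟩
    rw [mul_inv_rev]
    exact (ihh _ (ihg z hz).2).2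
  | inv g _ ih =>
    intro z hz
    rw [inv_inv]
    exact ⟨(ih z hz).2, (ih z hz).1⟩

lemma deg_perp (hX : X.IsLorentzian) {s t : Fin n} (hst : s ≠ t)
    (ho : ∀ r, r ≠ s → r ≠ t → X.m r s = 2 ∧ X.m r t = 2) {w : V n ≃ₗ[ℝ] V n} {lam : ℝ}
    (hlam : 1 < lam)
    (h : Hyp (sysV X hX) w (lam • root s + root t) (lam⁻¹ • root s + root t) (lam ^ 2))
    {w' : V n ≃ₗ[ℝ] V n} {x' y' : V n} {l' : ℝ} (h' : Hyp (sysV X hX) w' x' y' l') {v : V n}
    (hx : bil X v x' = 0) (hy : bil X v y' = 0) :
    bil X v (lam • root s + root t) = 0 ∧ bil X v (lam⁻¹ • root s + root t) = 0 := by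
  have hlam0 : lam ≠ 0 := by linarith
  have hD : lam - lam⁻¹ ≠ 0 := by
    have h1 : lam⁻¹ < 1 := inv_lt_one_of_one_lt₀ hlam
    linarith
  have hsub : ∀ z ∈ orbSpan (sysV X hX) (lam • root s + root t),
      z ∈ Submodule.span ℝ {root s, (root t : V n)} := by
    intro z hz
    refine (Submodule.span_le.2 ?_ : orbSpan (sysV X hX) (lam • root s + root t) ≤
      Submodule.span ℝ {root s, (root t : V n)}) hz
    rintro u ⟨g, hg, rfl⟩
    refine (da_plane X ho hg _ ?_).1
    exact Submodule.mem_span_pair.2 ⟨lam, 1, by rw [one_smul]⟩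
  have hdec : ∀ z ∈ orbSpan (sysV X hX) (lam • root s + root t), ∃ p q : ℝ,
      z = p • (lam • root s + root t) + q • (lam⁻¹ • root s + root t) := by
    intro z hz
    obtain ⟨a, b, hab⟩ := Submodule.mem_span_pair.1 (hsub z hz)
    refine ⟨(a - b * lam⁻¹) / (lam - lam⁻¹), (b * lam - a) / (lam - lam⁻¹), ?_⟩
    rw [← hab, smul_add, smul_add, smul_smul, smul_smul]
    have e1 : (a - b * lam⁻¹) / (lam - lam⁻¹) * lam + (b * lam - a) / (lam - lam⁻¹) * lam⁻¹
        = a := by
      rw [div_mul_eq_mul_div, div_mul_eq_mul_div, ← add_div, div_eq_iff hD]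
      ring
    have e2 : (a - b * lam⁻¹) / (lam - lam⁻¹) + (b * lam - a) / (lam - lam⁻¹) = b := by
      rw [← add_div, div_eq_iff hD]
      ring
    have e3 : ∀ p1 p2 q1 q2 : ℝ, p1 • root s + p2 • root t + (q1 • root s + q2 • (root t : V n))
        = (p1 + q1) • root s + (p2 + q2) • root t := by
      intro p1 p2 q1 q2
      module
    rw [e3, e1, e2]
  have hF := h.x_mem
  obtain ⟨p, q, hpq⟩ := hdec x' (orb_x (noLine X hX) hF h')
  obtain ⟨p', q', hpq'⟩ := hdec y' (orb_y (noLine X hX) hF h')
  have hxx : bil X (lam • root s + root t) (lam • root s + root t) = 0 := h.xx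
  have hyy : bil X (lam⁻¹ • root s + root t) (lam⁻¹ • root s + root t) = 0 := h.yy
  have hxy : bil X (lam • root s + root t) (lam⁻¹ • root s + root t) ≠ 0 := h.xy
  have hxx' : bil X x' x' = 0 := h'.xx
  have hyy' : bil X y' y' = 0 := h'.yy
  have hxy' : bil X x' y' ≠ 0 := h'.xy
  set x := (lam • root s + root t : V n) with hxdef
  set y := (lam⁻¹ • root s + root t : V n) with hydef
  have hyx : bil X y x = bil X x y := bil_symm X y x
  have hB : ∀ a b c d : ℝ, bil X (a • x + b • y) (c • x + d • y)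
      = (a * d + b * c) * bil X x y := by
    intro a b c d
    simp only [map_add, map_smul, LinearMap.add_apply, LinearMap.smul_apply, smul_eq_mul, hxx,
      hyy, hyx]
    ring
  rw [hpq, hB] at hxx'
  rw [hpq, hpq', hB] at hxy'
  rw [hpq, map_add, map_smul, map_smul, smul_eq_mul, smul_eq_mul] at hx
  rw [hpq', map_add, map_smul, map_smul, smul_eq_mul, smul_eq_mul] at hy
  rw [hpq', hB] at hyy'
  have h1 : p * q = 0 := by
    have := (mul_eq_zero.1 hxx').resolve_right hxy
    linarith
  have h2 : p' * q' = 0 := by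
    have := (mul_eq_zero.1 hyy').resolve_right hxy
    linarith
  have h3 : p * q' + q * p' ≠ 0 := fun h => hxy' (by rw [h, zero_mul])
  rcases mul_eq_zero.1 h1 with hp | hq
  · rw [hp, zero_mul, zero_add] at h3 hx
    have hq0 : q ≠ 0 := left_ne_zero_of_mul h3
    have hp0 : p' ≠ 0 := right_ne_zero_of_mul h3
    have hq' : q' = 0 := (mul_eq_zero.1 h2).resolve_left hp0
    rw [hq', zero_mul, add_zero] at hy
    exact ⟨(mul_eq_zero.1 hy).resolve_left hp0, (mul_eq_zero.1 hx).resolve_left hq0⟩
  · rw [hq, zero_mul, add_zero] at h3 hx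
    have hp0 : p ≠ 0 := left_ne_zero_of_mul h3
    have hq0 : q' ≠ 0 := right_ne_zero_of_mul h3
    have hp' : p' = 0 := (mul_eq_zero.1 h2).resolve_right hq0
    rw [hp', zero_mul, zero_add] at hy
    exact ⟨(mul_eq_zero.1 hx).resolve_left hp0, (mul_eq_zero.1 hy).resolve_left hq0⟩

end Pool.Agent.H27.LZ.Cox
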