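import Pool.Agent.H27.LZ.CTop

/-!
# The topology of the projective space, continued

`limit_of_smul`: as `limit_of` in `CTop.lean` (same proof, `[g p] = [c • g p]` for `c ≠ 0`; here `c ≠ 0` can be assumed: for
`ε < ‖v‖`, `‖0 • g p - v‖ < ε` is impossible).
`mem_closure_of`: for `ε = 1 / (k + 1)` get `u k → v`; `[u k] → [v]` (continuity of the quotient map).
`lift_seq`: for every `j` the image of the ball of radius `1 / (j + 1)` around `v` in the projective space is an open
neighbourhood of `[v]` (see `isOpen_image` in the header of `CTop.lean`), so `z k` is in it for all large `k`.  So there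
are `φ 0 < φ 1 < …` and representatives `ν j • u (φ j)` in the ball (`[a] = [b]` iff `a = ν • b`).
-/

set_option autoImplicit false

open scoped LinearAlgebra.Projectivization
open Filter Topology

namespace Pool.Agent.H27.LZ.Cox

open GeomCoxeter

variable {n : ℕ}

private lemma tr_cont (n : ℕ) : @Continuous {v : V n // v ≠ 0} (ℙ ℝ (V n)) _ (projTopology n)
    (fun v => Projectivization.mk ℝ v.1 v.2) := continuous_quotient_mk'

private lemma tr_tendsto {u : ℕ → V n} (hu : ∀ k, u k ≠ 0) {v : V n} (hv : v ≠ 0)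
    (h : Tendsto u atTop (𝓝 v)) :
    Tendsto (fun k => Projectivization.mk ℝ (u k) (hu k)) atTop
      (@nhds _ (projTopology n) (Projectivization.mk ℝ v hv)) := by
  have hsub : Tendsto (fun k => (⟨u k, hu k⟩ : {v : V n // v ≠ 0})) atTop (𝓝 ⟨v, hv⟩) := by
    rw [tendsto_subtype_rng]
    exact h
  have hq := tr_cont n
  let _ := projTopology n
  exact (hq.tendsto _).comp hsub

private lemma tr_open {O : Set (V n)} (hO : IsOpen O) : @IsOpen _ (projTopology n)
    {p : ℙ ℝ (V n) | ∃ (u : V n) (hu : u ≠ 0), u ∈ O ∧ p = Projectivization.mk ℝ u hu} := by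
  have key : IsOpen ((fun v : {v : V n // v ≠ 0} => Projectivization.mk ℝ v.1 v.2) ⁻¹'
      {p : ℙ ℝ (V n) | ∃ (u : V n) (hu : u ≠ 0), u ∈ O ∧ p = Projectivization.mk ℝ u hu}) := by
    rw [isOpen_iff_forall_mem_open]
    rintro ⟨w, hw⟩ ⟨u, hu, huO, he⟩
    obtain ⟨a, ha⟩ := (Projectivization.mk_eq_mk_iff' ℝ w u hw hu).1 he
    have ha0 : a ≠ 0 := by
      rintro rfl
      rw [zero_smul] at ha
      exact hw ha.symm
    refine ⟨{w' : {v : V n // v ≠ 0} | a⁻¹ • w'.1 ∈ O}, ?_, ?_, ?_⟩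
    · rintro ⟨w', hw'⟩ h1
      refine ⟨a⁻¹ • w', smul_ne_zero (inv_ne_zero ha0) hw', h1, ?_⟩
      rw [Projectivization.mk_eq_mk_iff']
      exact ⟨a, by rw [smul_smul, mul_inv_cancel₀ ha0, one_smul]⟩
    · exact hO.preimage (continuous_subtype_val.const_smul a⁻¹)
    · change a⁻¹ • w ∈ O
      rw [← ha, smul_smul, inv_mul_cancel₀ ha0, one_smul]
      exact huO
  exact key

private lemma tr_closed (p : ℙ ℝ (V n)) : @IsClosed _ (projTopology n) {p} := by
  have key : IsClosed ((fun v : {v : V n // v ≠ 0} => Projectivization.mk ℝ v.1 v.2) ⁻¹' {p}) := by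
    induction p using Projectivization.ind with
    | h u hu =>
      have h1 : ((fun v : {v : V n // v ≠ 0} => Projectivization.mk ℝ v.1 v.2) ⁻¹'
          {Projectivization.mk ℝ u hu}) = (fun v : {v : V n // v ≠ 0} => v.1) ⁻¹'
          (Submodule.span ℝ {u} : Set (V n)) := by
        ext ⟨w, hw⟩
        rw [Set.mem_preimage, Set.mem_singleton_iff, Projectivization.mk_eq_mk_iff',
          Set.mem_preimage, SetLike.mem_coe, Submodule.mem_span_singleton]
      rw [h1]
      exact (Submodule.closed_of_finiteDimensional _).preimage continuous_subtype_val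
  have h2 := key.isOpen_compl
  rw [← Set.preimage_compl] at h2
  have h3 : @IsOpen _ (projTopology n) ({p}ᶜ : Set (ℙ ℝ (V n))) := h2
  let _ := projTopology n
  exact isOpen_compl_iff.1 h3

private lemma tr_inj {z : ℕ → ℙ ℝ (V n)} {q : ℙ ℝ (V n)}
    (h : Tendsto z atTop (@nhds _ (projTopology n) q)) (hne : ∀ k, z k ≠ q) :
    ∃ φ : ℕ → ℕ, Function.Injective (z ∘ φ) ∧
      Tendsto (z ∘ φ) atTop (@nhds _ (projTopology n) q) := by
  let _ := projTopology n
  have : T1Space (ℙ ℝ (V n)) := ⟨fun p => tr_closed p⟩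
  have hinf : (Set.range z).Infinite := by
    intro hfin
    have h1 : (Set.range z)ᶜ ∈ @nhds _ (projTopology n) q := by
      refine hfin.isClosed.isOpen_compl.mem_nhds ?_
      rintro ⟨k, hk⟩
      exact hne k hk
    obtain ⟨k, hk⟩ := (h.eventually h1).exists
    exact hk ⟨k, rfl⟩
  have e := hinf.natEmbedding
  choose φ hφ using fun k => (e k).2
  have hinj : Function.Injective (z ∘ φ) := by
    intro a b hab
    apply e.injective
    apply Subtype.ext
    rw [← hφ a, ← hφ b]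
    exact hab
  refine ⟨φ, hinj, h.comp ?_⟩
  exact (Function.Injective.of_comp hinj).nat_tendsto_atTop

lemma limit_of_smul (X : GeomCoxeter n) {p v : V n} (hp : p ≠ 0) (hv : v ≠ 0)
    (h : ∀ ε > 0, ∃ g ∈ X.W, ∃ c : ℝ, ‖c • g p - v‖ < ε ∧ ∀ d : ℝ, g p ≠ d • v) :
    X.IsLimitOf (Projectivization.mk ℝ p hp) (Projectivization.mk ℝ v hv) := by
  have hvn : 0 < ‖v‖ := norm_pos_iff.2 hv
  have h1 : ∀ k : ℕ, ∃ g ∈ X.W, ∃ c : ℝ, ‖c • g p - v‖ < min (1 / ((k : ℝ) + 1)) ‖v‖ ∧
      ∀ d : ℝ, g p ≠ d • v := by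
    intro k
    exact h _ (lt_min (by positivity) hvn)
  choose g hg c hc hd using h1
  have hc0 : ∀ k, c k ≠ 0 := by
    intro k hk
    have h2 := hc k
    rw [hk, zero_smul, zero_sub, norm_neg] at h2
    exact absurd (h2.trans_le (min_le_right _ _)) (lt_irrefl _)
  have hgp : ∀ k, g k p ≠ 0 := fun k h0 => hp ((LinearEquiv.map_eq_zero_iff (g k)).1 h0)
  have hcg : ∀ k, c k • g k p ≠ 0 := fun k => smul_ne_zero (hc0 k) (hgp k)
  have hlim : Tendsto (fun k => c k • g k p) atTop (𝓝 v) := by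
    rw [tendsto_iff_norm_sub_tendsto_zero]
    refine squeeze_zero (fun k => norm_nonneg _) (fun k => ((hc k).trans_le (min_le_left _ _)).le)
      tendsto_one_div_add_atTop_nhds_zero_nat
  have hz : ∀ k, Projectivization.mk ℝ (c k • g k p) (hcg k) =
      g k • Projectivization.mk ℝ p hp := by
    intro k
    have h2 : g k • Projectivization.mk ℝ p hp = Projectivization.mk ℝ (g k p) (hgp k) := rfl
    rw [h2, Projectivization.mk_eq_mk_iff']
    exact ⟨c k, rfl⟩
  have h3 := tr_tendsto hcg hv hlim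
  have hne : ∀ k, Projectivization.mk ℝ (c k • g k p) (hcg k) ≠ Projectivization.mk ℝ v hv := by
    intro k hk
    obtain ⟨a, ha⟩ := (Projectivization.mk_eq_mk_iff' ℝ _ _ (hcg k) hv).1 hk
    refine hd k ((c k)⁻¹ * a) ?_
    rw [mul_smul, ha, smul_smul, inv_mul_cancel₀ (hc0 k), one_smul]
  obtain ⟨φ, hφ1, hφ2⟩ := tr_inj h3 hne
  exact ⟨_, hφ1, fun k => ⟨g (φ k), hg _, hz (φ k)⟩, hφ2⟩

lemma mem_closure_of {U : Set (ℙ ℝ (V n))} {v : V n} (hv : v ≠ 0)
    (h : ∀ ε > 0, ∃ (u : V n) (hu : u ≠ 0), ‖u - v‖ < ε ∧ Projectivization.mk ℝ u hu ∈ U) :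
    Projectivization.mk ℝ v hv ∈ @closure _ (projTopology n) U := by
  have h1 : ∀ k : ℕ, ∃ (u : V n) (hu : u ≠ 0), ‖u - v‖ < 1 / ((k : ℝ) + 1) ∧
      Projectivization.mk ℝ u hu ∈ U := fun k => h _ (by positivity)
  choose u hu hlt hU using h1
  have hlim : Tendsto u atTop (𝓝 v) := by
    rw [tendsto_iff_norm_sub_tendsto_zero]
    exact squeeze_zero (fun k => norm_nonneg _) (fun k => (hlt k).le)
      tendsto_one_div_add_atTop_nhds_zero_nat
  have h3 := tr_tendsto hu hv hlim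
  let _ := projTopology n
  exact mem_closure_of_tendsto h3 (Eventually.of_forall hU)

lemma lift_seq {u : ℕ → V n} (hu : ∀ k, u k ≠ 0) {v : V n} (hv : v ≠ 0)
    (h : Tendsto (fun k => Projectivization.mk ℝ (u k) (hu k)) atTop
      (@nhds _ (projTopology n) (Projectivization.mk ℝ v hv))) :
    ∃ (φ : ℕ → ℕ) (ν : ℕ → ℝ), StrictMono φ ∧ Tendsto (fun j => ν j • u (φ j)) atTop (𝓝 v) := by
  have h1 : ∀ j : ℕ, ∀ᶠ k in atTop, ∃ ν : ℝ, ‖ν • u k - v‖ < 1 / ((j : ℝ) + 1) := by
    intro j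
    have hO := tr_open (n := n) (Metric.isOpen_ball (x := v) (ε := 1 / ((j : ℝ) + 1)))
    have hmem : {p : ℙ ℝ (V n) | ∃ (u : V n) (hu : u ≠ 0),
        u ∈ Metric.ball v (1 / ((j : ℝ) + 1)) ∧ p = Projectivization.mk ℝ u hu} ∈
        @nhds _ (projTopology n) (Projectivization.mk ℝ v hv) := by
      let _ := projTopology n
      exact hO.mem_nhds ⟨v, hv, Metric.mem_ball_self (by positivity), rfl⟩
    filter_upwards [h.eventually hmem] with k hk
    obtain ⟨w, hw, hwb, he⟩ := hk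
    obtain ⟨a, ha⟩ := (Projectivization.mk_eq_mk_iff' ℝ _ _ hw (hu k)).1 he.symm
    refine ⟨a, ?_⟩
    rw [ha]
    rwa [mem_ball_iff_norm] at hwb
  obtain ⟨φ, hφ, hφ2⟩ := extraction_forall_of_eventually h1
  choose ν hν using hφ2
  refine ⟨φ, ν, hφ, ?_⟩
  rw [tendsto_iff_norm_sub_tendsto_zero]
  exact squeeze_zero (fun k => norm_nonneg _) (fun k => (hν k).le)
    tendsto_one_div_add_atTop_nhds_zero_nat

end Pool.Agent.H27.LZ.Cox
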