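import Pool.Agent.H27.LZ.DegA
import Pool.Agent.H27.LZ.CEig
import Pool.Agent.H27.LZ.TopR
import Pool.Agent.H27.LZ.PowL

/-!
# For degenerate systems the two sets differ

`x, y, w, lam` of `deg_hyp`.  `[x]` is a limit direction: base point `p = x + y`: with `l = lam ^ 2`,
`(l⁻¹) ^ k • (w ^ k) (x + y) = x + (l⁻¹) ^ (2 k) • y → x`, and `(w ^ k) (x + y) = l ^ k x + l⁻¹ ^ k y` is not a multiple of `x`
(`B · x`); `limit_of_smul`.
`[x]` is not in the closure: otherwise (`closure_rep`) there are `u → x` with `[u]` unimodular: `w'` hyperbolic in `W`,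
`u ∈ unimodularSubspace w'`; `hyp_of_hyperbolic` and `deg_perp`: `B u y = 0`; in the limit `B x y = 0` (continuity of
`u ↦ bil X u y`, a linear map in finite dimension), contradicting `Hyp.xy`.
-/

set_option autoImplicit false

open scoped LinearAlgebra.Projectivization
open Filter Topology

namespace Pool.Agent.H27.LZ.Cox

open GeomCoxeter

variable {n : ℕ} (X : GeomCoxeter n)

theorem deg_ne (hX : X.IsLorentzian) (hdeg : Degenerate X) :
    ∃ p ∈ X.limitDirections, p ∉ @closure _ (projTopology n) X.unimodularDirections := by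
  obtain ⟨s, t, hst, hm, hc, ho⟩ := hdeg
  obtain ⟨w, lam, hlam, h⟩ := deg_hyp X hX hst hm hc
  set x : V n := lam • root s + root t with hxdef
  set y : V n := lam⁻¹ • root s + root t with hydef
  have hxy : bil X x y ≠ 0 := h.xy
  have hxx : bil X x x = 0 := h.xx
  have hyy : bil X y y = 0 := h.yy
  have hl0 : lam ^ 2 ≠ 0 := by positivity
  have hpy : bil X (x + y) y = bil X x y := by
    rw [map_add (bil X) x y, LinearMap.add_apply, hyy, add_zero]
  have hpx : bil X (x + y) x = bil X x y := by
    rw [map_add (bil X) x y, LinearMap.add_apply, hxx, zero_add, bil_symm]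
  have hp : x + y ≠ 0 := by
    intro h0
    rw [h0, map_zero, LinearMap.zero_apply] at hpy
    exact hxy hpy.symm
  refine ⟨Projectivization.mk ℝ x h.x_ne, ⟨Projectivization.mk ℝ (x + y) hp, ?_⟩, ?_⟩
  · apply limit_of_smul X hp h.x_ne
    intro ε hε
    have hz : (sysV X hX).B (x + y) y ≠ 0 := by
      show bil X (x + y) y ≠ 0
      rw [hpy]
      exact hxy
    obtain ⟨c, _, hlim⟩ := h.pow_dir hz
    obtain ⟨k, hk⟩ := (Metric.tendsto_atTop.1 hlim ε hε)
    refine ⟨w ^ k, Subgroup.pow_mem _ h.mem k, c k, ?_, ?_⟩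
    · have h1 := hk k le_rfl
      rwa [dist_eq_norm] at h1
    · intro d hd
      have h1 : bil X ((w ^ k) (x + y)) ((w ^ k) x) = bil X (x + y) x :=
        (sysV X hX).iso (w ^ k) (Subgroup.pow_mem _ h.mem k) (x + y) x
      rw [hd, h.pow_x, map_smul, map_smul (bil X) d x, LinearMap.smul_apply, hxx, hpx] at h1
      simp only [smul_zero] at h1
      exact hxy h1.symm
  · intro hcl
    have hcont : Continuous fun u : V n => bil X u y := by
      have h1 : Continuous ((bil X).flip y) := LinearMap.continuous_of_finiteDimensional _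
      exact h1
    obtain ⟨ε, hε, hev⟩ := Metric.eventually_nhds_iff.1 (hcont.continuousAt.eventually_ne hxy)
    obtain ⟨u, hu, hux, w', hw', hhyp, hsub⟩ := closure_rep h.x_ne hcl ε hε
    have huU : u ∈ X.unimodularSubspace w' := by
      apply hsub
      rw [Projectivization.submodule_mk]
      exact Submodule.mem_span_singleton_self u
    obtain ⟨x', y', l', h', horth⟩ := hyp_of_hyperbolic X hX hw' hhyp
    obtain ⟨h1, h2⟩ := horth u huU
    have h3 := (deg_perp X hX hst ho hlam h h' h1 h2).2
    exact hev (by rw [dist_eq_norm]; exact hux) h3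

end Pool.Agent.H27.LZ.Cox
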