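import Pool.Agent.H27.LZ.CLift

/-!
# Degenerate systems

`Degenerate X`: the Lorentzian component of `W` is an infinite dihedral group: there are simple roots `α_s, α_t` with
`m s t = ∞`, `c s t > 1`, orthogonal to all other simple roots.
`dim_three`: let `L = orbSpan (sysV X hX) x0`, `A = {r | root r ∈ L}`.  Every other simple root is orthogonal to `L`
(see the header of `CLift`: `v - σ_r v = 2 B(v, α_r) α_r ∈ L` for `v ∈ L`).  `L` is spanned by the roots in `A`: for
`z ∈ L`, `z = ∑ z r • root r`, the part over the complement of `A` is in `L` and orthogonal to `L`, so it is `0` (`orb_nd`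
with `noLine`).  So `finrank L = card A` (`root` is a basis of `V n`, `Pi.basisFun`).  `x0 ∈ L` is nonzero and light-like.
If `card A = 0`, `x0 = 0`.  If `A = {s}`, `x0 = c root s`, `B x0 x0 = c²`, contradiction.  If `A = {s, t}`:
`x0 = a α_s + b α_t`, `a² + b² + 2 a b γ = 0` with `γ = gram s t`, so `γ² ≥ 1`; `γ ≤ 0`
(`γ = - cos (π / m)`, `m ≥ 2`, or `γ = - c`), so `γ ≤ -1`.  `γ = -1` is impossible: then `α_s + α_t ∈ L` is orthogonal to
`L` (`orb_nd`).  So `γ < -1`, hence `m s t = 0` and `c s t > 1`.  For `r ∉ A`: `gram r s = 0`, so `m r s ≠ 0`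
(otherwise `gram = - c ≤ -1`) and `cos (π / m r s) = 0` with `m r s ≥ 2`, so `m r s = 2`.  So `X` is degenerate.
-/

set_option autoImplicit false

namespace Pool.Agent.H27.LZ.Cox

open GeomCoxeter

variable {n : ℕ}

variable (X : GeomCoxeter n)

private lemma dd_two_le {s t : Fin n} (h : s ≠ t) (h0 : X.m s t ≠ 0) : 2 ≤ X.m s t := by
  have h1 : X.m s t ≠ 1 := X.m.off_diagonal s t h
  omega

lemma gram_nonpos {s t : Fin n} (h : s ≠ t) : X.gram s t ≤ 0 := by
  unfold gram
  split_ifs with h0
  · have h1 := X.one_le_c s t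
    linarith
  · have h2 : (2 : ℝ) ≤ (X.m s t : ℝ) := by exact_mod_cast dd_two_le X h h0
    have h3 : Real.pi / (X.m s t : ℝ) ≤ Real.pi / 2 :=
      div_le_div_of_nonneg_left Real.pi_pos.le (by norm_num) h2
    have h4 : 0 ≤ Real.pi / (X.m s t : ℝ) := div_nonneg Real.pi_pos.le (by linarith)
    have h5 : 0 ≤ Real.cos (Real.pi / (X.m s t : ℝ)) :=
      Real.cos_nonneg_of_neg_pi_div_two_le_of_le (by linarith [Real.pi_pos]) h3
    linarith

lemma gram_lt {s t : Fin n} (h : X.gram s t < -1) : X.m s t = 0 ∧ 1 < X.c s t := by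
  unfold gram at h
  split_ifs at h with h0
  · exact ⟨h0, by linarith⟩
  · exfalso
    have h1 := Real.cos_le_one (Real.pi / (X.m s t : ℝ))
    linarith

lemma gram_zero {s t : Fin n} (h : X.gram s t = 0) : X.m s t = 2 := by
  have hst : s ≠ t := by
    intro hst
    rw [hst, gram_self] at h
    exact one_ne_zero h
  unfold gram at h
  split_ifs at h with h0
  · have h1 := X.one_le_c s t
    exfalso
    linarith
  · have h2 := dd_two_le X hst h0
    by_contra h3
    have h4 : 3 ≤ X.m s t := by omega
    have h5 : (3 : ℝ) ≤ (X.m s t : ℝ) := by exact_mod_cast h4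
    have h6 : Real.pi / (X.m s t : ℝ) ≤ Real.pi / 3 :=
      div_le_div_of_nonneg_left Real.pi_pos.le (by norm_num) h5
    have h7 : 0 ≤ Real.pi / (X.m s t : ℝ) := div_nonneg Real.pi_pos.le (by linarith)
    have h8 : 0 < Real.cos (Real.pi / (X.m s t : ℝ)) :=
      Real.cos_pos_of_mem_Ioo ⟨by linarith [Real.pi_pos], by linarith [Real.pi_pos]⟩
    linarith

private lemma dd_root_self (r : Fin n) : (root r : V n) r = 1 := by
  simp [root]

private lemma dd_root_ne {r j : Fin n} (h : j ≠ r) : (root r : V n) j = 0 := by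
  simp [root, h]

private lemma dd_dec (v : V n) : v = ∑ s, v s • (root s : V n) := by
  ext j
  rw [Finset.sum_apply, Finset.sum_eq_single j]
  · simp [root]
  · intro b _ hb
    simp [root, Ne.symm hb]
  · intro h
    exact absurd (Finset.mem_univ j) h

private lemma dd_perp (hX : X.IsLorentzian) {x0 : V n} {r : Fin n}
    (hr : (root r : V n) ∉ orbSpan (sysV X hX) x0) {z : V n}
    (hz : z ∈ orbSpan (sysV X hX) x0) : X.form z (root r) = 0 := by
  by_contra hne
  apply hr
  have hmem : X.simpleReflection r ∈ (sysV X hX).G := Subgroup.subset_closure ⟨r, rfl⟩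
  have h1 := orb_inv (S := sysV X hX) hmem hz
  rw [refl_app] at h1
  have h2 := Submodule.sub_mem _ hz h1
  rw [sub_sub_cancel] at h2
  exact (Submodule.smul_mem_iff _ (mul_ne_zero two_ne_zero hne)).1 h2

private lemma dd_supp (hX : X.IsLorentzian) {x0 : V n} {z : V n}
    (hz : z ∈ orbSpan (sysV X hX) x0) {r : Fin n}
    (hr : (root r : V n) ∉ orbSpan (sysV X hX) x0) : z r = 0 := by
  classical
  set L := orbSpan (sysV X hX) x0 with hL
  have h1 : z = ∑ s ∈ Finset.univ.filter (fun s => (root s : V n) ∈ L), z s • (root s : V n)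
      + ∑ s ∈ Finset.univ.filter (fun s => ¬ (root s : V n) ∈ L), z s • (root s : V n) := by
    rw [Finset.sum_filter_add_sum_filter_not]
    exact dd_dec z
  have h2 : ∑ s ∈ Finset.univ.filter (fun s => (root s : V n) ∈ L), z s • (root s : V n) ∈ L := by
    refine Submodule.sum_mem _ ?_
    intro s hs
    exact Submodule.smul_mem _ _ (Finset.mem_filter.mp hs).2
  have h3 : ∑ s ∈ Finset.univ.filter (fun s => ¬ (root s : V n) ∈ L), z s • (root s : V n) ∈ L := by
    have h4 : ∑ s ∈ Finset.univ.filter (fun s => ¬ (root s : V n) ∈ L), z s • (root s : V n)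
        = z - ∑ s ∈ Finset.univ.filter (fun s => (root s : V n) ∈ L), z s • (root s : V n) := by
      rw [eq_sub_iff_add_eq, add_comm]
      exact h1.symm
    rw [h4]
    exact Submodule.sub_mem _ hz h2
  have h5 : ∑ s ∈ Finset.univ.filter (fun s => ¬ (root s : V n) ∈ L), z s • (root s : V n) = 0 := by
    refine orb_nd (S := sysV X hX) (noLine X hX) h3 ?_
    intro y hy
    rw [map_sum, LinearMap.sum_apply]
    refine Finset.sum_eq_zero ?_
    intro s hs
    rw [map_smul, LinearMap.smul_apply, (sysV X hX).symm]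
    have h6 : (sysV X hX).B y (root s) = 0 := dd_perp X hX (Finset.mem_filter.mp hs).2 hy
    rw [h6, smul_zero]
  have h6 := congrFun h5 r
  rw [Finset.sum_apply, Finset.sum_eq_single r] at h6
  · rw [Pi.smul_apply, dd_root_self, smul_eq_mul, mul_one] at h6
    exact h6
  · intro b _ hb
    rw [Pi.smul_apply, dd_root_ne (Ne.symm hb), smul_zero]
  · intro h
    exact absurd (Finset.mem_filter.mpr ⟨Finset.mem_univ r, hr⟩) h

private lemma dd_card (L : Submodule ℝ (V n)) (A : Finset (Fin n))
    (hA : ∀ r ∈ A, (root r : V n) ∈ L) : A.card ≤ Module.finrank ℝ L := by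
  have h1 : LinearIndependent ℝ (fun r : Fin n => (root r : V n)) := by
    have h2 := (Pi.basisFun ℝ (Fin n)).linearIndependent
    have h3 : (fun r : Fin n => (root r : V n)) = ⇑(Pi.basisFun ℝ (Fin n)) := by
      funext r
      rw [Pi.basisFun_apply]
      rfl
    rw [h3]
    exact h2
  have h2 : LinearIndependent ℝ (fun r : A => (⟨root r.1, hA r.1 r.2⟩ : L)) := by
    have h3 : LinearIndependent ℝ (fun r : A => (root r.1 : V n)) :=
      h1.comp (fun r : A => r.1) Subtype.val_injective
    exact LinearIndependent.of_comp L.subtype h3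
  have h3 := h2.fintype_card_le_finrank
  rwa [Fintype.card_coe] at h3

lemma dim_three (hX : X.IsLorentzian) (hdeg : ¬ Degenerate X) {x0 : V n}
    (hx0 : x0 ∈ F (sysV X hX)) : 3 ≤ Module.finrank ℝ (orbSpan (sysV X hX) x0) := by
  classical
  by_contra hlt
  push Not at hlt
  apply hdeg
  set L := orbSpan (sysV X hX) x0 with hL
  set A : Finset (Fin n) := Finset.univ.filter (fun s => (root s : V n) ∈ L) with hA
  have hcard : A.card ≤ Module.finrank ℝ L :=
    dd_card L A (fun r hr => (Finset.mem_filter.mp hr).2)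
  have hne : x0 ≠ 0 := F_ne hx0
  have hli : X.form x0 x0 = 0 := F_light hx0
  have hsupp : ∀ z ∈ L, z = ∑ s ∈ A, z s • (root s : V n) := by
    intro z hz
    conv_lhs => rw [dd_dec z]
    symm
    apply Finset.sum_subset (Finset.subset_univ _)
    intro r _ hr
    have h1 : (root r : V n) ∉ L := fun h => hr (Finset.mem_filter.mpr ⟨Finset.mem_univ r, h⟩)
    rw [dd_supp X hX hz h1, zero_smul]
  have hx := hsupp x0 (orb_mem _ x0)
  have hcases : A.card = 0 ∨ A.card = 1 ∨ A.card = 2 := by omega
  rcases hcases with h0 | h1 | h2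
  · exfalso
    rw [Finset.card_eq_zero.mp h0, Finset.sum_empty] at hx
    exact hne hx
  · exfalso
    obtain ⟨s, hs⟩ := Finset.card_eq_one.mp h1
    rw [hs, Finset.sum_singleton] at hx
    have h3 : bil X x0 x0 = 0 := hli
    have h4 : bil X (root s) (root s) = 1 := X.form_root_self s
    rw [hx, map_smul, map_smul, LinearMap.smul_apply, h4, smul_eq_mul, smul_eq_mul, mul_one] at h3
    have h5 : x0 s = 0 := mul_self_eq_zero.mp h3
    rw [h5, zero_smul] at hx
    exact hne hx
  · obtain ⟨s, t, hst, hst2⟩ := Finset.card_eq_two.mp h2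
    have hsA : s ∈ A := by rw [hst2]; exact Finset.mem_insert_self s {t}
    have htA : t ∈ A := by
      rw [hst2]; exact Finset.mem_insert_of_mem (Finset.mem_singleton_self t)
    have hsL : (root s : V n) ∈ L := (Finset.mem_filter.mp hsA).2
    have htL : (root t : V n) ∈ L := (Finset.mem_filter.mp htA).2
    have hss : bil X (root s) (root s) = 1 := X.form_root_self s
    have htt : bil X (root t) (root t) = 1 := X.form_root_self t
    have hbst : bil X (root s) (root t) = X.gram s t := X.form_root_root s t
    have hbts : bil X (root t) (root s) = X.gram s t := by rw [bil_symm]; exact hbst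
    have hquad : x0 s ^ 2 + x0 t ^ 2 + 2 * x0 s * x0 t * X.gram s t = 0 := by
      have h3 : bil X x0 x0 = 0 := hli
      rw [hst2, Finset.sum_pair hst] at hx
      have h4 : bil X (x0 s • root s + x0 t • root t) (x0 s • root s + x0 t • root t) = 0 := by
        rw [← hx]; exact h3
      simp only [map_add, map_smul, LinearMap.add_apply, LinearMap.smul_apply, smul_eq_mul,
        hss, htt, hbst, hbts] at h4
      linarith
    have hab : x0 s ≠ 0 ∨ x0 t ≠ 0 := by
      by_contra hcon
      push Not at hcon
      rw [hst2, Finset.sum_pair hst, hcon.1, hcon.2, zero_smul, zero_smul, add_zero] at hx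
      exact hne hx
    have hg0 := gram_nonpos X hst
    have hg1 : X.gram s t ≤ -1 := by
      by_contra hcon
      push Not at hcon
      set γ := X.gram s t
      have h5 : 0 < 1 - γ ^ 2 := by nlinarith
      rcases hab with ha | hb
      · have h6 : 0 < x0 s ^ 2 := by positivity
        nlinarith [sq_nonneg (x0 t + x0 s * γ), mul_pos h6 h5]
      · have h6 : 0 < x0 t ^ 2 := by positivity
        nlinarith [sq_nonneg (x0 s + x0 t * γ), mul_pos h6 h5]
    have hg2 : X.gram s t ≠ -1 := by
      intro heq
      have hu : (root s : V n) + root t ∈ L := Submodule.add_mem _ hsL htL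
      have h5 : (root s : V n) + root t = 0 := by
        refine orb_nd (S := sysV X hX) (noLine X hX) hu ?_
        intro z hz
        have h6 := hsupp z hz
        rw [hst2, Finset.sum_pair hst] at h6
        change bil X (root s + root t) z = 0
        rw [h6]
        simp only [map_add, map_smul, LinearMap.add_apply, smul_eq_mul,
          hss, htt, hbst, hbts, heq]
        ring
      have h6 := congrFun h5 s
      rw [Pi.add_apply, dd_root_self, dd_root_ne hst, Pi.zero_apply] at h6
      norm_num at h6
    have hg3 : X.gram s t < -1 := lt_of_le_of_ne hg1 hg2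
    obtain ⟨hm, hc⟩ := gram_lt X hg3
    refine ⟨s, t, hst, hm, hc, ?_⟩
    intro r hrs hrt
    have hrL : (root r : V n) ∉ L := by
      intro hr
      have h5 : r ∈ A := Finset.mem_filter.mpr ⟨Finset.mem_univ r, hr⟩
      rw [hst2, Finset.mem_insert, Finset.mem_singleton] at h5
      rcases h5 with h5 | h5
      · exact hrs h5
      · exact hrt h5
    have h5 := dd_perp X hX hrL hsL
    have h6 := dd_perp X hX hrL htL
    rw [form_root_root] at h5 h6
    have h7 := gram_zero X h5
    have h8 := gram_zero X h6
    exact ⟨(X.m.symmetric r s).trans h7, (X.m.symmetric r t).trans h8⟩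

end Pool.Agent.H27.LZ.Cox
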