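import Pool.Agent.H27.LZ.Bdd

/-!
# Discreteness and norms

`opn g` is `g` as a continuous linear map.  `Disc S`: the identity is isolated in the group.
`adj_bdd`: `B` is bounded, `|B u v| ≤ C₂ ‖u‖ ‖v‖`, and nondegenerate, so there is `C₁` with
`‖u‖ ≤ C₁ sup {|B u v| : ‖v‖ ≤ 1}` (compactness of the unit sphere, or: the injective linear map
`u ↦ B u` into the finite dimensional `E →L[ℝ] ℝ` is bounded below).  `|B (g⁻¹ u) v| = |B u (g v)| ≤ C₂ ‖u‖ ‖opn g‖ ‖v‖`.
`opn_tendsto`: if not, some `R` bounds `‖opn (g k)‖` for infinitely many `k` (an injective subsequence), so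
(`E →L[ℝ] E` is finite dimensional, proper) a subsequence of `opn (g k)` is Cauchy; with `C` of `adj_bdd`,
`‖(g j)⁻¹ (g k v) - v‖ = ‖(g j)⁻¹ (g k v - g j v)‖ ≤ C R ‖opn (g k) - opn (g j)‖ ‖v‖`, so for large `j < k` of the
subsequence `(g j)⁻¹ * g k = 1`, contradicting injectivity.
-/

set_option autoImplicit false

namespace Pool.Agent.H27.LZ

open Filter Topology

variable {E : Type*} [NormedAddCommGroup E] [NormedSpace ℝ E]

/-- the identity is isolated -/
def Disc (S : Sys E) : Prop := ∃ ε > 0, ∀ g ∈ S.G, (∀ v, ‖g v - v‖ ≤ ε * ‖v‖) → g = 1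

variable [FiniteDimensional ℝ E] {S : Sys E}

/-- `g` as a continuous linear map -/
noncomputable def opn (g : E ≃ₗ[ℝ] E) : E →L[ℝ] E :=
  LinearMap.toContinuousLinearMap (g : E →ₗ[ℝ] E)

lemma opn_apply (g : E ≃ₗ[ℝ] E) (v : E) : opn g v = g v := rfl

lemma adj_bdd (S : Sys E) : ∃ C : ℝ, 0 < C ∧ ∀ g ∈ S.G, ‖opn g⁻¹‖ ≤ C * ‖opn g‖ := by
  classical
  let b : E →ₗ[ℝ] (E →L[ℝ] ℝ) :=
    ((LinearMap.toContinuousLinearMap : (E →ₗ[ℝ] ℝ) ≃ₗ[ℝ] (E →L[ℝ] ℝ)).toLinearMap ∘ₗ S.B)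
  let β : E →L[ℝ] (E →L[ℝ] ℝ) := LinearMap.toContinuousLinearMap b
  have hβ : ∀ u v, β u v = S.B u v := fun u v => rfl
  have hker : LinearMap.ker b = ⊥ := by
    rw [LinearMap.ker_eq_bot']
    intro u hu
    apply S.nondeg u
    intro v
    have h1 : b u v = 0 := by rw [hu]; rfl
    exact h1
  obtain ⟨K, hK, hanti⟩ := b.exists_antilipschitzWith hker
  have hlow : ∀ u, ‖u‖ ≤ K * ‖β u‖ := by
    intro u
    have h1 := hanti.le_mul_dist u 0
    rw [map_zero, dist_zero_right, dist_zero_right] at h1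
    exact h1
  have hK0 : (0 : ℝ) ≤ K := K.2
  refine ⟨K * ‖β‖ + 1, by positivity, ?_⟩
  intro g hg
  have hg0 : 0 ≤ ‖opn g‖ := norm_nonneg _
  refine ContinuousLinearMap.opNorm_le_bound _ (by positivity) ?_
  intro u
  have h1 : β (opn g⁻¹ u) = (β u).comp (opn g) := by
    ext v
    rw [ContinuousLinearMap.comp_apply, hβ, hβ, opn_apply, opn_apply]
    have h2 := S.iso g hg (g⁻¹ u) v
    rw [← h2]
    congr 2
    exact (LinearEquiv.apply_symm_apply g u)
  have h2 : ‖β (opn g⁻¹ u)‖ ≤ ‖β‖ * ‖u‖ * ‖opn g‖ := by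
    rw [h1]
    refine le_trans (ContinuousLinearMap.opNorm_comp_le _ _) ?_
    exact mul_le_mul_of_nonneg_right (β.le_opNorm u) hg0
  calc ‖opn g⁻¹ u‖ ≤ K * ‖β (opn g⁻¹ u)‖ := hlow _
    _ ≤ K * (‖β‖ * ‖u‖ * ‖opn g‖) := mul_le_mul_of_nonneg_left h2 hK0
    _ ≤ (K * ‖β‖ + 1) * ‖opn g‖ * ‖u‖ := by
        have h3 : 0 ≤ ‖opn g‖ * ‖u‖ := by positivity
        nlinarith

lemma opn_tendsto (hD : Disc S) {g : ℕ → E ≃ₗ[ℝ] E} (hg : ∀ k, g k ∈ S.G)
    (hinj : Function.Injective g) : Tendsto (fun k => ‖opn (g k)‖) atTop atTop := by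
  classical
  obtain ⟨ε, hε, hD⟩ := hD
  obtain ⟨C, hC, hadj⟩ := adj_bdd S
  by_contra hnot
  rw [tendsto_atTop] at hnot
  push Not at hnot
  obtain ⟨R, hR⟩ := hnot
  have hfreq : ∃ᶠ k in atTop, ‖opn (g k)‖ < R := by
    refine hR.mono ?_
    intro k hk
    exact hk
  obtain ⟨φ, hφ, hφR⟩ := extraction_of_frequently_atTop hfreq
  have hprop : ProperSpace (E →L[ℝ] E) := FiniteDimensional.proper_real _
  have hbdd : Bornology.IsBounded (Metric.closedBall (0 : E →L[ℝ] E) R) :=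
    Metric.isBounded_closedBall
  have hmem : ∀ k, (fun k => opn (g (φ k))) k ∈ Metric.closedBall (0 : E →L[ℝ] E) R := by
    intro k
    rw [mem_closedBall_zero_iff]
    exact (hφR k).le
  obtain ⟨a, -, ψ, hψ, hlim⟩ := tendsto_subseq_of_bounded hbdd hmem
  have hcau := hlim.cauchySeq
  have hR0 : 0 ≤ R := le_trans (norm_nonneg _) (hφR 0).le
  have hCR : 0 < C * R + 1 := by positivity
  obtain ⟨N, hN⟩ := Metric.cauchySeq_iff.mp hcau (ε / (C * R + 1)) (by positivity)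
  have h1 := hN (N + 1) (by omega) N (le_refl N)
  rw [dist_eq_norm] at h1
  simp only [Function.comp_apply] at h1
  set k := φ (ψ (N + 1)) with hk
  set j := φ (ψ N) with hj
  have hkj : k ≠ j := by
    intro h
    have h2 := hψ.injective (hφ.injective h)
    omega
  have hone : (g j)⁻¹ * g k = 1 := by
    apply hD
    · exact S.G.mul_mem (S.G.inv_mem (hg j)) (hg k)
    · intro v
      have h2 : ((g j)⁻¹ * g k) v - v = opn (g j)⁻¹ ((opn (g k) - opn (g j)) v) := by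
        rw [sub_apply, map_sub, opn_apply, opn_apply, opn_apply, opn_apply]
        congr 1
        exact (LinearEquiv.symm_apply_apply (g j) v).symm
      rw [h2]
      have h3 : ‖opn (g j)⁻¹‖ ≤ C * R :=
        le_trans (hadj _ (hg j)) (mul_le_mul_of_nonneg_left (hφR _).le hC.le)
      have h4 : ‖(opn (g k) - opn (g j)) v‖ ≤ (ε / (C * R + 1)) * ‖v‖ :=
        le_trans (ContinuousLinearMap.le_opNorm _ _) (mul_le_mul_of_nonneg_right h1.le (norm_nonneg _))
      calc ‖opn (g j)⁻¹ ((opn (g k) - opn (g j)) v)‖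
          ≤ ‖opn (g j)⁻¹‖ * ‖(opn (g k) - opn (g j)) v‖ := ContinuousLinearMap.le_opNorm _ _
        _ ≤ (C * R) * ((ε / (C * R + 1)) * ‖v‖) := by
            apply mul_le_mul h3 h4 (norm_nonneg _) (by positivity)
        _ ≤ (C * R + 1) * ((ε / (C * R + 1)) * ‖v‖) := by
            apply mul_le_mul_of_nonneg_right _ (by positivity)
            linarith
        _ = ε * ‖v‖ := by
            field_simp
  have h5 : g k = g j := by
    have h6 : g j * ((g j)⁻¹ * g k) = g j * 1 := by rw [hone]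
    rwa [mul_inv_cancel_left, mul_one] at h6
  exact hkj (hinj h5)

end Pool.Agent.H27.LZ
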