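import Pool.Agent.H27.LZ.TitsC
import Pool.Agent.H27.LZ.CForm
import Pool.Agent.H27.LZ.OpA

/-!
# `W` is discrete

`ε = 1 / 2`: for `v = root s`, `‖root s‖ = 1` (sup norm), so the coordinate `s` of
`g (root s)` is at least `1 / 2 > 0` (`norm_le_pi_norm`), so `¬ (g (root s) ≤ 0)`; `Tits.tits`.
-/

set_option autoImplicit false

namespace Pool.Agent.H27.LZ.Cox

open GeomCoxeter

variable {n : ℕ} (X : GeomCoxeter n)

lemma disc (hX : X.IsLorentzian) : Disc (sysV X hX) := by
  refine ⟨1 / 2, by norm_num, fun g hg h => ?_⟩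
  refine Tits.tits X hg fun s hs => ?_
  have h1 := h (root s)
  have h2 : ‖(root s : V n)‖ ≤ 1 := by
    rw [pi_norm_le_iff_of_nonneg (by norm_num)]
    intro i
    by_cases hi : i = s
    · subst hi; simp [root]
    · simp [root, hi]
  have h3 := norm_le_pi_norm (g (root s) - root s) s
  have h4 : (g (root s) - root s) s = g (root s) s - 1 := by
    simp [root]
  have h5 := hs s
  rw [h4, Real.norm_eq_abs, abs_le] at h3
  have h6 : (0 : V n) s = 0 := rfl
  rw [h6] at h5
  linarith [h3.1]

end Pool.Agent.H27.LZ.Cox
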