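import Pool.Agent.H27.LZ.Lor

/-!
# Hyperbolic elements: basic facts

`B x x = B (w x) (w x) = l² B x x`, so `B x x = 0`; same for `y`.  `x, y` are not proportional (different
eigenvalues), so `B x y ≠ 0` (`light_ne`).
Inverse: `w⁻¹ y = l y`, `w⁻¹ x = l⁻¹ x`.  Conjugation: `(g w g⁻¹) (g x) = g (w x)`.
Powers by induction.  Elements of `G` are products in `E ≃ₗ[ℝ] E` (`LinearEquiv.mul_apply`).
-/

set_option autoImplicit false

namespace Pool.Agent.H27.LZ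

variable {E : Type*} [NormedAddCommGroup E] [NormedSpace ℝ E] {S : Sys E}
  {w : E ≃ₗ[ℝ] E} {x y : E} {l : ℝ}

private lemma hypB_ss (S : Sys E) (a b : ℝ) (u v : E) : S.B (a • u) (b • v) = a * b * S.B u v := by
  rw [map_smul (S.B (a • u)), map_smul S.B, LinearMap.smul_apply, smul_eq_mul, smul_eq_mul]
  ring

private lemma hypB_app (g : E ≃ₗ[ℝ] E) (u : E) : g (g⁻¹ u) = u := LinearEquiv.apply_symm_apply g u

private lemma hypB_app' (g : E ≃ₗ[ℝ] E) (u : E) : g⁻¹ (g u) = u := LinearEquiv.symm_apply_apply g u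

private lemma hypB_eq (g : E ≃ₗ[ℝ] E) {u v : E} (h : g v = u) : g⁻¹ u = v := by
  rw [← h]
  exact hypB_app' g v

lemma Hyp.xx (h : Hyp S w x y l) : S.B x x = 0 := by
  have h1 := S.iso w h.mem x x
  rw [h.wx, hypB_ss] at h1
  have hl := h.one_lt
  have h2 : (l * l - 1) * S.B x x = 0 := by linarith
  rcases mul_eq_zero.mp h2 with h3 | h3
  · nlinarith
  · exact h3

lemma Hyp.yy (h : Hyp S w x y l) : S.B y y = 0 := by
  have h1 := S.iso w h.mem y y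
  rw [h.wy, hypB_ss] at h1
  have hl := h.one_lt
  have hl0 : 0 < l := by linarith
  have h4 : l⁻¹ < 1 := inv_lt_one_of_one_lt₀ hl
  have h5 : 0 < l⁻¹ := inv_pos.mpr hl0
  have h2 : (l⁻¹ * l⁻¹ - 1) * S.B y y = 0 := by linarith
  rcases mul_eq_zero.mp h2 with h3 | h3
  · nlinarith
  · exact h3

lemma Hyp.xy (h : Hyp S w x y l) : S.B x y ≠ 0 := by
  refine light_ne h.xx h.yy h.x_ne ?_
  intro c hc
  have h1 : w y = l • y := by
    rw [hc, map_smul, h.wx, smul_comm]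
  rw [h.wy] at h1
  have h2 : (l⁻¹ - l) • y = 0 := by
    rw [sub_smul, h1, sub_self]
  rcases smul_eq_zero.mp h2 with h3 | h3
  · have hl := h.one_lt
    have h4 : l⁻¹ < 1 := inv_lt_one_of_one_lt₀ hl
    linarith
  · exact h.y_ne h3

lemma Hyp.inv (h : Hyp S w x y l) : Hyp S w⁻¹ y x l := by
  have hl0 : l ≠ 0 := by
    have := h.one_lt
    linarith
  refine ⟨S.G.inv_mem h.mem, h.one_lt, h.y_ne, h.x_ne, ?_, ?_⟩
  · apply hypB_eq
    rw [map_smul, h.wy, smul_smul, mul_inv_cancel₀ hl0, one_smul]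
  · apply hypB_eq
    rw [map_smul, h.wx, smul_smul, inv_mul_cancel₀ hl0, one_smul]

lemma Hyp.conj (h : Hyp S w x y l) {g : E ≃ₗ[ℝ] E} (hg : g ∈ S.G) :
    Hyp S (g * w * g⁻¹) (g x) (g y) l := by
  refine ⟨S.G.mul_mem (S.G.mul_mem hg h.mem) (S.G.inv_mem hg), h.one_lt, ?_, ?_, ?_, ?_⟩
  · intro h0
    exact h.x_ne ((LinearEquiv.map_eq_zero_iff g).mp h0)
  · intro h0
    exact h.y_ne ((LinearEquiv.map_eq_zero_iff g).mp h0)
  · rw [LinearEquiv.mul_apply, LinearEquiv.mul_apply, hypB_app', h.wx, map_smul]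
  · rw [LinearEquiv.mul_apply, LinearEquiv.mul_apply, hypB_app', h.wy, map_smul]

lemma Hyp.smul_x (h : Hyp S w x y l) {c : ℝ} (hc : c ≠ 0) : Hyp S w (c • x) y l := by
  refine ⟨h.mem, h.one_lt, smul_ne_zero hc h.x_ne, h.y_ne, ?_, h.wy⟩
  rw [map_smul, h.wx, smul_comm]

lemma Hyp.smul_y (h : Hyp S w x y l) {c : ℝ} (hc : c ≠ 0) : Hyp S w x (c • y) l := by
  refine ⟨h.mem, h.one_lt, h.x_ne, smul_ne_zero hc h.y_ne, h.wx, ?_⟩
  rw [map_smul, h.wy, smul_comm]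

lemma Hyp.x_mem (h : Hyp S w x y l) : x ∈ F S := by
  exact ⟨w, y, l, h⟩

lemma Hyp.y_mem (h : Hyp S w x y l) : y ∈ F S := by
  exact ⟨w⁻¹, x, l, h.inv⟩

lemma F_light {z : E} (hz : z ∈ F S) : S.B z z = 0 := by
  obtain ⟨w, y, l, h⟩ := hz
  exact h.xx

lemma F_ne {z : E} (hz : z ∈ F S) : z ≠ 0 := by
  obtain ⟨w, y, l, h⟩ := hz
  exact h.x_ne

lemma F_map {z : E} (hz : z ∈ F S) {g : E ≃ₗ[ℝ] E} (hg : g ∈ S.G) : g z ∈ F S := by
  obtain ⟨w, y, l, h⟩ := hz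
  exact ⟨g * w * g⁻¹, g y, l, h.conj hg⟩

lemma F_smul {z : E} (hz : z ∈ F S) {c : ℝ} (hc : c ≠ 0) : c • z ∈ F S := by
  obtain ⟨w, y, l, h⟩ := hz
  exact ⟨w, y, l, h.smul_x hc⟩

lemma Hyp.pow_x (h : Hyp S w x y l) (n : ℕ) : (w ^ n) x = l ^ n • x := by
  induction n with
  | zero => rw [pow_zero, pow_zero, one_smul]; rfl
  | succ n ih => rw [pow_succ, LinearEquiv.mul_apply, h.wx, map_smul, ih, smul_smul, pow_succ, mul_comm]

lemma Hyp.pow_y (h : Hyp S w x y l) (n : ℕ) : (w ^ n) y = (l⁻¹) ^ n • y := by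
  induction n with
  | zero => rw [pow_zero, pow_zero, one_smul]; rfl
  | succ n ih => rw [pow_succ, LinearEquiv.mul_apply, h.wy, map_smul, ih, smul_smul, pow_succ, mul_comm]

lemma Hyp.ipow_x (h : Hyp S w x y l) (n : ℕ) : (w ^ n)⁻¹ x = (l⁻¹) ^ n • x := by
  have hl0 : l ≠ 0 := by
    have := h.one_lt
    linarith
  apply hypB_eq
  rw [map_smul, h.pow_x, smul_smul, ← mul_pow, inv_mul_cancel₀ hl0, one_pow, one_smul]

lemma Hyp.ipow_y (h : Hyp S w x y l) (n : ℕ) : (w ^ n)⁻¹ y = l ^ n • y := by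
  have hl0 : l ≠ 0 := by
    have := h.one_lt
    linarith
  apply hypB_eq
  rw [map_smul, h.pow_y, smul_smul, ← mul_pow, mul_inv_cancel₀ hl0, one_pow, one_smul]

lemma iso_inv {g : E ≃ₗ[ℝ] E} (hg : g ∈ S.G) (u v : E) : S.B (g⁻¹ u) v = S.B u (g v) := by
  have h1 := S.iso g hg (g⁻¹ u) v
  rw [hypB_app] at h1
  exact h1.symm

/-- the image of `z` under a power -/
lemma Hyp.pow_dec (h : Hyp S w x y l) (n : ℕ) (z : E) :
    (w ^ n) z = ((S.B z y / S.B x y) * l ^ n) • x + ((S.B z x / S.B x y) * (l⁻¹) ^ n) • y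
      + (w ^ n) (aU S x y z) := by
  have h1 := congrArg (w ^ n) (aU_dec (S := S) x y z)
  rw [map_add, map_add, map_smul, map_smul, h.pow_x, h.pow_y, smul_smul, smul_smul] at h1
  exact h1

lemma Hyp.ipow_dec (h : Hyp S w x y l) (n : ℕ) (z : E) :
    (w ^ n)⁻¹ z = ((S.B z y / S.B x y) * (l⁻¹) ^ n) • x + ((S.B z x / S.B x y) * l ^ n) • y
      + (w ^ n)⁻¹ (aU S x y z) := by
  have h1 := congrArg ((w ^ n)⁻¹ : E ≃ₗ[ℝ] E) (aU_dec (S := S) x y z)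
  rw [map_add, map_add, map_smul, map_smul, h.ipow_x, h.ipow_y, smul_smul, smul_smul] at h1
  exact h1

/-- the powers preserve the orthogonal complement of the axis -/
lemma Hyp.pow_orth (h : Hyp S w x y l) (n : ℕ) {u : E} (hux : S.B u x = 0)
    (huy : S.B u y = 0) : S.B ((w ^ n) u) x = 0 ∧ S.B ((w ^ n) u) y = 0 ∧
      S.B ((w ^ n)⁻¹ u) x = 0 ∧ S.B ((w ^ n)⁻¹ u) y = 0 := by
  have hg : w ^ n ∈ S.G := S.G.pow_mem h.mem n
  refine ⟨?_, ?_, ?_, ?_⟩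
  · have h1 := S.iso (w ^ n) hg u ((w ^ n)⁻¹ x)
    rw [hypB_app, h.ipow_x, map_smul, hux, smul_zero] at h1
    exact h1
  · have h1 := S.iso (w ^ n) hg u ((w ^ n)⁻¹ y)
    rw [hypB_app, h.ipow_y, map_smul, huy, smul_zero] at h1
    exact h1
  · rw [iso_inv hg, h.pow_x, map_smul, hux, smul_zero]
  · rw [iso_inv hg, h.pow_y, map_smul, huy, smul_zero]

end Pool.Agent.H27.LZ
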