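import Pool.Agent.H27.LZ.CForm
import Pool.Agent.H27.LZ.HypB

/-!
# `Hyp` gives hyperbolic elements

`IsHyperbolic w`: `z = l`, `u i = (x i : ℂ)`; the matrix equation follows from `w x = l x`
(`LinearMap.toMatrix'_mulVec`, casting to `ℂ`: `Matrix.map_mulVec`-like, or `RingHom.map_mulVec`).
Unimodular subspace: let `w z = t z`, `|t| ≠ 1`.  `B z z = t² B z z` so `B z z = 0`; `B z x = t l B z x`,
`B z y = t l⁻¹ B z y` (isometry).  If both `B z x ≠ 0` and `B z y ≠ 0` then `t l = 1 = t l⁻¹`, so `l² = 1`, a contradiction.  So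
`B z x = 0` or `B z y = 0`, and `z` is a multiple of `x` or of `y` (`light_prop` with `a = x`: `z = c x`), so `B v z = 0`.
-/

set_option autoImplicit false

namespace Pool.Agent.H27.LZ.Cox

open GeomCoxeter

variable {n : ℕ} (X : GeomCoxeter n)

lemma hyperbolic_of_hyp (hX : X.IsLorentzian) {w : V n ≃ₗ[ℝ] V n} {x y : V n} {l : ℝ}
    (h : Hyp (sysV X hX) w x y l) : IsHyperbolic w := by
  refine ⟨(l : ℂ), fun i => (x i : ℂ), ?_, ?_, ?_⟩
  · have h1 := h.one_lt
    rw [Complex.norm_real, Real.norm_eq_abs, abs_of_pos (by linarith)]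
    exact h1
  · intro h0
    apply h.x_ne
    funext i
    have h1 := congrFun h0 i
    simpa using h1
  · funext i
    have h1 := RingHom.map_mulVec (algebraMap ℝ ℂ) (LinearMap.toMatrix' (w : V n →ₗ[ℝ] V n)) x i
    have h2 : (LinearMap.toMatrix' (w : V n →ₗ[ℝ] V n)).mulVec x = l • x := by
      rw [LinearMap.toMatrix'_mulVec]
      exact h.wx
    rw [h2] at h1
    have h3 : (fun i => (x i : ℂ)) = (algebraMap ℝ ℂ) ∘ x := rfl
    rw [h3, ← h1]
    simp

lemma unimod_of_hyp (hX : X.IsLorentzian) {w : V n ≃ₗ[ℝ] V n} {x y : V n} {l : ℝ}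
    (h : Hyp (sysV X hX) w x y l) {v : V n} (hx : bil X v x = 0) (hy : bil X v y = 0) :
    v ∈ X.unimodularSubspace w := by
  intro t z ht hz
  have hl := h.one_lt
  have hl0 : l ≠ 0 := by linarith
  have hiso : ∀ a b : V n, bil X (w a) (w b) = bil X a b := (sysV X hX).iso w h.mem
  have hzz : bil X z z = 0 := by
    have h1 := hiso z z
    rw [hz] at h1
    simp only [map_smul, LinearMap.smul_apply, smul_eq_mul] at h1
    have h2 : t ^ 2 ≠ 1 := by
      intro h3
      apply ht
      rw [← sq_abs] at h3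
      nlinarith [abs_nonneg t]
    have h3 : (t ^ 2 - 1) * bil X z z = 0 := by linarith
    exact (mul_eq_zero.1 h3).resolve_left (sub_ne_zero.2 h2)
  have hzx : (t * l - 1) * bil X z x = 0 := by
    have h1 := hiso z x
    rw [hz, h.wx] at h1
    simp only [map_smul, LinearMap.smul_apply, smul_eq_mul] at h1
    linarith
  have hzy : (t * l⁻¹ - 1) * bil X z y = 0 := by
    have h1 := hiso z y
    rw [hz, h.wy] at h1
    simp only [map_smul, LinearMap.smul_apply, smul_eq_mul] at h1
    linarith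
  have hcase : bil X z x = 0 ∨ bil X z y = 0 := by
    by_contra hcon
    push Not at hcon
    have h1 : t * l - 1 = 0 := (mul_eq_zero.1 hzx).resolve_right hcon.1
    have h2 : t * l⁻¹ - 1 = 0 := (mul_eq_zero.1 hzy).resolve_right hcon.2
    have h3 : t = l := by
      field_simp at h2
      linarith
    rw [h3] at h1
    nlinarith
  have hform : X.form v z = bil X v z := rfl
  rw [hform]
  rcases hcase with h0 | h0
  · have h1 : (sysV X hX).B x z = 0 := by
      rw [(sysV X hX).symm]
      exact h0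
    obtain ⟨c, hc⟩ := light_prop h.xx hzz h1 h.x_ne
    rw [hc, map_smul, hx, smul_zero]
  · have h1 : (sysV X hX).B y z = 0 := by
      rw [(sysV X hX).symm]
      exact h0
    obtain ⟨c, hc⟩ := light_prop h.yy hzz h1 h.y_ne
    rw [hc, map_smul, hy, smul_zero]

end Pool.Agent.H27.LZ.Cox
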