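import Pool.Agent.H27.LZ.OpB
import Pool.Agent.H27.LZ.LSpan
import Pool.Agent.H27.LZ.TrE
import Pool.Agent.H27.LZ.EigPair

/-!
# Existence of hyperbolic elements

`trace_rk1`: with a basis `b i`, `trace (A k) = ∑ i, b.repr (A k (b i)) i`, which tends to
`∑ i, B (b i) y * b.repr x i = B (∑ i, b.repr x i • b i) y = B x y`.
`exists_hyp`: `op_lim` gives `OL S (g ∘ φ) N x y`.  There is `h ∈ G` with `B x (h⁻¹ y) ≠ 0`: otherwise every `h y`
(`h ∈ G`) is a multiple of `x` (`light_prop`), in particular `y` is (`h = 1`), so `h y` is a multiple of `y`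
for all `h` (`x ≠ 0`, `y ≠ 0`), contradicting `NoLine` for `y`.  The maps `(N k)⁻¹ • (g (φ k) * h)` tend to
`z ↦ B (h z) y • x = B z (h⁻¹ y) • x`, so their traces tend to `B x (h⁻¹ y) ≠ 0` and
`|trace (g (φ k) * h)| → ∞`; `trace_eig` with `K = 2` and `eig_pair`.
-/

set_option autoImplicit false

namespace Pool.Agent.H27.LZ

open Filter Topology

variable {E : Type*} [NormedAddCommGroup E] [NormedSpace ℝ E] [FiniteDimensional ℝ E]
  {S : Sys E}

lemma trace_rk1 (S : Sys E) {A : ℕ → E →ₗ[ℝ] E} {x y : E}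
    (hA : ∀ z, Tendsto (fun k => A k z) atTop (𝓝 (S.B z y • x))) :
    Tendsto (fun k => LinearMap.trace ℝ E (A k)) atTop (𝓝 (S.B x y)) := by
  obtain ⟨b, -⟩ : ∃ b : Module.Basis (Fin (Module.finrank ℝ E)) ℝ E, True :=
    ⟨Module.finBasis ℝ E, trivial⟩
  have h1 : ∀ f : E →ₗ[ℝ] E, LinearMap.trace ℝ E f = ∑ i, b.coord i (f (b i)) := by
    intro f
    rw [LinearMap.trace_eq_matrix_trace ℝ b, Matrix.trace]
    refine Finset.sum_congr rfl fun i _ => ?_
    rw [Matrix.diag_apply, LinearMap.toMatrix_apply]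
    rfl
  have h2 : S.B x y = ∑ i, b.coord i (S.B (b i) y • x) := by
    have h3 : S.B (∑ i, b.repr x i • b i) y = S.B x y := by rw [Module.Basis.sum_repr]
    rw [← h3, map_sum, LinearMap.sum_apply]
    refine Finset.sum_congr rfl fun i _ => ?_
    rw [map_smul, LinearMap.smul_apply, map_smul, smul_eq_mul, smul_eq_mul,
      Module.Basis.coord_apply]
    ring
  rw [h2]
  have h3 : (fun k => LinearMap.trace ℝ E (A k)) = fun k => ∑ i, b.coord i (A k (b i)) := by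
    funext k
    exact h1 (A k)
  rw [h3]
  refine tendsto_finsetSum _ fun i _ => ?_
  have hc : Continuous (b.coord i) := LinearMap.continuous_of_finiteDimensional _
  exact (hc.tendsto _).comp (hA (b i))

lemma exists_hyp (hL : NoLine S) (hD : Disc S) {g : ℕ → E ≃ₗ[ℝ] E} (hg : ∀ k, g k ∈ S.G)
    (hinj : Function.Injective g) : ∃ (w : E ≃ₗ[ℝ] E) (x y : E) (l : ℝ), Hyp S w x y l := by
  obtain ⟨φ, N, x, y, hφ, hO⟩ := op_lim hD hg hinj
  -- an element which moves `y` away from `x`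
  have hh : ∃ h ∈ S.G, S.B x (h⁻¹ y) ≠ 0 := by
    by_contra hcon
    push Not at hcon
    have hcon' : ∀ h ∈ S.G, S.B x (h y) = 0 := by
      intro h hh
      have := hcon h⁻¹ (S.G.inv_mem hh)
      rwa [inv_inv] at this
    have h1 : S.B x y = 0 := by
      have := hcon' 1 (one_mem _)
      exact this
    obtain ⟨c, hc⟩ := light_prop hO.xx hO.yy h1 hO.x_ne
    have hc0 : c ≠ 0 := by
      rintro rfl
      rw [zero_smul] at hc
      exact hO.y_ne hc
    obtain ⟨k, hk, hne⟩ := hL y hO.y_ne hO.yy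
    have h2 : S.B (k y) (k y) = 0 := by rw [S.iso k hk]; exact hO.yy
    obtain ⟨c', hc'⟩ := light_prop hO.xx h2 (hcon' k hk) hO.x_ne
    refine hne (c' * c⁻¹) ?_
    rw [hc']
    conv_rhs => rw [hc]
    rw [smul_smul, mul_assoc, inv_mul_cancel₀ hc0, mul_one]
  obtain ⟨h, hh, hne⟩ := hh
  have hlim : Tendsto (fun k => LinearMap.trace ℝ E
      ((N k)⁻¹ • ((g (φ k) * h : E ≃ₗ[ℝ] E) : E →ₗ[ℝ] E))) atTop (𝓝 (S.B x (h⁻¹ y))) := by
    apply trace_rk1
    intro z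
    have h1 := hO.lim (h z)
    have h2 : S.B (h z) y = S.B z (h⁻¹ y) := by
      rw [S.symm z, iso_inv hh, S.symm]
    rw [h2] at h1
    exact h1
  have h3 : Tendsto (fun k => N k * |LinearMap.trace ℝ E
      ((N k)⁻¹ • ((g (φ k) * h : E ≃ₗ[ℝ] E) : E →ₗ[ℝ] E))|) atTop atTop :=
    hO.N_lim.atTop_mul_pos (abs_pos.2 hne) hlim.abs
  have h4 := (h3.eventually_gt_atTop (2 * (Module.finrank ℝ E : ℝ))).and
    (hO.N_lim.eventually_gt_atTop 0)
  obtain ⟨k, hk, hNk⟩ := h4.exists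
  have h5 : N k * |LinearMap.trace ℝ E
      ((N k)⁻¹ • ((g (φ k) * h : E ≃ₗ[ℝ] E) : E →ₗ[ℝ] E))| =
      |LinearMap.trace ℝ E ((g (φ k) * h : E ≃ₗ[ℝ] E) : E →ₗ[ℝ] E)| := by
    rw [map_smul, smul_eq_mul, abs_mul, abs_of_pos (inv_pos.2 hNk), ← mul_assoc,
      mul_inv_cancel₀ hNk.ne', one_mul]
  rw [h5] at hk
  have hmem : g (φ k) * h ∈ S.G := S.G.mul_mem (hg _) hh
  obtain ⟨x', p, hx', hgx, hp⟩ := trace_eig hmem one_le_two hk
  obtain ⟨y', -, -, hH⟩ := eig_pair hmem hx' hgx (one_lt_two.trans hp)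
  exact ⟨_, _, _, _, hH⟩

end Pool.Agent.H27.LZ
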