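import Pool.Agent.H27.LZ.Ptr

/-!
# The transport around a thin cycle

`x' = nx x y a ε = x + ε a + γ y` is light-like (`γ = - ε² B a a / (2 B x y)`, `a` orthogonal to `x, y`).
`holF`: with `s = B x y`, `P y x' u = u - (ε B u a / s) y` (`B u x' = ε B u a`, `B y x' = s`);
`P x' z` of it subtracts `c2 x'`; `B · x` of the result is `- ε B u a - c2 γ s = - ε (B u a - c2 ε B a a / 2)`;
`P z x` subtracts `(this / B z x) z`; `P x y` subtracts a multiple of `x` (orthogonal to `t`).  Take
`B · t`, with `B y t = B x t = 0`, `B x' t = ε B a t`.  Everything is bilinear algebra; unfold and use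
`field_simp`, `ring`, or compute step by step with `have`.
`DD_tendsto`: continuity (`B_tendsto`), the denominator tends to `B x z ≠ 0`.
-/

set_option autoImplicit false

namespace Pool.Agent.H27.LZ

open Filter Topology

variable {E : Type*} [NormedAddCommGroup E] [NormedSpace ℝ E]

/-- a light-like vector near to `x` -/
noncomputable def nx (S : Sys E) (x y a : E) (ε : ℝ) : E :=
  x + ε • a + (-(ε ^ 2 * S.B a a) / (2 * S.B x y)) • y

/-- the coefficient in the second transport -/
noncomputable def c2 (S : Sys E) (x y z a u : E) (ε : ℝ) : ℝ :=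
  (S.B u z - ε * S.B u a / S.B x y * S.B y z) / S.B (nx S x y a ε) z

/-- the difference quotient of the transport -/
noncomputable def DD (S : Sys E) (x y z a u t : E) (ε : ℝ) : ℝ :=
  -(c2 S x y z a u ε) * S.B a t +
    (S.B u a - c2 S x y z a u ε * ε * S.B a a / 2) / S.B x z * S.B z t

variable {S : Sys E}

private lemma nx_left (x y a v : E) (ε : ℝ) : S.B (nx S x y a ε) v =
    S.B x v + ε * S.B a v + (-(ε ^ 2 * S.B a a) / (2 * S.B x y)) * S.B y v := by
  simp only [nx, map_add, map_smul, LinearMap.add_apply, LinearMap.smul_apply, smul_eq_mul]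

lemma nx_light {x y a : E} {ε : ℝ} (hx : S.B x x = 0) (hy : S.B y y = 0) (hxy : S.B x y ≠ 0)
    (hax : S.B a x = 0) (hay : S.B a y = 0) : S.B (nx S x y a ε) (nx S x y a ε) = 0 := by
  have hxa : S.B x a = 0 := by rw [S.symm]; exact hax
  have hya : S.B y a = 0 := by rw [S.symm]; exact hay
  have hyx : S.B y x = S.B x y := S.symm _ _
  rw [nx_left, S.symm x, S.symm a, S.symm y, nx_left, nx_left, nx_left, hx, hy, hax, hay, hxa,
    hya, hyx]
  field_simp
  ring

lemma nx_y {x y a : E} {ε : ℝ} (hy : S.B y y = 0) (hay : S.B a y = 0) :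
    S.B (nx S x y a ε) y = S.B x y := by
  rw [nx_left, hy, hay]
  ring

private lemma P_B (a c u v : E) :
    S.B (P S a c u) v = S.B u v - S.B u c / S.B a c * S.B a v := by
  simp only [P, map_sub, map_smul, LinearMap.sub_apply, LinearMap.smul_apply, smul_eq_mul]

lemma holF {x y z a u t : E} {ε : ℝ} (hx : S.B x x = 0) (hy : S.B y y = 0)
    (hxy : S.B x y ≠ 0) (hax : S.B a x = 0) (hay : S.B a y = 0) (hux : S.B u x = 0)
    (huy : S.B u y = 0) (htx : S.B t x = 0) (hty : S.B t y = 0) (hxz : S.B x z ≠ 0)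
    (hden : S.B (nx S x y a ε) z ≠ 0) :
    S.B (Hol S x y (nx S x y a ε) z u) t = S.B u t + ε * DD S x y z a u t ε := by
  have hyx : S.B y x = S.B x y := S.symm _ _
  have hzx : S.B z x = S.B x z := S.symm _ _
  have hxt : S.B x t = 0 := by rw [S.symm]; exact htx
  have hyt : S.B y t = 0 := by rw [S.symm]; exact hty
  have e1 : S.B u (nx S x y a ε) = ε * S.B u a := by
    rw [S.symm, nx_left, S.symm x u, S.symm a u, S.symm y u, hux, huy]
    ring
  have e2 : S.B y (nx S x y a ε) = S.B x y := by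
    rw [S.symm, nx_y hy hay]
  have e3 : S.B (nx S x y a ε) x = -(ε ^ 2 * S.B a a) / 2 := by
    rw [nx_left, hx, hax, hyx]
    field_simp
    ring
  have e4 : S.B (nx S x y a ε) t = ε * S.B a t := by
    rw [nx_left, hxt, hyt]
    ring
  have hc : S.B (P S y (nx S x y a ε) u) z / S.B (nx S x y a ε) z = c2 S x y z a u ε := by
    rw [P_B, e1, e2, c2]
  have hv : ∀ v, S.B (P S (nx S x y a ε) z (P S y (nx S x y a ε) u)) v =
      S.B u v - ε * S.B u a / S.B x y * S.B y v - c2 S x y z a u ε * S.B (nx S x y a ε) v := by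
    intro v
    rw [P_B, hc, P_B, e1, e2]
  unfold Hol
  rw [P_B, hxt, mul_zero, sub_zero, P_B, hv, hv, hux, hyx, hzx, e3, e4, hyt, DD]
  field_simp
  ring

lemma DD_tendsto [FiniteDimensional ℝ E] {x y z a u t : E} {ε : ℕ → ℝ} {a' u' : ℕ → E}
    (hε : Tendsto ε atTop (𝓝 0)) (ha : Tendsto a' atTop (𝓝 a)) (hu : Tendsto u' atTop (𝓝 u))
    (hxz : S.B x z ≠ 0) : Tendsto (fun j => DD S x y z (a' j) (u' j) t (ε j)) atTop
      (𝓝 ((S.B u a * S.B z t - S.B u z * S.B a t) / S.B x z)) := by
  have hcz : Tendsto (fun _ : ℕ => z) atTop (𝓝 z) := tendsto_const_nhds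
  have hct : Tendsto (fun _ : ℕ => t) atTop (𝓝 t) := tendsto_const_nhds
  have haa : Tendsto (fun j => S.B (a' j) (a' j)) atTop (𝓝 (S.B a a)) := B_tendsto ha ha
  have hua : Tendsto (fun j => S.B (u' j) (a' j)) atTop (𝓝 (S.B u a)) := B_tendsto hu ha
  have huz : Tendsto (fun j => S.B (u' j) z) atTop (𝓝 (S.B u z)) := B_tendsto hu hcz
  have haz : Tendsto (fun j => S.B (a' j) z) atTop (𝓝 (S.B a z)) := B_tendsto ha hcz
  have hat : Tendsto (fun j => S.B (a' j) t) atTop (𝓝 (S.B a t)) := B_tendsto ha hct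
  have hn : Tendsto (fun j => S.B (nx S x y (a' j) (ε j)) z) atTop (𝓝 (S.B x z)) := by
    have h1 : Tendsto (fun j => S.B x z + ε j * S.B (a' j) z +
        (-(ε j ^ 2 * S.B (a' j) (a' j)) / (2 * S.B x y)) * S.B y z) atTop
        (𝓝 (S.B x z + 0 * S.B a z + (-(0 ^ 2 * S.B a a) / (2 * S.B x y)) * S.B y z)) :=
      ((hε.mul haz).const_add (S.B x z)).add
        (((((hε.pow 2).mul haa).neg).div_const (2 * S.B x y)).mul_const (S.B y z))
    have h2 : S.B x z + 0 * S.B a z + (-(0 ^ 2 * S.B a a) / (2 * S.B x y)) * S.B y z =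
        S.B x z := by simp
    rw [h2] at h1
    refine h1.congr fun j => ?_
    rw [nx_left]
  have hc : Tendsto (fun j => c2 S x y z (a' j) (u' j) (ε j)) atTop
      (𝓝 (S.B u z / S.B x z)) := by
    have h1 : Tendsto (fun j => (S.B (u' j) z - ε j * S.B (u' j) (a' j) / S.B x y * S.B y z) /
        S.B (nx S x y (a' j) (ε j)) z) atTop
        (𝓝 ((S.B u z - 0 * S.B u a / S.B x y * S.B y z) / S.B x z)) :=
      (huz.sub (((hε.mul hua).div_const (S.B x y)).mul_const (S.B y z))).div hn hxz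
    have h2 : (S.B u z - 0 * S.B u a / S.B x y * S.B y z) / S.B x z = S.B u z / S.B x z := by
      simp
    rw [h2] at h1
    exact h1
  have h1 : Tendsto (fun j => -(c2 S x y z (a' j) (u' j) (ε j)) * S.B (a' j) t +
      (S.B (u' j) (a' j) - c2 S x y z (a' j) (u' j) (ε j) * ε j * S.B (a' j) (a' j) / 2) /
        S.B x z * S.B z t) atTop
      (𝓝 (-(S.B u z / S.B x z) * S.B a t +
        (S.B u a - S.B u z / S.B x z * 0 * S.B a a / 2) / S.B x z * S.B z t)) :=
    (hc.neg.mul hat).add
      (((hua.sub (((hc.mul hε).mul haa).div_const 2)).div_const (S.B x z)).mul_const (S.B z t))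
  have h2 : -(S.B u z / S.B x z) * S.B a t +
        (S.B u a - S.B u z / S.B x z * 0 * S.B a a / 2) / S.B x z * S.B z t =
      (S.B u a * S.B z t - S.B u z * S.B a t) / S.B x z := by
    field_simp
    ring
  rw [h2] at h1
  exact h1

end Pool.Agent.H27.LZ
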