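import Pool.Agent.H27.LZ.Turn
import Pool.Agent.H27.LZ.Close

/-!
# Transport around a cycle whose second pair is a limit of axes

`close` with `ε = 1 / (n + 1)` gives axes `(x' n, y' n) → (g x, k y)`.  For large `n`, `B (x' n) y ≠ 0` and
`B x (y' n) ≠ 0` (continuity), so `acc_hol` gives `Acc S q x y (Hol S x y (x' n) (y' n) u)`; these vectors
tend to `Hol S x y (g x) (k y) u` (`hol_tendsto`); `acc_isClosed`.
-/

set_option autoImplicit false

namespace Pool.Agent.H27.LZ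

open Filter Topology

variable {E : Type*} [NormedAddCommGroup E] [NormedSpace ℝ E] [FiniteDimensional ℝ E]
  {S : Sys E} {w : E ≃ₗ[ℝ] E} {x y : E} {l : ℝ}

lemma acc_holLim (h : Hyp S w x y l) {g k : E ≃ₗ[ℝ] E} (hg : g ∈ S.G) (hk : k ∈ S.G) {q u : E}
    (h1 : S.B (g x) (k y) ≠ 0) (h2 : S.B (g x) y ≠ 0) (h3 : S.B x (k y) ≠ 0)
    (ha : Acc S q x y u) : Acc S q x y (Hol S x y (g x) (k y) u) := by
  have hpos : ∀ n : ℕ, (0 : ℝ) < 1 / ((n : ℝ) + 1) := fun n => Nat.one_div_pos_of_nat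
  choose w' x' y' l' hyp hx' hy' using fun n : ℕ => close h hg hk h1 (hpos n)
  have hlim : Tendsto (fun n : ℕ => 1 / ((n : ℝ) + 1)) atTop (𝓝 0) :=
    tendsto_one_div_add_atTop_nhds_zero_nat
  have hxt : Tendsto x' atTop (𝓝 (g x)) := by
    rw [tendsto_iff_norm_sub_tendsto_zero]
    exact squeeze_zero (fun n => norm_nonneg _) (fun n => (hx' n).le) hlim
  have hyt : Tendsto y' atTop (𝓝 (k y)) := by
    rw [tendsto_iff_norm_sub_tendsto_zero]
    exact squeeze_zero (fun n => norm_nonneg _) (fun n => (hy' n).le) hlim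
  have e1 : ∀ᶠ n in atTop, S.B (x' n) y ≠ 0 :=
    (B_tendsto hxt tendsto_const_nhds).eventually_ne h2
  have e2 : ∀ᶠ n in atTop, S.B x (y' n) ≠ 0 :=
    (B_tendsto tendsto_const_nhds hyt).eventually_ne h3
  have ht : Tendsto (fun n => Hol S x y (x' n) (y' n) u) atTop
      (𝓝 (Hol S x y (g x) (k y) u)) :=
    hol_tendsto hxt hyt tendsto_const_nhds h.xy h2 h1 h3
  refine (acc_isClosed S q x y).mem_of_tendsto ht ?_
  filter_upwards [e1, e2] with n hn1 hn2
  exact acc_hol ha h (hyp n) hn1 hn2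

end Pool.Agent.H27.LZ
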