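import Pool.Agent.H27.LZ.ClF
import Pool.Agent.H27.LZ.PowL
import Pool.Agent.H27.LZ.Avoid

/-!
# Limits of fixed vectors are limits of unimodular vectors

By `clo_lim` it suffices to treat `v = z ∈ F`, `Hyp S w z zb l`.  `zb` is light-like and nonzero; `avoid` with
`a = zb` for the axis `(x, y) = (z, zb)` gives `g ∈ G` with `B (g z) zb ≠ 0`, `B (g zb) zb ≠ 0`.  Let
`a = g z`, `a2 = g zb`, an axis of `g w g⁻¹`, and `u = aU S a a2 zb`, orthogonal to `a, a2`.
`B u zb = B u u` (`B_aU`), and `u ≠ 0`: otherwise `zb = p a + q a2` (`aU_dec`), `B zb zb = 2 p q B a a2 = 0`, so `p = 0`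
or `q = 0`, and `B a2 zb = 0` or `B a zb = 0`.  So `B u zb > 0` (`U_pos`).
`w ^ n * (g w g⁻¹) * (w ^ n)⁻¹` has the axis `(w ^ n a, w ^ n a2)` and `(w ^ n) u` is orthogonal to it;
`(l⁻¹) ^ n • (w ^ n) u → (B u zb / B z zb) • z` (`Hyp.pow_lim`); rescale: `clo_of`, `clo_smul`, `clo_lim`.
-/

set_option autoImplicit false

namespace Pool.Agent.H27.LZ

open Filter Topology

variable {E : Type*} [NormedAddCommGroup E] [NormedSpace ℝ E] [FiniteDimensional ℝ E]
  {S : Sys E}

lemma light_clo (hF : Full S) (hdim : 3 ≤ Module.finrank ℝ E) {v : E} (hv : ClF S v) :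
    Clo S v := by
  have key : ∀ z ∈ F S, Clo S z := by
    intro z hz
    obtain ⟨w, zb, l, h⟩ := hz
    obtain ⟨g, hg, hga, hgb⟩ := avoid hF hdim h.x_mem h.y_mem h.yy h.y_ne
    have hc : Hyp S (g * w * g⁻¹) (g z) (g zb) l := h.conj hg
    have haa : S.B (g z) (g z) = 0 := hc.xx
    have hbb : S.B (g zb) (g zb) = 0 := hc.yy
    have hab : S.B (g z) (g zb) ≠ 0 := hc.xy
    have hua : S.B (aU S (g z) (g zb) zb) (g z) = 0 := aU_x haa hbb hab zb
    have hub : S.B (aU S (g z) (g zb) zb) (g zb) = 0 := aU_y haa hbb hab zb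
    have huu : S.B (aU S (g z) (g zb) zb) (aU S (g z) (g zb) zb)
        = S.B (aU S (g z) (g zb) zb) zb := B_aU hua hub zb
    have hu0 : aU S (g z) (g zb) zb ≠ 0 := by
      intro h0
      have hdec := aU_dec (S := S) (g z) (g zb) zb
      rw [h0, add_zero] at hdec
      have hzb := h.yy
      have hgen : ∀ p q : ℝ, zb = p • g z + q • g zb →
          S.B zb zb = p * S.B (g z) zb + q * S.B (g zb) zb := by
        intro p q he
        have h5 : S.B (p • g z + q • g zb) zb = p * S.B (g z) zb + q * S.B (g zb) zb := by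
          simp only [map_add, map_smul, LinearMap.add_apply, LinearMap.smul_apply, smul_eq_mul]
        rwa [← he] at h5
      have h1 := hgen _ _ hdec
      rw [hzb, S.symm zb (g zb), S.symm zb (g z)] at h1
      have h2 : 2 * (S.B (g zb) zb * S.B (g z) zb) / S.B (g z) (g zb) = 0 := by
        rw [h1]
        ring
      have h3 : 2 * (S.B (g zb) zb * S.B (g z) zb) / S.B (g z) (g zb) ≠ 0 :=
        div_ne_zero (mul_ne_zero two_ne_zero (mul_ne_zero hgb hga)) hab
      exact h3 h2
    have hpos : 0 < S.B (aU S (g z) (g zb) zb) zb := by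
      rw [← huu]
      exact U_pos haa hab hua hub hu0
    have hn : ∀ n : ℕ, Clo S ((l⁻¹) ^ n • (w ^ n) (aU S (g z) (g zb) zb)) := by
      intro n
      have hwn : w ^ n ∈ S.G := S.G.pow_mem h.mem n
      refine clo_smul (clo_of (hc.conj hwn) ?_ ?_) _
      · rw [S.iso _ hwn]
        exact hua
      · rw [S.iso _ hwn]
        exact hub
    have hlim := clo_lim (Filter.Frequently.of_forall hn) (h.pow_lim (aU S (g z) (g zb) zb))
    have hfin := clo_smul hlim (S.B z zb / S.B (aU S (g z) (g zb) zb) zb)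
    rw [smul_smul, div_mul_div_cancel₀ hpos.ne', div_self h.xy, one_smul] at hfin
    exact hfin
  intro ε hε
  obtain ⟨z', hz', hd⟩ := hv (ε / 2) (by positivity)
  obtain ⟨w, x, y, l, u, hw, hx, hy, hu⟩ := key z' hz' (ε / 2) (by positivity)
  refine ⟨w, x, y, l, u, hw, hx, hy, ?_⟩
  have h3 := norm_add_le (u - z') (z' - v)
  rw [sub_add_sub_cancel] at h3
  linarith

end Pool.Agent.H27.LZ
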