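import Pool.Agent.H27.LZ.Defs

/-!
# Light-like vectors

`light_prop`: if `a, b` were linearly independent, `S.lor` would give a vector `s a + t b` of positive
norm, but its norm is `s² B a a + 2 s t B a b + t² B b b = 0`; so `b` is a multiple of `a`
(`LinearIndependent.pair_iff'`).
`light_ne`: contrapositive.
`U_pos`: if `B u u ≤ 0`: for `u, x` linearly independent `S.lor` gives `s u + t x` of positive norm
`s² B u u ≤ 0`, a contradiction; if they are dependent, `u = c x` (`x ≠ 0` since `B x y ≠ 0`) and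
`0 = B u y = c B x y`, so `u = 0`.
`aU_*`: linear algebra (`B x x = B y y = 0`).
`U_par`: `B (u - t) (u - t) = 2 κ - 2 B u t`, `B (u + t) (u + t) = 2 κ + 2 B u t`, and `B u t = κ` or `-κ`;
use `U_pos`.
`U_cs`: Cauchy-Schwarz in `U`.
-/

set_option autoImplicit false

namespace Pool.Agent.H27.LZ

variable {E : Type*} [NormedAddCommGroup E] [NormedSpace ℝ E] {S : Sys E}

private lemma norm_comb (a b : E) (s t : ℝ) :
    S.B (s • a + t • b) (s • a + t • b) =
      s * s * S.B a a + 2 * (s * t) * S.B a b + t * t * S.B b b := by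
  simp only [map_add, map_smul, LinearMap.add_apply, LinearMap.smul_apply, smul_eq_mul]
  rw [S.symm b a]
  ring

lemma light_prop {a b : E} (ha : S.B a a = 0) (hb : S.B b b = 0) (hab : S.B a b = 0)
    (h0 : a ≠ 0) : ∃ c : ℝ, b = c • a := by
  by_contra hcon
  push Not at hcon
  have hli : LinearIndependent ℝ ![a, b] :=
    (LinearIndependent.pair_iff' h0).2 fun c hc => hcon c hc.symm
  obtain ⟨s, t, hst⟩ := S.lor a b hli
  rw [norm_comb, ha, hb, hab] at hst
  simp at hst

lemma light_ne {a b : E} (ha : S.B a a = 0) (hb : S.B b b = 0) (h0 : a ≠ 0)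
    (h : ∀ c : ℝ, b ≠ c • a) : S.B a b ≠ 0 := by
  intro hab
  obtain ⟨c, hc⟩ := light_prop ha hb hab h0
  exact h c hc

lemma U_pos {x y u : E} (hx : S.B x x = 0) (hxy : S.B x y ≠ 0) (hux : S.B u x = 0)
    (huy : S.B u y = 0) (h0 : u ≠ 0) : 0 < S.B u u := by
  by_contra hneg
  push Not at hneg
  have hx0 : x ≠ 0 := by
    rintro rfl
    simp at hxy
  by_cases hli : LinearIndependent ℝ ![x, u]
  · obtain ⟨s, t, hst⟩ := S.lor x u hli
    rw [norm_comb, hx, S.symm x u, hux] at hst
    have : t * t * S.B u u ≤ 0 := mul_nonpos_of_nonneg_of_nonpos (mul_self_nonneg t) hneg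
    linarith
  · rw [LinearIndependent.pair_iff' hx0] at hli
    push Not at hli
    obtain ⟨c, hc⟩ := hli
    rw [← hc] at huy h0
    rw [map_smul, LinearMap.smul_apply, smul_eq_mul] at huy
    rcases mul_eq_zero.1 huy with h1 | h1
    · rw [h1, zero_smul] at h0
      exact h0 rfl
    · exact hxy h1

lemma U_nonneg {x y u : E} (hx : S.B x x = 0) (hxy : S.B x y ≠ 0) (hux : S.B u x = 0)
    (huy : S.B u y = 0) : 0 ≤ S.B u u := by
  by_cases h0 : u = 0
  · rw [h0]
    simp
  · exact (U_pos hx hxy hux huy h0).le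

lemma U_par {x y u t : E} {κ : ℝ} (hx : S.B x x = 0) (hxy : S.B x y ≠ 0) (hux : S.B u x = 0)
    (huy : S.B u y = 0) (htx : S.B t x = 0) (hty : S.B t y = 0) (hu : S.B u u = κ)
    (ht : S.B t t = κ) (h : κ * κ = S.B u t * S.B u t) : t = u ∨ t = -u := by
  have h1 : (κ - S.B u t) * (κ + S.B u t) = 0 := by linear_combination h
  have hsub : ∀ c : ℝ, S.B (t + c • u) x = 0 ∧ S.B (t + c • u) y = 0 := by
    intro c
    simp only [map_add, map_smul, LinearMap.add_apply, LinearMap.smul_apply, smul_eq_mul, hux,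
      huy, htx, hty]
    simp
  have hn : ∀ c : ℝ, S.B (t + c • u) (t + c • u) = κ + 2 * c * S.B u t + c * c * κ := by
    intro c
    simp only [map_add, map_smul, LinearMap.add_apply, LinearMap.smul_apply, smul_eq_mul]
    rw [S.symm t u, hu, ht]
    ring
  rcases mul_eq_zero.1 h1 with h2 | h2
  · left
    by_contra hne
    have h3 : t + (-1 : ℝ) • u ≠ 0 := by
      intro h4
      apply hne
      rw [neg_one_smul, ← sub_eq_add_neg] at h4
      exact sub_eq_zero.1 h4
    have h5 := U_pos hx hxy (hsub (-1)).1 (hsub (-1)).2 h3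
    rw [hn] at h5
    linarith
  · right
    by_contra hne
    have h3 : t + (1 : ℝ) • u ≠ 0 := by
      intro h4
      apply hne
      rw [one_smul] at h4
      exact eq_neg_of_add_eq_zero_left h4
    have h5 := U_pos hx hxy (hsub 1).1 (hsub 1).2 h3
    rw [hn] at h5
    linarith

lemma aU_x {x y : E} (hx : S.B x x = 0) (hy : S.B y y = 0) (hxy : S.B x y ≠ 0) (z : E) :
    S.B (aU S x y z) x = 0 := by
  have _ := hy
  unfold aU
  simp only [map_sub, map_smul, LinearMap.sub_apply, LinearMap.smul_apply, smul_eq_mul]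
  rw [hx, S.symm y x, div_mul_cancel₀ _ hxy]
  ring

lemma aU_y {x y : E} (hx : S.B x x = 0) (hy : S.B y y = 0) (hxy : S.B x y ≠ 0) (z : E) :
    S.B (aU S x y z) y = 0 := by
  have _ := hx
  unfold aU
  simp only [map_sub, map_smul, LinearMap.sub_apply, LinearMap.smul_apply, smul_eq_mul]
  rw [hy, div_mul_cancel₀ _ hxy]
  ring

lemma aU_dec (x y z : E) :
    z = (S.B z y / S.B x y) • x + (S.B z x / S.B x y) • y + aU S x y z := by
  unfold aU
  abel

lemma aU_self_x {x y : E} (hx : S.B x x = 0) (hxy : S.B x y ≠ 0) : aU S x y x = 0 := by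
  unfold aU
  rw [hx, div_self hxy, zero_div, one_smul, zero_smul, sub_self, sub_zero]

lemma aU_self_y {x y : E} (hy : S.B y y = 0) (hxy : S.B x y ≠ 0) : aU S x y y = 0 := by
  unfold aU
  rw [hy, S.symm y x, div_self hxy, zero_div, one_smul, zero_smul, sub_zero, sub_self]

lemma aU_of_mem {x y u : E} (hux : S.B u x = 0) (huy : S.B u y = 0) : aU S x y u = u := by
  unfold aU
  rw [hux, huy, zero_div, zero_smul, zero_smul, sub_zero, sub_zero]

lemma aU_add (x y u v : E) : aU S x y (u + v) = aU S x y u + aU S x y v := by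
  unfold aU
  simp only [map_add, LinearMap.add_apply, add_div, add_smul]
  abel

lemma aU_smul (x y : E) (c : ℝ) (u : E) : aU S x y (c • u) = c • aU S x y u := by
  unfold aU
  simp only [map_smul, LinearMap.smul_apply, smul_eq_mul, smul_sub, smul_smul, mul_div_assoc]

/-- `B` with a vector orthogonal to `x` and `y` only sees the component `aU` -/
lemma B_aU {x y t : E} (htx : S.B t x = 0) (hty : S.B t y = 0) (z : E) :
    S.B t (aU S x y z) = S.B t z := by
  unfold aU
  simp only [map_sub, map_smul, smul_eq_mul, htx, hty]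
  ring

end Pool.Agent.H27.LZ
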