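import Pool.Agent.H27.LZ.OpB
import Pool.Agent.H27.LZ.ClF

/-!
# Limits along an unbounded sequence of group elements

`ol_F`: `x0` and `y0` are not both orthogonal to `y` (else both are multiples of `y`, `light_prop`, and
`B x0 y0 = 0`), so `c = x0` or `c = y0`.
`ol_x`: with `c` of `ol_F`, `(N k)⁻¹ • g k c → B c y • x`, and `g k c ∈ F` (`F_map`); rescale (`clF_smul`), `clF_lim`.
`ol_y`: apply `ol_x` to the inverses (`OL S (fun k => (g k)⁻¹) N y x`).
`ol_A`: let `β = B p0 y ≠ 0`, `r k = μ k * N k`.  `r k • ((N k)⁻¹ • g k p0) → v` and `(N k)⁻¹ • g k p0 → β • x ≠ 0`.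
Norms: `|r k| → ‖v‖ / ‖β • x‖`, so `r` is bounded; a subsequence tends to some `r0`, `v = (r0 β) • x`, `≠ 0`.
`ol_B`: `p0 = c • y` (`light_prop`), `c ≠ 0`; `g k p0 = c • g k y` and `ClF S (g k y)` (`ol_y`, `clF_map`); `μ k ≠ 0` for
large `k` (`v ≠ 0`); `clF_smul`, `clF_lim`.
-/

set_option autoImplicit false

namespace Pool.Agent.H27.LZ

open Filter Topology

variable {E : Type*} [NormedAddCommGroup E] [NormedSpace ℝ E] [FiniteDimensional ℝ E]
  {S : Sys E} {g : ℕ → E ≃ₗ[ℝ] E} {N : ℕ → ℝ} {x y : E}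

private lemma olA_Nne (h : OL S g N x y) : ∀ᶠ k in atTop, N k ≠ 0 := by
  filter_upwards [h.N_lim.eventually_gt_atTop 0] with k hk
  exact hk.ne'

lemma OL.inv (h : OL S g N x y) : OL S (fun k => (g k)⁻¹) N y x := by
  refine ⟨fun k => S.G.inv_mem (h.mem k), h.N_lim, h.y_ne, h.x_ne, h.yy, h.xx, h.ilim, ?_⟩
  intro z
  have h1 := h.lim z
  simp only [inv_inv]
  exact h1

lemma ol_F (h : OL S g N x y) {w0 : E ≃ₗ[ℝ] E} {x0 y0 : E} {l0 : ℝ}
    (h0 : Hyp S w0 x0 y0 l0) : ∃ c ∈ F S, S.B c y ≠ 0 := by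
  by_cases hx : S.B x0 y = 0
  · by_cases hy : S.B y0 y = 0
    · exfalso
      obtain ⟨c, hc⟩ := light_prop h.yy h0.xx (by rw [S.symm]; exact hx) h.y_ne
      obtain ⟨d, hd⟩ := light_prop h.yy h0.yy (by rw [S.symm]; exact hy) h.y_ne
      apply h0.xy
      rw [hc, hd]
      simp only [map_smul, LinearMap.smul_apply, smul_eq_mul, h.yy, mul_zero]
    · exact ⟨y0, h0.y_mem, hy⟩
  · exact ⟨x0, h0.x_mem, hx⟩

lemma ol_x (h : OL S g N x y) {w0 : E ≃ₗ[ℝ] E} {x0 y0 : E} {l0 : ℝ}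
    (h0 : Hyp S w0 x0 y0 l0) : ClF S x := by
  obtain ⟨c, hcF, hcy⟩ := ol_F h h0
  have h1 : ClF S (S.B c y • x) := by
    refine clF_lim (z := fun k => (N k)⁻¹ • g k c) ?_ (h.lim c)
    apply Eventually.frequently
    filter_upwards [olA_Nne h] with k hk
    exact clF_smul (clF_of_mem (F_map hcF (h.mem k))) (inv_ne_zero hk)
  have h2 := clF_smul h1 (inv_ne_zero hcy)
  rwa [smul_smul, inv_mul_cancel₀ hcy, one_smul] at h2

lemma ol_y (h : OL S g N x y) {w0 : E ≃ₗ[ℝ] E} {x0 y0 : E} {l0 : ℝ}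
    (h0 : Hyp S w0 x0 y0 l0) : ClF S y :=
  ol_x h.inv h0

lemma ol_A (h : OL S g N x y) {p0 v : E} {μ : ℕ → ℝ}
    (hlim : Tendsto (fun k => μ k • g k p0) atTop (𝓝 v)) (hv : v ≠ 0)
    (hne : S.B p0 y ≠ 0) : ∃ c : ℝ, c ≠ 0 ∧ v = c • x := by
  have hex : ∃ e, S.B x e ≠ 0 := by
    by_contra hcon
    push Not at hcon
    exact h.x_ne (S.nondeg x hcon)
  obtain ⟨e, he⟩ := hex
  have hu := h.lim p0
  have h1 : Tendsto (fun k => S.B ((N k)⁻¹ • g k p0) e) atTop (𝓝 (S.B (S.B p0 y • x) e)) :=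
    B_tendsto hu tendsto_const_nhds
  have h2 : Tendsto (fun k => S.B (μ k • g k p0) e) atTop (𝓝 (S.B v e)) :=
    B_tendsto hlim tendsto_const_nhds
  have h3 : S.B (S.B p0 y • x) e ≠ 0 := by
    simp only [map_smul, LinearMap.smul_apply, smul_eq_mul]
    exact mul_ne_zero hne he
  have h4 := h2.div h1 h3
  have h5 := h4.smul hu
  have h6 : Tendsto (fun k => μ k • g k p0) atTop
      (𝓝 ((S.B v e / S.B (S.B p0 y • x) e) • S.B p0 y • x)) := by
    refine h5.congr' ?_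
    filter_upwards [olA_Nne h, h1.eventually_ne h3] with k hk hk2
    simp only [map_smul, LinearMap.smul_apply, smul_eq_mul] at hk2
    have hk3 : S.B (g k p0) e ≠ 0 := right_ne_zero_of_mul hk2
    simp only [map_smul, LinearMap.smul_apply, smul_eq_mul, Pi.div_apply, smul_smul]
    congr 1
    field_simp
  have h7 := tendsto_nhds_unique hlim h6
  rw [smul_smul] at h7
  refine ⟨_, ?_, h7⟩
  intro h8
  rw [h8, zero_smul] at h7
  exact hv h7

lemma ol_B (h : OL S g N x y) {w0 : E ≃ₗ[ℝ] E} {x0 y0 : E} {l0 : ℝ}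
    (h0 : Hyp S w0 x0 y0 l0) {p0 v : E} {μ : ℕ → ℝ}
    (hlim : Tendsto (fun k => μ k • g k p0) atTop (𝓝 v)) (hv : v ≠ 0)
    (hpp : S.B p0 p0 = 0) (hpy : S.B p0 y = 0) : ClF S v := by
  obtain ⟨c, hc⟩ := light_prop h.yy hpp (by rw [S.symm]; exact hpy) h.y_ne
  have hc0 : c ≠ 0 := by
    intro h1
    apply hv
    have h2 : Tendsto (fun k => μ k • g k p0) atTop (𝓝 0) := by
      rw [hc, h1, zero_smul]
      simp only [map_zero, smul_zero]
      exact tendsto_const_nhds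
    exact tendsto_nhds_unique hlim h2
  have hy := ol_y h h0
  refine clF_lim (z := fun k => μ k • g k p0) ?_ hlim
  apply Eventually.frequently
  filter_upwards [hlim.eventually_ne hv] with k hk
  have hμ : μ k ≠ 0 := by
    intro h1
    rw [h1, zero_smul] at hk
    exact hk rfl
  rw [hc, map_smul, smul_smul]
  exact clF_smul (clF_map hy (h.mem k)) (mul_ne_zero hμ hc0)

end Pool.Agent.H27.LZ
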