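import Pool.Agent.H27.LZ.Tra

/-!
# Vectors orthogonal to two limits of fixed vectors

`ax_S` with `ε = 1 / (n + 1)`: axes `(x n, y n) → (z1, z2)`; for large `n`, `B (x n) (y n) ≠ 0` (always for an axis,
`Hyp.xy`).  `u n = aU S (x n) (y n) v` is orthogonal to `x n, y n` (`aU_x`, `aU_y`), and tends to
`aU S z1 z2 v = v` (continuity: `B_tendsto`, division by `B (x n) (y n) → B z1 z2 ≠ 0`; `aU_of_mem`).
-/

set_option autoImplicit false

namespace Pool.Agent.H27.LZ

open Filter Topology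

variable {E : Type*} [NormedAddCommGroup E] [NormedSpace ℝ E] [FiniteDimensional ℝ E]
  {S : Sys E} {x0 : E}

lemma pair_clo (hL : NoLine S) (hx0 : x0 ∈ F S) (hdim : 3 ≤ Module.finrank ℝ (orbSpan S x0))
    {z1 z2 v : E} (h1 : ClF S z1) (h2 : ClF S z2) (hne : S.B z1 z2 ≠ 0)
    (hv1 : S.B v z1 = 0) (hv2 : S.B v z2 = 0) : Clo S v := by
  have hpos : ∀ n : ℕ, (0 : ℝ) < 1 / ((n : ℝ) + 1) := fun n => by positivity
  choose w x y l hH hx hy using fun n : ℕ => ax_S hL hx0 hdim h1 h2 hne (hpos n)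
  have h0 : Tendsto (fun n : ℕ => 1 / ((n : ℝ) + 1)) atTop (𝓝 0) :=
    tendsto_one_div_add_atTop_nhds_zero_nat
  have hxt : Tendsto x atTop (𝓝 z1) := by
    rw [tendsto_iff_norm_sub_tendsto_zero]
    exact squeeze_zero (fun n => norm_nonneg _) (fun n => (hx n).le) h0
  have hyt : Tendsto y atTop (𝓝 z2) := by
    rw [tendsto_iff_norm_sub_tendsto_zero]
    exact squeeze_zero (fun n => norm_nonneg _) (fun n => (hy n).le) h0
  have hvt : Tendsto (fun _ : ℕ => v) atTop (𝓝 v) := tendsto_const_nhds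
  have hB := B_tendsto (S := S) hxt hyt
  have hBvy := B_tendsto (S := S) hvt hyt
  have hBvx := B_tendsto (S := S) hvt hxt
  have hu : Tendsto (fun n => aU S (x n) (y n) v) atTop (𝓝 (aU S z1 z2 v)) := by
    unfold aU
    exact (hvt.sub ((hBvy.div hB hne).smul hxt)).sub ((hBvx.div hB hne).smul hyt)
  rw [aU_of_mem hv1 hv2] at hu
  intro ε hε
  have h3 := (tendsto_iff_norm_sub_tendsto_zero.1 hu).eventually (gt_mem_nhds hε)
  obtain ⟨n, hn⟩ := h3.exists
  exact ⟨w n, x n, y n, l n, aU S (x n) (y n) v, hH n, aU_x (hH n).xx (hH n).yy (hH n).xy v,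
    aU_y (hH n).xx (hH n).yy (hH n).xy v, hn⟩

end Pool.Agent.H27.LZ
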