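import Pool.Agent.H27.LZ.Corr
import Pool.Agent.H27.LZ.HolS

/-!
# Secants

By compactness of the unit sphere pass to a subsequence with `b → b0`, `c → c0`, `‖b0‖ = ‖c0‖ = 1`.
`B v0 b0 = 0`, and `B v0 c0 = 0` because `B (v k) (c k) → 0` (from `h3`, as `|B (b k) (c k)|` is bounded).
Case 1: `b0, c0` independent: `corr` with `a' = b`, `d' = c`.
Case 2: `c0 = ± b0`.  Choose `η` with `B b0 η ≠ 0` (`nondeg`).  For large `k`, `t k = B (c k) η / B (b k) η`, which tends
to `± 1`.  `D k = c k - t k • b k` is orthogonal to `η`, and `B (D k) (D k) = - 2 t k B (b k) (c k) ≠ 0`, so `D k ≠ 0`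
and `2 |t k| |B (b k) (c k)| ≤ C ‖D k‖²` (with `|B u u| ≤ C ‖u‖²`; `B_upper` and the same for `-B`, or use
the boundedness of `B` on the unit sphere).  `B (v k) (D k) = B (v k) (c k)`, so with `d k = D k / ‖D k‖`,
`(B (v k) (d k))² ≤ C (B (v k) (c k))² / (2 |t k| |B (b k) (c k)|) → 0`.  Pass to a subsequence with `d k → d`,
`‖d‖ = 1`, `B d η = 0`, so `b0, d` are independent, and `B v0 d = 0`.  `corr` with `a' = b`, `d' = d k`; a vector
orthogonal to `b k` and `D k` is orthogonal to `c k = D k + t k • b k`.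
-/

set_option autoImplicit false

namespace Pool.Agent.H27.LZ

open Filter Topology

variable {E : Type*} [NormedAddCommGroup E] [NormedSpace ℝ E] [FiniteDimensional ℝ E]

/-- two-sided bound for the form -/
lemma B_abs (S : Sys E) : ∃ C : ℝ, 0 < C ∧ ∀ u v, |S.B u v| ≤ C * ‖u‖ * ‖v‖ := by
  let L : E →ₗ[ℝ] (E →L[ℝ] ℝ) :=
    (LinearMap.toContinuousLinearMap : (E →ₗ[ℝ] ℝ) ≃ₗ[ℝ] (E →L[ℝ] ℝ)).toLinearMap ∘ₗ S.B
  let L' : E →L[ℝ] (E →L[ℝ] ℝ) := LinearMap.toContinuousLinearMap L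
  refine ⟨‖L'‖ + 1, by positivity, fun u v => ?_⟩
  have h1 : ‖L' u v‖ ≤ ‖L'‖ * ‖u‖ * ‖v‖ := L'.le_opNorm₂ u v
  have h2 : L' u v = S.B u v := rfl
  rw [h2, Real.norm_eq_abs] at h1
  have h4 : 0 ≤ ‖u‖ * ‖v‖ := by positivity
  nlinarith

lemma secant_lim (S : Sys E) {a d : ℕ → E} {a0 d0 : E} (ha : Tendsto a atTop (𝓝 a0))
    (hd : Tendsto d atTop (𝓝 d0)) :
    Tendsto (fun n => S.B (a n) (d n)) atTop (𝓝 (S.B a0 d0)) := by
  let L : E →ₗ[ℝ] (E →L[ℝ] ℝ) :=
    (LinearMap.toContinuousLinearMap : (E →ₗ[ℝ] ℝ) ≃ₗ[ℝ] (E →L[ℝ] ℝ)).toLinearMap ∘ₗ S.B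
  let L' : E →L[ℝ] (E →L[ℝ] ℝ) := LinearMap.toContinuousLinearMap L
  have h0 : Tendsto (fun n => (a n, d n)) atTop (𝓝 (a0, d0)) := ha.prodMk_nhds hd
  exact (L'.continuous₂.tendsto (a0, d0)).comp h0

lemma secant (S : Sys E) {b c v : ℕ → E} {v0 : E} (hb : ∀ k, S.B (b k) (b k) = 0)
    (hc : ∀ k, S.B (c k) (c k) = 0) (hb1 : ∀ k, ‖b k‖ = 1) (hc1 : ∀ k, ‖c k‖ = 1)
    (hbc : ∀ k, S.B (b k) (c k) ≠ 0) (hv : Tendsto v atTop (𝓝 v0))
    (h1 : ∀ k, S.B (v k) (b k) = 0)
    (h3 : Tendsto (fun k => (S.B (v k) (c k)) ^ 2 / |S.B (b k) (c k)|) atTop (𝓝 0)) :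
    ∃ (φ : ℕ → ℕ) (v' : ℕ → E), StrictMono φ ∧ Tendsto v' atTop (𝓝 v0) ∧
      ∀ᶠ n in atTop, S.B (v' n) (b (φ n)) = 0 ∧ S.B (v' n) (c (φ n)) = 0 := by
  have : ProperSpace E := FiniteDimensional.proper ℝ E
  obtain ⟨C, hC, hCB⟩ := B_abs S
  -- the form between `v` and `c` tends to zero
  have h4 : Tendsto (fun k => S.B (v k) (c k)) atTop (𝓝 0) := by
    have h5 : Tendsto (fun k => (S.B (v k) (c k)) ^ 2) atTop (𝓝 0) := by
      have h6 : Tendsto (fun k => ((S.B (v k) (c k)) ^ 2 / |S.B (b k) (c k)|) * C) atTop (𝓝 0) := by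
        simpa using h3.mul_const C
      refine squeeze_zero (fun k => sq_nonneg _) (fun k => ?_) h6
      have h7 : 0 < |S.B (b k) (c k)| := abs_pos.2 (hbc k)
      have h8 : |S.B (b k) (c k)| ≤ C := by
        have := hCB (b k) (c k)
        rw [hb1, hc1] at this
        linarith
      calc (S.B (v k) (c k)) ^ 2
          = ((S.B (v k) (c k)) ^ 2 / |S.B (b k) (c k)|) * |S.B (b k) (c k)| := by
            field_simp
        _ ≤ ((S.B (v k) (c k)) ^ 2 / |S.B (b k) (c k)|) * C :=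
            mul_le_mul_of_nonneg_left h8 (by positivity)
    have h6 : Tendsto (fun k => |S.B (v k) (c k)|) atTop (𝓝 0) := by
      have h7 := h5.sqrt
      rw [Real.sqrt_zero] at h7
      refine h7.congr fun k => ?_
      exact Real.sqrt_sq_eq_abs _
    exact (tendsto_zero_iff_abs_tendsto_zero _).2 h6
  -- a subsequence
  have hcomp : IsCompact (Metric.sphere (0 : E) 1 ×ˢ Metric.sphere (0 : E) 1) :=
    (isCompact_sphere (0 : E) 1).prod (isCompact_sphere (0 : E) 1)
  obtain ⟨⟨b0, c0⟩, hmem, φ, hφ, hlim⟩ := hcomp.tendsto_subseq (x := fun k => (b k, c k))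
    (fun k => ⟨by simp [hb1 k], by simp [hc1 k]⟩)
  have hbl : Tendsto (fun n => b (φ n)) atTop (𝓝 b0) := (continuous_fst.tendsto _).comp hlim
  have hcl : Tendsto (fun n => c (φ n)) atTop (𝓝 c0) := (continuous_snd.tendsto _).comp hlim
  have hvl : Tendsto (fun n => v (φ n)) atTop (𝓝 v0) := hv.comp hφ.tendsto_atTop
  have hb01 : ‖b0‖ = 1 := by
    have := hmem.1
    simpa using this
  have hc01 : ‖c0‖ = 1 := by
    have := hmem.2
    simpa using this
  have hvb : S.B v0 b0 = 0 := by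
    have h5 := secant_lim S hvl hbl
    have h6 : Tendsto (fun n => S.B (v (φ n)) (b (φ n))) atTop (𝓝 0) := by
      simp [h1]
    exact tendsto_nhds_unique h5 h6
  have hvc : S.B v0 c0 = 0 :=
    tendsto_nhds_unique (secant_lim S hvl hcl) (h4.comp hφ.tendsto_atTop)
  by_cases hli : LinearIndependent ℝ ![b0, c0]
  · obtain ⟨v'', hv1, hv2⟩ := corr S hli hbl hcl hvl hvb hvc
    exact ⟨φ, v'', hφ, hv1, hv2⟩
  -- the dependent case
  have hb0 : b0 ≠ 0 := by
    intro h
    rw [h, norm_zero] at hb01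
    exact zero_ne_one hb01
  have hc0 : c0 ≠ 0 := by
    intro h
    rw [h, norm_zero] at hc01
    exact zero_ne_one hc01
  obtain ⟨τ, hτ0, hτ⟩ : ∃ τ : ℝ, τ ≠ 0 ∧ c0 = τ • b0 := by
    rw [LinearIndependent.pair_iff] at hli
    push Not at hli
    obtain ⟨s, t, hst, hne⟩ := hli
    have ht : t ≠ 0 := by
      intro ht
      rw [ht, zero_smul, add_zero] at hst
      rcases smul_eq_zero.1 hst with h | h
      · exact hne h ht
      · exact hb0 h
    have hc' : c0 = (-(s / t)) • b0 := by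
      have h5 : t • c0 = -(s • b0) := by
        rw [← add_eq_zero_iff_eq_neg, add_comm]
        exact hst
      calc c0 = t⁻¹ • (t • c0) := by rw [smul_smul, inv_mul_cancel₀ ht, one_smul]
        _ = (-(s / t)) • b0 := by
          rw [h5, smul_neg, smul_smul, neg_smul]
          congr 2
          field_simp
    refine ⟨-(s / t), ?_, hc'⟩
    intro h
    rw [h, zero_smul] at hc'
    exact hc0 hc'
  obtain ⟨η, hη⟩ : ∃ η, S.B b0 η ≠ 0 := by
    by_contra h
    push Not at h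
    exact hb0 (S.nondeg b0 h)
  have hbη : Tendsto (fun n => S.B (b (φ n)) η) atTop (𝓝 (S.B b0 η)) :=
    secant_lim S hbl tendsto_const_nhds
  have hcη : Tendsto (fun n => S.B (c (φ n)) η) atTop (𝓝 (S.B c0 η)) :=
    secant_lim S hcl tendsto_const_nhds
  set t : ℕ → ℝ := fun n => S.B (c (φ n)) η / S.B (b (φ n)) η with ht
  have htl : Tendsto t atTop (𝓝 τ) := by
    have h5 := hcη.div hbη hη
    have h6 : S.B c0 η / S.B b0 η = τ := by
      rw [hτ, map_smul, LinearMap.smul_apply, smul_eq_mul]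
      field_simp
    rw [h6] at h5
    exact h5
  have hbne : ∀ᶠ n in atTop, S.B (b (φ n)) η ≠ 0 := hbη.eventually_ne hη
  have htne : ∀ᶠ n in atTop, t n ≠ 0 := htl.eventually_ne hτ0
  set D : ℕ → E := fun n => c (φ n) - t n • b (φ n) with hD
  have hDη : ∀ᶠ n in atTop, S.B (D n) η = 0 := by
    filter_upwards [hbne] with n hn
    rw [hD]
    simp only [map_sub, map_smul, LinearMap.sub_apply, LinearMap.smul_apply, smul_eq_mul]
    rw [ht]
    field_simp
    ring
  have hDD : ∀ n, S.B (D n) (D n) = -(2 * t n * S.B (b (φ n)) (c (φ n))) := by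
    intro n
    rw [hD]
    simp only [map_sub, map_smul, LinearMap.sub_apply, LinearMap.smul_apply, smul_eq_mul]
    rw [hb, hc, S.symm (c (φ n)) (b (φ n))]
    ring
  have hDne : ∀ᶠ n in atTop, D n ≠ 0 := by
    filter_upwards [htne] with n hn h0
    have h5 := hDD n
    rw [h0] at h5
    simp only [map_zero] at h5
    have h6 : t n * S.B (b (φ n)) (c (φ n)) = 0 := by linarith
    rcases mul_eq_zero.1 h6 with h | h
    · exact hn h
    · exact hbc _ h
  set d : ℕ → E := fun n => ‖D n‖⁻¹ • D n with hd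
  have hDd : ∀ n, D n = ‖D n‖ • d n := by
    intro n
    by_cases h0 : D n = 0
    · rw [h0]
      simp
    · rw [hd]
      simp only
      rw [smul_smul, mul_inv_cancel₀ (norm_ne_zero_iff.2 h0), one_smul]
  have hdn : ∀ᶠ n in atTop, ‖d n‖ = 1 := by
    filter_upwards [hDne] with n hn
    rw [hd]
    simp only
    rw [norm_smul, norm_inv, norm_norm, inv_mul_cancel₀ (norm_ne_zero_iff.2 hn)]
  have hdle : ∀ n, d n ∈ Metric.closedBall (0 : E) 1 := by
    intro n
    rw [mem_closedBall_zero_iff, hd]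
    simp only
    rw [norm_smul, norm_inv, norm_norm]
    by_cases h0 : ‖D n‖ = 0
    · rw [h0]
      simp
    · rw [inv_mul_cancel₀ h0]
  have hvd : Tendsto (fun n => S.B (v (φ n)) (d n)) atTop (𝓝 0) := by
    have h5 : Tendsto (fun n => (C / (2 * |t n|)) *
        ((S.B (v (φ n)) (c (φ n))) ^ 2 / |S.B (b (φ n)) (c (φ n))|)) atTop (𝓝 0) := by
      have h6 : Tendsto (fun n => C / (2 * |t n|)) atTop (𝓝 (C / (2 * |τ|))) :=
        tendsto_const_nhds.div (tendsto_const_nhds.mul htl.abs)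
          (mul_ne_zero two_ne_zero (abs_ne_zero.2 hτ0))
      have h7 := h6.mul (h3.comp hφ.tendsto_atTop)
      rw [mul_zero] at h7
      exact h7
    have h6 : Tendsto (fun n => (S.B (v (φ n)) (d n)) ^ 2) atTop (𝓝 0) := by
      refine squeeze_zero' (Eventually.of_forall fun n => sq_nonneg _) ?_ h5
      filter_upwards [htne, hDne] with n hn hDn
      have h7 : S.B (v (φ n)) (d n) = ‖D n‖⁻¹ * S.B (v (φ n)) (c (φ n)) := by
        rw [hd]
        simp only
        rw [map_smul, smul_eq_mul]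
        congr 1
        rw [hD]
        simp only
        rw [map_sub, map_smul, h1, smul_zero, sub_zero]
      have h8 : 2 * |t n| * |S.B (b (φ n)) (c (φ n))| ≤ C * ‖D n‖ ^ 2 := by
        have h9 := hCB (D n) (D n)
        rw [hDD n, abs_neg, abs_mul, abs_mul, abs_two] at h9
        calc 2 * |t n| * |S.B (b (φ n)) (c (φ n))| ≤ C * ‖D n‖ * ‖D n‖ := h9
          _ = C * ‖D n‖ ^ 2 := by ring
      have h9 : 0 < |t n| := abs_pos.2 hn
      have h10 : 0 < |S.B (b (φ n)) (c (φ n))| := abs_pos.2 (hbc _)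
      have h11 : 0 < ‖D n‖ := norm_pos_iff.2 hDn
      rw [h7, mul_pow, inv_pow]
      have h12 : (‖D n‖ ^ 2)⁻¹ ≤ C / (2 * |t n|) * (1 / |S.B (b (φ n)) (c (φ n))|) := by
        rw [div_mul_div_comm, mul_one, inv_eq_one_div,
          div_le_div_iff₀ (by positivity) (by positivity)]
        linarith
      calc (‖D n‖ ^ 2)⁻¹ * S.B (v (φ n)) (c (φ n)) ^ 2
          ≤ (C / (2 * |t n|) * (1 / |S.B (b (φ n)) (c (φ n))|)) *
            S.B (v (φ n)) (c (φ n)) ^ 2 := mul_le_mul_of_nonneg_right h12 (sq_nonneg _)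
        _ = C / (2 * |t n|) * (S.B (v (φ n)) (c (φ n)) ^ 2 /
            |S.B (b (φ n)) (c (φ n))|) := by ring
    have h7 : Tendsto (fun n => |S.B (v (φ n)) (d n)|) atTop (𝓝 0) := by
      have h8 := h6.sqrt
      rw [Real.sqrt_zero] at h8
      exact h8.congr fun n => Real.sqrt_sq_eq_abs _
    exact (tendsto_zero_iff_abs_tendsto_zero _).2 h7
  obtain ⟨d0, -, θ, hθ, hdl⟩ := (isCompact_closedBall (0 : E) 1).tendsto_subseq hdle
  have hdl' : Tendsto (fun n => d (θ n)) atTop (𝓝 d0) := hdl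
  have hd01 : ‖d0‖ = 1 := by
    have h5 : Tendsto (fun n => ‖d (θ n)‖) atTop (𝓝 ‖d0‖) := hdl'.norm
    have h6 : ∀ᶠ n in atTop, ‖d (θ n)‖ = 1 := hθ.tendsto_atTop.eventually hdn
    have h7 : Tendsto (fun n => ‖d (θ n)‖) atTop (𝓝 1) :=
      tendsto_const_nhds.congr' (h6.mono fun n hn => hn.symm)
    exact tendsto_nhds_unique h5 h7
  have hvd0 : S.B v0 d0 = 0 :=
    tendsto_nhds_unique (secant_lim S (hvl.comp hθ.tendsto_atTop) hdl')
      (hvd.comp hθ.tendsto_atTop)
  have hd0η : S.B d0 η = 0 := by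
    have h5 : Tendsto (fun n => S.B (d (θ n)) η) atTop (𝓝 (S.B d0 η)) :=
      secant_lim S hdl' tendsto_const_nhds
    have h6 : ∀ᶠ n in atTop, S.B (d (θ n)) η = 0 := by
      filter_upwards [hθ.tendsto_atTop.eventually hDη] with n hn
      rw [hd]
      simp only
      rw [map_smul, LinearMap.smul_apply, hn, smul_zero]
    have h7 : Tendsto (fun n => S.B (d (θ n)) η) atTop (𝓝 0) :=
      tendsto_const_nhds.congr' (h6.mono fun n hn => hn.symm)
    exact tendsto_nhds_unique h5 h7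
  have hli' : LinearIndependent ℝ ![b0, d0] := by
    rw [LinearIndependent.pair_iff]
    intro s r hsr
    have h5 : S.B (s • b0 + r • d0) η = 0 := by
      rw [hsr]
      simp
    rw [map_add, map_smul, map_smul, LinearMap.add_apply, LinearMap.smul_apply,
      LinearMap.smul_apply, hd0η, smul_zero, add_zero, smul_eq_mul] at h5
    have hs : s = 0 := by
      rcases mul_eq_zero.1 h5 with h | h
      · exact h
      · exact absurd h hη
    refine ⟨hs, ?_⟩
    rw [hs, zero_smul, zero_add] at hsr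
    rcases smul_eq_zero.1 hsr with h | h
    · exact h
    · rw [h, norm_zero] at hd01
      exact absurd hd01 zero_ne_one
  obtain ⟨v'', hv1, hv2⟩ := corr S hli' (hbl.comp hθ.tendsto_atTop) hdl'
    (hvl.comp hθ.tendsto_atTop) hvb hvd0
  refine ⟨fun n => φ (θ n), v'', hφ.comp hθ, hv1, ?_⟩
  filter_upwards [hv2] with n hn
  refine ⟨hn.1, ?_⟩
  have h5 : c (φ (θ n)) = ‖D (θ n)‖ • d (θ n) + t (θ n) • b (φ (θ n)) := by
    rw [← hDd (θ n), hD]
    simp
  have h6 : S.B (v'' n) (b (φ (θ n))) = 0 := hn.1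
  have key : ∀ (r r' : ℝ) (e e' z : E), S.B z e = 0 → S.B z e' = 0 →
      S.B z (r • e + r' • e') = 0 := by
    intro r r' e e' z he he'
    rw [map_add, map_smul, map_smul, he, he']
    simp
  rw [h5]
  exact key _ _ _ _ _ hn.2 h6

end Pool.Agent.H27.LZ
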