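import Pool.Agent.H27.LZ.OlA
import Pool.Agent.H27.LZ.Secant
import Pool.Agent.H27.LZ.PairC

/-!
# The case of a base point orthogonal to the repelling direction

`B (v k) (v k) = (μ k)² B p0 p0` (`v k = μ k • g k p0`) converges and `B p0 p0 ≠ 0`, so `μ` is bounded.
Let `c` be as in `ol_F`, `b k = g k y / ‖g k y‖`, `c k = g k c / ‖g k c‖`.  `secant` applies:
`B (v k) (b k) = 0`; `B (b k) (c k) = B y c / (‖g k y‖ ‖g k c‖) ≠ 0`; `B (v k) (c k) = μ k B p0 c / ‖g k c‖`, so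
`(B (v k) (c k))² / |B (b k) (c k)| = (μ k)² (B p0 c)² / |B y c| * (‖g k y‖ / ‖g k c‖)`, and
`‖g k y‖ / ‖g k c‖ = ‖(N k)⁻¹ • g k y‖ / ‖(N k)⁻¹ • g k c‖ → 0 / ‖B c y • x‖ = 0` (`B y y = 0`).
So there are `v' n → v`, `v' n` orthogonal to `b (φ n)`, `c (φ n)` for large `n`; both are `ClF` (`ol_y`, `clF_map`,
`clF_smul`, `clF_of_mem`), so `Clo S (v' n)` by `pair_clo`; `clo_lim`.
-/

set_option autoImplicit false

namespace Pool.Agent.H27.LZ

open Filter Topology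

variable {E : Type*} [NormedAddCommGroup E] [NormedSpace ℝ E] [FiniteDimensional ℝ E]
  {S : Sys E} {g : ℕ → E ≃ₗ[ℝ] E} {N : ℕ → ℝ} {x y : E}

private lemma olC_ss (S : Sys E) (a b : ℝ) (u v : E) :
    S.B (a • u) (b • v) = a * b * S.B u v := by
  rw [map_smul (S.B (a • u)), map_smul S.B, LinearMap.smul_apply, smul_eq_mul, smul_eq_mul]
  ring

private lemma olC_ne (g : E ≃ₗ[ℝ] E) {u : E} (hu : u ≠ 0) : g u ≠ 0 := fun h =>
  hu ((LinearEquiv.map_eq_zero_iff g).mp h)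

private lemma olC_ratio (h : OL S g N x y) {c : E} (hc : S.B c y ≠ 0) :
    Tendsto (fun k => ‖g k y‖ / ‖g k c‖) atTop (𝓝 0) := by
  have h1 := (h.lim y).norm
  have h2 := (h.lim c).norm
  have h3 : ‖S.B c y • x‖ ≠ 0 := norm_ne_zero_iff.mpr (smul_ne_zero hc h.x_ne)
  have h4 := h1.div h2 h3
  rw [h.yy, zero_smul, norm_zero, zero_div] at h4
  refine h4.congr' ?_
  filter_upwards [h.N_lim.eventually_gt_atTop 0] with k hk
  have hk2 : ‖(N k)⁻¹‖ ≠ 0 := norm_ne_zero_iff.mpr (inv_ne_zero hk.ne')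
  simp only [Pi.div_apply, norm_smul]
  exact mul_div_mul_left _ _ hk2

lemma ol_C (hL : NoLine S) (h : OL S g N x y) {w0 : E ≃ₗ[ℝ] E} {x0 y0 : E} {l0 : ℝ}
    (h0 : Hyp S w0 x0 y0 l0) (hdim : 3 ≤ Module.finrank ℝ (orbSpan S x0)) {p0 v : E}
    {μ : ℕ → ℝ} (hlim : Tendsto (fun k => μ k • g k p0) atTop (𝓝 v))
    (hpp : S.B p0 p0 ≠ 0) (hpy : S.B p0 y = 0) : Clo S v := by
  obtain ⟨c, hcF, hcy⟩ := ol_F h h0
  have hμ : Tendsto (fun k => μ k ^ 2) atTop (𝓝 (S.B v v / S.B p0 p0)) := by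
    have h1 : Tendsto (fun k => S.B (μ k • g k p0) (μ k • g k p0)) atTop (𝓝 (S.B v v)) :=
      B_tendsto hlim hlim
    have h2 := h1.div_const (S.B p0 p0)
    refine h2.congr ?_
    intro k
    rw [olC_ss, S.iso _ (h.mem k)]
    field_simp
  have hyn : ∀ k, ‖g k y‖ ≠ 0 := fun k => norm_ne_zero_iff.mpr (olC_ne (g k) h.y_ne)
  have hcn : ∀ k, ‖g k c‖ ≠ 0 := fun k => norm_ne_zero_iff.mpr (olC_ne (g k) (F_ne hcF))
  have hyc : S.B y c ≠ 0 := by rw [S.symm]; exact hcy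
  have hbc : ∀ k, S.B (‖g k y‖⁻¹ • g k y) (‖g k c‖⁻¹ • g k c) ≠ 0 := by
    intro k
    rw [olC_ss, S.iso _ (h.mem k)]
    exact mul_ne_zero (mul_ne_zero (inv_ne_zero (hyn k)) (inv_ne_zero (hcn k))) hyc
  obtain ⟨φ, v', _, hv', hev⟩ := secant S (b := fun k => ‖g k y‖⁻¹ • g k y)
    (c := fun k => ‖g k c‖⁻¹ • g k c) (v := fun k => μ k • g k p0) (v0 := v)
    (by
      intro k
      rw [olC_ss, S.iso _ (h.mem k), h.yy, mul_zero])
    (by
      intro k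
      rw [olC_ss, S.iso _ (h.mem k), F_light hcF, mul_zero])
    (by
      intro k
      rw [norm_smul, norm_inv, norm_norm, inv_mul_cancel₀ (hyn k)])
    (by
      intro k
      rw [norm_smul, norm_inv, norm_norm, inv_mul_cancel₀ (hcn k)])
    hbc hlim
    (by
      intro k
      rw [olC_ss, S.iso _ (h.mem k), hpy, mul_zero])
    (by
      have h1 := (hμ.mul_const ((S.B p0 c) ^ 2 / |S.B y c|)).mul (olC_ratio h hcy)
      rw [mul_zero] at h1
      refine h1.congr ?_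
      intro k
      rw [olC_ss, olC_ss, S.iso _ (h.mem k), S.iso _ (h.mem k)]
      have h2 : |S.B y c| ≠ 0 := abs_ne_zero.mpr hyc
      have h3 : |‖g k y‖⁻¹ * ‖g k c‖⁻¹ * S.B y c| = ‖g k y‖⁻¹ * ‖g k c‖⁻¹ * |S.B y c| := by
        rw [abs_mul, abs_mul, abs_inv, abs_inv, abs_norm, abs_norm]
      rw [h3]
      have h4 := hyn k
      have h5 := hcn k
      field_simp)
  refine clo_lim (v := v') ?_ hv'
  apply Eventually.frequently
  filter_upwards [hev] with n hn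
  exact pair_clo hL h0.x_mem hdim
    (clF_smul (clF_map (ol_y h h0) (h.mem (φ n))) (inv_ne_zero (hyn (φ n))))
    (clF_smul (clF_of_mem (F_map hcF (h.mem (φ n)))) (inv_ne_zero (hcn (φ n))))
    (hbc (φ n)) hn.1 hn.2

end Pool.Agent.H27.LZ
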