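import Pool.Agent.H27.LZ.OpA

/-!
# Limits of rescaled group elements have rank one

`OL S g N x y`: the rescaled `g k` tend to `z ↦ B z y • x`, the rescaled inverses to `z ↦ B z x • y`.
`op_lim`: `n k = ‖opn (g k)‖ → ∞` (`opn_tendsto`).  The maps `(n k)⁻¹ • opn (g k)` have norm `1`, the maps
`(n k)⁻¹ • opn (g k)⁻¹` are bounded (`adj_bdd`); pass to a subsequence on which they converge, to `T` with
`‖T‖ = 1` and to `T'`.  `B (T u) (T v) = lim (n k)⁻² B u v = 0`, `B (T u) v = lim (n k)⁻¹ B (g k u) v = B u (T' v)`.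
Choose `u0` with `x = T u0 ≠ 0`; `B x x = 0`; for every `u`, `T u = φ u • x` (`light_prop`: `B (T u) (T u) = 0`,
`B x (T u) = 0`); choose `e` with `B x e = 1` (nondegenerate): `φ u = B (T u) e = B u (T' e)`; `y = T' e ≠ 0`
(`T ≠ 0`).  `B u (T' v) = B (T u) v = B u y * B x v` for all `u`, so `T' v = B v x • y`.  `B (T' u) (T' v) = 0` (as for
`T`) gives `B y y = 0` (`u = v = e`).
-/

set_option autoImplicit false

namespace Pool.Agent.H27.LZ

open Filter Topology

variable {E : Type*} [NormedAddCommGroup E] [NormedSpace ℝ E]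

/-- the group elements `g k`, divided by `N k`, tend to `z ↦ B z y • x` -/
structure OL (S : Sys E) (g : ℕ → E ≃ₗ[ℝ] E) (N : ℕ → ℝ) (x y : E) : Prop where
  mem : ∀ k, g k ∈ S.G
  N_lim : Tendsto N atTop atTop
  x_ne : x ≠ 0
  y_ne : y ≠ 0
  xx : S.B x x = 0
  yy : S.B y y = 0
  lim : ∀ z, Tendsto (fun k => (N k)⁻¹ • g k z) atTop (𝓝 (S.B z y • x))
  ilim : ∀ z, Tendsto (fun k => (N k)⁻¹ • (g k)⁻¹ z) atTop (𝓝 (S.B z x • y))

variable [FiniteDimensional ℝ E] {S : Sys E}

lemma op_lim (hD : Disc S) {g : ℕ → E ≃ₗ[ℝ] E} (hg : ∀ k, g k ∈ S.G)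
    (hinj : Function.Injective g) : ∃ (φ : ℕ → ℕ) (N : ℕ → ℝ) (x y : E), StrictMono φ ∧
      OL S (g ∘ φ) N x y := by
  obtain ⟨C, hC, hCg⟩ := adj_bdd S
  have hN := opn_tendsto hD hg hinj
  have hginv : ∀ k, (g k)⁻¹ ∈ S.G := fun k => S.G.inv_mem (hg k)
  set N : ℕ → ℝ := fun k => ‖opn (g k)‖ with hNdef
  have hN0 : ∀ k, 0 ≤ N k := fun k => norm_nonneg _
  -- the bounded sequence
  set Z : ℕ → (E →L[ℝ] E) × (E →L[ℝ] E) :=
    fun k => ((N k)⁻¹ • opn (g k), (N k)⁻¹ • opn (g k)⁻¹) with hZ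
  have hZb : ∀ k, Z k ∈ Metric.closedBall (0 : (E →L[ℝ] E) × (E →L[ℝ] E)) (max 1 C) := by
    intro k
    rw [mem_closedBall_zero_iff, Prod.norm_def]
    apply max_le
    · refine le_trans ?_ (le_max_left _ _)
      change ‖(N k)⁻¹ • opn (g k)‖ ≤ 1
      rw [norm_smul, norm_inv, Real.norm_of_nonneg (hN0 k)]
      exact inv_mul_le_one
    · refine le_trans ?_ (le_max_right _ _)
      change ‖(N k)⁻¹ • opn (g k)⁻¹‖ ≤ C
      rw [norm_smul, norm_inv, Real.norm_of_nonneg (hN0 k)]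
      calc (N k)⁻¹ * ‖opn (g k)⁻¹‖ ≤ (N k)⁻¹ * (C * N k) :=
            mul_le_mul_of_nonneg_left (hCg _ (hg k)) (inv_nonneg.2 (hN0 k))
        _ = C * ((N k)⁻¹ * N k) := by ring
        _ ≤ C * 1 := mul_le_mul_of_nonneg_left inv_mul_le_one hC.le
        _ = C := mul_one C
  obtain ⟨⟨T, T'⟩, -, φ, hφ, hlim⟩ := tendsto_subseq_of_bounded Metric.isBounded_closedBall hZb
  have hφt : Tendsto φ atTop atTop := hφ.tendsto_atTop
  have hT : Tendsto (fun k => (N (φ k))⁻¹ • opn (g (φ k))) atTop (𝓝 T) :=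
    (continuous_fst.tendsto (T, T')).comp hlim
  have hT' : Tendsto (fun k => (N (φ k))⁻¹ • opn (g (φ k))⁻¹) atTop (𝓝 T') :=
    (continuous_snd.tendsto (T, T')).comp hlim
  have hTu : ∀ u, Tendsto (fun k => (N (φ k))⁻¹ • g (φ k) u) atTop (𝓝 (T u)) := by
    intro u
    have h1 : Tendsto (fun k => ((N (φ k))⁻¹ • opn (g (φ k))) u) atTop (𝓝 (T u)) :=
      ((ContinuousLinearMap.apply ℝ E u).continuous.tendsto T).comp hT
    refine h1.congr fun k => ?_
    rw [ContinuousLinearMap.smul_apply, opn_apply]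
  have hTu' : ∀ u, Tendsto (fun k => (N (φ k))⁻¹ • (g (φ k))⁻¹ u) atTop (𝓝 (T' u)) := by
    intro u
    have h1 : Tendsto (fun k => ((N (φ k))⁻¹ • opn (g (φ k))⁻¹) u) atTop (𝓝 (T' u)) :=
      ((ContinuousLinearMap.apply ℝ E u).continuous.tendsto T').comp hT'
    refine h1.congr fun k => ?_
    rw [ContinuousLinearMap.smul_apply, opn_apply]
  have hNφ : Tendsto (fun k => N (φ k)) atTop atTop := hN.comp hφt
  have hNi : Tendsto (fun k => (N (φ k))⁻¹) atTop (𝓝 0) := tendsto_inv_atTop_zero.comp hNφ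
  have hTn : ‖T‖ = 1 := by
    have h1 := hT.norm
    refine tendsto_nhds_unique h1 ?_
    refine (tendsto_const_nhds (x := (1 : ℝ))).congr' ?_
    filter_upwards [hNφ.eventually (eventually_gt_atTop 0)] with k hk
    rw [norm_smul, norm_inv, Real.norm_of_nonneg hk.le]
    exact (inv_mul_cancel₀ hk.ne').symm
  have hss : ∀ (a b : ℝ) (u v : E), S.B (a • u) (b • v) = a * b * S.B u v := by
    intro a b u v
    simp only [map_smul, LinearMap.smul_apply, smul_eq_mul]
    ring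
  have hsl : ∀ (a : ℝ) (u v : E), S.B (a • u) v = a * S.B u v := by
    intro a u v
    simp only [map_smul, LinearMap.smul_apply, smul_eq_mul]
  have hsr : ∀ (a : ℝ) (u v : E), S.B u (a • v) = a * S.B u v := by
    intro a u v
    simp only [map_smul, smul_eq_mul]
  have hTT : ∀ u v, S.B (T u) (T v) = 0 := by
    intro u v
    refine tendsto_nhds_unique (B_tendsto (hTu u) (hTu v)) ?_
    have h1 : Tendsto (fun k => (N (φ k))⁻¹ * (N (φ k))⁻¹ * S.B u v) atTop
        (𝓝 (0 * 0 * S.B u v)) := (hNi.mul hNi).mul_const _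
    rw [mul_zero, zero_mul] at h1
    refine h1.congr fun k => ?_
    rw [hss, S.iso _ (hg _)]
  have hTT' : ∀ u v, S.B (T' u) (T' v) = 0 := by
    intro u v
    refine tendsto_nhds_unique (B_tendsto (hTu' u) (hTu' v)) ?_
    have h1 : Tendsto (fun k => (N (φ k))⁻¹ * (N (φ k))⁻¹ * S.B u v) atTop
        (𝓝 (0 * 0 * S.B u v)) := (hNi.mul hNi).mul_const _
    rw [mul_zero, zero_mul] at h1
    refine h1.congr fun k => ?_
    rw [hss, S.iso _ (hginv _)]
  have hadj : ∀ u v, S.B (T u) v = S.B u (T' v) := by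
    intro u v
    have h1 := B_tendsto (S := S) (hTu u) (tendsto_const_nhds (x := v))
    have h2 := B_tendsto (S := S) (tendsto_const_nhds (x := u)) (hTu' v)
    refine tendsto_nhds_unique h1 (h2.congr fun k => ?_)
    rw [hsr, hsl, ← iso_inv (hginv (φ k)), inv_inv]
  obtain ⟨u0, hu0⟩ : ∃ u0, T u0 ≠ 0 := by
    by_contra hcon
    push Not at hcon
    have : T = 0 := ContinuousLinearMap.ext hcon
    rw [this, norm_zero] at hTn
    exact zero_ne_one hTn
  obtain ⟨e', he'⟩ : ∃ e', S.B (T u0) e' ≠ 0 := by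
    by_contra hcon
    push Not at hcon
    exact hu0 (S.nondeg _ hcon)
  set x : E := T u0 with hx
  set e : E := (S.B x e')⁻¹ • e' with he
  have hxe : S.B x e = 1 := by
    rw [he, hsr, inv_mul_cancel₀ he']
  have hTx : ∀ u, T u = S.B u (T' e) • x := by
    intro u
    obtain ⟨c, hc⟩ := light_prop (hTT u0 u0) (hTT u u) (hTT u0 u) hu0
    have h1 : c = S.B u (T' e) := by
      rw [← hadj, hc, hsl, ← hx, hxe, mul_one]
    rw [← h1, hc]
  set y : E := T' e with hy
  have hy0 : y ≠ 0 := by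
    intro h0
    apply hu0
    rw [hx, hTx u0, h0, map_zero, zero_smul]
  have hTy : ∀ v, T' v = S.B v x • y := by
    intro v
    rw [← sub_eq_zero]
    apply S.nondeg
    intro u
    rw [map_sub, LinearMap.sub_apply, sub_eq_zero, S.symm, ← hadj, hTx u, hsl, hsl, S.symm x v,
      S.symm u y, mul_comm]
  refine ⟨φ, fun k => N (φ k), x, y, hφ, ?_⟩
  exact
    { mem := fun k => hg _
      N_lim := hNφ
      x_ne := hu0
      y_ne := hy0
      xx := hTT u0 u0
      yy := hTT' e e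
      lim := fun z => by
        rw [← hTx z]
        exact hTu z
      ilim := fun z => by
        rw [← hTy z]
        exact hTu' z }

end Pool.Agent.H27.LZ
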