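import Pool.Agent.H27.LZ.Bdd

/-!
# The map `P a c u = u - (B u c / B a c) a`

All statements are algebra from the definition (`P` in `Defs.lean`), except `P_tendsto`, which uses
`B_tendsto` and `Tendsto.div`, `Tendsto.smul`.
`hol_norm`: four times `P_norm`: `B u y = 0`, then `P y x' u` is orthogonal to `x'`, so the second
map is orthogonal to `x'`; its value is orthogonal to `y'`, etc. (`P_right`, `P_left`).
`hol_self`: `P y x u = u` (`P_of_orth`), `v = P x z u = u - c x`, `P z x v = v` since `B v x = 0`, and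
`P x y v = v - (B v y / B x y) x = u - c x + c x`.
-/

set_option autoImplicit false

namespace Pool.Agent.H27.LZ

open Filter Topology

variable {E : Type*} [NormedAddCommGroup E] [NormedSpace ℝ E] {S : Sys E}

private lemma ptr_sub_left (S : Sys E) (u a c : E) (k : ℝ) : S.B (u - k • a) c = S.B u c - k * S.B a c := by
  rw [map_sub S.B, LinearMap.sub_apply, map_smul S.B, LinearMap.smul_apply, smul_eq_mul]

lemma P_left {a c u : E} (ha : S.B a a = 0) (hu : S.B u a = 0) : S.B (P S a c u) a = 0 := by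
  rw [P, ptr_sub_left, hu, ha, mul_zero, sub_zero]

lemma P_right {a c : E} (hac : S.B a c ≠ 0) (u : E) : S.B (P S a c u) c = 0 := by
  rw [P, ptr_sub_left, div_mul_cancel₀ _ hac, sub_self]

lemma P_norm {a c u : E} (ha : S.B a a = 0) (hu : S.B u a = 0) :
    S.B (P S a c u) (P S a c u) = S.B u u := by
  have hau : S.B a u = 0 := by rw [S.symm, hu]
  rw [P, ptr_sub_left, map_sub (S.B u), map_sub (S.B a), map_smul (S.B u), map_smul (S.B a), hau, ha, hu,
    smul_zero, sub_zero, sub_zero, mul_zero, sub_zero]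

lemma P_of_orth {a c u : E} (h : S.B u c = 0) : P S a c u = u := by
  rw [P, h, zero_div, zero_smul, sub_zero]

lemma P_map {g : E ≃ₗ[ℝ] E} (hg : g ∈ S.G) (a c u : E) :
    g (P S a c u) = P S (g a) (g c) (g u) := by
  rw [P, P, map_sub, map_smul, S.iso g hg, S.iso g hg]

lemma P_smul_left {k : ℝ} (hk : k ≠ 0) (a c u : E) : P S (k • a) c u = P S a c u := by
  have h1 : S.B (k • a) c = k * S.B a c := by
    rw [map_smul S.B, LinearMap.smul_apply, smul_eq_mul]
  rw [P, P, h1, smul_smul, div_mul_eq_mul_div, mul_comm (S.B u c) k, mul_div_mul_left _ _ hk]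

lemma P_smul_right {k : ℝ} (hk : k ≠ 0) (a c u : E) : P S a (k • c) u = P S a c u := by
  have h1 : ∀ v : E, S.B v (k • c) = k * S.B v c := by
    intro v
    rw [map_smul (S.B v), smul_eq_mul]
  rw [P, P, h1, h1, mul_div_mul_left _ _ hk]

lemma P_sub (a c u v : E) : P S a c (u - v) = P S a c u - P S a c v := by
  rw [P, P, P, map_sub S.B, LinearMap.sub_apply, sub_div, sub_smul]
  abel

lemma hol_sub (x y x' y' u v : E) :
    Hol S x y x' y' (u - v) = Hol S x y x' y' u - Hol S x y x' y' v := by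
  rw [Hol, Hol, Hol, P_sub, P_sub, P_sub, P_sub]

lemma hol_smul {c c' : ℝ} (hc : c ≠ 0) (hc' : c' ≠ 0) (x y x' y' u : E) :
    Hol S x y (c • x') (c' • y') u = Hol S x y x' y' u := by
  rw [Hol, Hol, P_smul_right hc, P_smul_right hc', P_smul_left hc, P_smul_left hc']

/-- the transport around a cycle preserves the form -/
lemma hol_norm {x y x' y' u : E} (hx : S.B x x = 0) (hy : S.B y y = 0) (hx' : S.B x' x' = 0)
    (hy' : S.B y' y' = 0) (h1 : S.B x' y ≠ 0) (h2 : S.B x' y' ≠ 0) (h3 : S.B x y' ≠ 0)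
    (hux : S.B u x = 0) (huy : S.B u y = 0) :
    S.B (Hol S x y x' y' u) (Hol S x y x' y' u) = S.B u u := by
  have h1' : S.B y x' ≠ 0 := by rw [S.symm]; exact h1
  have h3' : S.B y' x ≠ 0 := by rw [S.symm]; exact h3
  have n1 := P_norm (c := x') hy huy
  have r1 : S.B (P S y x' u) x' = 0 := P_right h1' u
  have n2 := P_norm (c := y') hx' r1
  have r2 : S.B (P S x' y' (P S y x' u)) y' = 0 := P_right h2 _
  have n3 := P_norm (c := x) hy' r2
  have r3 : S.B (P S y' x (P S x' y' (P S y x' u))) x = 0 := P_right h3' _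
  have n4 := P_norm (c := y) hx r3
  rw [Hol, n4, n3, n2, n1]

lemma hol_self {x y z u : E} (hx : S.B x x = 0) (hxy : S.B x y ≠ 0) (hux : S.B u x = 0)
    (huy : S.B u y = 0) : Hol S x y x z u = u := by
  have e1 : P S y x u = u := P_of_orth hux
  have r1 : S.B (P S x z u) x = 0 := P_left hx hux
  have e2 : P S z x (P S x z u) = P S x z u := P_of_orth r1
  rw [Hol, e1, e2]
  have e3 : S.B (P S x z u) y = -(S.B u z / S.B x z) * S.B x y := by
    rw [P, ptr_sub_left, huy]
    ring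
  rw [P, e3, neg_mul, neg_div, mul_div_assoc, div_self hxy, mul_one, P, neg_smul, sub_neg_eq_add, sub_add_cancel]

lemma P_tendsto [FiniteDimensional ℝ E] {ι : Type*} {f : Filter ι} {a c u : ι → E}
    {a0 c0 u0 : E} (ha : Tendsto a f (𝓝 a0)) (hc : Tendsto c f (𝓝 c0)) (hu : Tendsto u f (𝓝 u0))
    (h0 : S.B a0 c0 ≠ 0) : Tendsto (fun i => P S (a i) (c i) (u i)) f (𝓝 (P S a0 c0 u0)) := by
  have h1 := ((B_tendsto (S := S) hu hc).div (B_tendsto ha hc) h0).smul ha
  exact hu.sub h1

lemma hol_tendsto [FiniteDimensional ℝ E] {ι : Type*} {f : Filter ι} {a c u : ι → E}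
    {x y a0 c0 u0 : E} (ha : Tendsto a f (𝓝 a0)) (hc : Tendsto c f (𝓝 c0))
    (hu : Tendsto u f (𝓝 u0)) (hxy : S.B x y ≠ 0) (h1 : S.B a0 y ≠ 0) (h2 : S.B a0 c0 ≠ 0)
    (h3 : S.B x c0 ≠ 0) :
    Tendsto (fun i => Hol S x y (a i) (c i) (u i)) f (𝓝 (Hol S x y a0 c0 u0)) := by
  have h1' : S.B y a0 ≠ 0 := by rw [S.symm]; exact h1
  have h3' : S.B c0 x ≠ 0 := by rw [S.symm]; exact h3
  have t1 := P_tendsto (tendsto_const_nhds (x := y)) ha hu h1'
  have t2 := P_tendsto ha hc t1 h2
  have t3 := P_tendsto hc (tendsto_const_nhds (x := x)) t2 h3'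
  exact P_tendsto (tendsto_const_nhds (x := x)) (tendsto_const_nhds (x := y)) t3 hxy

end Pool.Agent.H27.LZ
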