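import Pool.Agent.H27.LZ.Step
import Pool.Agent.H27.LZ.Avoid

/-!
# Every vector orthogonal to two fixed vectors reaches every axis

`Cls S q`: `z, y1 ∈ F`, `B z y1 ≠ 0`, `B q z = B q y1 = 0`; `acc_refl`: `Acc S q z y1 q`.  `z ∈ F`: there are
`w1, zb, l1` with `Hyp S w1 z zb l1`.
Case `B x zb ≠ 0`: `acc_step` (`w1`, `z' = x`) gives `Acc S q x zb _`; `acc_step` (`w`, `z = x`, `zb = y`,
`z' = x`; `B x zb ≠ 0`, `B x y ≠ 0`) gives `Acc S q x y _`.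
Case `B x zb = 0`: `zb = c x` with `c ≠ 0` (`light_prop`).  `avoid` with `a = x`: `g` with `B (g x) x ≠ 0`,
`B (g y) x ≠ 0`; so `B (g x) zb ≠ 0`.  `acc_step` (`w1`, `z' = g x`): `Acc S q (g x) zb _`.  `acc_step` with
`h.conj hg` (`z = g x`, `zb = g y`, `z' = x`): `Acc S q x (g y) _`.  `acc_step` with `w` (`z = x`, `zb = y`,
`z' = x`; `B x (g y) ≠ 0`): `Acc S q x y _`.
-/

set_option autoImplicit false

namespace Pool.Agent.H27.LZ

variable {E : Type*} [NormedAddCommGroup E] [NormedSpace ℝ E] [FiniteDimensional ℝ E]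
  {S : Sys E} {w : E ≃ₗ[ℝ] E} {x y : E} {l : ℝ}

lemma reach_axis (hF : Full S) (hdim : 3 ≤ Module.finrank ℝ E) (h : Hyp S w x y l) {q : E}
    (hq : Cls S q) : ∃ r, Acc S q x y r := by
  obtain ⟨z, hz, y1, hy1, hzy1, hqz, hqy1⟩ := hq
  have A0 : Acc S q z y1 q := acc_refl hy1 hqz hqy1
  obtain ⟨w1, zb, l1, h1⟩ := hz
  by_cases hx : S.B x zb = 0
  · obtain ⟨c, hc⟩ := light_prop h.xx h1.yy hx h.x_ne
    have hc0 : c ≠ 0 := by
      rintro rfl
      exact h1.y_ne (by rw [hc, zero_smul])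
    obtain ⟨g, hg, hgx, hgy⟩ := avoid hF hdim h.x_mem h.y_mem h.xx h.x_ne
    have h2 : S.B (g x) zb ≠ 0 := by
      rw [hc, map_smul, smul_eq_mul]
      exact mul_ne_zero hc0 hgx
    have h3 : S.B x (g y) ≠ 0 := by
      rw [S.symm]
      exact hgy
    exact ⟨_, acc_step (acc_step (acc_step A0 hzy1 h1 (F_map h.x_mem hg) h2) h2 (h.conj hg)
      h.x_mem h3) h3 h h.x_mem h.xy⟩
  · exact ⟨_, acc_step (acc_step A0 hzy1 h1 h.x_mem hx) hx h h.x_mem h.xy⟩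

end Pool.Agent.H27.LZ
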