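import Pool.Agent.H27.LZ.OlC
import Pool.Agent.H27.LZ.ExH

/-!
# Limit vectors are limits of unimodular vectors

`exists_hyp` gives `Hyp S w0 x0 y0 l0`.  `op_lim`: `OL S (g ∘ φ) N x y`; the limit holds along `φ`.
Case `B p0 y ≠ 0`: `v = c • x` (`ol_A`), `ClF S x` (`ol_x`), `clF_smul`, `lightclo_S`.
Case `B p0 y = 0`, `B p0 p0 = 0`: `ol_B`, `lightclo_S`.  Case `B p0 y = 0`, `B p0 p0 ≠ 0`: `ol_C`.
-/

set_option autoImplicit false

namespace Pool.Agent.H27.LZ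

open Filter Topology

variable {E : Type*} [NormedAddCommGroup E] [NormedSpace ℝ E] [FiniteDimensional ℝ E]
  {S : Sys E}

theorem rev_abs (hL : NoLine S) (hD : Disc S)
    (hdim : ∀ x0 ∈ F S, 3 ≤ Module.finrank ℝ (orbSpan S x0)) {p0 v : E} (hv : v ≠ 0)
    {g : ℕ → E ≃ₗ[ℝ] E} (hg : ∀ k, g k ∈ S.G) (hinj : Function.Injective g) {μ : ℕ → ℝ}
    (hlim : Tendsto (fun k => μ k • g k p0) atTop (𝓝 v)) : Clo S v := by
  obtain ⟨w0, x0, y0, l0, h0⟩ := exists_hyp hL hD hg hinj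
  have hx0 := h0.x_mem
  have hd := hdim x0 hx0
  obtain ⟨φ, N, x, y, hφ, hOL⟩ := op_lim hD hg hinj
  have hlim' : Tendsto (fun k => (fun j => μ (φ j)) k • (g ∘ φ) k p0) atTop (𝓝 v) :=
    hlim.comp hφ.tendsto_atTop
  by_cases hpy : S.B p0 y = 0
  · by_cases hpp : S.B p0 p0 = 0
    · exact lightclo_S hL hx0 hd (ol_B hOL h0 hlim' hv hpp hpy)
    · exact ol_C hL hOL h0 hd hlim' hpp hpy
  · obtain ⟨c, hc, hvc⟩ := ol_A hOL hlim' hv hpy
    rw [hvc]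
    exact lightclo_S hL hx0 hd (clF_smul (ol_x hOL h0) hc)

end Pool.Agent.H27.LZ
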