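import Pool.Agent.H27.LZ.Rev
import Pool.Agent.H27.LZ.DiscC
import Pool.Agent.H27.LZ.DegD
import Pool.Agent.H27.LZ.EigC
import Pool.Agent.H27.LZ.TopR

/-!
# Limit directions are in the closure of the unimodular directions

`clo_closure`: for small `ε` the vector `u` of `Clo` is nonzero; `[u]` is unimodular (`hyperbolic_of_hyp`,
`unimod_of_hyp`, `Hyp.mem`; `Projectivization.submodule_mk`, `Submodule.span_singleton_le_iff_mem`);
`mem_closure_of`.
`limit_sub`: `p = [v]`, `p₀ = [q]`, `z k = w k • [q] = [w k q]` injective (so `w` is injective), `z k → [v]`.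
`lift_seq`: `ν j • w (φ j) q → v`; `rev_abs` for `w ∘ φ` (`noLine`, `disc`, `dim_three`); `clo_closure`.
-/

set_option autoImplicit false

open scoped LinearAlgebra.Projectivization
open Filter Topology

namespace Pool.Agent.H27.LZ.Cox

open GeomCoxeter

variable {n : ℕ} (X : GeomCoxeter n)

lemma clo_closure (hX : X.IsLorentzian) {v : V n} (hv : v ≠ 0) (h : Clo (sysV X hX) v) :
    Projectivization.mk ℝ v hv ∈ @closure _ (projTopology n) X.unimodularDirections := by
  refine mem_closure_of hv fun ε hε => ?_
  obtain ⟨w, x, y, l, u, hH, hux, huy, hu⟩ := h (min ε ‖v‖) (lt_min hε (norm_pos_iff.2 hv))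
  have hu0 : u ≠ 0 := by
    rintro rfl
    rw [zero_sub, norm_neg] at hu
    exact absurd (lt_of_lt_of_le hu (min_le_right _ _)) (lt_irrefl _)
  refine ⟨u, hu0, lt_of_lt_of_le hu (min_le_left _ _), w, hH.mem, hyperbolic_of_hyp X hX hH, ?_⟩
  rw [Projectivization.submodule_mk, Submodule.span_singleton_le_iff_mem]
  exact unimod_of_hyp X hX hH hux huy

private lemma smul_mk' (w : V n ≃ₗ[ℝ] V n) (v : V n) (hv : v ≠ 0) (hv' : w v ≠ 0) :
    w • Projectivization.mk ℝ v hv = Projectivization.mk ℝ (w v) hv' := rfl

theorem limit_sub (hX : X.IsLorentzian) (hdeg : ¬ Degenerate X) :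
    X.limitDirections ⊆ @closure _ (projTopology n) X.unimodularDirections := by
  rintro P ⟨P₀, z, hinj, hz, hlim⟩
  induction P using Projectivization.ind with
  | h v hv =>
    induction P₀ using Projectivization.ind with
    | h q hq =>
      choose w hw hzw using hz
      have hwq : ∀ k, w k q ≠ 0 := fun k => by simpa using hq
      have hzk : ∀ k, z k = Projectivization.mk ℝ (w k q) (hwq k) := fun k => by
        rw [hzw k, smul_mk' (w k) q hq (hwq k)]
      have hlim' : Tendsto (fun k => Projectivization.mk ℝ (w k q) (hwq k)) atTop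
          (@nhds _ (projTopology n) (Projectivization.mk ℝ v hv)) := by
        have h1 : (fun k => Projectivization.mk ℝ (w k q) (hwq k)) = z :=
          funext fun k => (hzk k).symm
        rw [h1]
        exact hlim
      obtain ⟨φ, ν, hφ, hν⟩ := lift_seq (u := fun k => w k q) hwq hv hlim'
      have hwinj : Function.Injective w := by
        intro a b hab
        apply hinj
        rw [hzw a, hzw b, hab]
      have hclo : Clo (sysV X hX) v :=
        rev_abs (S := sysV X hX) (noLine X hX) (disc X hX)
          (fun x0 hx0 => dim_three X hX hdeg hx0) hv (g := fun j => w (φ j))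
          (fun j => hw (φ j)) (hwinj.comp hφ.injective) hν
      exact clo_closure X hX hv hclo

end Pool.Agent.H27.LZ.Cox
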