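import Pool.Agent.H27.LZ.PowL
import Pool.Agent.H27.LZ.Ptr

/-!
# The two limits used in one step

Here `w z = l z`, `w zb = l⁻¹ zb`, `B z' zb ≠ 0`, `B y' z ≠ 0`, `B q z = 0`.
`step_ne`: `(l⁻¹) ^ n * B y' ((w ^ n) z') → (B z' zb / B z zb) * B y' z ≠ 0` (`Hyp.pow_lim`, `B_tendsto`).
`step_A`: `P y' ((w ^ n) z') q = P y' ((l⁻¹) ^ n • (w ^ n) z') q` (`P_smul_right`), which tends to
`P y' ((B z' zb / B z zb) • z) q = P y' z q = q` (`P_tendsto`, `P_smul_right`, `P_of_orth`).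
`step_B`: with `g = (w ^ N j)⁻¹`, `P_map` gives `g (P y' ((w ^ N j) z') q) = P (g y') z' (g q)`.  Suitable
nonzero multiples of `g y'` tend to `zb` (`Hyp.ipow_dir`, `P_smul_left`).  As `B q z = 0`,
`q = (B q zb / B z zb) • z + P z zb q` (definition of `P`), so
`g q = (B q zb / B z zb) (l⁻¹) ^ N j • z + g (P z zb q) → P z zb q` by `hrec` (`P z zb q` is orthogonal to
`z` and `zb`: `P_left`, `P_right`).  Conclude with `P_tendsto` (`B zb z' ≠ 0`).
-/

set_option autoImplicit false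

namespace Pool.Agent.H27.LZ

open Filter Topology

variable {E : Type*} [NormedAddCommGroup E] [NormedSpace ℝ E] [FiniteDimensional ℝ E]
  {S : Sys E} {w : E ≃ₗ[ℝ] E} {z zb : E} {l : ℝ}

private lemma stepB_l (h : Hyp S w z zb l) (n : ℕ) : (l⁻¹) ^ n ≠ 0 := by
  have h1 := h.one_lt
  exact pow_ne_zero _ (inv_ne_zero (by linarith))

private lemma stepB_lim (h : Hyp S w z zb l) {z' y' : E} (hz' : S.B z' zb ≠ 0) (hy' : S.B y' z ≠ 0) :
    S.B y' ((S.B z' zb / S.B z zb) • z) ≠ 0 := by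
  rw [map_smul (S.B y'), smul_eq_mul]
  exact mul_ne_zero (div_ne_zero hz' h.xy) hy'

lemma step_ne (h : Hyp S w z zb l) {z' y' : E} (hz' : S.B z' zb ≠ 0) (hy' : S.B y' z ≠ 0) :
    ∀ᶠ n : ℕ in atTop, S.B y' ((w ^ n) z') ≠ 0 := by
  have h1 := B_tendsto (S := S) (tendsto_const_nhds (x := y')) (h.pow_lim z')
  have h2 := h1.eventually_ne (stepB_lim h hz' hy')
  filter_upwards [h2] with n hn h0
  apply hn
  rw [map_smul (S.B y'), h0, smul_zero]

lemma step_A (h : Hyp S w z zb l) {z' y' q : E} (hz' : S.B z' zb ≠ 0) (hy' : S.B y' z ≠ 0)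
    (hq : S.B q z = 0) : Tendsto (fun n : ℕ => P S y' ((w ^ n) z') q) atTop (𝓝 q) := by
  have h1 := P_tendsto (S := S) (tendsto_const_nhds (x := y')) (h.pow_lim z')
    (tendsto_const_nhds (x := q)) (stepB_lim h hz' hy')
  have h2 : P S y' ((S.B z' zb / S.B z zb) • z) q = q := by
    apply P_of_orth
    rw [map_smul (S.B q), hq, smul_zero]
  rw [h2] at h1
  have h3 : (fun n : ℕ => P S y' ((l⁻¹) ^ n • (w ^ n) z') q) = fun n : ℕ => P S y' ((w ^ n) z') q := by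
    funext n
    exact P_smul_right (stepB_l h n) _ _ _
  rwa [h3] at h1

lemma step_B (h : Hyp S w z zb l) {N : ℕ → ℕ} (hN : StrictMono N)
    (hrec : ∀ u, S.B u z = 0 → S.B u zb = 0 → Tendsto (fun j => (w ^ N j)⁻¹ u) atTop (𝓝 u))
    {z' y' q : E} (hz' : S.B z' zb ≠ 0) (hy' : S.B y' z ≠ 0) (hq : S.B q z = 0) :
    Tendsto (fun j => (w ^ N j)⁻¹ (P S y' ((w ^ N j) z') q)) atTop
      (𝓝 (P S zb z' (P S z zb q))) := by
  obtain ⟨c, hc, hlim⟩ := h.ipow_dir hy'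
  have hNt : Tendsto N atTop atTop := hN.tendsto_atTop
  have h1 : Tendsto (fun j => c (N j) • (w ^ N j)⁻¹ y') atTop (𝓝 zb) := hlim.comp hNt
  -- the images of q
  have hl0 : Tendsto (fun n : ℕ => (l⁻¹) ^ n) atTop (𝓝 0) := by
    have hl := h.one_lt
    exact tendsto_pow_atTop_nhds_zero_of_lt_one (inv_pos.mpr (by linarith)).le
      (inv_lt_one_of_one_lt₀ hl)
  have h2 : Tendsto (fun j => (S.B q zb / S.B z zb) • ((l⁻¹) ^ N j • z)) atTop (𝓝 0) := by
    have h3 := ((hl0.comp hNt).smul_const z).const_smul (S.B q zb / S.B z zb)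
    rwa [zero_smul, smul_zero] at h3
  have h4 := hrec (P S z zb q) (P_left h.xx hq) (P_right h.xy q)
  have h5 := h2.add h4
  rw [zero_add] at h5
  have hdec : q = (S.B q zb / S.B z zb) • z + P S z zb q := by
    rw [P]
    abel
  have h6 : (fun j => (S.B q zb / S.B z zb) • ((l⁻¹) ^ N j • z) + (w ^ N j)⁻¹ (P S z zb q))
      = fun j => (w ^ N j)⁻¹ q := by
    funext j
    have h7 : (w ^ N j)⁻¹ q
        = (w ^ N j)⁻¹ ((S.B q zb / S.B z zb) • z + P S z zb q) := by rw [← hdec]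
    rw [h7, map_add, map_smul, h.ipow_x]
  rw [h6] at h5
  have hzb : S.B zb z' ≠ 0 := by rw [S.symm]; exact hz'
  have h8 := P_tendsto (S := S) h1 (tendsto_const_nhds (x := z')) h5 hzb
  have h9 : (fun j => P S (c (N j) • (w ^ N j)⁻¹ y') z' ((w ^ N j)⁻¹ q))
      = fun j => (w ^ N j)⁻¹ (P S y' ((w ^ N j) z') q) := by
    funext j
    have hg : (w ^ N j)⁻¹ ∈ S.G := S.G.inv_mem (S.G.pow_mem h.mem _)
    have h10 : (w ^ N j)⁻¹ ((w ^ N j) z') = z' := LinearEquiv.symm_apply_apply (w ^ N j) z'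
    rw [P_smul_left (hc (N j)), P_map hg, h10]
  rwa [h9] at h8

end Pool.Agent.H27.LZ
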