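import Pool.Agent.H27.LZ.Rec
import Pool.Agent.H27.LZ.AccB
import Pool.Agent.H27.LZ.StepB

/-!
# One step

`acc_step`.  Given `ε > 0`.  The map `r' ↦ P zb z' (P z zb r')` is continuous (`P_tendsto`), so there is
`0 < δ ≤ ε / 2` with `‖r' - r‖ < δ → ‖P zb z' (P z zb r') - P zb z' (P z zb r)‖ < ε / 2`, and (continuity of
`B`) `‖y' - y‖ < δ → B z y' ≠ 0`.  Take `g, m, y'` from `Acc S q z y r` with `δ`, and `r' = g m`
(orthogonal to `z` and `y'`).  Let `N` be as in `Hyp.recur`, `q j = P y' ((w ^ N j) z') r'`.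
By `step_A` (composed with `N → ∞`), `q j → r'`, so `m j = g⁻¹ (q j) → g⁻¹ r' = m`; for large `j`,
`‖m j - q‖ < ε`.  `B (m j) (m j) = B (q j) (q j) = B r' r' = B m m = B q q` (`P_norm`: `B r' y' = 0`).
Let `g j = (w ^ N j)⁻¹ * g`.  `g j (m j) = (w ^ N j)⁻¹ (q j) → P zb z' (P z zb r')` (`step_B`).
`B (g j (m j)) z' = B (q j) ((w ^ N j) z') = 0` for large `j` (`iso_inv`, `P_right`, `step_ne`).
With `c` of `Hyp.ipow_dir` (for `y'`, `B y' z ≠ 0`), `c (N j) • (w ^ N j)⁻¹ y'` is in `F` (`F_map`, `F_smul`),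
tends to `zb`, and `B (g j (m j)) (c • (w ^ N j)⁻¹ y') = c * B (q j) y' = 0` (`P_left`).
Take `j` large.
-/

set_option autoImplicit false

namespace Pool.Agent.H27.LZ

open Filter Topology

variable {E : Type*} [NormedAddCommGroup E] [NormedSpace ℝ E] [FiniteDimensional ℝ E]
  {S : Sys E} {w : E ≃ₗ[ℝ] E} {z zb : E} {l : ℝ}

lemma acc_step {q y r z' : E} (ha : Acc S q z y r) (hzy : S.B z y ≠ 0) (h : Hyp S w z zb l)
    (hz' : z' ∈ F S) (hzb : S.B z' zb ≠ 0) : Acc S q z' zb (P S zb z' (P S z zb r)) := by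
  have hzz : S.B z z = 0 := h.xx
  have hbb : S.B zb zb = 0 := h.yy
  have hzzb : S.B z zb ≠ 0 := h.xy
  have hbz : S.B zb z' ≠ 0 := by
    rw [S.symm]
    exact hzb
  intro ε hε
  have hcont : Tendsto (fun r' => P S zb z' (P S z zb r')) (𝓝 r)
      (𝓝 (P S zb z' (P S z zb r))) := by
    refine P_tendsto tendsto_const_nhds tendsto_const_nhds ?_ hbz
    exact P_tendsto tendsto_const_nhds tendsto_const_nhds tendsto_id hzzb
  have hBc : Tendsto (fun v => S.B z v) (𝓝 y) (𝓝 (S.B z y)) :=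
    B_tendsto tendsto_const_nhds tendsto_id
  have e1 : ∀ᶠ r' in 𝓝 r, ‖P S zb z' (P S z zb r') - P S zb z' (P S z zb r)‖ < ε / 2 := by
    have h1 := (tendsto_iff_norm_sub_tendsto_zero.1 hcont).eventually
      (Iio_mem_nhds (show (0 : ℝ) < ε / 2 by linarith))
    exact h1
  have e2 : ∀ᶠ v in 𝓝 y, S.B z v ≠ 0 := hBc.eventually_ne hzy
  obtain ⟨d1, hd1, h1⟩ := Metric.eventually_nhds_iff.1 e1
  obtain ⟨d2, hd2, h2⟩ := Metric.eventually_nhds_iff.1 e2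
  have hd : 0 < min (min d1 d2) (ε / 2) := lt_min (lt_min hd1 hd2) (by linarith)
  obtain ⟨g, hg, m, y', hyF, hm, hmm, hgz, hgy, hyy, hgr⟩ := ha _ hd
  have hgr1 : ‖g m - r‖ < d1 := lt_of_lt_of_le hgr ((min_le_left _ _).trans (min_le_left _ _))
  have hyy2 : ‖y' - y‖ < d2 := lt_of_lt_of_le hyy ((min_le_left _ _).trans (min_le_right _ _))
  have hm3 : ‖m - q‖ < ε / 2 := lt_of_lt_of_le hm (min_le_right _ _)
  have hP : ‖P S zb z' (P S z zb (g m)) - P S zb z' (P S z zb r)‖ < ε / 2 :=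
    h1 (by rw [dist_eq_norm]; exact hgr1)
  have hzy' : S.B z y' ≠ 0 := h2 (by rw [dist_eq_norm]; exact hyy2)
  have hyz' : S.B y' z ≠ 0 := by
    rw [S.symm]
    exact hzy'
  have hyy0 : S.B y' y' = 0 := F_light hyF
  obtain ⟨N, hN, hrec⟩ := h.recur
  have hNt : Tendsto N atTop atTop := hN.tendsto_atTop
  obtain ⟨c, hc, hct⟩ := h.ipow_dir hyz'
  -- the three limits
  have tA : Tendsto (fun j => P S y' ((w ^ N j) z') (g m)) atTop (𝓝 (g m)) :=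
    (step_A h hzb hyz' hgz).comp hNt
  have tM : Tendsto (fun j => g⁻¹ (P S y' ((w ^ N j) z') (g m))) atTop (𝓝 m) := by
    have h3 := equiv_tendsto g⁻¹ tA
    have h4 : g⁻¹ (g m) = m := LinearEquiv.symm_apply_apply g m
    rw [h4] at h3
    exact h3
  have tB : Tendsto (fun j => (w ^ N j)⁻¹ (P S y' ((w ^ N j) z') (g m))) atTop
      (𝓝 (P S zb z' (P S z zb (g m)))) :=
    step_B h hN (fun u hu hu' => (hrec u hu hu').2) hzb hyz' hgz
  have tC : Tendsto (fun j => c (N j) • (w ^ N j)⁻¹ y') atTop (𝓝 zb) := hct.comp hNt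
  have tN : ∀ᶠ j in atTop, S.B y' ((w ^ N j) z') ≠ 0 :=
    hNt.eventually (step_ne h hzb hyz')
  have hε2 : (0 : ℝ) < ε / 2 := by linarith
  have eM : ∀ᶠ j in atTop, ‖g⁻¹ (P S y' ((w ^ N j) z') (g m)) - m‖ < ε / 2 :=
    (tendsto_iff_norm_sub_tendsto_zero.1 tM).eventually (Iio_mem_nhds hε2)
  have eB : ∀ᶠ j in atTop, ‖(w ^ N j)⁻¹ (P S y' ((w ^ N j) z') (g m)) -
      P S zb z' (P S z zb (g m))‖ < ε / 2 :=
    (tendsto_iff_norm_sub_tendsto_zero.1 tB).eventually (Iio_mem_nhds hε2)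
  have eC : ∀ᶠ j in atTop, ‖c (N j) • (w ^ N j)⁻¹ y' - zb‖ < ε :=
    (tendsto_iff_norm_sub_tendsto_zero.1 tC).eventually (Iio_mem_nhds hε)
  obtain ⟨j, jM, jB, jC, jN⟩ := (eM.and (eB.and (eC.and tN))).exists
  have hwG : w ^ N j ∈ S.G := S.G.pow_mem h.mem _
  have hwi : (w ^ N j)⁻¹ ∈ S.G := S.G.inv_mem hwG
  set Q : E := P S y' ((w ^ N j) z') (g m) with hQ
  have hgQ : ((w ^ N j)⁻¹ * g) (g⁻¹ Q) = (w ^ N j)⁻¹ Q := by
    rw [LinearEquiv.mul_apply]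
    congr 1
    exact LinearEquiv.apply_symm_apply g Q
  refine ⟨(w ^ N j)⁻¹ * g, S.G.mul_mem hwi hg, g⁻¹ Q, c (N j) • (w ^ N j)⁻¹ y',
    F_smul (F_map hyF hwi) (hc _), ?_, ?_, ?_, ?_, jC, ?_⟩
  · calc ‖g⁻¹ Q - q‖ = ‖(g⁻¹ Q - m) + (m - q)‖ := by
          congr 1
          abel
      _ ≤ ‖g⁻¹ Q - m‖ + ‖m - q‖ := norm_add_le _ _
      _ < ε := by linarith
  · rw [S.iso g⁻¹ (S.G.inv_mem hg), hQ, P_norm hyy0 hgy, S.iso g hg, hmm]
  · rw [hgQ, iso_inv hwG, hQ]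
    exact P_right jN _
  · have h5 : S.B Q y' = 0 := by
      rw [hQ]
      exact P_left hyy0 hgy
    rw [hgQ, map_smul, S.iso _ hwi, h5, smul_zero]
  · rw [hgQ]
    calc ‖(w ^ N j)⁻¹ Q - P S zb z' (P S z zb r)‖
        = ‖((w ^ N j)⁻¹ Q - P S zb z' (P S z zb (g m))) +
            (P S zb z' (P S z zb (g m)) - P S zb z' (P S z zb r))‖ := by
          congr 1
          abel
      _ ≤ _ := norm_add_le _ _
      _ < ε := by linarith

end Pool.Agent.H27.LZ
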