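import Pool.Agent.H27.LZ.Trans
import Pool.Agent.H27.LZ.Reach
import Pool.Agent.H27.LZ.Nest

/-!
# Space-like vectors

`cls_map`: `Cls` is invariant under `G` (`F_map`).
`thmA`.  Let `κ = B v v > 0`.  `resc`: the hypothesis may be strengthened to `B u u = κ`: for `u` near to `v`,
`B u u > 0` is near to `κ`; replace `u` by `√(κ / B u u) • u`, which is near to `v`, orthogonal to `x, y` and
not a multiple of `v`.  So choose `w k, x k, y k, l k, u k` with `‖u k - v‖ < 1 / (k + 1)`, `B (u k) (u k) = κ`.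
Let `O k = {m | (‖m - u k‖ < 1 / (k + 1) ∨ ‖m + u k‖ < 1 / (k + 1)) ∧ ∀ d, m ≠ d • v}`: open (the line
`ℝ v` is closed: `Submodule.closed_of_finiteDimensional`, `Submodule.mem_span_singleton`).
`C = {q | Cls S q ∧ B q q = κ}`, nonempty: it contains `u 0`.  `nest_grp`: for `q ∈ C`, `reach_axis` and
`trans_axis` give `Acc S q (x k) (y k) (u k)` or `Acc S q (x k) (y k) (- u k)`; `acc_cls` with a small `ε`
(such that the ball of radius `ε` around `± u k` is in `O k`) gives `m ∈ C`, `g m ∈ O k`.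
So there is `p` with `g k p ∈ O k` for all `k`.  If the conclusion failed for `c = 1` (with `ε₁`) and for
`c = -1` (with `ε₂`), take `k` with `2 / (k + 1) < min ε₁ ε₂`: `‖g k p - v‖ < 2 / (k + 1)` or
`‖g k p + v‖ < 2 / (k + 1)`, a contradiction.
-/

set_option autoImplicit false

namespace Pool.Agent.H27.LZ

open Filter Topology

variable {E : Type*} [NormedAddCommGroup E] [NormedSpace ℝ E] [FiniteDimensional ℝ E]
  {S : Sys E}

lemma resc {v : E} (hv : 0 < S.B v v) (hlim : ∀ ε > 0, ∃ (w : E ≃ₗ[ℝ] E) (x y : E) (l : ℝ) (u : E),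
      Hyp S w x y l ∧ S.B u x = 0 ∧ S.B u y = 0 ∧ ‖u - v‖ < ε ∧ ∀ c : ℝ, u ≠ c • v) :
    ∀ ε > 0, ∃ (w : E ≃ₗ[ℝ] E) (x y : E) (l : ℝ) (u : E),
      Hyp S w x y l ∧ S.B u x = 0 ∧ S.B u y = 0 ∧ S.B u u = S.B v v ∧ ‖u - v‖ < ε ∧
        ∀ c : ℝ, u ≠ c • v := by
  intro ε hε
  have hBu : Tendsto (fun u => S.B u u) (𝓝 v) (𝓝 (S.B v v)) := B_tendsto tendsto_id tendsto_id
  have hs : Tendsto (fun u => Real.sqrt (S.B v v / S.B u u) • u) (𝓝 v) (𝓝 v) := by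
    have h1 : Tendsto (fun u => Real.sqrt (S.B v v / S.B u u)) (𝓝 v)
        (𝓝 (Real.sqrt (S.B v v / S.B v v))) :=
      (Real.continuous_sqrt.tendsto _).comp (tendsto_const_nhds.div hBu hv.ne')
    rw [div_self hv.ne', Real.sqrt_one] at h1
    have h2 := h1.smul (tendsto_id (x := 𝓝 v))
    simpa using h2
  have e1 : ∀ᶠ u in 𝓝 v, 0 < S.B u u := hBu.eventually (Ioi_mem_nhds hv)
  have e2 : ∀ᶠ u in 𝓝 v, ‖Real.sqrt (S.B v v / S.B u u) • u - v‖ < ε :=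
    (tendsto_iff_norm_sub_tendsto_zero.1 hs).eventually (Iio_mem_nhds hε)
  obtain ⟨δ, hδ, hb⟩ := Metric.eventually_nhds_iff.1 (e1.and e2)
  obtain ⟨w, x, y, l, u, h, hux, huy, hn, hc⟩ := hlim δ hδ
  obtain ⟨hpos, hnear⟩ := hb (y := u) (by rw [dist_eq_norm]; exact hn)
  have hq : 0 < S.B v v / S.B u u := div_pos hv hpos
  have hs0 : 0 < Real.sqrt (S.B v v / S.B u u) := Real.sqrt_pos.2 hq
  refine ⟨w, x, y, l, Real.sqrt (S.B v v / S.B u u) • u, h, ?_, ?_, ?_, hnear, ?_⟩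
  · rw [map_smul, LinearMap.smul_apply, hux, smul_zero]
  · rw [map_smul, LinearMap.smul_apply, huy, smul_zero]
  · rw [map_smul (S.B (Real.sqrt (S.B v v / S.B u u) • u)), map_smul S.B, LinearMap.smul_apply,
      smul_eq_mul, smul_eq_mul, ← mul_assoc, Real.mul_self_sqrt hq.le, div_mul_cancel₀ _ hpos.ne']
  · intro c hcv
    refine hc ((Real.sqrt (S.B v v / S.B u u))⁻¹ * c) ?_
    rw [mul_smul, ← hcv, smul_smul, inv_mul_cancel₀ hs0.ne', one_smul]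

theorem thmA (hF : Full S) (hdim : 3 ≤ Module.finrank ℝ E) {v : E} (hv : 0 < S.B v v)
    (hlim : ∀ ε > 0, ∃ (w : E ≃ₗ[ℝ] E) (x y : E) (l : ℝ) (u : E),
      Hyp S w x y l ∧ S.B u x = 0 ∧ S.B u y = 0 ∧ ‖u - v‖ < ε ∧ ∀ c : ℝ, u ≠ c • v) :
    ∃ (p : E) (c : ℝ), c ≠ 0 ∧ ∀ ε > 0, ∃ g ∈ S.G, ‖g p - c • v‖ < ε ∧ ∀ d : ℝ, g p ≠ d • v := by
  have hpos : ∀ n : ℕ, (0 : ℝ) < 1 / ((n : ℝ) + 1) := fun n => by positivity
  choose w x y l u h hux huy huu hun huc using fun n : ℕ => resc hv hlim (1 / ((n : ℝ) + 1)) (hpos n)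
  let O : ℕ → Set E := fun k => {m | (‖m - u k‖ < 1 / ((k : ℝ) + 1) ∨
    ‖m + u k‖ < 1 / ((k : ℝ) + 1)) ∧ ∀ d : ℝ, m ≠ d • v}
  have hline : IsOpen {m : E | ∀ d : ℝ, m ≠ d • v} := by
    have h1 : {m : E | ∀ d : ℝ, m ≠ d • v} = ((Submodule.span ℝ {v} : Submodule ℝ E) : Set E)ᶜ := by
      ext m
      simp only [Set.mem_ofPred_eq, Set.mem_compl_iff, SetLike.mem_coe, Submodule.mem_span_singleton,
        not_exists]
      exact ⟨fun h1 d hd => h1 d hd.symm, fun h1 d hd => h1 d hd.symm⟩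
    rw [h1]
    exact (Submodule.closed_of_finiteDimensional _).isOpen_compl
  have hO : ∀ k, IsOpen (O k) := by
    intro k
    have h1 : IsOpen {m : E | ‖m - u k‖ < 1 / ((k : ℝ) + 1)} :=
      isOpen_lt (continuous_id.sub continuous_const).norm continuous_const
    have h2 : IsOpen {m : E | ‖m + u k‖ < 1 / ((k : ℝ) + 1)} :=
      isOpen_lt (continuous_id.add continuous_const).norm continuous_const
    exact (h1.union h2).inter hline
  have hu : ∀ k, u k ∈ O k := by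
    intro k
    refine ⟨Or.inl ?_, huc k⟩
    rw [sub_self, norm_zero]
    exact hpos k
  have hu' : ∀ k, - u k ∈ O k := by
    intro k
    refine ⟨Or.inr ?_, fun d hd => huc k (-d) ?_⟩
    · rw [neg_add_cancel, norm_zero]
      exact hpos k
    · rw [neg_smul, ← hd, neg_neg]
  let C : Set E := {q | Cls S q ∧ S.B q q = S.B v v}
  have hC : C.Nonempty :=
    ⟨u 0, ⟨x 0, (h 0).x_mem, y 0, (h 0).y_mem, (h 0).xy, hux 0, huy 0⟩, huu 0⟩
  have key : ∀ k, ∀ q ∈ C, ∀ ε > 0, ∀ t ∈ O k, Acc S q (x k) (y k) t →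
      ∃ m ∈ C, ‖m - q‖ < ε ∧ ∃ g ∈ S.G, g m ∈ O k := by
    intro k q hq ε hε t ht hacc
    obtain ⟨ρ, hρ, hball⟩ := Metric.isOpen_iff.1 (hO k) t ht
    obtain ⟨g, hg, m, hm1, hm2, hm3, hm4⟩ := acc_cls (h k).x_mem (h k).xy hacc (lt_min hε hρ)
    refine ⟨m, ⟨hm1, hm2.trans hq.2⟩, lt_of_lt_of_le hm3 (min_le_left _ _), g, hg, ?_⟩
    apply hball
    rw [Metric.mem_ball, dist_eq_norm]
    exact lt_of_lt_of_le hm4 (min_le_right _ _)
  obtain ⟨p, hp⟩ := nest_grp S hC hO (fun k q hq ε hε => by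
    obtain ⟨r, hr⟩ := reach_axis hF hdim (h k) hq.1
    rcases trans_axis hF (h k) hr (hux k) (huy k) ((huu k).trans hq.2.symm) with h1 | h1
    · exact key k q hq ε hε _ (hu k) h1
    · exact key k q hq ε hε _ (hu' k) h1)
  by_contra hcon
  push Not at hcon
  obtain ⟨ε₁, hε₁, h1⟩ := hcon p 1 one_ne_zero
  obtain ⟨ε₂, hε₂, h2⟩ := hcon p (-1) (by norm_num)
  obtain ⟨k, hk⟩ := exists_nat_one_div_lt (half_pos (lt_min hε₁ hε₂))
  obtain ⟨g, hg, hgO, hgd⟩ := hp k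
  have hk1 : 1 / ((k : ℝ) + 1) + 1 / ((k : ℝ) + 1) < min ε₁ ε₂ := by linarith
  rcases hgO with h3 | h3
  · obtain ⟨d, hd⟩ := h1 g hg (by
      rw [one_smul]
      calc ‖g p - v‖ = ‖(g p - u k) + (u k - v)‖ := by
            congr 1
            abel
        _ ≤ ‖g p - u k‖ + ‖u k - v‖ := norm_add_le _ _
        _ < 1 / ((k : ℝ) + 1) + 1 / ((k : ℝ) + 1) := add_lt_add h3 (hun k)
        _ < ε₁ := lt_of_lt_of_le hk1 (min_le_left _ _))
    exact hgd d hd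
  · obtain ⟨d, hd⟩ := h2 g hg (by
      rw [neg_one_smul]
      calc ‖g p - -v‖ = ‖(g p + u k) - (u k - v)‖ := by
            congr 1
            abel
        _ ≤ ‖g p + u k‖ + ‖u k - v‖ := norm_sub_le _ _
        _ < 1 / ((k : ℝ) + 1) + 1 / ((k : ℝ) + 1) := add_lt_add h3 (hun k)
        _ < ε₂ := lt_of_lt_of_le hk1 (min_le_right _ _))
    exact hgd d hd

end Pool.Agent.H27.LZ
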