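import Pool.Agent.H27.LZ.LSys
import Pool.Agent.H27.LZ.AxA
import Pool.Agent.H27.LZ.LCF

/-!
# Transfer from the restricted system

`R = res S (orbSpan S x0) _`; it is `Full` (`res_full`).  Vectors of `F S` are in `orbSpan S x0` (`orb_x`, and their
partners by `orb_y`) and give elements of `F R` (`hyp_res`).  A vector `z` with `ClF S z` is a limit of vectors of
`F S`, so in the closed subspace `orbSpan S x0`, and `ClF R ⟨z, _⟩` (same norm).
`ax_S`: `ax_F` for `R` and `hyp_of_res`.  `lightclo_S`: `light_clo` for `R` and `hyp_of_res`.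
-/

set_option autoImplicit false

namespace Pool.Agent.H27.LZ

open Filter Topology

variable {E : Type*} [NormedAddCommGroup E] [NormedSpace ℝ E] [FiniteDimensional ℝ E]
  {S : Sys E} {x0 : E}

lemma clF_res (hL : NoLine S) (hx0 : x0 ∈ F S) {z : E} (hz : ClF S z) :
    ∃ hz' : z ∈ orbSpan S x0,
      ClF (res S (orbSpan S x0) (fun _ hu h => orb_nd hL hu h)) ⟨z, hz'⟩ := by
  have hFL : ∀ z' ∈ F S, z' ∈ orbSpan S x0 := by
    rintro z' ⟨w, y, l, h⟩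
    exact orb_x hL hx0 h
  have hcl : IsClosed ((orbSpan S x0 : Submodule ℝ E) : Set E) :=
    Submodule.closed_of_finiteDimensional _
  have hz' : z ∈ orbSpan S x0 := by
    have h1 : z ∈ closure ((orbSpan S x0 : Submodule ℝ E) : Set E) := by
      rw [Metric.mem_closure_iff]
      intro ε hε
      obtain ⟨z', h2, h3⟩ := hz ε hε
      refine ⟨z', hFL z' h2, ?_⟩
      rw [dist_comm, dist_eq_norm]
      exact h3
    rw [hcl.closure_eq] at h1
    exact h1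
  refine ⟨hz', ?_⟩
  intro ε hε
  obtain ⟨z', h2, h3⟩ := hz ε hε
  obtain ⟨w, y, l, h⟩ := h2
  obtain ⟨w', hw'⟩ := hyp_res (hnd := fun _ hu h => orb_nd (x0 := x0) hL hu h)
    (fun g hg u hu => orb_inv hg hu) h (orb_x hL hx0 h) (orb_y hL hx0 h)
  exact ⟨⟨z', orb_x hL hx0 h⟩, ⟨w', _, l, hw'⟩, h3⟩

lemma ax_S (hL : NoLine S) (hx0 : x0 ∈ F S) (hdim : 3 ≤ Module.finrank ℝ (orbSpan S x0))
    {z1 z2 : E} (h1 : ClF S z1) (h2 : ClF S z2) (hne : S.B z1 z2 ≠ 0) {ε : ℝ} (hε : 0 < ε) :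
    ∃ (w : E ≃ₗ[ℝ] E) (x y : E) (l : ℝ), Hyp S w x y l ∧ ‖x - z1‖ < ε ∧ ‖y - z2‖ < ε := by
  obtain ⟨hz1, h1'⟩ := clF_res hL hx0 h1
  obtain ⟨hz2, h2'⟩ := clF_res hL hx0 h2
  obtain ⟨w', x, y, l, h, hx, hy⟩ := ax_F (res_full hL hx0) hdim h1' h2' hne hε
  obtain ⟨w, hw⟩ := hyp_of_res h
  exact ⟨w, x, y, l, hw, hx, hy⟩

lemma lightclo_S (hL : NoLine S) (hx0 : x0 ∈ F S)
    (hdim : 3 ≤ Module.finrank ℝ (orbSpan S x0)) {v : E} (hv : ClF S v) : Clo S v := by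
  obtain ⟨hz, h'⟩ := clF_res hL hx0 hv
  intro ε hε
  obtain ⟨w', x, y, l, u, h, hux, huy, hu⟩ := light_clo (res_full hL hx0) hdim h' ε hε
  obtain ⟨w, hw⟩ := hyp_of_res h
  exact ⟨w, x, y, l, u, hw, hux, huy, hu⟩

end Pool.Agent.H27.LZ
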