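import Pool.Agent.H27.LZ.Crit

/-!
# Transitivity on an axis

`K = {u | Acc S q x y u}` is compact (`K_compact`) and nonempty (`r`), so `B · t` attains its maximum on `K` at
some `s0` (`IsCompact.exists_isMaxOn`, continuity of `u ↦ B u t` from `B_cont`).  `crit` for all `g, k`.
The set of the `a` with `∀ k ∈ G, B s0 a * B (k y) t = B s0 (k y) * B a t` is a subspace containing all
`g x`, so it is everything (`Full` for `x`, `Submodule.span_induction` or `Submodule.span_le`); the same in
the second variable (`Full` for `y`).  With `a = s0`, `b = t`: `B s0 s0 * B t t = B s0 t * B s0 t`, i.e.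
`κ * κ = B s0 t * B s0 t` with `κ = B q q` (`acc_norm`).  `U_par` gives `t = s0` or `t = - s0`.
-/

set_option autoImplicit false

namespace Pool.Agent.H27.LZ

open Filter Topology

variable {E : Type*} [NormedAddCommGroup E] [NormedSpace ℝ E] [FiniteDimensional ℝ E]
  {S : Sys E} {w : E ≃ₗ[ℝ] E} {x y : E} {l : ℝ}

lemma trans_axis (hF : Full S) (h : Hyp S w x y l) {q r t : E} (hr : Acc S q x y r)
    (htx : S.B t x = 0) (hty : S.B t y = 0) (htt : S.B t t = S.B q q) :
    Acc S q x y t ∨ Acc S q x y (-t) := by
  have hcont : Continuous fun u : E => S.B u t :=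
    (B_cont S).comp (continuous_id.prodMk continuous_const)
  obtain ⟨s0, hs0, hmax⟩ := (K_compact h q).exists_isMaxOn ⟨r, hr⟩ hcont.continuousOn
  have hs0' : Acc S q x y s0 := hs0
  have hcr : ∀ g ∈ S.G, ∀ k ∈ S.G,
      S.B s0 (g x) * S.B (k y) t = S.B s0 (k y) * S.B (g x) t := fun g hg k hk =>
    crit h htx hty hs0' (fun u hu => hmax hu) hg hk
  have h1 : ∀ a : E, ∀ k ∈ S.G, S.B s0 a * S.B (k y) t = S.B s0 (k y) * S.B a t := by
    intro a k hk
    have ha : a ∈ Submodule.span ℝ {z | ∃ g ∈ S.G, z = g x} := by
      rw [hF x h.x_mem]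
      exact Submodule.mem_top
    induction ha using Submodule.span_induction with
    | mem v hv =>
      obtain ⟨g, hg, rfl⟩ := hv
      exact hcr g hg k hk
    | zero => simp
    | add u v _ _ hu hv =>
      rw [map_add, map_add, LinearMap.add_apply, add_mul, mul_add, hu, hv]
    | smul c u _ hu =>
      rw [map_smul, map_smul, LinearMap.smul_apply, smul_eq_mul, smul_eq_mul, mul_assoc, hu]
      ring
  have h2 : ∀ a b : E, S.B s0 a * S.B b t = S.B s0 b * S.B a t := by
    intro a b
    have hb : b ∈ Submodule.span ℝ {z | ∃ g ∈ S.G, z = g y} := by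
      rw [hF y h.y_mem]
      exact Submodule.mem_top
    induction hb using Submodule.span_induction with
    | mem v hv =>
      obtain ⟨g, hg, rfl⟩ := hv
      exact h1 a g hg
    | zero => simp
    | add u v _ _ hu hv =>
      rw [map_add, map_add, LinearMap.add_apply, add_mul, mul_add, hu, hv]
    | smul c u _ hu =>
      rw [map_smul, map_smul, LinearMap.smul_apply, smul_eq_mul, smul_eq_mul,
        mul_left_comm, hu]
      ring
  have h3 := h2 s0 t
  rw [acc_norm hs0', htt] at h3
  rcases U_par h.xx h.xy (acc_z hs0') (acc_y hs0') htx hty (acc_norm hs0') htt h3 with h4 | h4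
  · left
    rw [h4]
    exact hs0'
  · right
    rw [h4, neg_neg]
    exact hs0'

end Pool.Agent.H27.LZ
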