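import Pool.Agent.H27.LZ.Step

/-!
# From axis to axis

`acc_turn`: `acc_step` with `w` (`z = x`, `zb = y`, `z' = x'`; `B x y ≠ 0`, `B x' y ≠ 0`) gives
`Acc S q x' y (P y x' (P x y u))`, and `P x y u = u` because `B u y = 0` (`acc_y`, `P_of_orth`).  Then
`acc_step` with `w'` (`z = x'`, `zb = y'`, `z' = x'`; `B x' y ≠ 0`, `B x' y' ≠ 0`) gives
`Acc S q x' y' (P y' x' (P x' y' v))` with `v = P y x' u`, orthogonal to `x'` (`acc_z`); so `P x' y' v` is
orthogonal to `x'` (`P_left`) and `P y' x' (P x' y' v) = P x' y' v` (`P_of_orth`).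
`acc_hol`: two turns, `(x, y) → (x', y') → (x, y)`.
-/

set_option autoImplicit false

namespace Pool.Agent.H27.LZ

variable {E : Type*} [NormedAddCommGroup E] [NormedSpace ℝ E] [FiniteDimensional ℝ E]
  {S : Sys E} {w w' : E ≃ₗ[ℝ] E} {x y x' y' : E} {l l' : ℝ}

lemma acc_turn {q u : E} (ha : Acc S q x y u) (h : Hyp S w x y l) (h' : Hyp S w' x' y' l')
    (h1 : S.B x' y ≠ 0) : Acc S q x' y' (P S x' y' (P S y x' u)) := by
  have h2 := acc_step ha h.xy h h'.x_mem h1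
  rw [P_of_orth (acc_y ha)] at h2
  have h3 := acc_step h2 h1 h' h'.x_mem h'.xy
  rwa [P_of_orth (P_left h'.xx (acc_z h2))] at h3

lemma acc_hol {q u : E} (ha : Acc S q x y u) (h : Hyp S w x y l) (h' : Hyp S w' x' y' l')
    (h1 : S.B x' y ≠ 0) (h2 : S.B x y' ≠ 0) : Acc S q x y (Hol S x y x' y' u) :=
  acc_turn (acc_turn ha h h' h1) h' h h2

end Pool.Agent.H27.LZ
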